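import Pool.Agent.H29.BT.Disc

/-!
# [H29 BT GENP] general position by a small perturbation; stability of the number of meeting pairs

Paper proofs. `avoid_near`: as `avoid_lines` with `q = z + t + t² I`, `t ∈ (0, η')`: infinitely many
`t` in every interval, finitely many are bad (`cp v (q - a)` is a polynomial in `t` of degree at most
two which is not zero, as `v ≠ 0`: its coefficients of `t²` and `t` are `v.re` and `-v.im`).

`genp`: induction over `J` (as `genPos` in `BP/GenPos.lean`): keep the places of the old indices and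
move the new one by less than `η`, outside of the lines through two old points and the lines
through an old point and a common point of two segments of old points.

`stab`: there are finitely many pairs of segments `(e, k), (f, l)` of edges with
`k ≤ n e`, `l ≤ n f`; two disjoint segments (compact) have a positive distance; if all corners move
by less than half of the minimal distance, they remain disjoint (a point
`(1-t) P a + t P b` moves by less than `η`). So the filter set of `cnt n P e f` is contained in the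
filter set for `P₀`.
-/

set_option autoImplicit false

open Set Metric
open scoped Classical

noncomputable section

namespace H29.BT

open H29.BP

theorem quad_finite (A B D : ℝ) (h : ¬ (A = 0 ∧ B = 0)) :
    {t : ℝ | A * t ^ 2 + B * t + D = 0}.Finite := by
  set p : Polynomial ℝ := Polynomial.C A * Polynomial.X ^ 2 + Polynomial.C B * Polynomial.X +
    Polynomial.C D with hp
  have hp0 : p ≠ 0 := by
    intro h0
    apply h
    have h2 : p.coeff 2 = A := by
      rw [hp]
      simp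
    have h1 : p.coeff 1 = B := by
      rw [hp]
      simp [Polynomial.coeff_X_pow, Polynomial.coeff_C]
    rw [h0] at h1 h2
    simp at h1 h2
    exact ⟨h2.symm, h1.symm⟩
  refine (Polynomial.finite_setOfPred_isRoot hp0).subset ?_
  intro t ht
  have ht' : A * t ^ 2 + B * t + D = 0 := ht
  show Polynomial.IsRoot p t
  rw [Polynomial.IsRoot.def, hp]
  simpa using ht'

theorem avoid_near (L : Finset (ℂ × ℂ)) (hL : ∀ l ∈ L, l.2 ≠ 0) (z : ℂ) (η : ℝ) (hη : 0 < η) :
    ∃ q : ℂ, dist q z < η ∧ ∀ l ∈ L, cp l.2 (q - l.1) ≠ 0 := by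
  set T : Set ℝ := ⋃ l ∈ (L : Set (ℂ × ℂ)), {t : ℝ | l.2.re * t ^ 2 + (-l.2.im) * t +
    (cp l.2 (z - l.1)) = 0} with hT
  have hTf : T.Finite := by
    refine Set.Finite.biUnion L.finite_toSet ?_
    intro l hl
    refine quad_finite _ _ _ fun h => hL l hl (Complex.ext h.1 ?_)
    rw [Complex.zero_im]
    linarith [h.2]
  have hη' : 0 < min 1 (η / 2) := lt_min one_pos (by linarith)
  obtain ⟨t, ht, htT⟩ := (Set.Ioo_infinite hη').exists_notMem_finite hTf
  have ht0 := ht.1
  have ht1 : t < 1 := ht.2.trans_le (min_le_left _ _)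
  have ht2 : t < η / 2 := ht.2.trans_le (min_le_right _ _)
  refine ⟨z + ((t : ℂ) + ((t ^ 2 : ℝ) : ℂ) * Complex.I), ?_, ?_⟩
  · rw [dist_eq_norm, add_sub_cancel_left]
    refine (norm_add_le _ _).trans_lt ?_
    rw [norm_mul, Complex.norm_I, mul_one, Complex.norm_real, Complex.norm_real,
      Real.norm_of_nonneg ht0.le, Real.norm_of_nonneg (by positivity)]
    nlinarith
  · intro l hl h0
    refine htT (Set.mem_iUnion₂.2 ⟨l, hl, ?_⟩)
    show l.2.re * t ^ 2 + (-l.2.im) * t + (cp l.2 (z - l.1)) = 0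
    rw [← h0]
    simp only [cp, Complex.sub_re, Complex.sub_im, Complex.add_re, Complex.add_im,
      Complex.mul_re, Complex.mul_im, Complex.ofReal_re, Complex.ofReal_im, Complex.I_re,
      Complex.I_im]
    ring

theorem pB_ne {ι : Type} {a b : ι} (hab : a ≠ b) :
    ((pp a).1 - (pp b).1 : MvPolynomial (ι × Bool) ℝ) ≠ 0 := by
  classical
  refine ne_zero_of_eval (fun v => if v = a then 1 else 0) ?_
  simp [pp, asg, hab.symm]

theorem pA_ne {ι : Type} {a b c : ι} (hab : a ≠ b) (hac : a ≠ c) (hbc : b ≠ c) :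
    pA a b c ≠ 0 := by
  classical
  refine ne_zero_of_eval (fun v => if v = b then 1 else if v = c then Complex.I else 0) ?_
  rw [eval_pA]
  simp only [plc_asg]
  simp [hab, hac, hbc.symm, cp]

theorem pC_ne {ι : Type} {a b c d e f : ι} (h : [a, b, c, d, e, f].Nodup) :
    pC a b c d e f ≠ 0 := by
  classical
  simp only [List.nodup_cons, List.mem_cons, List.not_mem_nil, or_false, not_or,
    List.nodup_nil, not_false_eq_true, and_true] at h
  obtain ⟨⟨ab, ac, ad, ae, af⟩, ⟨bc, bd, be, bf⟩, ⟨cd, ce, cf⟩, ⟨de, df⟩, ef⟩ := h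
  refine ne_zero_of_eval (fun v => if v = b ∨ v = e then 1 else
    if v = d ∨ v = f then Complex.I else 0) ?_
  rw [eval_pC]
  simp only [plc_asg]
  simp [cp, ab, ad, ae, af, Ne.symm bc, Ne.symm bd, Ne.symm bf, cd, ce, cf, de, Ne.symm ef]

theorem genp {ι : Type} (J : Finset ι) (P₀ : ι → ℂ) (η : ℝ) (hη : 0 < η) :
    ∃ P : ι → ℂ, (∀ i, dist (P i) (P₀ i) < η) ∧ Gen P (↑J : Set ι) := by
  set S2 : Finset (ι × ι) := (J ×ˢ J).filter fun q => q.1 ≠ q.2 with hS2
  set S3 : Finset (ι × ι × ι) := (J ×ˢ J ×ˢ J).filter fun q =>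
    q.1 ≠ q.2.1 ∧ q.1 ≠ q.2.2 ∧ q.2.1 ≠ q.2.2 with hS3
  set S6 : Finset (ι × ι × ι × ι × ι × ι) := (J ×ˢ J ×ˢ J ×ˢ J ×ˢ J ×ˢ J).filter fun q =>
    [q.1, q.2.1, q.2.2.1, q.2.2.2.1, q.2.2.2.2.1, q.2.2.2.2.2].Nodup with hS6
  set P2 : MvPolynomial (ι × Bool) ℝ := ∏ q ∈ S2, ((pp q.1).1 - (pp q.2).1) with hP2
  set P3 : MvPolynomial (ι × Bool) ℝ := ∏ q ∈ S3, pA q.1 q.2.1 q.2.2 with hP3
  set P6 : MvPolynomial (ι × Bool) ℝ := ∏ q ∈ S6,
    pC q.1 q.2.1 q.2.2.1 q.2.2.2.1 q.2.2.2.2.1 q.2.2.2.2.2 with hP6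
  have h2 : P2 ≠ 0 := by
    rw [hP2, Finset.prod_ne_zero_iff]
    intro q hq
    exact pB_ne (Finset.mem_filter.1 hq).2
  have h3 : P3 ≠ 0 := by
    rw [hP3, Finset.prod_ne_zero_iff]
    intro q hq
    obtain ⟨_, h4, h5, h6⟩ := Finset.mem_filter.1 hq
    exact pA_ne h4 h5 h6
  have h6 : P6 ≠ 0 := by
    rw [hP6, Finset.prod_ne_zero_iff]
    intro q hq
    exact pC_ne (Finset.mem_filter.1 hq).2
  have hne : P2 * P3 * P6 ≠ 0 := mul_ne_zero (mul_ne_zero h2 h3) h6
  set s : ι × Bool → Set ℝ := fun q =>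
    Ioo (asg P₀ q - η / 2) (asg P₀ q + η / 2) with hs
  obtain ⟨x, hxs, hx⟩ : ∃ x ∈ Set.pi Set.univ s, MvPolynomial.eval x (P2 * P3 * P6) ≠ 0 := by
    by_contra hcon
    push Not at hcon
    refine hne (MvPolynomial.funext_set s (fun q => Set.Ioo_infinite (by linarith)) fun x hx => ?_)
    rw [hcon x hx, map_zero]
  rw [map_mul, map_mul] at hx
  have hx2 : MvPolynomial.eval x P2 ≠ 0 := left_ne_zero_of_mul (left_ne_zero_of_mul hx)
  have hx3 : MvPolynomial.eval x P3 ≠ 0 := right_ne_zero_of_mul (left_ne_zero_of_mul hx)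
  have hx6 : MvPolynomial.eval x P6 ≠ 0 := right_ne_zero_of_mul hx
  rw [hP2, map_prod, Finset.prod_ne_zero_iff] at hx2
  rw [hP3, map_prod, Finset.prod_ne_zero_iff] at hx3
  rw [hP6, map_prod, Finset.prod_ne_zero_iff] at hx6
  refine ⟨plc x, ?_, ?_, ?_, ?_⟩
  · intro i
    have e1 := hxs (i, false) (Set.mem_univ _)
    have e2 := hxs (i, true) (Set.mem_univ _)
    simp only [hs, asg, Set.mem_Ioo, if_true, Bool.false_eq_true, if_false] at e1 e2
    rw [dist_eq_norm]
    refine (Complex.norm_le_abs_re_add_abs_im _).trans_lt ?_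
    have e3 : |(plc x i - P₀ i).re| < η / 2 := by
      rw [Complex.sub_re, abs_lt]
      simp only [plc]
      constructor <;> linarith [e1.1, e1.2]
    have e4 : |(plc x i - P₀ i).im| < η / 2 := by
      rw [Complex.sub_im, abs_lt]
      simp only [plc]
      constructor <;> linarith [e2.1, e2.2]
    linarith
  · intro a ha b hb c hc hab hac hbc
    have h7 := hx3 (a, b, c) (by
      rw [hS3, Finset.mem_filter]
      exact ⟨Finset.mem_product.2 ⟨ha, Finset.mem_product.2 ⟨hb, hc⟩⟩, hab, hac, hbc⟩)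
    rwa [eval_pA] at h7
  · intro a ha b hb hab h8
    have h7 := hx2 (a, b) (by
      rw [hS2, Finset.mem_filter]
      exact ⟨Finset.mem_product.2 ⟨ha, hb⟩, hab⟩)
    refine h7 ?_
    have h9 := congrArg Complex.re h8
    simp only [plc] at h9
    simp [pp, h9]
  · intro a ha b hb c hc d hd e he f hf hnd p hp1 hp2 hp3
    have h7 := hx6 (a, b, c, d, e, f) (by
      rw [hS6, Finset.mem_filter]
      exact ⟨Finset.mem_product.2 ⟨ha, Finset.mem_product.2 ⟨hb, Finset.mem_product.2 ⟨hc,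
        Finset.mem_product.2 ⟨hd, Finset.mem_product.2 ⟨he, hf⟩⟩⟩⟩⟩, hnd⟩)
    rw [eval_pC] at h7
    exact h7 (concur (cp_segment hp1) (cp_segment hp2) (cp_segment hp3))

/-- moving the end points of a segment -/
theorem seg_near {a b a' b' : ℂ} {η : ℝ} (ha : dist a' a < η) (hb : dist b' b < η) :
    segment ℝ a' b' ⊆ thickening η (segment ℝ a b) := by
  rintro p ⟨s, t, hs, ht, hst, rfl⟩
  rw [mem_thickening_iff]
  refine ⟨s • a + t • b, ⟨s, t, hs, ht, hst, rfl⟩, ?_⟩
  rw [dist_eq_norm] at ha hb ⊢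
  have h1 : s • a' + t • b' - (s • a + t • b) = s • (a' - a) + t • (b' - b) := by
    rw [smul_sub, smul_sub]
    ring
  rw [h1]
  refine (norm_add_le _ _).trans_lt ?_
  rw [norm_smul, norm_smul, Real.norm_of_nonneg hs, Real.norm_of_nonneg ht]
  rcases hs.eq_or_lt with h2 | h2
  · have h3 : t = 1 := by linarith
    rw [← h2, h3]
    linarith
  · have h3 : s * ‖a' - a‖ < s * η := mul_lt_mul_of_pos_left ha h2
    have h4 : t * ‖b' - b‖ ≤ t * η := mul_le_mul_of_nonneg_left hb.le ht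
    have h5 : s * η + t * η = η := by rw [← add_mul, hst, one_mul]
    linarith

theorem isCompact_seg (a b : ℂ) : IsCompact (segment ℝ a b) := by
  rw [segment_eq_image_lineMap]
  exact isCompact_Icc.image AffineMap.lineMap_continuous

theorem stab {W : Type} [Finite W] (H : SimpleGraph W) (n : Sym2 W → ℕ) (P₀ : Ix W → ℂ) :
    ∃ η : ℝ, 0 < η ∧ ∀ P : Ix W → ℂ, (∀ i, dist (P i) (P₀ i) < η) →
      ∀ e ∈ H.edgeSet, ∀ f ∈ H.edgeSet, cnt n P e f ≤ cnt n P₀ e f := by
  obtain ⟨B, hB⟩ : ∃ B : ℕ, ∀ e : Sym2 W, n e ≤ B := by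
    obtain ⟨B, hB⟩ := (Set.finite_range n).bddAbove
    exact ⟨B, fun e => hB ⟨e, rfl⟩⟩
  obtain ⟨η, hη, hsep⟩ := sep (ι := Sym2 W × Fin (B + 1)) (κ := Sym2 W × Fin (B + 1))
    (fun p => sgm n P₀ p.1 p.2) (fun p => sgm n P₀ p.1 p.2) (fun p => isCompact_seg _ _)
    (fun p => isCompact_seg _ _)
    (fun p q => Disjoint (sgm n P₀ p.1 p.2) (sgm n P₀ q.1 q.2)) (fun p q h => h)
  refine ⟨η, hη, fun P hP e he f hf => ?_⟩
  refine Finset.card_le_card ?_
  intro p hp
  rw [Finset.mem_filter] at hp ⊢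
  refine ⟨hp.1, hp.2.1, ?_⟩
  by_contra hcon
  rw [Set.not_nonempty_iff_eq_empty, ← Set.disjoint_iff_inter_eq_empty] at hcon
  have h1 := Finset.mem_product.1 hp.1
  rw [Finset.mem_range, Finset.mem_range] at h1
  have h2 : p.1 < B + 1 := by have := hB e; omega
  have h3 : p.2 < B + 1 := by have := hB f; omega
  have h4 := hsep (e, ⟨p.1, h2⟩) (f, ⟨p.2, h3⟩) hcon
  obtain ⟨z, hz1, hz2⟩ := hp.2.2
  exact Set.disjoint_left.1 h4 (seg_near (hP _) (hP _) hz1) (seg_near (hP _) (hP _) hz2)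

end H29.BT
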