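import Pool.Agent.H29.BP.Loc

/-!
# [H29 BT CHAIN] a simple arc in a polygonal path

Paper proof. Write `S k = segment (q k) (q (k+1))`, `k ≤ n`. A chain of length `N` is a sequence
`κ 0, …, κ N ≤ n` with `q 0 ∈ S (κ 0)`, `q (n+1) ∈ S (κ N)` and `S (κ i) ∩ S (κ (i+1)) ≠ ∅`. There is one
(`κ i = i`, `N = n`). Take a chain of minimal length. Then for `i + 2 ≤ j` the segments `S (κ i)`, `S (κ j)`
are disjoint (shorter chain), `q 0 ∉ S (κ i)` for `i > 0`, `q (n+1) ∉ S (κ i)` for `i < N`, the `κ i` are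
different. Put `r 0 = q 0`, `r (i+1) ∈ S (κ i) ∩ S (κ (i+1))` (unique point), `r (N+1) = q (n+1)`. Then
`r i ≠ r (i+1)` (for `0 < i < N` else `S (κ (i-1))` meets `S (κ (i+1))`; for `i = 0`, `i = N` by
`q 0 ∉ S (κ 1)`, `q (n+1) ∉ S (κ (N-1))`, and `q 0 ≠ q (n+1)` for `N = 0`). Let `A` be the union of the segments
`T i = segment (r i) (r (i+1)) ⊆ S (κ i)` (convexity), `i ≤ N`. `T i` and `T (i+1)` meet only in
`r (i+1)` (at most one common point of different segments `S`), `T i` and `T j` are disjoint for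
`j ≥ i + 2`. So `A` is an arc (induction with `IsArc.trans`, `isArc_segment`).

Local form: let `p ∈ A` be different from `q 0`, `q (n+1)`, `p ∈ S k` with `p ≠ q k, q (k+1)`, and let
`p` be on no other `S l`. Then `p ∈ T i` for some `i` with `κ i = k`, this `i` is unique, and `p ≠ r i`,
`p ≠ r (i+1)` (these points are on a second segment or are `q 0`, `q (n+1)`). All `T j`, `j ≠ i`, are
closed and do not contain `p`; and near `p` the segments `T i ⊆ S k` agree, since `p` is in the
relative interior of both. Take `U` = a small ball around `p`.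
-/

set_option autoImplicit false
set_option linter.unusedVariables false

open Set Metric

namespace H29.BT

open H29.BP

/-- a point of an open segment -/
theorem open_seg {a b p : ℂ} (hp : p ∈ segment ℝ a b) (ha : p ≠ a) (hb : p ≠ b) :
    ∃ s : ℝ, 0 < s ∧ s < 1 ∧ p = a + (s : ℂ) * (b - a) := by
  obtain ⟨r, s, hr, hs, hrs, rfl⟩ := hp
  refine ⟨s, ?_, ?_, ?_⟩
  · rcases hs.eq_or_lt with h | h
    · exfalso
      have h1 : r = 1 := by linarith
      rw [← h, h1] at ha
      simp at ha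
    · exact h
  · rcases hr.eq_or_lt with h | h
    · exfalso
      have h1 : s = 1 := by linarith
      rw [← h, h1] at hb
      simp at hb
    · linarith
  · have h1 : r = 1 - s := by linarith
    rw [h1]
    simp only [Complex.real_smul, Complex.ofReal_sub, Complex.ofReal_one]
    ring

theorem seg_param {a b p : ℂ} (hp : p ∈ segment ℝ a b) :
    ∃ s : ℝ, p = a + (s : ℂ) * (b - a) := by
  obtain ⟨r, s, hr, hs, hrs, rfl⟩ := hp
  refine ⟨s, ?_⟩
  have h1 : r = 1 - s := by linarith
  rw [h1]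
  simp only [Complex.real_smul, Complex.ofReal_sub, Complex.ofReal_one]
  ring

theorem seg_of_param {a b z : ℂ} {x : ℝ} (h0 : 0 ≤ x) (h1 : x ≤ 1)
    (h : z = a + (x : ℂ) * (b - a)) : z ∈ segment ℝ a b := by
  refine ⟨1 - x, x, by linarith, h0, by ring, ?_⟩
  rw [h]
  simp only [Complex.real_smul, Complex.ofReal_sub, Complex.ofReal_one]
  ring

/-- near an inner point a subsegment agrees with the segment -/
theorem sub_segment_local {a b c d p : ℂ} (hab : segment ℝ a b ⊆ segment ℝ c d)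
    (hp : p ∈ segment ℝ a b) (ha : p ≠ a) (hb : p ≠ b) :
    ∃ δ : ℝ, 0 < δ ∧ segment ℝ a b ∩ ball p δ = segment ℝ c d ∩ ball p δ := by
  obtain ⟨s, hs0, hs1, hs⟩ := open_seg hp ha hb
  have hab' : a ≠ b := by
    rintro rfl
    rw [sub_self, mul_zero, add_zero] at hs
    exact ha hs
  have hn : 0 < ‖b - a‖ := norm_pos_iff.2 (sub_ne_zero.2 hab'.symm)
  obtain ⟨x, hx⟩ := seg_param (hab (left_mem_segment ℝ a b))
  obtain ⟨y, hy⟩ := seg_param (hab (right_mem_segment ℝ a b))
  have hxy : b - a = ((y - x : ℝ) : ℂ) * (d - c) := by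
    rw [hx, hy]
    push_cast
    ring
  have hyx : ((y - x : ℝ) : ℂ) ≠ 0 := by
    intro h
    rw [h, zero_mul] at hxy
    exact hab' (sub_eq_zero.1 hxy).symm
  refine ⟨min s (1 - s) * ‖b - a‖, mul_pos (lt_min hs0 (by linarith)) hn, ?_⟩
  ext z
  constructor
  · rintro ⟨h1, h2⟩
    exact ⟨hab h1, h2⟩
  · rintro ⟨h1, h2⟩
    refine ⟨?_, h2⟩
    obtain ⟨u, hu⟩ := seg_param h1
    obtain ⟨v, hv⟩ := seg_param (hab hp)
    have hyx' : y - x ≠ 0 := by exact_mod_cast hyx
    have hz : z = p + (((u - v) / (y - x) : ℝ) : ℂ) * (b - a) := by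
      rw [hxy, hu, hv]
      push_cast
      push_cast at hyx
      field_simp
      ring
    rw [mem_ball, dist_eq_norm] at h2
    have h3 : z - p = (((u - v) / (y - x) : ℝ) : ℂ) * (b - a) := by
      rw [hz]
      ring
    rw [h3, norm_mul, Complex.norm_real, Real.norm_eq_abs] at h2
    have h4 := lt_of_mul_lt_mul_right h2 hn.le
    have h5 := abs_lt.1 h4
    have h6 := min_le_left s (1 - s)
    have h7 := min_le_right s (1 - s)
    refine seg_of_param (x := s + (u - v) / (y - x)) (by linarith [h5.1]) (by linarith [h5.2]) ?_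
    rw [hz, hs]
    push_cast
    ring

/-- chains of segments from the first to the last corner -/
def IsChn (n : ℕ) (q : ℕ → ℂ) (N : ℕ) (κ : ℕ → ℕ) : Prop :=
  (∀ i ≤ N, κ i ≤ n) ∧ q 0 ∈ segment ℝ (q (κ 0)) (q (κ 0 + 1)) ∧
    q (n + 1) ∈ segment ℝ (q (κ N)) (q (κ N + 1)) ∧
    ∀ i < N, (segment ℝ (q (κ i)) (q (κ i + 1)) ∩
      segment ℝ (q (κ (i + 1))) (q (κ (i + 1) + 1))).Nonempty

theorem exists_min_chn (n : ℕ) (q : ℕ → ℂ) : ∃ N κ, IsChn n q N κ ∧
    ∀ N' < N, ∀ κ', ¬ IsChn n q N' κ' := by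
  classical
  have hex : ∃ N, ∃ κ, IsChn n q N κ :=
    ⟨n, fun i => i, fun i hi => hi, left_mem_segment ℝ _ _, right_mem_segment ℝ _ _,
      fun i _ => ⟨q (i + 1), right_mem_segment ℝ _ _, left_mem_segment ℝ _ _⟩⟩
  obtain ⟨κ, hκ⟩ := Nat.find_spec hex
  exact ⟨Nat.find hex, κ, hκ, fun N' hN' κ' h => Nat.find_min hex hN' ⟨κ', h⟩⟩

theorem chain (n : ℕ) (q : ℕ → ℂ) (hq : q 0 ≠ q (n + 1)) (h0 : ∀ k ≤ n, q k ≠ q (k + 1))
    (h1 : ∀ k ≤ n, ∀ l ≤ n, k ≠ l →
      (segment ℝ (q k) (q (k + 1)) ∩ segment ℝ (q l) (q (l + 1))).Subsingleton) :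
    ∃ A : Set ℂ, IsArc (q 0) (q (n + 1)) A ∧ A ⊆ (⋃ k ∈ {k | k ≤ n}, segment ℝ (q k) (q (k + 1))) ∧
      ∀ p ∈ A, p ≠ q 0 → p ≠ q (n + 1) → ∀ k ≤ n, p ∈ segment ℝ (q k) (q (k + 1)) →
        p ≠ q k → p ≠ q (k + 1) → (∀ l ≤ n, l ≠ k → p ∉ segment ℝ (q l) (q (l + 1))) →
        ∃ U : Set ℂ, IsOpen U ∧ p ∈ U ∧ A ∩ U = segment ℝ (q k) (q (k + 1)) ∩ U := by
  classical
  obtain ⟨N, κ, ⟨hκn, hκ0, hκN, hκl⟩, hmin⟩ := exists_min_chn n q
  set S : ℕ → Set ℂ := fun k => segment ℝ (q k) (q (k + 1)) with hS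
  -- minimality
  have P1 : ∀ i j, i + 2 ≤ j → j ≤ N → Disjoint (S (κ i)) (S (κ j)) := by
    intro i j hij hj
    rw [Set.disjoint_iff_inter_eq_empty]
    by_contra hne
    have hne' := Set.nonempty_iff_ne_empty.2 hne
    refine hmin (N - (j - i - 1)) (by omega) (fun m => if m ≤ i then κ m else κ (m + (j - i - 1)))
      ⟨?_, ?_, ?_, ?_⟩
    · intro m hm
      simp only
      split_ifs
      · exact hκn m (by omega)
      · exact hκn _ (by omega)
    · simp only [Nat.zero_le, if_true]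
      exact hκ0
    · have h2 : ¬ (N - (j - i - 1) ≤ i) := by omega
      have h3 : N - (j - i - 1) + (j - i - 1) = N := by omega
      simp only [h2, if_false, h3]
      exact hκN
    · intro m hm
      rcases lt_trichotomy m i with h2 | h2 | h2
      · have h3 : m ≤ i := by omega
        have h4 : m + 1 ≤ i := by omega
        simp only [h3, h4, if_true]
        exact hκl m (by omega)
      · subst h2
        have h4 : ¬ (m + 1 ≤ m) := by omega
        have h5 : m + 1 + (j - m - 1) = j := by omega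
        simp only [le_refl, h4, if_true, if_false, h5]
        exact hne'
      · have h3 : ¬ (m ≤ i) := by omega
        have h4 : ¬ (m + 1 ≤ i) := by omega
        have h5 : m + 1 + (j - i - 1) = m + (j - i - 1) + 1 := by omega
        simp only [h3, h4, if_false, h5]
        exact hκl _ (by omega)
  have P2 : ∀ i, 0 < i → i ≤ N → q 0 ∉ S (κ i) := by
    intro i hi hiN h2
    refine hmin (N - i) (by omega) (fun m => κ (m + i)) ⟨fun m hm => hκn _ (by omega), ?_, ?_, ?_⟩
    · simp only [Nat.zero_add]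
      exact h2
    · have h3 : N - i + i = N := by omega
      simp only [h3]
      exact hκN
    · intro m hm
      have h3 : m + 1 + i = m + i + 1 := by omega
      simp only [h3]
      exact hκl _ (by omega)
  have P3 : ∀ i, i < N → q (n + 1) ∉ S (κ i) := by
    intro i hi h2
    exact hmin i hi κ ⟨fun m hm => hκn _ (by omega), hκ0, h2, fun m hm => hκl m (by omega)⟩
  have hSne : ∀ k, (S k).Nonempty := fun k => ⟨q k, left_mem_segment ℝ _ _⟩
  have P4 : ∀ i j, i < j → j ≤ N → κ i ≠ κ j := by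
    intro i j hij hj h2
    rcases Nat.lt_or_ge (i + 1) j with h3 | h3
    · have h4 := P1 i j (by omega) hj
      rw [h2, disjoint_self] at h4
      exact (hSne (κ j)).ne_empty h4
    · have h4 : j = i + 1 := by omega
      subst h4
      rcases Nat.lt_or_ge (i + 1) N with h5 | h5
      · have h6 := P1 i (i + 2) le_rfl (by omega)
        rw [h2] at h6
        exact Set.not_disjoint_iff_nonempty_inter.2 (hκl (i + 1) h5) h6
      · have h6 : i + 1 = N := by omega
        refine P3 i (by omega) ?_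
        rw [h2, h6]
        exact hκN
  have P4' : ∀ i ≤ N, ∀ j ≤ N, i ≠ j → κ i ≠ κ j := by
    intro i hi j hj hij
    rcases lt_or_gt_of_ne hij with h2 | h2
    · exact P4 i j h2 hj
    · exact (P4 j i h2 hi).symm
  -- the corners of the arc
  choose! g hg using hκl
  set r : ℕ → ℂ := fun i => if i = 0 then q 0 else if i ≤ N then g (i - 1) else q (n + 1) with hr
  have hr0 : r 0 = q 0 := by simp [hr]
  have hrN : r (N + 1) = q (n + 1) := by simp [hr]
  have hri : ∀ i < N, r (i + 1) = g i := by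
    intro i hi
    have h2 : i + 1 ≤ N := hi
    simp [hr, h2]
  have hrl : ∀ i ≤ N, r i ∈ S (κ i) := by
    intro i hi
    cases i with
    | zero =>
      rw [hr0]
      exact hκ0
    | succ i =>
      rw [hri i (by omega)]
      exact (hg i (by omega)).2
  have hrr : ∀ i ≤ N, r (i + 1) ∈ S (κ i) := by
    intro i hi
    rcases hi.eq_or_lt with h2 | h2
    · rw [h2, hrN]
      exact hκN
    · rw [hri i h2]
      exact (hg i h2).1
  have hrne : ∀ i ≤ N, r i ≠ r (i + 1) := by
    intro i hi h2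
    rcases Nat.eq_zero_or_pos i with h3 | h3
    · subst h3
      rcases Nat.eq_zero_or_pos N with h4 | h4
      · rw [hr0] at h2
        have h5 : r (0 + 1) = q (n + 1) := by
          rw [← hrN, h4]
        rw [h5] at h2
        exact hq h2
      · rw [hr0] at h2
        refine P2 1 one_pos h4 ?_
        rw [h2]
        exact hrl 1 h4
    · have h4 : r i ∈ S (κ (i - 1)) := by
        have h5 := hrr (i - 1) (by omega)
        rwa [Nat.sub_add_cancel h3] at h5
      rcases hi.eq_or_lt with h5 | h5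
      · rw [h2, h5, hrN] at h4
        exact P3 (N - 1) (by omega) h4
      · rw [h2] at h4
        exact Set.disjoint_left.1 (P1 (i - 1) (i + 1) (by omega) h5) h4 (hrl (i + 1) h5)
  set T : ℕ → Set ℂ := fun i => segment ℝ (r i) (r (i + 1)) with hT
  have hTS : ∀ i ≤ N, T i ⊆ S (κ i) := by
    intro i hi
    exact (convex_segment _ _).segment_subset (hrl i hi) (hrr i hi)
  have hTc : ∀ i, IsClosed (T i) := by
    intro i
    have h2 : IsCompact (segment ℝ (r i) (r (i + 1))) := by
      rw [segment_eq_image_lineMap]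
      exact isCompact_Icc.image AffineMap.lineMap_continuous
    exact h2.isClosed
  have harc : ∀ m ≤ N, IsArc (r 0) (r (m + 1)) (⋃ i ∈ {i | i ≤ m}, T i) := by
    intro m
    induction m with
    | zero =>
      intro _
      have h2 : (⋃ i ∈ {i | i ≤ 0}, T i) = T 0 := by
        ext z
        simp
      rw [h2]
      exact isArc_segment (hrne 0 (Nat.zero_le _))
    | succ m ih =>
      intro hm
      have h2 : (⋃ i ∈ {i | i ≤ m + 1}, T i) = (⋃ i ∈ {i | i ≤ m}, T i) ∪ T (m + 1) := by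
        ext z
        simp only [Set.mem_iUnion, Set.mem_ofPred_eq, Set.mem_union, exists_prop]
        constructor
        · rintro ⟨i, hi, hz⟩
          rcases hi.eq_or_lt with h3 | h3
          · rw [h3] at hz
            exact Or.inr hz
          · exact Or.inl ⟨i, by omega, hz⟩
        · rintro (⟨i, hi, hz⟩ | hz)
          · exact ⟨i, by omega, hz⟩
          · exact ⟨m + 1, le_rfl, hz⟩
      rw [h2]
      refine (ih (by omega)).trans (isArc_segment (hrne (m + 1) hm)) ?_
      rintro z ⟨hz1, hz2⟩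
      obtain ⟨i, hi, hz⟩ := Set.mem_iUnion₂.1 hz1
      have hi' : i ≤ m := hi
      rcases hi'.eq_or_lt with h3 | h3
      · rw [h3] at hz
        have h4 := h1 (κ m) (hκn m (by omega)) (κ (m + 1)) (hκn _ hm) (P4 m (m + 1) (by omega) hm)
        exact h4 ⟨hTS m (by omega) hz, hTS (m + 1) hm hz2⟩ ⟨hrr m (by omega), hrl (m + 1) hm⟩
      · exact absurd (hTS (m + 1) hm hz2)
          (Set.disjoint_left.1 (P1 i (m + 1) (by omega) hm) (hTS i (by omega) hz))
  refine ⟨⋃ i ∈ {i | i ≤ N}, T i, ?_, ?_, ?_⟩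
  · have h2 := harc N le_rfl
    rwa [hr0, hrN] at h2
  · intro z hz
    obtain ⟨i, hi, hz⟩ := Set.mem_iUnion₂.1 hz
    exact Set.mem_iUnion₂.2 ⟨κ i, hκn i hi, hTS i hi hz⟩
  · intro p hp hp0 hp1 k hk hpk _ _ hpl
    obtain ⟨i, hi, hpi⟩ := Set.mem_iUnion₂.1 hp
    have hi' : i ≤ N := hi
    have hki : κ i = k := by
      by_contra h2
      exact hpl (κ i) (hκn i hi') h2 (hTS i hi' hpi)
    have hpS : ∀ j ≤ N, j ≠ i → p ∉ S (κ j) := by
      intro j hj hji
      refine hpl (κ j) (hκn j hj) ?_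
      rw [← hki]
      exact P4' j hj i hi' hji
    have hpr1 : p ≠ r i := by
      intro h2
      rcases Nat.eq_zero_or_pos i with h3 | h3
      · rw [h3, hr0] at h2
        exact hp0 h2
      · have h5 := hrr (i - 1) (by omega)
        rw [Nat.sub_add_cancel h3, ← h2] at h5
        exact hpS (i - 1) (by omega) (by omega) h5
    have hpr2 : p ≠ r (i + 1) := by
      intro h2
      rcases hi'.eq_or_lt with h3 | h3
      · rw [h3, hrN] at h2
        exact hp1 h2
      · have h5 := hrl (i + 1) h3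
        rw [← h2] at h5
        exact hpS (i + 1) h3 (by omega) h5
    have hsub : segment ℝ (r i) (r (i + 1)) ⊆ segment ℝ (q k) (q (k + 1)) := by
      have h2 := hTS i hi'
      rw [hki] at h2
      exact h2
    obtain ⟨δ, hδ, hloc⟩ := sub_segment_local hsub hpi hpr1 hpr2
    set F : Set ℂ := ⋃ j ∈ {j | j ≤ N ∧ j ≠ i}, T j with hF
    have hFc : IsClosed F := by
      refine Set.Finite.isClosed_biUnion ?_ fun j _ => hTc j
      exact (Set.finite_Iic N).subset fun j hj => hj.1
    have hpF : p ∉ F := by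
      intro h2
      obtain ⟨j, hj, hpj⟩ := Set.mem_iUnion₂.1 h2
      exact hpS j hj.1 hj.2 (hTS j hj.1 hpj)
    refine ⟨ball p δ ∩ Fᶜ, isOpen_ball.inter hFc.isOpen_compl, ⟨mem_ball_self hδ, hpF⟩, ?_⟩
    ext z
    constructor
    · rintro ⟨hz, hz1, hz2⟩
      refine ⟨?_, hz1, hz2⟩
      obtain ⟨j, hj, hzj⟩ := Set.mem_iUnion₂.1 hz
      by_cases hji : j = i
      · subst hji
        exact hsub hzj
      · exact absurd (Set.mem_iUnion₂.2 ⟨j, ⟨hj, hji⟩, hzj⟩) hz2
    · rintro ⟨hz, hz1, hz2⟩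
      refine ⟨?_, hz1, hz2⟩
      have h2 : z ∈ segment ℝ (r i) (r (i + 1)) ∩ ball p δ := by
        rw [hloc]
        exact ⟨hz, hz1⟩
      exact Set.mem_iUnion₂.2 ⟨i, hi', h2.1⟩

end H29.BT
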