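import Pool.Agent.H29.BT.PDef
import Pool.Agent.H29.BT.Chain
import Pool.Agent.H29.BP.Exist

/-!
# [H29 BT LB] from a polygonal system in general position to a drawing

Paper proof. `idx n e k`, `k ≤ n e + 1`, are different used indices for `e ∈ H.edgeSet`
(`tl e ≠ hd e`), and `idx n e k = idx n f l` for edges `e ≠ f` only if both are the same `inl w`
(`k ∈ {0, n e + 1}`, `l ∈ {0, n f + 1}`). `seg_sub`: segments `[P a, P b]`, `[P c, P d]` with
`{a, b} ≠ {c, d}`, `a ≠ b`, `c ≠ d` in `J` have at most one common point (two common points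
would make three different points of `P a, P b, P c, P d` collinear); if they have a common index,
say `a = c`, the common point is `P a`; if `P j` is on `[P a, P b]` then `j ∈ {a, b}`.

`lb`: for every edge `e` apply `chain` to `q k = P (idx n e k)`; let `arc e` be the arc `A` (from
`P (inl (tl e))` to `P (inl (hd e))`; use `IsArc.symm` for the other order of the end points).
`avoid`: `P (inl w)` is on a segment of `e` only if `w` is one of its end points. For `e ≠ f`: a common
point `p` of the arcs is on segments `k` of `e` and `l` of `f`; if they have a common index, then this is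
a vertex and `p` is its place; otherwise `NoCom`, and `p` is the only common point of these segments.
So the common points are finitely many and `(D.X e f).ncard ≤ cnt n P e f` (map `p` to such a pair
`(k, l)`; injective). For `p ∈ X e f` on the segments `k`, `l` with `NoCom`: `p` is no corner (no three
collinear points), `p` is on no other segment of `e`: if a further segment `k'` of `e` has no common
index with `k` then three segments with six different corners meet in `p`, excluded by `Gen`;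
if it has a common index then `p` would be a corner. So near `p` the arcs agree with the segments
(`chain`), and the segments cross properly (`cross_segment`, the directions are not parallel:
otherwise the two segments with the common point `p` are on one line and their end points are
collinear); `CrossAt.congr`. `no_triple`: `p` not a vertex on three different edges is on three
segments which have pairwise no common index: excluded by `Gen`.
-/

set_option autoImplicit false

open Set Metric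
open scoped Classical

noncomputable section

namespace H29.BT

open H29.BP

/-- two different segments of a system in general position which meet are not parallel -/
theorem seg_nonpar {ι : Type} {P : ι → ℂ} {J : Set ι} (hG : Gen P J) {a b c d : ι} (ha : a ∈ J)
    (hb : b ∈ J) (hc : c ∈ J) (hd : d ∈ J) (hab : a ≠ b) (hcd : c ≠ d)
    (h : ¬ ((a = c ∧ b = d) ∨ (a = d ∧ b = c))) {p : ℂ} (hp : p ∈ segment ℝ (P a) (P b))
    (hp' : p ∈ segment ℝ (P c) (P d)) : cp (P b - P a) (P d - P c) ≠ 0 := by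
  refine nonpar (V := J) (pos := fun i => P i) ?_ (a := ⟨a, ha⟩) (b := ⟨b, hb⟩) (c := ⟨c, hc⟩)
    (d := ⟨d, hd⟩) ?_ ?_ ?_ hp hp'
  · intro x y z hxy hxz hyz
    exact hG.1 x x.2 y y.2 z z.2 (fun h => hxy (Subtype.ext h)) (fun h => hxz (Subtype.ext h))
      (fun h => hyz (Subtype.ext h))
  · exact fun h => hab (congrArg Subtype.val h)
  · exact fun h => hcd (congrArg Subtype.val h)
  · intro h1
    rw [Sym2.eq_iff] at h1
    apply h
    rcases h1 with ⟨h1, h2⟩ | ⟨h1, h2⟩
    · exact Or.inl ⟨congrArg Subtype.val h1, congrArg Subtype.val h2⟩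
    · exact Or.inr ⟨congrArg Subtype.val h1, congrArg Subtype.val h2⟩

theorem seg_sub {ι : Type} {P : ι → ℂ} {J : Set ι} (hG : Gen P J) {a b c d : ι} (ha : a ∈ J)
    (hb : b ∈ J) (hc : c ∈ J) (hd : d ∈ J) (hab : a ≠ b) (hcd : c ≠ d)
    (h : ¬ ((a = c ∧ b = d) ∨ (a = d ∧ b = c))) :
    (segment ℝ (P a) (P b) ∩ segment ℝ (P c) (P d)).Subsingleton := by
  rintro p ⟨hp1, hp2⟩ q ⟨hq1, hq2⟩
  exact lines_unique (seg_nonpar hG ha hb hc hd hab hcd h hp1 hp2) (cp_segment hp1)
    (cp_segment hq1) (cp_segment hp2) (cp_segment hq2)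

theorem corner_mem {ι : Type} {P : ι → ℂ} {J : Set ι} (hG : Gen P J) {a b j : ι} (ha : a ∈ J)
    (hb : b ∈ J) (hj : j ∈ J) (hab : a ≠ b) (h : P j ∈ segment ℝ (P a) (P b)) :
    j = a ∨ j = b := by
  by_contra hcon
  push Not at hcon
  exact hG.1 a ha b hb j hj hab hcon.1.symm hcon.2.symm (cp_segment h)

theorem idx_used {W : Type} {H : SimpleGraph W} {n : Sym2 W → ℕ} {e : Sym2 W}
    (he : e ∈ H.edgeSet) (k : ℕ) : idx n e k ∈ used H n := by
  unfold idx
  split_ifs with h1 h2
  · exact Or.inl ⟨_, rfl⟩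
  · exact Or.inr ⟨e, he, k, by omega, h2, rfl⟩
  · exact Or.inl ⟨_, rfl⟩

theorem tl_ne_hd {W : Type} {H : SimpleGraph W} {e : Sym2 W} (he : e ∈ H.edgeSet) :
    tl e ≠ hd e := by
  rw [← tl_hd e, SimpleGraph.mem_edgeSet] at he
  exact he.ne

theorem idx_inj {W : Type} {H : SimpleGraph W} {n : Sym2 W → ℕ} {e : Sym2 W}
    (he : e ∈ H.edgeSet) {k l : ℕ} (hk : k ≤ n e + 1) (hl : l ≤ n e + 1)
    (h : idx n e k = idx n e l) : k = l := by
  have hne := tl_ne_hd he
  unfold idx at h
  split_ifs at h with h1 h2 h3 h4 h5 h6 h7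
  · omega
  · exact absurd (Sum.inl.inj h) hne
  · exact congrArg Prod.snd (Sum.inr.inj h)
  · exact absurd (Sum.inl.inj h).symm hne
  · omega

theorem idx_inl {W : Type} {n : Sym2 W → ℕ} {e : Sym2 W} {k : ℕ} {w : W}
    (h : idx n e k = Sum.inl w) : w = tl e ∨ w = hd e := by
  unfold idx at h
  split_ifs at h
  · exact Or.inl (Sum.inl.inj h).symm
  · exact Or.inr (Sum.inl.inj h).symm

theorem idx_common {W : Type} {n : Sym2 W → ℕ} {e f : Sym2 W} (hef : e ≠ f) {k l : ℕ}
    (h : idx n e k = idx n f l) : ∃ w, idx n e k = Sum.inl w := by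
  unfold idx at h ⊢
  split_ifs at h ⊢
  all_goals first
    | exact ⟨_, rfl⟩
    | exact absurd (congrArg Prod.fst (Sum.inr.inj h)) hef

theorem idx_both {W : Type} {n : Sym2 W → ℕ} {e : Sym2 W} {k : ℕ} (hk : k ≤ n e) {w w' : W}
    (h : idx n e k = Sum.inl w) (h' : idx n e (k + 1) = Sum.inl w') : s(w, w') = e := by
  unfold idx at h h'
  by_cases h1 : k = 0
  · rw [if_pos h1] at h
    rw [if_neg (Nat.succ_ne_zero k)] at h'
    split_ifs at h' with h2
    rw [← Sum.inl.inj h, ← Sum.inl.inj h']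
    exact tl_hd e
  · rw [if_neg h1, if_pos hk] at h
    exact absurd h (by simp)

theorem pair_ne {W : Type} {n : Sym2 W → ℕ} {e f : Sym2 W} (hef : e ≠ f) {k l : ℕ}
    (hk : k ≤ n e) (hl : l ≤ n f) :
    ¬ ((idx n e k = idx n f l ∧ idx n e (k + 1) = idx n f (l + 1)) ∨
      (idx n e k = idx n f (l + 1) ∧ idx n e (k + 1) = idx n f l)) := by
  rintro (⟨h1, h2⟩ | ⟨h1, h2⟩)
  · obtain ⟨w, hw⟩ := idx_common hef h1
    obtain ⟨w', hw'⟩ := idx_common hef h2
    exact hef ((idx_both hk hw hw').symm.trans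
      (idx_both hl (h1.symm.trans hw) (h2.symm.trans hw')))
  · obtain ⟨w, hw⟩ := idx_common hef h1
    obtain ⟨w', hw'⟩ := idx_common hef h2
    refine hef ((idx_both hk hw hw').symm.trans ?_)
    rw [Sym2.eq_swap]
    exact idx_both hl (h2.symm.trans hw') (h1.symm.trans hw)

theorem lb {W : Type} [Finite W] {H : SimpleGraph W} (n : Sym2 W → ℕ) (P : Ix W → ℂ)
    (hG : Gen P (used H n)) :
    ∃ D : Drawing H, (∀ w, D.pos w = P (Sum.inl w)) ∧
      (∀ e ∈ H.edgeSet, D.arc e ⊆ ⋃ k ∈ {k | k ≤ n e}, sgm n P e k) ∧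
      ∀ e ∈ H.edgeSet, ∀ f ∈ H.edgeSet, e ≠ f → (D.X e f).ncard ≤ cnt n P e f := by
  have hU : ∀ e ∈ H.edgeSet, ∀ k, idx n e k ∈ used H n := fun e he k => idx_used he k
  have hU' : ∀ w, (Sum.inl w : Ix W) ∈ used H n := fun w => Or.inl ⟨w, rfl⟩
  have hstep : ∀ e ∈ H.edgeSet, ∀ k ≤ n e, idx n e k ≠ idx n e (k + 1) := by
    intro e he k hk h
    have := idx_inj he (by omega) (by omega) h
    omega
  have hPstep : ∀ e ∈ H.edgeSet, ∀ k ≤ n e, P (idx n e k) ≠ P (idx n e (k + 1)) := by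
    intro e he k hk
    exact hG.2.1 _ (hU e he _) _ (hU e he _) (hstep e he k hk)
  -- segments of the same edge
  have hsame : ∀ e ∈ H.edgeSet, ∀ k ≤ n e, ∀ l ≤ n e, k ≠ l →
      (sgm n P e k ∩ sgm n P e l).Subsingleton := by
    intro e he k hk l hl hkl
    refine seg_sub hG (hU e he _) (hU e he _) (hU e he _) (hU e he _) (hstep e he k hk)
      (hstep e he l hl) ?_
    rintro (⟨h1, _⟩ | ⟨h1, h2⟩)
    · exact hkl (idx_inj he (by omega) (by omega) h1)
    · have h3 := idx_inj he (by omega) (by omega) h1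
      have h4 := idx_inj he (by omega) (by omega) h2
      omega
  -- segments of different edges
  have hdiff : ∀ e ∈ H.edgeSet, ∀ f ∈ H.edgeSet, e ≠ f → ∀ k ≤ n e, ∀ l ≤ n f,
      (sgm n P e k ∩ sgm n P f l).Subsingleton := by
    intro e he f hf hef k hk l hl
    exact seg_sub hG (hU e he _) (hU e he _) (hU f hf _) (hU f hf _) (hstep e he k hk)
      (hstep f hf l hl) (pair_ne hef hk hl)
  have hchain : ∀ e, e ∈ H.edgeSet → ∃ A : Set ℂ,
      IsArc (P (Sum.inl (tl e))) (P (Sum.inl (hd e))) A ∧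
      A ⊆ (⋃ k ∈ {k | k ≤ n e}, sgm n P e k) ∧
      ∀ p ∈ A, p ≠ P (Sum.inl (tl e)) → p ≠ P (Sum.inl (hd e)) → ∀ k ≤ n e, p ∈ sgm n P e k →
        p ≠ P (idx n e k) → p ≠ P (idx n e (k + 1)) →
        (∀ l ≤ n e, l ≠ k → p ∉ sgm n P e l) →
        ∃ U : Set ℂ, IsOpen U ∧ p ∈ U ∧ A ∩ U = sgm n P e k ∩ U := by
    intro e he
    have h0 : idx n e 0 = Sum.inl (tl e) := rfl
    have h1 : idx n e (n e + 1) = Sum.inl (hd e) := by
      unfold idx
      rw [if_neg (by omega), if_neg (by omega)]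
    obtain ⟨A, hA1, hA2, hA3⟩ := chain (n e) (fun k => P (idx n e k))
      (by
        rw [h0, h1]
        exact hG.2.1 _ (hU' _) _ (hU' _) (fun h => tl_ne_hd he (Sum.inl.inj h)))
      (hPstep e he) (hsame e he)
    rw [h0, h1] at hA1 hA3
    exact ⟨A, hA1, hA2, hA3⟩
  choose! A hA1 hA2 hA3 using hchain
  have hmem : ∀ e ∈ H.edgeSet, ∀ p ∈ A e, ∃ k ≤ n e, p ∈ sgm n P e k := by
    intro e he p hp
    obtain ⟨k, hk, hpk⟩ := Set.mem_iUnion₂.1 (hA2 e he hp)
    exact ⟨k, hk, hpk⟩
  have hl : ∀ e k, P (idx n e k) ∈ sgm n P e k := fun e k => left_mem_segment ℝ _ _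
  have hr : ∀ e k, P (idx n e (k + 1)) ∈ sgm n P e k := fun e k => right_mem_segment ℝ _ _
  -- common points which are not vertices lie on segments without common corner
  have hno : ∀ e ∈ H.edgeSet, ∀ f ∈ H.edgeSet, e ≠ f → ∀ p, (∀ w, P (Sum.inl w) ≠ p) →
      ∀ k ≤ n e, ∀ l ≤ n f, p ∈ sgm n P e k → p ∈ sgm n P f l → NoCom n e f k l := by
    intro e he f hf hef p hp k hk l hl' hpk hpl
    have hs := hdiff e he f hf hef k hk l hl'
    have hcom : ∀ k' l', P (idx n e k') ∈ sgm n P e k → P (idx n f l') ∈ sgm n P f l →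
        idx n e k' ≠ idx n f l' := by
      intro k' l' h1 h2 h3
      obtain ⟨w, hw⟩ := idx_common hef h3
      have h4 : P (idx n e k') ∈ sgm n P f l := by
        rw [h3]
        exact h2
      have h5 := hs ⟨h1, h4⟩ ⟨hpk, hpl⟩
      rw [hw] at h5
      exact hp w h5
    exact ⟨hcom k l (hl e k) (hl f l), hcom k (l + 1) (hl e k) (hr f l),
      hcom (k + 1) l (hr e k) (hl f l), hcom (k + 1) (l + 1) (hr e k) (hr f l)⟩
  -- crossing points are no corners
  have hcor : ∀ e ∈ H.edgeSet, ∀ f ∈ H.edgeSet, ∀ k ≤ n e, ∀ l ≤ n f, NoCom n e f k l →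
      ∀ p, p ∈ sgm n P e k → p ∈ sgm n P f l → p ≠ P (idx n e k) ∧ p ≠ P (idx n e (k + 1)) ∧
        p ≠ P (idx n f l) ∧ p ≠ P (idx n f (l + 1)) := by
    intro e he f hf k hk l hl' hn p hpk hpl
    obtain ⟨n1, n2, n3, n4⟩ := hn
    refine ⟨?_, ?_, ?_, ?_⟩
    · rintro rfl
      rcases corner_mem hG (hU f hf _) (hU f hf _) (hU e he _) (hstep f hf l hl') hpl with h | h
      · exact n1 h
      · exact n2 h
    · rintro rfl
      rcases corner_mem hG (hU f hf _) (hU f hf _) (hU e he _) (hstep f hf l hl') hpl with h | h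
      · exact n3 h
      · exact n4 h
    · rintro rfl
      rcases corner_mem hG (hU e he _) (hU e he _) (hU f hf _) (hstep e he k hk) hpk with h | h
      · exact n1 h.symm
      · exact n3 h.symm
    · rintro rfl
      rcases corner_mem hG (hU e he _) (hU e he _) (hU f hf _) (hstep e he k hk) hpk with h | h
      · exact n2 h.symm
      · exact n4 h.symm
  -- the local form of the arc at a crossing
  have hloc : ∀ e ∈ H.edgeSet, ∀ f ∈ H.edgeSet, e ≠ f → ∀ p ∈ A e, (∀ w, P (Sum.inl w) ≠ p) →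
      ∀ k ≤ n e, ∀ l ≤ n f, p ∈ sgm n P e k → p ∈ sgm n P f l →
      ∃ U : Set ℂ, IsOpen U ∧ p ∈ U ∧ A e ∩ U = sgm n P e k ∩ U := by
    intro e he f hf hef p hpA hp k hk l hl' hpk hpl
    have hn := hno e he f hf hef p hp k hk l hl' hpk hpl
    obtain ⟨c1, c2, c3, c4⟩ := hcor e he f hf k hk l hl' hn p hpk hpl
    refine hA3 e he p hpA (hp _).symm (hp _).symm k hk hpk c1 c2 ?_
    intro k' hk' hkk' hpk'
    have hs := hsame e he k' hk' k hk hkk'
    have h1 : k' ≠ k + 1 := by
      intro h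
      have h2 : P (idx n e (k + 1)) ∈ sgm n P e k' := by
        rw [h]
        exact hl e (k + 1)
      exact c2 (hs ⟨hpk', hpk⟩ ⟨h2, hr e k⟩)
    have h2 : k ≠ k' + 1 := by
      intro h
      have h2 : P (idx n e k) ∈ sgm n P e k' := by
        rw [h]
        exact hr e k'
      exact c1 (hs ⟨hpk', hpk⟩ ⟨h2, hl e k⟩)
    obtain ⟨m1, m2, m3, m4⟩ := hno e he f hf hef p hp k' hk' l hl' hpk' hpl
    obtain ⟨n1, n2, n3, n4⟩ := hn
    refine hG.2.2 _ (hU e he k) _ (hU e he (k + 1)) _ (hU e he k') _ (hU e he (k' + 1)) _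
      (hU f hf l) _ (hU f hf (l + 1)) ?_ p hpk hpk' hpl
    simp only [List.nodup_cons, List.mem_cons, List.not_mem_nil, or_false, not_or,
      List.nodup_nil, not_false_eq_true, and_true]
    refine ⟨⟨hstep e he k hk, ?_, ?_, n1, n2⟩, ⟨?_, ?_, n3, n4⟩, ⟨hstep e he k' hk', m1, m2⟩,
      ⟨m3, m4⟩, hstep f hf l hl'⟩
    · intro h
      exact hkk' (idx_inj he (by omega) (by omega) h).symm
    · intro h
      exact h2 (idx_inj he (by omega) (by omega) h)
    · intro h
      exact h1 (idx_inj he (by omega) (by omega) h).symm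
    · intro h
      have := idx_inj he (by omega) (by omega) h
      omega
  refine ⟨{ pos := fun w => P (Sum.inl w)
            arc := A
            pos_inj := ?_
            isArc := ?_
            avoid := ?_
            inter_finite := ?_
            proper := ?_
            no_triple := ?_ }, fun w => rfl, hA2, ?_⟩
  · intro u v huv
    by_contra hne
    exact hG.2.1 _ (hU' u) _ (hU' v) (fun h => hne (Sum.inl.inj h)) huv
  · intro u v huv
    have he : s(u, v) ∈ H.edgeSet := huv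
    have h1 := hA1 _ he
    have h2 := tl_hd s(u, v)
    rw [Sym2.eq_iff] at h2
    rcases h2 with ⟨h2, h3⟩ | ⟨h2, h3⟩
    · rw [h2, h3] at h1
      exact h1
    · rw [h2, h3] at h1
      exact h1.symm
  · intro u v w huv hw
    have he : s(u, v) ∈ H.edgeSet := huv
    obtain ⟨k, hk, hpk⟩ := hmem _ he _ hw
    have h1 : w = tl s(u, v) ∨ w = hd s(u, v) := by
      rcases corner_mem hG (hU _ he _) (hU _ he _) (hU' w) (hstep _ he k hk) hpk with h | h
      · exact idx_inl h.symm
      · exact idx_inl h.symm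
    have h2 := tl_hd s(u, v)
    rw [Sym2.eq_iff] at h2
    rcases h2 with ⟨h2, h3⟩ | ⟨h2, h3⟩ <;> rw [h2, h3] at h1
    · exact h1
    · exact h1.symm
  · intro e he f hf hef
    have h1 : A e ∩ A f ⊆ ⋃ q ∈ (↑(Finset.range (n e + 1) ×ˢ Finset.range (n f + 1)) : Set (ℕ × ℕ)),
        (sgm n P e q.1 ∩ sgm n P f q.2) := by
      rintro p ⟨hp1, hp2⟩
      obtain ⟨k, hk, hpk⟩ := hmem e he p hp1
      obtain ⟨l, hl', hpl⟩ := hmem f hf p hp2
      refine Set.mem_iUnion₂.2 ⟨(k, l), ?_, hpk, hpl⟩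
      rw [Finset.mem_coe, Finset.mem_product, Finset.mem_range, Finset.mem_range]
      exact ⟨Nat.lt_succ_of_le hk, Nat.lt_succ_of_le hl'⟩
    refine Set.Finite.subset (Set.Finite.biUnion (Finset.finite_toSet _) ?_) h1
    intro q hq
    rw [Finset.mem_coe, Finset.mem_product, Finset.mem_range, Finset.mem_range] at hq
    exact (hdiff e he f hf hef q.1 (by omega) q.2 (by omega)).finite
  · intro e he f hf hef p hp hpp
    have hpw : ∀ w, P (Sum.inl w) ≠ p := fun w hw => hpp ⟨w, hw⟩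
    obtain ⟨k, hk, hpk⟩ := hmem e he p hp.1
    obtain ⟨l, hl', hpl⟩ := hmem f hf p hp.2
    have hn := hno e he f hf hef p hpw k hk l hl' hpk hpl
    obtain ⟨c1, c2, c3, c4⟩ := hcor e he f hf k hk l hl' hn p hpk hpl
    obtain ⟨U, hUo, hpU, hUe⟩ := hloc e he f hf hef p hp.1 hpw k hk l hl' hpk hpl
    obtain ⟨U', hUo', hpU', hUe'⟩ := hloc f hf e he hef.symm p hp.2 hpw l hl' k hk hpl hpk
    have hcr : CrossAt (sgm n P e k) (sgm n P f l) p :=
      cross_segment hpk hpl c1 c2 c3 c4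
        (seg_nonpar hG (hU e he _) (hU e he _) (hU f hf _) (hU f hf _) (hstep e he k hk)
          (hstep f hf l hl') (pair_ne hef hk hl') hpk hpl)
    refine hcr.congr (U ∩ U') (hUo.inter hUo') ⟨hpU, hpU'⟩ ?_ ?_
    · rw [← Set.inter_assoc, hUe, Set.inter_assoc]
    · rw [Set.inter_comm U U', ← Set.inter_assoc, hUe', Set.inter_assoc]
  · intro e he f hf g hg hef heg hfg p hp hpg
    by_contra hpp
    have hpw : ∀ w, P (Sum.inl w) ≠ p := fun w hw => hpp ⟨w, hw⟩
    obtain ⟨k, hk, hpk⟩ := hmem e he p hp.1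
    obtain ⟨l, hl', hpl⟩ := hmem f hf p hp.2
    obtain ⟨m, hm, hpm⟩ := hmem g hg p hpg
    obtain ⟨n1, n2, n3, n4⟩ := hno e he f hf hef p hpw k hk l hl' hpk hpl
    obtain ⟨m1, m2, m3, m4⟩ := hno e he g hg heg p hpw k hk m hm hpk hpm
    obtain ⟨o1, o2, o3, o4⟩ := hno f hf g hg hfg p hpw l hl' m hm hpl hpm
    refine hG.2.2 _ (hU e he k) _ (hU e he (k + 1)) _ (hU f hf l) _ (hU f hf (l + 1)) _
      (hU g hg m) _ (hU g hg (m + 1)) ?_ p hpk hpl hpm
    simp only [List.nodup_cons, List.mem_cons, List.not_mem_nil, or_false, not_or,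
      List.nodup_nil, not_false_eq_true, and_true]
    exact ⟨⟨hstep e he k hk, n1, n2, m1, m2⟩, ⟨n3, n4, m3, m4⟩, ⟨hstep f hf l hl', o1, o2⟩,
      ⟨o3, o4⟩, hstep g hg m hm⟩
  · intro e he f hf hef
    have hch : ∀ p, p ∈ (A e ∩ A f) \ range (fun w => P (Sum.inl w)) → ∃ q : ℕ × ℕ,
        q.1 ≤ n e ∧ q.2 ≤ n f ∧ p ∈ sgm n P e q.1 ∧ p ∈ sgm n P f q.2 := by
      rintro p ⟨hp, _⟩
      obtain ⟨k, hk, hpk⟩ := hmem e he p hp.1
      obtain ⟨l, hl', hpl⟩ := hmem f hf p hp.2
      exact ⟨(k, l), hk, hl', hpk, hpl⟩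
    choose! F hF1 hF2 hF3 hF4 using hch
    have hcnt : cnt n P e f = (↑((Finset.range (n e + 1) ×ˢ Finset.range (n f + 1)).filter fun p =>
        NoCom n e f p.1 p.2 ∧ (sgm n P e p.1 ∩ sgm n P f p.2).Nonempty) : Set (ℕ × ℕ)).ncard := by
      rw [Set.ncard_coe_finset]
      rfl
    rw [hcnt]
    refine Set.ncard_le_ncard_of_injOn F ?_ ?_ (Finset.finite_toSet _)
    · rintro p hp
      have hp' : p ∈ (A e ∩ A f) \ range (fun w => P (Sum.inl w)) := hp
      have hpw : ∀ w, P (Sum.inl w) ≠ p := fun w hw => hp'.2 ⟨w, hw⟩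
      rw [Finset.mem_coe, Finset.mem_filter, Finset.mem_product, Finset.mem_range,
        Finset.mem_range]
      exact ⟨⟨Nat.lt_succ_of_le (hF1 p hp'), Nat.lt_succ_of_le (hF2 p hp')⟩,
        hno e he f hf hef p hpw _ (hF1 p hp') _ (hF2 p hp') (hF3 p hp') (hF4 p hp'),
        p, hF3 p hp', hF4 p hp'⟩
    · intro p hp p' hp' heq
      have h1 : p ∈ (A e ∩ A f) \ range (fun w => P (Sum.inl w)) := hp
      have h2 : p' ∈ (A e ∩ A f) \ range (fun w => P (Sum.inl w)) := hp'
      refine hdiff e he f hf hef _ (hF1 p h1) _ (hF2 p h1) ⟨hF3 p h1, hF4 p h1⟩ ⟨?_, ?_⟩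
      · rw [heq]
        exact hF3 p' h2
      · rw [heq]
        exact hF4 p' h2

end H29.BT
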