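import Pool.Agent.H29.BT.Qe
import Pool.Agent.H29.BT.Genp
import Pool.Agent.H29.BT.Lb

/-!
# [H29 BT APP] approximation of a system of arcs by a drawing

Paper proof. `qe` with `ε/2` gives `n`, `P₀`. The set `used H n` is finite. `η` = minimum of `ε/2` and the
`η` of `stab`. `genp` gives `P` with `dist (P i) (P₀ i) < η`, in general position on `used H n`. `lb` gives
the drawing. A point of the segment `[P i, P j]` has distance `< ε/2` from the corresponding point of
`[P₀ i, P₀ j]`, which is in the `ε/2`-thickening of the arc.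
-/

set_option autoImplicit false

open Set Metric
open scoped Classical

noncomputable section

namespace H29.BT

open H29.BP

/-- the used indices are finitely many -/
theorem used_finite {W : Type} [Finite W] (H : SimpleGraph W) (n : Sym2 W → ℕ) :
    (used H n).Finite := by
  obtain ⟨B, hB⟩ : ∃ B : ℕ, ∀ e : Sym2 W, n e ≤ B := by
    obtain ⟨B, hB⟩ := (Set.finite_range n).bddAbove
    exact ⟨B, fun e => hB ⟨e, rfl⟩⟩
  have h1 : used H n ⊆ range (Sum.inl : W → Ix W) ∪
      range (fun p : Sym2 W × Fin (B + 1) => (Sum.inr (p.1, (p.2 : ℕ)) : Ix W)) := by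
    rintro i (⟨w, rfl⟩ | ⟨e, he, k, hk1, hk2, rfl⟩)
    · exact Or.inl ⟨w, rfl⟩
    · refine Or.inr ⟨(e, ⟨k, ?_⟩), rfl⟩
      have := hB e
      omega
  exact ((Set.finite_range _).union (Set.finite_range _)).subset h1

theorem app {W : Type} [Finite W] {H : SimpleGraph W} {S : Set (Sym2 W)} (Q : Semi H S) (ε : ℝ)
    (hε : 0 < ε) :
    ∃ D : Drawing H, (∀ w, dist (D.pos w) (Q.pos w) < ε) ∧
      (∀ e ∈ H.edgeSet, D.arc e ⊆ thickening ε (Q.arc e)) ∧
      ∀ e ∈ H.edgeSet, ∀ f ∈ H.edgeSet, e ≠ f → ¬ (e ∈ S ∧ f ∈ S) →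
        (D.X e f).ncard ≤ ((Q.arc e ∩ Q.arc f) \ range Q.pos).ncard := by
  obtain ⟨n, P₀, hpos, hclose, hcnt⟩ := qe Q (ε / 2) (by linarith)
  obtain ⟨η₀, hη₀, hstab⟩ := stab H n P₀
  have hη : 0 < min (ε / 2) η₀ := lt_min (by linarith) hη₀
  obtain ⟨P, hP, hGen⟩ := genp (used_finite H n).toFinset P₀ (min (ε / 2) η₀) hη
  rw [Set.Finite.coe_toFinset] at hGen
  obtain ⟨D, hDpos, hDarc, hDX⟩ := lb n P hGen
  have hP1 : ∀ i, dist (P i) (P₀ i) < ε / 2 := fun i => (hP i).trans_le (min_le_left _ _)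
  have hP2 : ∀ i, dist (P i) (P₀ i) < η₀ := fun i => (hP i).trans_le (min_le_right _ _)
  refine ⟨D, ?_, ?_, ?_⟩
  · intro w
    rw [hDpos w, ← hpos w]
    linarith [hP1 (Sum.inl w)]
  · intro e he p hp
    obtain ⟨k, hk, hpk⟩ := Set.mem_iUnion₂.1 (hDarc e he hp)
    have h1 := seg_near (hP1 (idx n e k)) (hP1 (idx n e (k + 1))) hpk
    rw [mem_thickening_iff] at h1
    obtain ⟨z, hz, h2⟩ := h1
    have h3 := hclose e he k hk hz
    rw [mem_thickening_iff] at h3 ⊢
    obtain ⟨w, hw, h4⟩ := h3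
    refine ⟨w, hw, ?_⟩
    have h5 := dist_triangle p z w
    linarith
  · intro e he f hf hef hS
    exact (hDX e he f hf hef).trans ((hstab P hP2 e he f hf).trans (hcnt e he f hf hef hS))

end H29.BT
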