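import Pool.Agent.H29.BP.Loc

/-!
# [H29 BT ASM] edges as unions of arcs of a drawing of a larger graph

`K` is drawn, every edge `e` of `G` is represented by a set `P e` of edges of `K` whose arcs form together
an arc (a path in `K`), inner vertices of these paths are private. Then `G` is drawn, with no new
crossings.

Paper proof. `arc' e = ⋃ g ∈ P e, D.arc g`, `pos' = D.pos ∘ φ`. `avoid`: if `D.pos (φ w) ∈ D.arc g`,
`g ∈ P s(u,v)`, then `φ w ∈ g` (`D.avoid`; write `g = s(a,b)`), so `w ∈ s(u,v)` by `hend`. Let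
`e ≠ f` be edges of `G` and `p ∈ arc' e ∩ arc' f`, `p ∈ D.arc g`, `g ∈ P e`, `p ∈ D.arc g'`, `g' ∈ P f`;
`g ≠ g'` by `hdis`. The `P e` are finite (`Ω` is finite), so `arc' e ∩ arc' f` is a finite union of
finite sets. Let `p` not be in `range pos'`. If `p = D.pos ω` then `ω ∈ g`, `ω ∈ g'` (`D.avoid`), so
`ω ∈ range φ` by `hpriv`, against the assumption. So `p` is a crossing of `g` and `g'`; it is on no
other arc of `K` (`no_triple`), in particular not on the arcs of the other elements of `P e`, `P f`; with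
`U` = the complement of these finitely many compact arcs `CrossAt.congr` gives the proper crossing.
`no_triple`: `p` on three different `arc' e`, `arc' f`, `arc' h` gives three different edges of `K`.
-/

set_option autoImplicit false

open Set

namespace H29.BT

open H29.BP

private theorem asm_mem {Ω : Type} {K : SimpleGraph Ω} (D : Drawing K) {g : Sym2 Ω}
    (hg : g ∈ K.edgeSet) {ω : Ω} (h : D.pos ω ∈ D.arc g) : ω ∈ g := by
  induction g with
  | _ a b =>
    rw [SimpleGraph.mem_edgeSet] at hg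
    rw [Sym2.mem_iff]
    exact D.avoid a b ω hg h

private theorem asm_closed {Ω : Type} {K : SimpleGraph Ω} (D : Drawing K) {g : Sym2 Ω}
    (hg : g ∈ K.edgeSet) : IsClosed (D.arc g) := by
  induction g with
  | _ a b =>
    rw [SimpleGraph.mem_edgeSet] at hg
    exact (D.isArc a b hg).isCompact.isClosed

theorem assemble {V Ω : Type} [Finite Ω] {K : SimpleGraph Ω} {G : SimpleGraph V}
    (D : Drawing K) (φ : V → Ω) (hφ : Function.Injective φ) (P : Sym2 V → Set (Sym2 Ω))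
    (hP : ∀ e ∈ G.edgeSet, P e ⊆ K.edgeSet)
    (hdis : ∀ e ∈ G.edgeSet, ∀ f ∈ G.edgeSet, e ≠ f → Disjoint (P e) (P f))
    (harc : ∀ u v, G.Adj u v → IsArc (D.pos (φ u)) (D.pos (φ v)) (⋃ g ∈ P s(u, v), D.arc g))
    (hend : ∀ e ∈ G.edgeSet, ∀ g ∈ P e, ∀ v, φ v ∈ g → v ∈ e)
    (hpriv : ∀ e ∈ G.edgeSet, ∀ f ∈ G.edgeSet, e ≠ f → ∀ g ∈ P e, ∀ g' ∈ P f, ∀ ω, ω ∈ g →
      ω ∈ g' → ω ∈ range φ) :
    ∃ D' : Drawing G, (∀ v, D'.pos v = D.pos (φ v)) ∧
      (∀ e ∈ G.edgeSet, D'.arc e = ⋃ g ∈ P e, D.arc g) ∧ D'.crossings ⊆ D.crossings := by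
  have hne : ∀ e ∈ G.edgeSet, ∀ f ∈ G.edgeSet, e ≠ f → ∀ g ∈ P e, ∀ g' ∈ P f, g ≠ g' := by
    intro e he f hf hef g hg g' hg' h
    rw [← h] at hg'
    exact (Set.disjoint_left.1 (hdis e he f hf hef)) hg hg'
  have hrange : ∀ e ∈ G.edgeSet, ∀ f ∈ G.edgeSet, e ≠ f → ∀ g ∈ P e, ∀ g' ∈ P f, ∀ p,
      p ∈ D.arc g → p ∈ D.arc g' → p ∈ range D.pos → p ∈ range (fun v => D.pos (φ v)) := by
    rintro e he f hf hef g hg g' hg' p hp hp' ⟨ω, rfl⟩
    have h1 := asm_mem D (hP e he hg) hp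
    have h2 := asm_mem D (hP f hf hg') hp'
    obtain ⟨v, rfl⟩ := hpriv e he f hf hef g hg g' hg' ω h1 h2
    exact ⟨v, rfl⟩
  have hfin : ∀ e, (P e).Finite := fun e => by
    haveI : Finite (Sym2 Ω) := by
      unfold Sym2
      infer_instance
    exact Set.toFinite _
  let D' : Drawing G := {
    pos := fun v => D.pos (φ v)
    arc := fun e => ⋃ g ∈ P e, D.arc g
    pos_inj := fun a b h => hφ (D.pos_inj h)
    isArc := harc
    avoid := by
      intro u v w huv hw
      obtain ⟨g, hg, hw'⟩ := Set.mem_iUnion₂.1 hw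
      have he : s(u, v) ∈ G.edgeSet := huv
      have h1 := asm_mem D (hP _ he hg) hw'
      have h2 := hend _ he g hg w h1
      exact Sym2.mem_iff.1 h2
    inter_finite := by
      intro e he f hf hef
      have h1 : ((⋃ g ∈ P e, ⋃ g' ∈ P f, (D.arc g ∩ D.arc g')) : Set ℂ).Finite :=
        (hfin e).biUnion fun g hg => (hfin f).biUnion fun g' hg' =>
          D.inter_finite g (hP e he hg) g' (hP f hf hg') (hne e he f hf hef g hg g' hg')
      refine h1.subset ?_
      rintro p ⟨hp, hp'⟩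
      obtain ⟨g, hg, h2⟩ := Set.mem_iUnion₂.1 hp
      obtain ⟨g', hg', h3⟩ := Set.mem_iUnion₂.1 hp'
      exact Set.mem_iUnion₂.2 ⟨g, hg, Set.mem_iUnion₂.2 ⟨g', hg', h2, h3⟩⟩
    proper := by
      rintro e he f hf hef p ⟨hp, hp'⟩ hpr
      obtain ⟨g, hg, h2⟩ := Set.mem_iUnion₂.1 hp
      obtain ⟨g', hg', h3⟩ := Set.mem_iUnion₂.1 hp'
      have hgg' := hne e he f hf hef g hg g' hg'
      have hpD : p ∉ range D.pos := fun h =>
        hpr (hrange e he f hf hef g hg g' hg' p h2 h3 h)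
      have hC := D.proper g (hP e he hg) g' (hP f hf hg') hgg' p ⟨h2, h3⟩ hpD
      have hcl : IsClosed (⋃ h ∈ (P e \ {g}) ∪ (P f \ {g'}), D.arc h) := by
        refine Set.Finite.isClosed_biUnion (((hfin e).subset Set.diff_subset).union
          ((hfin f).subset Set.diff_subset)) fun h hh => ?_
        rcases hh with hh | hh
        · exact asm_closed D (hP e he hh.1)
        · exact asm_closed D (hP f hf hh.1)
      refine hC.congr (⋃ h ∈ (P e \ {g}) ∪ (P f \ {g'}), D.arc h)ᶜ hcl.isOpen_compl ?_ ?_ ?_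
      · intro hmem
        obtain ⟨h, hh, hph⟩ := Set.mem_iUnion₂.1 hmem
        rcases hh with hh | hh
        · have h4 : h ≠ g := hh.2
          exact hpD (D.no_triple g (hP e he hg) g' (hP f hf hg') h (hP e he hh.1) hgg' h4.symm
            (hne e he f hf hef h hh.1 g' hg').symm p ⟨h2, h3⟩ hph)
        · have h4 : h ≠ g' := hh.2
          exact hpD (D.no_triple g (hP e he hg) g' (hP f hf hg') h (hP f hf hh.1) hgg'
            (hne e he f hf hef g hg h hh.1) h4.symm p ⟨h2, h3⟩ hph)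
      · ext x
        constructor
        · rintro ⟨hx, hxU⟩
          refine ⟨?_, hxU⟩
          obtain ⟨h, hh, hxh⟩ := Set.mem_iUnion₂.1 hx
          by_cases hhg : h = g
          · rwa [hhg] at hxh
          · exact absurd (Set.mem_iUnion₂.2 ⟨h, Or.inl ⟨hh, hhg⟩, hxh⟩) hxU
        · rintro ⟨hx, hxU⟩
          exact ⟨Set.mem_iUnion₂.2 ⟨g, hg, hx⟩, hxU⟩
      · ext x
        constructor
        · rintro ⟨hx, hxU⟩
          refine ⟨?_, hxU⟩
          obtain ⟨h, hh, hxh⟩ := Set.mem_iUnion₂.1 hx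
          by_cases hhg : h = g'
          · rwa [hhg] at hxh
          · exact absurd (Set.mem_iUnion₂.2 ⟨h, Or.inr ⟨hh, hhg⟩, hxh⟩) hxU
        · rintro ⟨hx, hxU⟩
          exact ⟨Set.mem_iUnion₂.2 ⟨g', hg', hx⟩, hxU⟩
    no_triple := by
      rintro e he f hf h hh hef heh hfh p ⟨hp, hp'⟩ hp''
      obtain ⟨g, hg, h2⟩ := Set.mem_iUnion₂.1 hp
      obtain ⟨g', hg', h3⟩ := Set.mem_iUnion₂.1 hp'
      obtain ⟨g'', hg'', h4⟩ := Set.mem_iUnion₂.1 hp''
      exact hrange e he f hf hef g hg g' hg' p h2 h3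
        (D.no_triple g (hP e he hg) g' (hP f hf hg') g'' (hP h hh hg'')
          (hne e he f hf hef g hg g' hg') (hne e he h hh heh g hg g'' hg'')
          (hne f hf h hh hfh g' hg' g'' hg'') p ⟨h2, h3⟩ h4) }
  refine ⟨D', fun v => rfl, fun e _ => rfl, ?_⟩
  rintro p ⟨e, he, f, hf, hef, ⟨hp, hp'⟩, hpr⟩
  obtain ⟨g, hg, h2⟩ := Set.mem_iUnion₂.1 hp
  obtain ⟨g', hg', h3⟩ := Set.mem_iUnion₂.1 hp'
  exact ⟨g, hP e he hg, g', hP f hf hg', hne e he f hf hef g hg g' hg', ⟨h2, h3⟩,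
    fun h => hpr (hrange e he f hf hef g hg g' hg' p h2 h3 h)⟩

end H29.BT
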