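import Pool.Agent.H29.BP.CasA

/-!
# [H29 BT AVG] the average over all sign vectors

Paper proof. Sum over all `s : V → ℤˣ` (`HH ∅ ω = univ`); `M` = the number of all `s`. For different vertices `u ≠ v`:
`∑_s sg s u * sg s v = 0` and for four different vertices the sum of the product of the four signs is `0`
(`sum_HH_zero` with `Q = ∅`, or flip the sign of one vertex). So
* for `g, h ∈ O` with `x g h ≠ 0` (not meeting, no loops: four different ends) `∑_s cost s g h = 3/8 * M`;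
* for `e ∈ E'`, `g ∈ O`, `x e g ≠ 0`: `e` has an end in `N`, so at most one end `y ∉ N`; if there is none the indicator is `0`;
  if there is one, then `y ∉ g` (not meeting), `g = s(a,b)`, and the indicator is
  `(1 + sg a * sg y) * (1 + sg b * sg y) / 4 = (1 + sg a * sg y + sg b * sg y + sg a * sg b) / 4`, sum `M / 4`;
* for `g ∈ O`, `g = s(a,b)`, the indicator of `s a ≠ s b` is `(1 - sg a * sg b) / 2`, sum `M / 2`.
The sum of the left sides over all `s` is at most `M` times the right side, so some `s` satisfies the inequality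
(`Finset.exists_le_of_sum_le`).
-/

set_option autoImplicit false

open scoped Classical

noncomputable section

namespace H29.BT

open H29.BP

theorem sum_univ_pair {V : Type} [Fintype V] {u v : V} (huv : u ≠ v) :
    ∑ s : V → ℤˣ, sg s u * sg s v = 0 := by
  have h := sum_pair_zero (V := V) ∅ (fun _ => 1) (by simp) (by simp) huv
  have h1 : HH (V := V) ∅ (fun _ => 1) = Finset.univ := by simp [HH]
  rwa [h1] at h

theorem sum_univ_four {V : Type} [Fintype V] {a b c d : V} (hab : a ≠ b) (hac : a ≠ c)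
    (had : a ≠ d) (hbc : b ≠ c) (hbd : b ≠ d) (hcd : c ≠ d) :
    ∑ s : V → ℤˣ, sg s a * sg s b * sg s c * sg s d = 0 := by
  have h := sum_HH_zero (V := V) ∅ (fun _ => 1) (by simp) {a, b, c, d} a
    (Finset.mem_insert_self _ _) (Or.inl (by simp))
  have h1 : HH (V := V) ∅ (fun _ => 1) = Finset.univ := by simp [HH]
  rw [h1, Finset.sum_congr rfl fun s _ => prod_four s hab hac had hbc hbd hcd] at h
  exact h

theorem sum_univ_cost {V : Type} [Fintype V] {a b c d : V} (hab : a ≠ b) (hac : a ≠ c)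
    (had : a ≠ d) (hbc : b ≠ c) (hbd : b ≠ d) (hcd : c ≠ d) :
    ∑ s : V → ℤˣ, cost s s(a, b) s(c, d) =
      3 / 8 * ((Finset.univ : Finset (V → ℤˣ)).card : ℝ) := by
  have h0 : ∀ s : V → ℤˣ, cost s s(a, b) s(c, d) =
      3 / 8 - 1 / 8 * (sg s a * sg s b) - 1 / 8 * (sg s c * sg s d) +
        1 / 8 * (sg s a * sg s c) + 1 / 8 * (sg s a * sg s d) + 1 / 8 * (sg s b * sg s c) +
        1 / 8 * (sg s b * sg s d) + 3 / 8 * (sg s a * sg s b * sg s c * sg s d) := by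
    intro s
    rw [cost_mk]
    ring
  rw [Finset.sum_congr rfl fun s _ => h0 s]
  simp only [Finset.sum_add_distrib, Finset.sum_sub_distrib, ← Finset.mul_sum]
  rw [sum_univ_pair hab, sum_univ_pair hcd, sum_univ_pair hac, sum_univ_pair had,
    sum_univ_pair hbc, sum_univ_pair hbd, sum_univ_four hab hac had hbc hbd hcd,
    Finset.sum_const, nsmul_eq_mul]
  ring

/-- the sum over all sign vectors of a weighted double sum -/
theorem sum_univ_weight {V : Type} [Fintype V] (A B : Finset (Sym2 V))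
    (x : Sym2 V → Sym2 V → ℝ) (hx0 : ∀ e f, 0 ≤ x e f)
    (F : (V → ℤˣ) → Sym2 V → Sym2 V → ℝ) (c : ℝ)
    (h : ∀ g ∈ A, ∀ k ∈ B, x g k ≠ 0 →
      ∑ s : V → ℤˣ, F s g k ≤ c * ((Finset.univ : Finset (V → ℤˣ)).card : ℝ)) :
    ∑ s : V → ℤˣ, ∑ g ∈ A, ∑ k ∈ B, x g k * F s g k ≤
      ((Finset.univ : Finset (V → ℤˣ)).card : ℝ) * (c * ∑ g ∈ A, ∑ k ∈ B, x g k) := by
  rw [Finset.sum_comm, Finset.mul_sum, Finset.mul_sum]
  refine Finset.sum_le_sum fun g hg => ?_
  rw [Finset.sum_comm, Finset.mul_sum, Finset.mul_sum]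
  refine Finset.sum_le_sum fun k hk => ?_
  rw [← Finset.mul_sum]
  by_cases hx : x g k = 0
  · simp [hx]
  · have h1 := mul_le_mul_of_nonneg_left (h g hg k hk hx) (hx0 g k)
    refine h1.trans (le_of_eq ?_)
    ring

theorem ind_eq {V : Type} (N : Set V) (s : V → ℤˣ) {v y a b : V} (hv : v ∈ N) (hy : y ∉ N)
    [Decidable (∃ y' ∈ s(v, y), y' ∉ N ∧ ∀ w ∈ s(a, b), s w = s y')] :
    (if ∃ y' ∈ s(v, y), y' ∉ N ∧ ∀ w ∈ s(a, b), s w = s y' then (1 : ℝ) else 0) =
      1 / 4 + 1 / 4 * (sg s a * sg s y) + 1 / 4 * (sg s b * sg s y) +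
        1 / 4 * (sg s a * sg s b) := by
  have h1 : (∃ y' ∈ s(v, y), y' ∉ N ∧ ∀ w ∈ s(a, b), s w = s y') ↔ (s a = s y ∧ s b = s y) := by
    constructor
    · rintro ⟨y', hy', hyN, h⟩
      rw [Sym2.mem_iff] at hy'
      rcases hy' with rfl | rfl
      · exact absurd hv hyN
      · exact ⟨h a (by simp), h b (by simp)⟩
    · rintro ⟨h2, h3⟩
      refine ⟨y, by simp, hy, fun w hw => ?_⟩
      rw [Sym2.mem_iff] at hw
      rcases hw with rfl | rfl
      · exact h2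
      · exact h3
  rw [if_congr h1 rfl rfl]
  rcases Int.units_eq_one_or (s a) with ha | ha <;> rcases Int.units_eq_one_or (s b) with hb | hb <;>
    rcases Int.units_eq_one_or (s y) with hc | hc <;>
    simp [sg, ha, hb, hc] <;> norm_num

theorem ind_ne {V : Type} (s : V → ℤˣ) (a b : V)
    [Decidable (∃ a' ∈ s(a, b), ∃ b' ∈ s(a, b), s a' ≠ s b')] :
    (if ∃ a' ∈ s(a, b), ∃ b' ∈ s(a, b), s a' ≠ s b' then (1 : ℝ) else 0) =
      1 / 2 - 1 / 2 * (sg s a * sg s b) := by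
  have h1 : (∃ a' ∈ s(a, b), ∃ b' ∈ s(a, b), s a' ≠ s b') ↔ s a ≠ s b := by
    constructor
    · rintro ⟨a', ha', b', hb', h⟩ hab
      rw [Sym2.mem_iff] at ha' hb'
      rcases ha' with rfl | rfl <;> rcases hb' with rfl | rfl
      · exact h rfl
      · exact h hab
      · exact h hab.symm
      · exact h rfl
    · intro h
      exact ⟨a, by simp, b, by simp, h⟩
  rw [if_congr h1 rfl rfl]
  rcases Int.units_eq_one_or (s a) with ha | ha <;> rcases Int.units_eq_one_or (s b) with hb | hb <;>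
    simp [sg, ha, hb] <;> norm_num

theorem avg {V : Type} [Fintype V] (N : Set V) (O E' R' : Finset (Sym2 V))
    (x : Sym2 V → Sym2 V → ℝ) (hx0 : ∀ e f, 0 ≤ x e f) (hO : ∀ g ∈ O, ¬ g.IsDiag)
    (hO' : ∀ g ∈ O, ∀ h ∈ O, Meets g h → x g h = 0)
    (hE : ∀ e ∈ E', ∀ g ∈ O, Meets e g → x e g = 0) (hEN : ∀ e ∈ E', ∃ v ∈ e, v ∈ N) :
    ∃ s : V → ℤˣ,
      (∑ g ∈ O, ∑ h ∈ O, x g h * cost s g h) +
      2 * (∑ e ∈ E', ∑ g ∈ O, x e g *
        (if ∃ y ∈ e, y ∉ N ∧ ∀ v ∈ g, s v = s y then 1 else 0)) +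
      2 * (∑ f ∈ R', ∑ g ∈ O, x f g * (if ∃ a ∈ g, ∃ b ∈ g, s a ≠ s b then 1 else 0)) ≤
      3 / 8 * (∑ g ∈ O, ∑ h ∈ O, x g h) + 1 / 2 * (∑ e ∈ E', ∑ g ∈ O, x e g) +
        ∑ f ∈ R', ∑ g ∈ O, x f g := by
  set M : ℝ := ((Finset.univ : Finset (V → ℤˣ)).card : ℝ) with hM
  have hA : ∑ s : V → ℤˣ, ∑ g ∈ O, ∑ h ∈ O, x g h * cost s g h ≤
      M * (3 / 8 * ∑ g ∈ O, ∑ h ∈ O, x g h) := by
    refine sum_univ_weight O O x hx0 (fun s g h => cost s g h) (3 / 8) ?_
    intro g hg h hh hx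
    have h1 : ¬ Meets g h := fun hm => hx (hO' g hg h hh hm)
    have h2 := hO g hg
    have h3 := hO h hh
    induction g using Sym2.ind with
    | _ a b =>
      induction h using Sym2.ind with
      | _ c d =>
        rw [Sym2.mk_isDiag_iff] at h2 h3
        obtain ⟨h5, h6, h7, h8⟩ := not_meets_mk h1
        exact (sum_univ_cost h2 h5 h6 h7 h8 h3).le
  have hB : ∑ s : V → ℤˣ, ∑ e ∈ E', ∑ g ∈ O, x e g *
        (if ∃ y ∈ e, y ∉ N ∧ ∀ v ∈ g, s v = s y then 1 else 0) ≤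
      M * (1 / 4 * ∑ e ∈ E', ∑ g ∈ O, x e g) := by
    refine sum_univ_weight E' O x hx0
      (fun s e g => if ∃ y ∈ e, y ∉ N ∧ ∀ v ∈ g, s v = s y then 1 else 0) (1 / 4) ?_
    intro e he g hg hx
    have h1 : ¬ Meets e g := fun hm => hx (hE e he g hg hm)
    have h2 := hO g hg
    obtain ⟨v, hv, hvN⟩ := hEN e he
    obtain ⟨y, rfl⟩ := Sym2.mem_iff_exists.1 hv
    by_cases hy : y ∈ N
    · have h3 : ∀ s : V → ℤˣ,
          (if ∃ y' ∈ s(v, y), y' ∉ N ∧ ∀ w ∈ g, s w = s y' then (1 : ℝ) else 0) = 0 := by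
        intro s
        rw [if_neg]
        rintro ⟨y', hy', hyN, _⟩
        rw [Sym2.mem_iff] at hy'
        rcases hy' with rfl | rfl
        · exact hyN hvN
        · exact hyN hy
      simp only [h3, Finset.sum_const_zero]
      positivity
    · induction g using Sym2.ind with
      | _ a b =>
        rw [Sym2.mk_isDiag_iff] at h2
        obtain ⟨h5, h6, h7, h8⟩ := not_meets_mk h1
        simp only [ind_eq N _ hvN hy]
        simp only [Finset.sum_add_distrib, ← Finset.mul_sum]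
        rw [sum_univ_pair h7.symm, sum_univ_pair h8.symm, sum_univ_pair h2, Finset.sum_const,
          nsmul_eq_mul]
        refine le_of_eq ?_
        ring
  have hC : ∑ s : V → ℤˣ, ∑ f ∈ R', ∑ g ∈ O, x f g *
        (if ∃ a ∈ g, ∃ b ∈ g, s a ≠ s b then 1 else 0) ≤
      M * (1 / 2 * ∑ f ∈ R', ∑ g ∈ O, x f g) := by
    refine sum_univ_weight R' O x hx0
      (fun s _ g => if ∃ a ∈ g, ∃ b ∈ g, s a ≠ s b then 1 else 0) (1 / 2) ?_
    intro f hf g hg hx
    have h2 := hO g hg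
    induction g using Sym2.ind with
    | _ a b =>
      rw [Sym2.mk_isDiag_iff] at h2
      simp only [ind_ne]
      simp only [Finset.sum_sub_distrib, ← Finset.mul_sum]
      rw [sum_univ_pair h2, Finset.sum_const, nsmul_eq_mul]
      refine le_of_eq ?_
      ring
  obtain ⟨s, _, hs⟩ := Finset.exists_le_of_sum_le (s := (Finset.univ : Finset (V → ℤˣ)))
    (f := fun s => (∑ g ∈ O, ∑ h ∈ O, x g h * cost s g h) +
      2 * (∑ e ∈ E', ∑ g ∈ O, x e g *
        (if ∃ y ∈ e, y ∉ N ∧ ∀ v ∈ g, s v = s y then 1 else 0)) +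
      2 * (∑ f ∈ R', ∑ g ∈ O, x f g * (if ∃ a ∈ g, ∃ b ∈ g, s a ≠ s b then 1 else 0)))
    (g := fun _ => 3 / 8 * (∑ g ∈ O, ∑ h ∈ O, x g h) +
      1 / 2 * (∑ e ∈ E', ∑ g ∈ O, x e g) + ∑ f ∈ R', ∑ g ∈ O, x f g)
    ⟨fun _ => 1, Finset.mem_univ _⟩ (by
      rw [Finset.sum_const, nsmul_eq_mul, Finset.sum_add_distrib, Finset.sum_add_distrib,
        ← Finset.mul_sum, ← Finset.mul_sum, ← hM]
      nlinarith [hA, hB, hC])
  exact ⟨s, hs⟩

end H29.BT
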