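import Pool.Agent.H29.BP.Loc

/-!
# [H29 BT OPS] operations with drawings: homeomorphisms, embeddings, unions

Paper proofs. `phom`: the image of an arc under a continuous injective map is an arc (`T` is
continuous and injective on its source, which contains all arcs); `T '' A ∩ T '' B = T '' (A ∩ B)` for
subsets of the source; a chart `φ` at `p` for two arcs gives the chart `T.symm ≫ₕ φ` at `T p`
(`OpenPartialHomeomorph.trans`; points `z` of its source are in `T.target` and
`z ∈ T '' A ↔ T.symm z ∈ A` for `A ⊆ T.source`).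

`embed`: `arc' f = D.arc e` if `f = e.map ι` for some edge `e` of `H` (unique, `Sym2.map.injective`), the
edges of `H.map ι` are the `e.map ι`. `avoid`: if `pos ω ∈ D.arc e` then `ω = ι w` by `h2`, so
`D.pos w ∈ D.arc e`. A common point `p` of two arcs which is not in `range pos` is not in
`range D.pos` (`range D.pos ⊆ range pos` by `h1`). Crossings: the same points.

`merge`: `arc f = D₁.arc f` if `f ∈ K₁.edgeSet`, otherwise `D₂.arc f`. The edges of `K₁` and `K₂` are
different (`hd`). Common points of `D₁.arc e` and `D₂.arc f` are in the finite set `range pos`; all other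
properties concern only one of the two drawings, or a common point which is in `range pos`.
-/

set_option autoImplicit false

open Set

namespace H29.BT

open H29.BP

variable {W Ω : Type}

/-- the image of an arc under an injective continuous map -/
theorem arc_image {a b : ℂ} {γ : Set ℂ} (h : IsArc a b γ) (f : ℂ → ℂ) (hf : ContinuousOn f γ)
    (hi : InjOn f γ) : IsArc (f a) (f b) (f '' γ) := by
  obtain ⟨g, hgc, hgi, h0, h1, rfl⟩ := h
  refine ⟨fun t => f (g t), ?_, ?_, congrArg f h0, congrArg f h1, ?_⟩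
  · exact hf.comp hgc (mapsTo_image _ _)
  · intro x hx y hy hxy
    exact hgi hx hy (hi (mem_image_of_mem _ hx) (mem_image_of_mem _ hy) hxy)
  · rw [Set.image_image]

theorem mem_image_T (T : OpenPartialHomeomorph ℂ ℂ) {A : Set ℂ} (hA : A ⊆ T.source) {z : ℂ}
    (hz : z ∈ T.target) : z ∈ T '' A ↔ T.symm z ∈ A := by
  constructor
  · rintro ⟨w, hw, rfl⟩
    rwa [T.left_inv (hA hw)]
  · intro h
    exact ⟨T.symm z, h, T.right_inv hz⟩

theorem cross_image (T : OpenPartialHomeomorph ℂ ℂ) {A B : Set ℂ} (hA : A ⊆ T.source)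
    (hB : B ⊆ T.source) {p : ℂ} (hp : p ∈ T.source) (h : CrossAt A B p) :
    CrossAt (T '' A) (T '' B) (T p) := by
  obtain ⟨φ, h1, h2, h3⟩ := h
  refine ⟨T.symm.trans φ, ?_, ?_, ?_⟩
  · rw [OpenPartialHomeomorph.trans_source]
    refine ⟨T.map_source hp, ?_⟩
    show T.symm (T p) ∈ φ.source
    rw [T.left_inv hp]
    exact h1
  · show φ (T.symm (T p)) = 0
    rw [T.left_inv hp]
    exact h2
  · intro z hz
    rw [OpenPartialHomeomorph.trans_source] at hz
    have hz1 : z ∈ T.target := hz.1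
    have hz2 : T.symm z ∈ φ.source := hz.2
    rw [mem_image_T T hA hz1, mem_image_T T hB hz1]
    exact h3 _ hz2

theorem phom {H : SimpleGraph W} (D : Drawing H) (T : OpenPartialHomeomorph ℂ ℂ)
    (h1 : ∀ w, D.pos w ∈ T.source) (h2 : ∀ e ∈ H.edgeSet, D.arc e ⊆ T.source) :
    ∃ D' : Drawing H, (∀ w, D'.pos w = T (D.pos w)) ∧
      (∀ e ∈ H.edgeSet, D'.arc e = T '' D.arc e) ∧ D'.crossings ⊆ T '' D.crossings ∧
      ∀ e ∈ H.edgeSet, ∀ f ∈ H.edgeSet, D'.X e f ⊆ T '' D.X e f := by
  have hT : InjOn T T.source := T.injOn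
  have hpos : ∀ (w : W) (e : Sym2 W), e ∈ H.edgeSet → T (D.pos w) ∈ T '' D.arc e →
      D.pos w ∈ D.arc e := by
    rintro w e he ⟨z, hz, h⟩
    rwa [hT (h2 e he hz) (h1 w) h] at hz
  have hcom : ∀ e ∈ H.edgeSet, ∀ f ∈ H.edgeSet, ∀ p, p ∈ T '' D.arc e → p ∈ T '' D.arc f →
      ∃ z, z ∈ D.arc e ∧ z ∈ D.arc f ∧ T z = p := by
    rintro e he f hf p ⟨z, hz, rfl⟩ ⟨z', hz', h⟩
    rw [hT (h2 f hf hz') (h2 e he hz) h] at hz'
    exact ⟨z, hz, hz', rfl⟩
  have hran : ∀ z, T z ∉ range (fun w => T (D.pos w)) → z ∉ range D.pos := by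
    rintro z hz ⟨w, rfl⟩
    exact hz ⟨w, rfl⟩
  have hex : ∃ D' : Drawing H, D'.pos = (fun w => T (D.pos w)) ∧
      D'.arc = fun e => T '' D.arc e := by
    refine ⟨{ pos := fun w => T (D.pos w)
              arc := fun e => T '' D.arc e
              pos_inj := fun v w h => D.pos_inj (hT (h1 v) (h1 w) h)
              isArc := fun u v huv => arc_image (D.isArc u v huv) T
                (T.continuousOn.mono (h2 _ huv)) (hT.mono (h2 _ huv))
              avoid := fun u v w huv hw => D.avoid u v w huv (hpos w _ huv hw)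
              inter_finite := ?_
              proper := ?_
              no_triple := ?_ }, rfl, rfl⟩
    · intro e he f hf hef
      refine Set.Finite.subset ((D.inter_finite e he f hf hef).image T) ?_
      rintro p ⟨hp, hp'⟩
      obtain ⟨z, hz, hz', rfl⟩ := hcom e he f hf p hp hp'
      exact ⟨z, ⟨hz, hz'⟩, rfl⟩
    · rintro e he f hf hef p ⟨hp, hp'⟩ hpp
      obtain ⟨z, hz, hz', rfl⟩ := hcom e he f hf p hp hp'
      exact cross_image T (h2 e he) (h2 f hf) (h2 e he hz)
        (D.proper e he f hf hef z ⟨hz, hz'⟩ (hran z hpp))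
    · rintro e he f hf g hg hef heg hfg p ⟨hp, hp'⟩ hpg
      obtain ⟨z, hz, hz', rfl⟩ := hcom e he f hf p hp hp'
      obtain ⟨z', hz1, hz2, h⟩ := hcom e he g hg _ hp hpg
      rw [hT (h2 e he hz1) (h2 e he hz) h] at hz2
      obtain ⟨w, hw⟩ := D.no_triple e he f hf g hg hef heg hfg z ⟨hz, hz'⟩ hz2
      exact ⟨w, congrArg T hw⟩
  obtain ⟨D', hD1, hD2⟩ := hex
  have hX : ∀ e ∈ H.edgeSet, ∀ f ∈ H.edgeSet, D'.X e f ⊆ T '' D.X e f := by
    rintro e he f hf p ⟨⟨hp, hp'⟩, hpp⟩
    rw [hD2] at hp hp'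
    rw [hD1] at hpp
    obtain ⟨z, hz, hz', rfl⟩ := hcom e he f hf p hp hp'
    exact ⟨z, ⟨⟨hz, hz'⟩, hran z hpp⟩, rfl⟩
  refine ⟨D', fun w => by rw [hD1], fun e _ => by rw [hD2], ?_, hX⟩
  rintro p ⟨e, he, f, hf, hef, hp⟩
  obtain ⟨z, hz, rfl⟩ := hX e he f hf hp
  exact ⟨z, ⟨e, he, f, hf, hef, hz⟩, rfl⟩

theorem map_edge {H : SimpleGraph W} {ι : W ↪ Ω} {f : Sym2 Ω} (hf : f ∈ (H.map ι).edgeSet) :
    ∃ e ∈ H.edgeSet, f = e.map ι := by
  induction f using Sym2.ind with
  | _ x y =>
    rw [SimpleGraph.mem_edgeSet, SimpleGraph.map_adj] at hf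
    obtain ⟨u, v, huv, rfl, rfl⟩ := hf
    exact ⟨s(u, v), huv, rfl⟩

theorem embed {H : SimpleGraph W} (D : Drawing H) (ι : W ↪ Ω) (pos : Ω → ℂ)
    (hinj : Function.Injective pos) (h1 : ∀ w, pos (ι w) = D.pos w)
    (h2 : ∀ ω, ω ∉ range ι → ∀ e ∈ H.edgeSet, pos ω ∉ D.arc e) :
    ∃ D' : Drawing (H.map ι), D'.pos = pos ∧
      (∀ e ∈ H.edgeSet, D'.arc (e.map ι) = D.arc e) ∧ D'.crossings ⊆ D.crossings := by
  classical
  have hmapinj : Function.Injective (Sym2.map ι) := Sym2.map.injective ι.injective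
  set arc' : Sym2 Ω → Set ℂ := fun f =>
    if h : ∃ e : Sym2 W, e.map ι = f then D.arc (Classical.choose h) else ∅ with harc'
  have harc : ∀ e : Sym2 W, arc' (e.map ι) = D.arc e := by
    intro e
    have h : ∃ e' : Sym2 W, e'.map ι = e.map ι := ⟨e, rfl⟩
    rw [harc']
    simp only
    rw [dif_pos h, hmapinj (Classical.choose_spec h)]
  have hran : ∀ z, z ∉ range pos → z ∉ range D.pos := by
    rintro z hz ⟨w, rfl⟩
    exact hz ⟨ι w, h1 w⟩
  have hex : ∃ D' : Drawing (H.map ι), D'.pos = pos ∧ D'.arc = arc' := by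
    refine ⟨{ pos := pos
              arc := arc'
              pos_inj := hinj
              isArc := ?_
              avoid := ?_
              inter_finite := ?_
              proper := ?_
              no_triple := ?_ }, rfl, rfl⟩
    · intro x y hxy
      rw [SimpleGraph.map_adj] at hxy
      obtain ⟨u, v, huv, rfl, rfl⟩ := hxy
      have h3 := harc s(u, v)
      rw [Sym2.map_mk] at h3
      rw [h3, h1, h1]
      exact D.isArc u v huv
    · intro x y z hxy hz
      rw [SimpleGraph.map_adj] at hxy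
      obtain ⟨u, v, huv, rfl, rfl⟩ := hxy
      have h3 := harc s(u, v)
      rw [Sym2.map_mk] at h3
      rw [h3] at hz
      by_cases h4 : z ∈ range ι
      · obtain ⟨w, rfl⟩ := h4
        rw [h1] at hz
        rcases D.avoid u v w huv hz with h5 | h5
        · exact Or.inl (by rw [h5])
        · exact Or.inr (by rw [h5])
      · exact absurd hz (h2 z h4 _ huv)
    · intro e he f hf hef
      obtain ⟨e', he', rfl⟩ := map_edge he
      obtain ⟨f', hf', rfl⟩ := map_edge hf
      rw [harc, harc]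
      exact D.inter_finite e' he' f' hf' (fun h => hef (by rw [h]))
    · intro e he f hf hef p hp hpp
      obtain ⟨e', he', rfl⟩ := map_edge he
      obtain ⟨f', hf', rfl⟩ := map_edge hf
      rw [harc, harc] at hp ⊢
      exact D.proper e' he' f' hf' (fun h => hef (by rw [h])) p hp (hran p hpp)
    · intro e he f hf g hg hef heg hfg p hp hpg
      obtain ⟨e', he', rfl⟩ := map_edge he
      obtain ⟨f', hf', rfl⟩ := map_edge hf
      obtain ⟨g', hg', rfl⟩ := map_edge hg
      rw [harc, harc] at hp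
      rw [harc] at hpg
      obtain ⟨w, hw⟩ := D.no_triple e' he' f' hf' g' hg' (fun h => hef (by rw [h]))
        (fun h => heg (by rw [h])) (fun h => hfg (by rw [h])) p hp hpg
      exact ⟨ι w, (h1 w).trans hw⟩
  obtain ⟨D', hD1, hD2⟩ := hex
  refine ⟨D', hD1, fun e _ => by rw [hD2, harc], ?_⟩
  rintro p ⟨e, he, f, hf, hef, hp, hpp⟩
  obtain ⟨e', he', rfl⟩ := map_edge he
  obtain ⟨f', hf', rfl⟩ := map_edge hf
  rw [hD2, harc, harc] at hp
  rw [hD1] at hpp
  exact ⟨e', he', f', hf', fun h => hef (by rw [h]), hp, hran p hpp⟩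

theorem merge [Finite Ω] {K₁ K₂ : SimpleGraph Ω} (D₁ : Drawing K₁) (D₂ : Drawing K₂)
    (hpos : D₁.pos = D₂.pos) (hd : Disjoint K₁ K₂)
    (h : ∀ e ∈ K₁.edgeSet, ∀ f ∈ K₂.edgeSet, D₁.arc e ∩ D₂.arc f ⊆ range D₁.pos) :
    ∃ D : Drawing (K₁ ⊔ K₂), D.pos = D₁.pos ∧ (∀ e ∈ K₁.edgeSet, D.arc e = D₁.arc e) ∧
      (∀ e ∈ K₂.edgeSet, D.arc e = D₂.arc e) ∧ D.crossings ⊆ D₁.crossings ∪ D₂.crossings := by
  classical
  have hd' : ∀ e, e ∈ K₁.edgeSet → e ∉ K₂.edgeSet := by
    intro e h1 h2
    have h3 : e ∈ (K₁ ⊓ K₂).edgeSet := by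
      rw [SimpleGraph.edgeSet_inf]
      exact ⟨h1, h2⟩
    rw [disjoint_iff.1 hd, SimpleGraph.edgeSet_bot] at h3
    exact h3
  set arc' : Sym2 Ω → Set ℂ := fun e => if e ∈ K₁.edgeSet then D₁.arc e else D₂.arc e with harc'
  have ha1 : ∀ e ∈ K₁.edgeSet, arc' e = D₁.arc e := fun e he => if_pos he
  have ha2 : ∀ e ∈ K₂.edgeSet, arc' e = D₂.arc e := fun e he => if_neg (fun h => hd' e h he)
  have hedge : ∀ e ∈ (K₁ ⊔ K₂).edgeSet, e ∈ K₁.edgeSet ∨ e ∈ K₂.edgeSet := by
    intro e he
    rw [SimpleGraph.edgeSet_sup] at he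
    exact he
  have hfin : (range D₁.pos).Finite := Set.finite_range _
  have hex : ∃ D : Drawing (K₁ ⊔ K₂), D.pos = D₁.pos ∧ D.arc = arc' := by
    refine ⟨{ pos := D₁.pos
              arc := arc'
              pos_inj := D₁.pos_inj
              isArc := ?_
              avoid := ?_
              inter_finite := ?_
              proper := ?_
              no_triple := ?_ }, rfl, rfl⟩
    · intro u v huv
      rw [SimpleGraph.sup_adj] at huv
      rcases huv with huv | huv
      · rw [ha1 _ huv]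
        exact D₁.isArc u v huv
      · rw [ha2 _ huv, hpos]
        exact D₂.isArc u v huv
    · intro u v w huv hw
      rw [SimpleGraph.sup_adj] at huv
      rcases huv with huv | huv
      · rw [ha1 _ huv] at hw
        exact D₁.avoid u v w huv hw
      · rw [ha2 _ huv, hpos] at hw
        exact D₂.avoid u v w huv hw
    · intro e he f hf hef
      rcases hedge e he with he | he <;> rcases hedge f hf with hf | hf
      · rw [ha1 e he, ha1 f hf]
        exact D₁.inter_finite e he f hf hef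
      · rw [ha1 e he, ha2 f hf]
        exact hfin.subset (h e he f hf)
      · rw [ha2 e he, ha1 f hf, Set.inter_comm]
        exact hfin.subset (h f hf e he)
      · rw [ha2 e he, ha2 f hf]
        exact D₂.inter_finite e he f hf hef
    · intro e he f hf hef p hp hpp
      rcases hedge e he with he | he <;> rcases hedge f hf with hf | hf
      · rw [ha1 e he, ha1 f hf] at hp ⊢
        exact D₁.proper e he f hf hef p hp hpp
      · rw [ha1 e he, ha2 f hf] at hp
        exact absurd (h e he f hf hp) hpp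
      · rw [ha2 e he, ha1 f hf] at hp
        exact absurd (h f hf e he ⟨hp.2, hp.1⟩) hpp
      · rw [ha2 e he, ha2 f hf] at hp ⊢
        rw [hpos] at hpp
        exact D₂.proper e he f hf hef p hp hpp
    · intro e he f hf g hg hef heg hfg p hp hpg
      rcases hedge e he with he | he <;> rcases hedge f hf with hf | hf <;>
        rcases hedge g hg with hg | hg
      · rw [ha1 e he, ha1 f hf] at hp
        rw [ha1 g hg] at hpg
        exact D₁.no_triple e he f hf g hg hef heg hfg p hp hpg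
      · rw [ha1 e he, ha1 f hf] at hp
        rw [ha2 g hg] at hpg
        exact h e he g hg ⟨hp.1, hpg⟩
      · rw [ha1 e he, ha2 f hf] at hp
        exact h e he f hf hp
      · rw [ha1 e he, ha2 f hf] at hp
        exact h e he f hf hp
      · rw [ha2 e he, ha1 f hf] at hp
        exact h f hf e he ⟨hp.2, hp.1⟩
      · rw [ha2 e he, ha1 f hf] at hp
        exact h f hf e he ⟨hp.2, hp.1⟩
      · rw [ha2 e he, ha2 f hf] at hp
        rw [ha1 g hg] at hpg
        exact h g hg e he ⟨hpg, hp.1⟩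
      · rw [ha2 e he, ha2 f hf] at hp
        rw [ha2 g hg] at hpg
        rw [hpos]
        exact D₂.no_triple e he f hf g hg hef heg hfg p hp hpg
  obtain ⟨D, hD1, hD2⟩ := hex
  refine ⟨D, hD1, fun e he => by rw [hD2, ha1 e he], fun e he => by rw [hD2, ha2 e he], ?_⟩
  rintro p ⟨e, he, f, hf, hef, hp, hpp⟩
  rw [hD2] at hp
  rw [hD1] at hpp
  rcases hedge e he with he | he <;> rcases hedge f hf with hf | hf
  · rw [ha1 e he, ha1 f hf] at hp
    exact Or.inl ⟨e, he, f, hf, hef, hp, hpp⟩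
  · rw [ha1 e he, ha2 f hf] at hp
    exact absurd (h e he f hf hp) hpp
  · rw [ha2 e he, ha1 f hf] at hp
    exact absurd (h f hf e he ⟨hp.2, hp.1⟩) hpp
  · rw [ha2 e he, ha2 f hf] at hp
    rw [hpos] at hpp
    exact Or.inr ⟨e, he, f, hf, hef, hp, hpp⟩

end H29.BT
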