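import Pool.Agent.H29.BT.Strip
import Pool.Agent.H29.BT.Ops
import Pool.Agent.H29.BP.CDef

/-!
# [H29 BT BIG] the drawing of the large graph

Paper proof. `DB' = phom` of `DB` with the map `z ↦ -z` (`(Homeomorph.neg ℂ).toOpenPartialHomeomorph`): all places and arcs have
`im ≤ -1`, equality only for ports. `strip` with `posA = DA.pos`, `posB = DB'.pos` (for `x ∈ N`, `y ∈ A`
adjacent, `mid s(x,y)` is a neighbour of `rt` in the sheet graph, so `inr (mid s(x,y))` is a port) gives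
`DS`. `embed` with `ι = iA`, `pos = DS.pos` gives a drawing of `KA` (places of `inl v` have
`|im| < 1`, places of the lower sheet have `im < 0`, so they are not on the arcs of the upper sheet), in
the same way of `KB`. `merge` twice: arcs of the sheets are disjoint (`im ≥ 1`, `im ≤ -1`); a common
point of an arc of the upper sheet and an arc of the strip has `im = 1`, so it is in
`range pos`. The graphs `KA`, `KB`, `KS` are pairwise disjoint (edges of `KA` have both ends in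
`range iA`, edges of `KB` in `range iB`, edges of `KS` have an end `inl x`). The crossings are in the union of the
crossings of the three drawings: `Set.ncard_union_le`, `Set.ncard_image_le`. The last two properties:
`X` for edges of the same sheet: the arcs are the same sets as in `DA`, and a common point which is not in
`range D.pos` is not in `range DA.pos`.
-/

set_option autoImplicit false

open Set

namespace H29.BT

open H29.BP

theorem big {V : Type} [Finite V] (G : SimpleGraph V) (N A B : Set V) (R : Set (Sym2 V))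
    (hNA : Disjoint N A) (hNB : Disjoint N B) (hAB : Disjoint A B)
    (DA : Drawing (HP (SG G N A R) rt)) (hA : Upper DA)
    (DB : Drawing (HP (SG G N B R) rt)) (hB : Upper DB) :
    ∃ D : Drawing (KA G N A R ⊔ KB G N B R ⊔ KS G N A B),
      (∀ v, |(D.pos (Sum.inl v)).im| < 1) ∧
      (∀ w, 1 ≤ (D.pos (iA w)).im) ∧ (∀ w, (D.pos (iB w)).im ≤ -1) ∧
      (∀ e ∈ (KA G N A R).edgeSet, ∀ z ∈ D.arc e, 1 ≤ z.im ∧ (z.im = 1 → z ∈ range D.pos)) ∧
      (∀ e ∈ (KB G N B R).edgeSet, ∀ z ∈ D.arc e, z.im ≤ -1 ∧ (z.im = -1 → z ∈ range D.pos)) ∧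
      (∀ e ∈ (KS G N A B).edgeSet, ∀ z ∈ D.arc e, |z.im| ≤ 1) ∧
      (∀ e ∈ (HP (SG G N A R) rt).edgeSet, ∀ f ∈ (HP (SG G N A R) rt).edgeSet,
        DA.X e f = ∅ → D.X (e.map iA) (f.map iA) = ∅) ∧
      (∀ e ∈ (HP (SG G N B R) rt).edgeSet, ∀ f ∈ (HP (SG G N B R) rt).edgeSet,
        DB.X e f = ∅ → D.X (e.map iB) (f.map iB) = ∅) ∧
      2 * D.cr ≤ 2 * DA.cr + 2 * DB.cr + (SP G N).card := by
  obtain ⟨hA1, hA2, hA3⟩ := hA
  obtain ⟨hB1, hB2, hB3⟩ := hB
  -- the reflected drawing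
  set T : OpenPartialHomeomorph ℂ ℂ := (Homeomorph.neg ℂ).toOpenPartialHomeomorph with hT
  have hTz : ∀ z : ℂ, T z = -z := fun z => rfl
  have hTs : T.source = univ := rfl
  obtain ⟨DB', hb1, hb2, hb3, hb4⟩ := phom DB T (fun w => by rw [hTs]; trivial)
    (fun e _ => by rw [hTs]; exact subset_univ _)
  have hadj : ∀ (C : Set V) (x y : V), G.Adj x y → x ∈ N → y ∈ C →
      (SG G N C R).Adj rt (mid s(x, y)) := by
    intro C x y hxy hx hy
    rw [SG, SimpleGraph.fromRel_adj]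
    refine ⟨by simp [rt, mid], Or.inl (Or.inr (Or.inl ⟨x, y, hxy, hx, hy, rfl, rfl⟩))⟩
  have hB1' : ∀ w, (DB'.pos w).im ≤ -1 := by
    intro w
    rw [hb1, hTz, Complex.neg_im]
    linarith [hB1 w]
  have hB3' : ∀ e ∈ (HP (SG G N B R) rt).edgeSet, ∀ z ∈ DB'.arc e, z.im ≤ -1 ∧
      (z.im = -1 → z ∈ range DB'.pos) := by
    intro e he z hz
    rw [hb2 e he] at hz
    obtain ⟨y, hy, rfl⟩ := hz
    rw [hTz, Complex.neg_im]
    obtain ⟨k1, k2⟩ := hB3 e he y hy
    refine ⟨by linarith, fun k => ?_⟩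
    obtain ⟨w, hw⟩ := k2 (by linarith)
    exact ⟨w, by rw [hb1, hTz, hw]⟩
  obtain ⟨DS, hs1, hs2, hs3, hs4, hs5, hs6⟩ := strip G N A B hNA hNB hAB DA.pos DB'.pos
    DA.pos_inj DB'.pos_inj hA1 hB1'
    (fun x y hxy hx hy => (hA2 _).2 ⟨_, hadj A x y hxy hx hy, rfl⟩)
    (fun x y hxy hx hy => by
      rw [hb1, hTz, Complex.neg_im, (hB2 _).2 ⟨_, hadj B x y hxy hx hy, rfl⟩])
  obtain ⟨DKA, ha1, ha2, ha3⟩ := embed DA iA DS.pos DS.pos_inj hs1 (by
    rintro (v | w | w) hω e he hz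
    · have h1 := (hA3 e he _ hz).1
      have h2 := abs_lt.1 (hs3 v)
      linarith [h2.2]
    · exact hω ⟨w, rfl⟩
    · have h1 := (hA3 e he _ hz).1
      have h2 := hB1' w
      have h3 := hs2 w
      have h4 : DS.pos (Sum.inr (Sum.inr w)) = DB'.pos w := h3
      rw [h4] at h1
      linarith)
  obtain ⟨DKB, hc1, hc2, hc3⟩ := embed DB' iB DS.pos DS.pos_inj hs2 (by
    rintro (v | w | w) hω e he hz
    · have h1 := (hB3' e he _ hz).1
      have h2 := abs_lt.1 (hs3 v)
      linarith [h2.1]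
    · have h1 := (hB3' e he _ hz).1
      have h2 := hA1 w
      have h3 := hs1 w
      have h4 : DS.pos (Sum.inr (Sum.inl w)) = DA.pos w := h3
      rw [h4] at h1
      linarith
    · exact hω ⟨w, rfl⟩)
  -- arcs of the two sheets
  have hKA : ∀ e ∈ (KA G N A R).edgeSet, ∀ z ∈ DKA.arc e, 1 ≤ z.im ∧
      (z.im = 1 → z ∈ range DS.pos) := by
    intro e he z hz
    obtain ⟨e', he', rfl⟩ := map_edge he
    rw [ha2 e' he'] at hz
    refine ⟨(hA3 e' he' z hz).1, fun k => ?_⟩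
    obtain ⟨w, hw⟩ := (hA3 e' he' z hz).2 k
    exact ⟨iA w, by rw [hs1, hw]⟩
  have hKB : ∀ e ∈ (KB G N B R).edgeSet, ∀ z ∈ DKB.arc e, z.im ≤ -1 ∧
      (z.im = -1 → z ∈ range DS.pos) := by
    intro e he z hz
    obtain ⟨e', he', rfl⟩ := map_edge he
    rw [hc2 e' he'] at hz
    refine ⟨(hB3' e' he' z hz).1, fun k => ?_⟩
    obtain ⟨w, hw⟩ := (hB3' e' he' z hz).2 k
    exact ⟨iB w, by rw [hs2, hw]⟩
  have hAe : ∀ p q, (KA G N A R).Adj p q → ∃ u v, p = iA u ∧ q = iA v := by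
    intro p q h
    rw [KA, SimpleGraph.map_adj] at h
    obtain ⟨u, v, _, rfl, rfl⟩ := h
    exact ⟨u, v, rfl, rfl⟩
  have hBe : ∀ p q, (KB G N B R).Adj p q → ∃ u v, p = iB u ∧ q = iB v := by
    intro p q h
    rw [KB, SimpleGraph.map_adj] at h
    obtain ⟨u, v, _, rfl, rfl⟩ := h
    exact ⟨u, v, rfl, rfl⟩
  have hSe : ∀ p q, (KS G N A B).Adj p q → ∃ x, p = Sum.inl x ∨ q = Sum.inl x := by
    intro p q h
    rw [KS, SimpleGraph.fromRel_adj] at h
    obtain ⟨_, (⟨x, x', _, _, _, h, _⟩ | ⟨x, y, _, _, _, h, _⟩ | ⟨x, y, _, _, _, h, _⟩) |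
      (⟨x, x', _, _, _, h, _⟩ | ⟨x, y, _, _, _, h, _⟩ | ⟨x, y, _, _, _, h, _⟩)⟩ := h
    · exact ⟨x, Or.inl h⟩
    · exact ⟨x, Or.inl h⟩
    · exact ⟨x, Or.inl h⟩
    · exact ⟨x, Or.inr h⟩
    · exact ⟨x, Or.inr h⟩
    · exact ⟨x, Or.inr h⟩
  have hd1 : Disjoint (KA G N A R) (KB G N B R) := by
    rw [SimpleGraph.disjoint_left]
    intro p q h h'
    obtain ⟨u, v, rfl, rfl⟩ := hAe p q h
    obtain ⟨u', v', h1, h2⟩ := hBe _ _ h'
    simp [iA, iB] at h1
  have hd2 : Disjoint (KA G N A R ⊔ KB G N B R) (KS G N A B) := by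
    rw [SimpleGraph.disjoint_left]
    intro p q h h'
    obtain ⟨x, hx⟩ := hSe p q h'
    rw [SimpleGraph.sup_adj] at h
    rcases h with h | h
    · obtain ⟨u, v, rfl, rfl⟩ := hAe p q h
      simp [iA] at hx
    · obtain ⟨u, v, rfl, rfl⟩ := hBe p q h
      simp [iB] at hx
  obtain ⟨D1, hm1, hm2, hm3, hm4⟩ := merge DKA DKB (ha1.trans hc1.symm) hd1 (by
    rintro e he f hf z ⟨hz, hz'⟩
    have h1 := (hKA e he z hz).1
    have h2 := (hKB f hf z hz').1
    linarith)
  obtain ⟨D, hn1, hn2, hn3, hn4⟩ := merge D1 DS (hm1.trans ha1) hd2 (by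
    rintro e he f hf z ⟨hz, hz'⟩
    rw [hm1, ha1]
    have h2 := (hs5 f hf z hz').1
    rw [SimpleGraph.edgeSet_sup] at he
    rcases he with he | he
    · rw [hm2 e he] at hz
      obtain ⟨k1, k2⟩ := hKA e he z hz
      exact k2 (le_antisymm (abs_le.1 h2).2 k1)
    · rw [hm3 e he] at hz
      obtain ⟨k1, k2⟩ := hKB e he z hz
      exact k2 (le_antisymm k1 (abs_le.1 h2).1))
  have hpos : D.pos = DS.pos := hn1.trans (hm1.trans ha1)
  have harcA : ∀ e ∈ (KA G N A R).edgeSet, D.arc e = DKA.arc e := by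
    intro e he
    rw [hn2 e (by rw [SimpleGraph.edgeSet_sup]; exact Or.inl he), hm2 e he]
  have harcB : ∀ e ∈ (KB G N B R).edgeSet, D.arc e = DKB.arc e := by
    intro e he
    rw [hn2 e (by rw [SimpleGraph.edgeSet_sup]; exact Or.inr he), hm3 e he]
  have hmemA : ∀ e ∈ (HP (SG G N A R) rt).edgeSet, e.map iA ∈ (KA G N A R).edgeSet := by
    intro e he
    induction e using Sym2.ind with
    | _ x y =>
      rw [Sym2.map_mk, SimpleGraph.mem_edgeSet, KA, SimpleGraph.map_adj]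
      exact ⟨x, y, he, rfl, rfl⟩
  have hmemB : ∀ e ∈ (HP (SG G N B R) rt).edgeSet, e.map iB ∈ (KB G N B R).edgeSet := by
    intro e he
    induction e using Sym2.ind with
    | _ x y =>
      rw [Sym2.map_mk, SimpleGraph.mem_edgeSet, KB, SimpleGraph.map_adj]
      exact ⟨x, y, he, rfl, rfl⟩
  refine ⟨D, ?_, ?_, ?_, ?_, ?_, ?_, ?_, ?_, ?_⟩
  · intro v
    rw [hpos]
    exact hs3 v
  · intro w
    rw [hpos, hs1]
    exact hA1 w
  · intro w
    rw [hpos, hs2]
    exact hB1' w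
  · intro e he z hz
    rw [harcA e he] at hz
    rw [hpos]
    exact hKA e he z hz
  · intro e he z hz
    rw [harcB e he] at hz
    rw [hpos]
    exact hKB e he z hz
  · intro e he z hz
    rw [hn3 e he] at hz
    exact (hs5 e he z hz).1
  · intro e he f hf hX
    rw [Set.eq_empty_iff_forall_notMem]
    rintro z ⟨⟨hz, hz'⟩, hzz⟩
    rw [harcA _ (hmemA e he), ha2 e he] at hz
    rw [harcA _ (hmemA f hf), ha2 f hf] at hz'
    rw [hpos] at hzz
    have h1 : z ∈ DA.X e f := ⟨⟨hz, hz'⟩, by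
      rintro ⟨w, rfl⟩
      exact hzz ⟨iA w, hs1 w⟩⟩
    rw [hX] at h1
    exact h1
  · intro e he f hf hX
    rw [Set.eq_empty_iff_forall_notMem]
    rintro z ⟨⟨hz, hz'⟩, hzz⟩
    rw [harcB _ (hmemB e he), hc2 e he] at hz
    rw [harcB _ (hmemB f hf), hc2 f hf] at hz'
    rw [hpos] at hzz
    have h1 : z ∈ DB'.X e f := ⟨⟨hz, hz'⟩, by
      rintro ⟨w, rfl⟩
      exact hzz ⟨iB w, hs2 w⟩⟩
    have h2 := hb4 e he f hf h1
    rw [hX, Set.image_empty] at h2
    exact h2
  · have h1 : D.cr ≤ DA.cr + DB.cr + DS.cr := by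
      have hfA := DA.crossings_finite
      have hfB := DB.crossings_finite
      have hfS := DS.crossings_finite
      have hsub : D.crossings ⊆ (DA.crossings ∪ T '' DB.crossings) ∪ DS.crossings := by
        intro z hz
        rcases hn4 hz with hz | hz
        · rcases hm4 hz with hz | hz
          · exact Or.inl (Or.inl (ha3 hz))
          · exact Or.inl (Or.inr (hb3 (hc3 hz)))
        · exact Or.inr hz
      unfold Drawing.cr
      calc D.crossings.ncard ≤ ((DA.crossings ∪ T '' DB.crossings) ∪ DS.crossings).ncard :=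
            Set.ncard_le_ncard hsub ((hfA.union (hfB.image _)).union hfS)
        _ ≤ (DA.crossings ∪ T '' DB.crossings).ncard + DS.crossings.ncard :=
            Set.ncard_union_le _ _
        _ ≤ (DA.crossings.ncard + (T '' DB.crossings).ncard) + DS.crossings.ncard :=
            Nat.add_le_add_right (Set.ncard_union_le _ _) _
        _ ≤ (DA.crossings.ncard + DB.crossings.ncard) + DS.crossings.ncard :=
            Nat.add_le_add_right (Nat.add_le_add_left (Set.ncard_image_le hfB) _) _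
    refine le_trans (Nat.mul_le_mul_left 2 h1) ?_
    omega

end H29.BT
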