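import Mathlib

/-!
# [H29 BT CHOOSE] a crossing which is near to many half-edges (finite combinatorics)

`E` edges, `C` crossings, `inc c` the two edges which cross at `c`, `rk e c` the rank of the crossing `c` on the edge `e`
(counted from one end). A half-edge is a pair `(e, b)`; `rkb` is the rank counted from the end `b`.

Paper proof. Write `C_e` for the crossings on `e`, `cr e` for their number. By `hrk`, `hrki` the ranks are a bijection of `C_e` with
`{0, …, cr e - 1}`, and also the numbers `rkb`. Call an edge `f` short if `cr f < σ`.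
(1) For every `h ∈ Hs` there are exactly `R` crossings `c' ∈ C_{h.1}` with `rkb h c' < R` (`R ≤ cr h.1`).
(2) The number of pairs `(h, c')`, `h ∈ Hs`, `c' ∈ C_{h.1}`, `rkb h c' < R`, such that the other edge `f ∈ inc c'` is short, is at most
`2 |E| σ`: at most `|E| σ` pairs `(f, c')` with `f` short, `c' ∈ C_f`; `h.1` is the other element of `inc c'`, two values of `h.2`.
So the set `Hb` of all `h` with more than `R/2` such `c'` has `|Hb| R / 2 ≤ 2 |E| σ ≤ |Hs| R / 4` (by `h8`), `|Hb| ≤ |Hs| / 2`.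
(3) For `h ∈ Hs \ Hb` there are at least `R/2` crossings `c'` with `rkb h c' < R` whose other edge `f` is not short; and for these
at least `σ` crossings `c ∈ C_f` with `rk f c ≤ rk f c' + R`, `rk f c' ≤ rk f c + R` (at least `min (cr f) (R+1)`, and
`σ ≤ R`). So there are at least `(|Hs| / 2) (R / 2) σ = |Hs| R σ / 4` triples `(h, c', c)`.
(4) For given `(h, c)` there are at most two `c'` (`f ∈ inc c`, `inc c' = {h.1, f}`, `hone`). So at least `|Hs| R σ / 8` pairs
`(h, c)` with `Near h c`, and one of the `|C|` crossings is near to at least the average number.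
-/

set_option autoImplicit false

open scoped Classical

noncomputable section

namespace H29.BT

variable {ι κ : Type}

/-- the crossings on the edge `e` -/
def onE (C : Finset κ) (inc : κ → Finset ι) (e : ι) : Finset κ := C.filter fun c => e ∈ inc c

/-- the rank of `c` on `h.1`, counted from the end `h.2` -/
def rkb (C : Finset κ) (inc : κ → Finset ι) (rk : ι → κ → ℕ) (h : ι × Bool) (c : κ) : ℕ :=
  if h.2 then (onE C inc h.1).card - 1 - rk h.1 c else rk h.1 c

/-- one can go from the end `h.2` of `h.1` to the crossing `c` with a short way on `h.1` and a short way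
on an edge through `c` -/
def Near (C : Finset κ) (inc : κ → Finset ι) (rk : ι → κ → ℕ) (R : ℕ) (h : ι × Bool)
    (c : κ) : Prop :=
  ∃ c' ∈ C, h.1 ∈ inc c' ∧ rkb C inc rk h c' < R ∧ ∃ f ∈ inc c', f ≠ h.1 ∧ f ∈ inc c ∧
    rk f c ≤ rk f c' + R ∧ rk f c' ≤ rk f c + R

private theorem img_range {S : Finset κ} {g : κ → ℕ} (h1 : ∀ c ∈ S, g c < S.card)
    (h2 : ∀ c ∈ S, ∀ c' ∈ S, g c = g c' → c = c') : S.image g = Finset.range S.card := by
  apply Finset.eq_of_subset_of_card_le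
  · intro r hr
    obtain ⟨c, hc, rfl⟩ := Finset.mem_image.1 hr
    exact Finset.mem_range.2 (h1 c hc)
  · rw [Finset.card_range, Finset.card_image_of_injOn]
    intro a ha b hb hab
    exact h2 a ha b hb hab

private theorem cnt {S : Finset κ} {g : κ → ℕ} (h1 : ∀ c ∈ S, g c < S.card)
    (h2 : ∀ c ∈ S, ∀ c' ∈ S, g c = g c' → c = c') (Q : Finset ℕ)
    (hQ : Q ⊆ Finset.range S.card) (P : κ → Prop) [DecidablePred P]
    (hP : ∀ c ∈ S, g c ∈ Q → P c) :
    Q.card ≤ (S.filter P).card := by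
  have h3 : Q ⊆ (S.filter P).image g := by
    intro r hr
    have h4 := hQ hr
    rw [← img_range h1 h2] at h4
    obtain ⟨c, hc, rfl⟩ := Finset.mem_image.1 h4
    exact Finset.mem_image.2 ⟨c, Finset.mem_filter.2 ⟨hc, hP c hc hr⟩, rfl⟩
  exact (Finset.card_le_card h3).trans Finset.card_image_le

/-- the crossings of rank less than `R` -/
private def Ah (C : Finset κ) (inc : κ → Finset ι) (rk : ι → κ → ℕ) (R : ℕ) (h : ι × Bool) :
    Finset κ := (onE C inc h.1).filter fun c => rkb C inc rk h c < R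

/-- those whose other edge is short -/
private def Bh (C : Finset κ) (inc : κ → Finset ι) (rk : ι → κ → ℕ) (R : ℕ) (σ : ℝ)
    (h : ι × Bool) : Finset κ :=
  (Ah C inc rk R h).filter fun c => ∃ f ∈ inc c, f ≠ h.1 ∧ ((onE C inc f).card : ℝ) < σ

/-- one step of `Near` -/
private def Tn (C : Finset κ) (inc : κ → Finset ι) (rk : ι → κ → ℕ) (R : ℕ) (h : ι × Bool)
    (c' c : κ) : Prop :=
  h.1 ∈ inc c' ∧ rkb C inc rk h c' < R ∧ ∃ f ∈ inc c', f ≠ h.1 ∧ f ∈ inc c ∧
    rk f c ≤ rk f c' + R ∧ rk f c' ≤ rk f c + R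

section

variable {E : Finset ι} {C : Finset κ} {inc : κ → Finset ι} {rk : ι → κ → ℕ}
  (h2 : ∀ c ∈ C, (inc c).card = 2 ∧ inc c ⊆ E)
  (hone : ∀ c ∈ C, ∀ c' ∈ C, inc c = inc c' → c = c')
  (hrk : ∀ e ∈ E, ∀ c ∈ C, e ∈ inc c → rk e c < (onE C inc e).card)
  (hrki : ∀ e ∈ E, ∀ c ∈ C, ∀ c' ∈ C, e ∈ inc c → e ∈ inc c' → rk e c = rk e c' → c = c')

include hrk hrki in
private theorem rk_S {e : ι} (he : e ∈ E) : (∀ c ∈ onE C inc e, rk e c < (onE C inc e).card) ∧
    ∀ c ∈ onE C inc e, ∀ c' ∈ onE C inc e, rk e c = rk e c' → c = c' := by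
  constructor
  · intro c hc
    obtain ⟨hc1, hc2⟩ := Finset.mem_filter.1 hc
    exact hrk e he c hc1 hc2
  · intro c hc c' hc' h
    obtain ⟨hc1, hc2⟩ := Finset.mem_filter.1 hc
    obtain ⟨hc1', hc2'⟩ := Finset.mem_filter.1 hc'
    exact hrki e he c hc1 c' hc1' hc2 hc2' h

include hrk hrki in
private theorem card_A {R : ℕ} {h : ι × Bool} (he : h.1 ∈ E) (hR : R ≤ (onE C inc h.1).card) :
    R ≤ (Ah C inc rk R h).card := by
  obtain ⟨a1, a2⟩ := rk_S hrk hrki he
  have b1 : ∀ c ∈ onE C inc h.1, rkb C inc rk h c < (onE C inc h.1).card := by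
    intro c hc
    have := a1 c hc
    unfold rkb
    split_ifs
    · omega
    · exact this
  have b2 : ∀ c ∈ onE C inc h.1, ∀ c' ∈ onE C inc h.1, rkb C inc rk h c = rkb C inc rk h c' →
      c = c' := by
    intro c hc c' hc' hh
    have e1 := a1 c hc
    have e2 := a1 c' hc'
    apply a2 c hc c' hc'
    unfold rkb at hh
    split_ifs at hh
    · omega
    · exact hh
  have := cnt b1 b2 (Finset.range R) (Finset.range_subset_range.2 hR)
    (fun c => rkb C inc rk h c < R) (fun c _ hc => Finset.mem_range.1 hc)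
  rw [Finset.card_range] at this
  unfold Ah
  convert this

include h2 in
private theorem card_B {R : ℕ} {σ : ℝ} (hσ : 0 < σ) (Hs : Finset (ι × Bool)) :
    ((∑ h ∈ Hs, (Bh C inc rk R σ h).card : ℕ) : ℝ) ≤ 2 * E.card * σ := by
  obtain ⟨Es, hEs⟩ : ∃ Es : Finset ι, Es = E.filter fun f => ((onE C inc f).card : ℝ) < σ :=
    ⟨_, rfl⟩
  have h3 : ∀ h ∈ Hs, (Bh C inc rk R σ h).card ≤
      ∑ f ∈ Es, ∑ c ∈ onE C inc f, if h.1 ∈ (inc c).erase f then 1 else 0 := by
    intro h _
    have h4 : Bh C inc rk R σ h ⊆ Es.biUnion fun f =>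
        (onE C inc f).filter fun c => h.1 ∈ (inc c).erase f := by
      intro c hc
      obtain ⟨hc1, f, hf1, hf2, hf3⟩ := Finset.mem_filter.1 hc
      obtain ⟨hc2, _⟩ := Finset.mem_filter.1 hc1
      obtain ⟨hc3, hc4⟩ := Finset.mem_filter.1 hc2
      refine Finset.mem_biUnion.2 ⟨f, ?_, ?_⟩
      · rw [hEs]
        exact Finset.mem_filter.2 ⟨(h2 c hc3).2 hf1, hf3⟩
      · refine Finset.mem_filter.2 ⟨Finset.mem_filter.2 ⟨hc3, hf1⟩, ?_⟩
        exact Finset.mem_erase.2 ⟨hf2.symm, hc4⟩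
    refine (Finset.card_le_card h4).trans (Finset.card_biUnion_le.trans ?_)
    exact Finset.sum_le_sum fun f _ => le_of_eq (Finset.card_filter _ _)
  have h5 : ∑ h ∈ Hs, (Bh C inc rk R σ h).card ≤ ∑ f ∈ Es, ∑ c ∈ onE C inc f, 2 := by
    refine (Finset.sum_le_sum h3).trans ?_
    rw [Finset.sum_comm]
    refine Finset.sum_le_sum fun f _ => ?_
    rw [Finset.sum_comm]
    refine Finset.sum_le_sum fun c hc => ?_
    obtain ⟨hc1, hc2⟩ := Finset.mem_filter.1 hc
    rw [← Finset.card_filter]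
    have h6 : (Hs.filter fun h => h.1 ∈ (inc c).erase f) ⊆
        (inc c).erase f ×ˢ (Finset.univ : Finset Bool) := by
      intro h hh
      exact Finset.mem_product.2 ⟨(Finset.mem_filter.1 hh).2, Finset.mem_univ _⟩
    refine (Finset.card_le_card h6).trans ?_
    rw [Finset.card_product, Finset.card_erase_of_mem hc2, (h2 c hc1).1]
    simp
  have h7 : ((∑ f ∈ Es, ∑ c ∈ onE C inc f, 2 : ℕ) : ℝ) ≤ ∑ f ∈ Es, 2 * σ := by
    push_cast
    refine Finset.sum_le_sum fun f hf => ?_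
    rw [Finset.sum_const, nsmul_eq_mul]
    rw [hEs] at hf
    have := (Finset.mem_filter.1 hf).2
    linarith
  rw [Finset.sum_const, nsmul_eq_mul] at h7
  have h8 : (Es.card : ℝ) ≤ E.card := by
    rw [hEs]
    exact_mod_cast Finset.card_filter_le _ _
  have h9 : ((∑ h ∈ Hs, (Bh C inc rk R σ h).card : ℕ) : ℝ) ≤
      ((∑ f ∈ Es, ∑ c ∈ onE C inc f, 2 : ℕ) : ℝ) := by exact_mod_cast h5
  nlinarith [h7, h8, h9]

include h2 hrk hrki in
private theorem card_T {R : ℕ} {σ : ℝ} (hσR : σ ≤ R) {h : ι × Bool} {c' : κ}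
    (hc : c' ∈ Ah C inc rk R h \ Bh C inc rk R σ h) :
    σ ≤ ((C.filter fun c => Tn C inc rk R h c' c).card : ℝ) := by
  obtain ⟨hA, hB⟩ := Finset.mem_sdiff.1 hc
  obtain ⟨hA1, hA2⟩ := Finset.mem_filter.1 hA
  obtain ⟨hA3, hA4⟩ := Finset.mem_filter.1 hA1
  obtain ⟨k1, k2⟩ := h2 c' hA3
  have h3 : ((inc c').erase h.1).Nonempty := by
    rw [← Finset.card_pos, Finset.card_erase_of_mem hA4, k1]
    norm_num
  obtain ⟨f, hf⟩ := h3
  obtain ⟨hf1, hf2⟩ := Finset.mem_erase.1 hf
  have hfE : f ∈ E := k2 hf2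
  have hσm : σ ≤ ((onE C inc f).card : ℝ) := by
    by_contra hlt
    exact hB (Finset.mem_filter.2 ⟨hA, f, hf2, hf1, not_le.1 hlt⟩)
  obtain ⟨a1, a2⟩ := rk_S hrk hrki hfE
  have hr := hrk f hfE c' hA3 hf2
  obtain ⟨m, hm⟩ : ∃ m, m = (onE C inc f).card := ⟨_, rfl⟩
  obtain ⟨t, ht⟩ : ∃ t, t = min m R := ⟨_, rfl⟩
  obtain ⟨a, ha⟩ : ∃ a, a = min (rk f c') (m - t) := ⟨_, rfl⟩
  rw [← hm] at hr
  have q1 : t ≤ m := by rw [ht]; exact min_le_left _ _
  have q2 : t ≤ R := by rw [ht]; exact min_le_right _ _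
  have h5 := cnt a1 a2 (Finset.Ico a (a + t)) (by
      intro r hr'
      rw [Finset.mem_Ico] at hr'
      rw [Finset.mem_range, ← hm]
      have : a ≤ m - t := by rw [ha]; exact min_le_right _ _
      omega) (fun c => rk f c ≤ rk f c' + R ∧ rk f c' ≤ rk f c + R) (by
      intro c _ hc'
      rw [Finset.mem_Ico] at hc'
      have e1 : a ≤ rk f c' := by rw [ha]; exact min_le_left _ _
      refine ⟨by omega, ?_⟩
      rcases min_choice (rk f c') (m - t) with e2 | e2
      · rw [← ha] at e2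
        omega
      · rw [← ha] at e2
        omega)
  rw [Nat.card_Ico, Nat.add_sub_cancel_left] at h5
  have h6 : (onE C inc f).filter (fun c => rk f c ≤ rk f c' + R ∧ rk f c' ≤ rk f c + R) ⊆
      C.filter fun c => Tn C inc rk R h c' c := by
    intro c hc'
    obtain ⟨g1, g2, g3⟩ := Finset.mem_filter.1 hc'
    obtain ⟨g4, g5⟩ := Finset.mem_filter.1 g1
    exact Finset.mem_filter.2 ⟨g4, hA4, hA2, f, hf2, hf1, g5, g2, g3⟩
  have h7 := h5.trans (Finset.card_le_card h6)
  have h8 : σ ≤ (t : ℝ) := by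
    rw [ht, Nat.cast_min, hm]
    exact le_min hσm hσR
  exact h8.trans (by exact_mod_cast h7)

include h2 hone in
private theorem card_2 {R : ℕ} {h : ι × Bool} {c : κ} (hc : c ∈ C) :
    (C.filter fun c' => Tn C inc rk R h c' c).card ≤ 2 * if Near C inc rk R h c then 1 else 0 := by
  split_ifs with hN
  · have h3 : (C.filter fun c' => Tn C inc rk R h c' c) ⊆
        (inc c).biUnion fun f => C.filter fun c' => inc c' = {h.1, f} := by
      intro c' hc'
      obtain ⟨g1, g2, _, f, g3, g4, g5, _⟩ := Finset.mem_filter.1 hc'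
      refine Finset.mem_biUnion.2 ⟨f, g5, Finset.mem_filter.2 ⟨g1, ?_⟩⟩
      symm
      apply Finset.eq_of_subset_of_card_le
      · intro x hx
        rcases Finset.mem_insert.1 hx with hx | hx
        · rw [hx]
          exact g2
        · rw [Finset.mem_singleton.1 hx]
          exact g3
      · rw [(h2 c' g1).1, Finset.card_pair g4.symm]
    refine (Finset.card_le_card h3).trans ((Finset.card_biUnion_le_card_mul _ _ 1 ?_).trans ?_)
    · intro f _
      rw [Finset.card_le_one]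
      intro x hx y hy
      obtain ⟨x1, x2⟩ := Finset.mem_filter.1 hx
      obtain ⟨y1, y2⟩ := Finset.mem_filter.1 hy
      exact hone x x1 y y1 (x2.trans y2.symm)
    · rw [(h2 c hc).1]
  · rw [mul_zero, Nat.le_zero, Finset.card_eq_zero, Finset.filter_eq_empty_iff]
    intro c' hc' hT
    exact hN ⟨c', hc', hT⟩

end

theorem choose_c (E : Finset ι) (C : Finset κ) (inc : κ → Finset ι) (rk : ι → κ → ℕ)
    (h2 : ∀ c ∈ C, (inc c).card = 2 ∧ inc c ⊆ E)
    (hone : ∀ c ∈ C, ∀ c' ∈ C, inc c = inc c' → c = c')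
    (hrk : ∀ e ∈ E, ∀ c ∈ C, e ∈ inc c → rk e c < (onE C inc e).card)
    (hrki : ∀ e ∈ E, ∀ c ∈ C, ∀ c' ∈ C, e ∈ inc c → e ∈ inc c' → rk e c = rk e c' → c = c')
    (R : ℕ) (hR : 1 ≤ R) (Hs : Finset (ι × Bool)) (hHn : Hs.Nonempty)
    (hHs : ∀ h ∈ Hs, h.1 ∈ E ∧ R ≤ (onE C inc h.1).card) (σ : ℝ) (hσ : 0 < σ)
    (hσR : σ ≤ R) (h8 : 8 * E.card * σ ≤ Hs.card * R) :
    ∃ c ∈ C, Hs.card * R * σ ≤ 8 * C.card * (Hs.filter fun h => Near C inc rk R h c).card := by
  obtain ⟨N, hN⟩ : ∃ N : κ → ℕ, N = fun c => (Hs.filter fun h => Near C inc rk R h c).card :=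
    ⟨_, rfl⟩
  -- the number of triples from above
  have hup : (∑ h ∈ Hs, ∑ c' ∈ C, (C.filter fun c => Tn C inc rk R h c' c).card) ≤
      2 * ∑ c ∈ C, N c := by
    have e1 : (∑ h ∈ Hs, ∑ c' ∈ C, (C.filter fun c => Tn C inc rk R h c' c).card) =
        ∑ h ∈ Hs, ∑ c ∈ C, (C.filter fun c' => Tn C inc rk R h c' c).card := by
      refine Finset.sum_congr rfl fun h _ => ?_
      simp only [Finset.card_filter]
      exact Finset.sum_comm
    rw [e1]
    calc (∑ h ∈ Hs, ∑ c ∈ C, (C.filter fun c' => Tn C inc rk R h c' c).card) ≤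
        ∑ h ∈ Hs, ∑ c ∈ C, 2 * (if Near C inc rk R h c then 1 else 0) :=
          Finset.sum_le_sum fun h _ => Finset.sum_le_sum fun c hc => card_2 h2 hone hc
      _ = 2 * ∑ c ∈ C, N c := by
          rw [Finset.sum_comm, Finset.mul_sum]
          refine Finset.sum_congr rfl fun c _ => ?_
          rw [← Finset.mul_sum, hN]
          simp only [Finset.card_filter]
  -- the number of triples from below
  have hlo : (3 / 4 * (Hs.card * R * σ) : ℝ) ≤
      ((∑ h ∈ Hs, ∑ c' ∈ C, (C.filter fun c => Tn C inc rk R h c' c).card : ℕ) : ℝ) := by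
    have a1 : ∀ h ∈ Hs, ((R : ℝ) - (Bh C inc rk R σ h).card) * σ ≤
        ((∑ c' ∈ C, (C.filter fun c => Tn C inc rk R h c' c).card : ℕ) : ℝ) := by
      intro h hh
      have b1 := card_A hrk hrki (hHs h hh).1 (hHs h hh).2
      have b2 : (Ah C inc rk R h \ Bh C inc rk R σ h).card =
          (Ah C inc rk R h).card - (Bh C inc rk R σ h).card :=
        Finset.card_sdiff_of_subset (Finset.filter_subset _ _)
      have b3 : (Bh C inc rk R σ h).card ≤ (Ah C inc rk R h).card :=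
        Finset.card_le_card (Finset.filter_subset _ _)
      have b4 : ((R : ℝ) - (Bh C inc rk R σ h).card) ≤
          ((Ah C inc rk R h \ Bh C inc rk R σ h).card : ℝ) := by
        rw [b2, Nat.cast_sub b3]
        have : (R : ℝ) ≤ (Ah C inc rk R h).card := by exact_mod_cast b1
        linarith
      have b5 : Ah C inc rk R h \ Bh C inc rk R σ h ⊆ C := fun c hc =>
        (Finset.mem_filter.1 (Finset.mem_filter.1 (Finset.mem_sdiff.1 hc).1).1).1
      calc ((R : ℝ) - (Bh C inc rk R σ h).card) * σ ≤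
          ((Ah C inc rk R h \ Bh C inc rk R σ h).card : ℝ) * σ :=
            mul_le_mul_of_nonneg_right b4 hσ.le
        _ = ∑ _c' ∈ Ah C inc rk R h \ Bh C inc rk R σ h, σ := by
            rw [Finset.sum_const, nsmul_eq_mul]
        _ ≤ ∑ c' ∈ Ah C inc rk R h \ Bh C inc rk R σ h,
            ((C.filter fun c => Tn C inc rk R h c' c).card : ℝ) :=
            Finset.sum_le_sum fun c' hc' => card_T h2 hrk hrki hσR hc'
        _ ≤ ∑ c' ∈ C, ((C.filter fun c => Tn C inc rk R h c' c).card : ℝ) :=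
            Finset.sum_le_sum_of_subset_of_nonneg b5 fun _ _ _ => Nat.cast_nonneg _
        _ = _ := by push_cast; rfl
    have a2 := card_B (rk := rk) (R := R) h2 hσ Hs
    have a3 : ∑ h ∈ Hs, ((R : ℝ) - (Bh C inc rk R σ h).card) * σ =
        (Hs.card * R - ((∑ h ∈ Hs, (Bh C inc rk R σ h).card : ℕ) : ℝ)) * σ := by
      rw [← Finset.sum_mul, Finset.sum_sub_distrib, Finset.sum_const, nsmul_eq_mul]
      push_cast
      rfl
    have a4 := Finset.sum_le_sum a1
    rw [a3] at a4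
    push_cast at a4 ⊢
    push_cast at a2
    refine le_trans ?_ a4
    nlinarith [a2, h8, hσ]
  have hCn : C.Nonempty := by
    obtain ⟨h, hh⟩ := hHn
    have h3 := (hHs h hh).2
    have h4 : 0 < (onE C inc h.1).card := lt_of_lt_of_le hR h3
    obtain ⟨c, hc⟩ := Finset.card_pos.1 h4
    exact ⟨c, (Finset.mem_filter.1 hc).1⟩
  have hfin : ∑ _c ∈ C, (Hs.card * R * σ : ℝ) ≤ ∑ c ∈ C, (8 * C.card * (N c : ℝ)) := by
    rw [Finset.sum_const, nsmul_eq_mul, ← Finset.mul_sum]
    have h3 : (3 / 4 * (Hs.card * R * σ) : ℝ) ≤ 2 * ∑ c ∈ C, (N c : ℝ) := by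
      refine hlo.trans ?_
      have : ((∑ h ∈ Hs, ∑ c' ∈ C, (C.filter fun c => Tn C inc rk R h c' c).card : ℕ) : ℝ) ≤
        ((2 * ∑ c ∈ C, N c : ℕ) : ℝ) := by exact_mod_cast hup
      push_cast at this ⊢
      exact this
    have h4 : (0 : ℝ) ≤ Hs.card * R * σ := by positivity
    have h5 : (0 : ℝ) ≤ C.card := Nat.cast_nonneg _
    have h6 : (Hs.card * R * σ : ℝ) ≤ 8 * ∑ c ∈ C, (N c : ℝ) := by linarith
    calc (C.card : ℝ) * (Hs.card * R * σ) ≤ C.card * (8 * ∑ c ∈ C, (N c : ℝ)) :=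
          mul_le_mul_of_nonneg_left h6 h5
      _ = _ := by ring
  obtain ⟨c, hc, h3⟩ := Finset.exists_le_of_sum_le hCn hfin
  refine ⟨c, hc, ?_⟩
  rw [hN] at h3
  exact h3

end H29.BT
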