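import Pool.Agent.H29.BT.DblB
import Pool.Agent.H29.BP.Opt

/-!
# [H29 BT ONCE] in an optimal drawing two edges cross at most once

Paper proof. `opt_once`: if `e`, `f` have a common end point use `opt_x`. Otherwise `e = s(a,b)`,
`f = s(a',b')` with four different end points. Suppose there are two crossings `c ≠ c'`. `dblA` gives a
drawing `D'` of `Gp` with `D'.cr + 1 ≤ D.cr` in which two adjacent edges cross, so it is not optimal
(`opt_adj`): `CR (Gp) + 1 ≤ D'.cr` (`Nat.sInf_le`). An optimal drawing `D''` of `Gp` (`exists_opt`) has no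
crossings of adjacent edges (`opt_adj`), so `dblB` gives a drawing of `G` with at most
`D''.cr + 1 ≤ D'.cr ≤ D.cr - 1` crossings, against the optimality of `D`.
-/

set_option autoImplicit false

open Set
open scoped Classical

namespace H29.BT

open H29.BP

variable {V : Type} [Finite V] {G : SimpleGraph V}

theorem opt_once (D : Drawing G) (hD : D.cr = CR G) {e f : Sym2 V} (he : e ∈ ES G)
    (hf : f ∈ ES G) : D.x e f ≤ 1 := by
  by_cases hcom : ∃ u, u ∈ e ∧ u ∈ f
  · obtain ⟨u, hue, huf⟩ := hcom
    rw [opt_x D hD he hf hue huf]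
    exact Nat.zero_le _
  push Not at hcom
  by_contra hx
  push Not at hx
  induction e using Sym2.ind with
  | _ a b =>
    induction f using Sym2.ind with
    | _ a' b' =>
      rw [mem_ES, SimpleGraph.mem_edgeSet] at he hf
      have h1 : a ≠ a' := by
        rintro rfl
        exact hcom a (by simp) (by simp)
      have h2 : a ≠ b' := by
        rintro rfl
        exact hcom a (by simp) (by simp)
      have h3 : b ≠ a' := by
        rintro rfl
        exact hcom b (by simp) (by simp)
      have h4 : b ≠ b' := by
        rintro rfl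
        exact hcom b (by simp) (by simp)
      have hef : s(a, b) ≠ s(a', b') := by
        intro h
        exact hcom a (by simp) (by rw [← h]; simp)
      have hfin : (D.X s(a, b) s(a', b')).Finite := D.X_finite he hf hef
      have hx' : 1 < (D.X s(a, b) s(a', b')).ncard := by
        unfold Drawing.x at hx
        rwa [if_neg hef] at hx
      obtain ⟨c, c', hc, hc', hcc⟩ := (Set.one_lt_ncard_iff hfin).1 hx'
      obtain ⟨D', hD'1, hD'2⟩ := dblA D he hf h1 h2 h3 h4 hc
      -- `D'` has fewer crossings
      have hcD : c ∈ D.crossings := ⟨_, he, _, hf, hef, hc⟩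
      have hlt : D'.cr + 1 ≤ D.cr := by
        have h5 : D'.cr ≤ (D.crossings \ {c}).ncard :=
          Set.ncard_le_ncard hD'1 (D.crossings_finite.subset Set.sdiff_subset)
        have h6 : (D.crossings \ {c}).ncard < D.crossings.ncard :=
          Set.ncard_sdiff_singleton_lt_of_mem hcD D.crossings_finite
        unfold Drawing.cr at h5 ⊢
        omega
      -- `D'` is not optimal
      obtain ⟨u, v, huv, hu, hv, hX⟩ := hD'2 c' hc' hcc.symm
      have hnot : D'.cr ≠ CR (Gp G a b a' b') := by
        intro h5
        have h6 := opt_adj D' h5 hu hv (fun h => huv (Option.some.inj h))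
        rw [h6] at hX
        exact hX
      have hCR : CR (Gp G a b a' b') ≤ D'.cr := Nat.sInf_le ⟨D', rfl⟩
      obtain ⟨D'', hD''⟩ := exists_opt (Gp G a b a' b')
      obtain ⟨D₃, hD₃⟩ := dblB he hf h1 h2 h3 h4 D''
        (fun u v hu hv huv => opt_adj D'' hD'' hu hv (fun h => huv (Option.some.inj h)))
      have h7 : CR G ≤ D₃.cr := Nat.sInf_le ⟨D₃, rfl⟩
      omega

end H29.BT
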