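import Pool.Agent.H29.BT.Top
import Pool.Agent.H29.BT.Avg
import Pool.Agent.H29.BT.Once

/-!
# [H29 BT CORE] the gain from a set of vertices with short roads to a point; one vertex

Paper proof of `core`. `top_bound` and `avg` (with `O = OA G Nᶜ R`, `E' = EN G N`, `R' = OR G N R`, `x e f = D.x e f`;
adjacent edges do not cross: `opt_x`) give, with `S_{AB} = ∑ a ∈ A, ∑ b ∈ B, D.x a b` and `K = (EN G N).card`,
`2 * CR2 G ≤ 3/8 S_OO + 2 K T + 1/2 S_EO + |SP| + S_RO + S_RR`. The edge set is the disjoint union of `O`, `E'`, `R'`, so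
`2 * D.cr = S_OO + 2 S_EO + S_EE + 2 S_RO + 2 S_RE + S_RR` (`two_mul_cr`, `x_comm`) and
`∑ e ∈ E', cre D e = S_EO + S_EE + S_RE`. So
`3/4 * D.cr - 2 * CR2 G ≥ 1/4 ∑ e ∈ E', cre D e - 1/4 S_RO - 5/8 S_RR - 2 K T - |SP|`. Finally `D.x ≤ 1` (`opt_once`) and
`D.x f f = 0`, so `S_RO ≤ |R'| m` and `S_RR ≤ |R'| (|R'| - 1) ≤ |R'|` (`|R'| ≤ 2`), and `|R'| ≤ |R'| m`.

`baby`: `N = {v}`, `R = ∅`, `c = pos v`, `ρ x = {pos v}`, `T = 0`; `SP G {v} = ∅` and `EN G {v}` is the set of the edges at `v`.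
-/

set_option autoImplicit false

open Set
open scoped Classical

noncomputable section

namespace H29.BT

open H29.BP

variable {V : Type} [Finite V] {G : SimpleGraph V}

/-- the number of crossings on the edge `e` -/
def cre (D : Drawing G) (e : Sym2 V) : ℕ := ∑ f ∈ ES G, D.x e f

private theorem mOA {A : Set V} {R : Set (Sym2 V)} {e : Sym2 V} :
    e ∈ OA G A R ↔ e ∈ ES G ∧ (∀ v ∈ e, v ∈ A) ∧ e ∉ R := by
  unfold OA
  exact Finset.mem_filter

private theorem mEN {N : Set V} {e : Sym2 V} : e ∈ EN G N ↔ e ∈ ES G ∧ ∃ x ∈ e, x ∈ N := by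
  unfold EN
  exact Finset.mem_filter

private theorem mOR {N : Set V} {R : Set (Sym2 V)} {e : Sym2 V} :
    e ∈ OR G N R ↔ e ∈ ES G ∧ (∀ v ∈ e, v ∉ N) ∧ e ∈ R := by
  unfold OR
  exact Finset.mem_filter

private theorem avg_fin (N : Set V) (O E' R' : Finset (Sym2 V))
    (x : Sym2 V → Sym2 V → ℝ) (hx0 : ∀ e f, 0 ≤ x e f) (hO : ∀ g ∈ O, ¬ g.IsDiag)
    (hO' : ∀ g ∈ O, ∀ h ∈ O, Meets g h → x g h = 0)
    (hE : ∀ e ∈ E', ∀ g ∈ O, Meets e g → x e g = 0) (hEN : ∀ e ∈ E', ∃ v ∈ e, v ∈ N) :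
    ∃ s : V → ℤˣ,
      (∑ g ∈ O, ∑ h ∈ O, x g h * cost s g h) +
      2 * (∑ e ∈ E', ∑ g ∈ O, x e g *
        (if ∃ y ∈ e, y ∉ N ∧ ∀ v ∈ g, s v = s y then 1 else 0)) +
      2 * (∑ f ∈ R', ∑ g ∈ O, x f g * (if ∃ a ∈ g, ∃ b ∈ g, s a ≠ s b then 1 else 0)) ≤
      3 / 8 * (∑ g ∈ O, ∑ h ∈ O, x g h) + 1 / 2 * (∑ e ∈ E', ∑ g ∈ O, x e g) +
        ∑ f ∈ R', ∑ g ∈ O, x f g := by
  have _ := Fintype.ofFinite V
  obtain ⟨s, hs⟩ := avg N O E' R' x hx0 hO hO' hE hEN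
  refine ⟨s, ?_⟩
  convert hs

theorem core (D : Drawing G) (hD : D.cr = CR G) {N : Set V} {R : Finset (Sym2 V)}
    (hR2 : R.card ≤ 2) {c : ℂ} {ρ : V → Set ℂ} (hR : Roads D N (↑R : Set (Sym2 V)) c ρ)
    (hc : ∀ v, v ∉ N → c ≠ D.pos v)
    (hc' : ∀ g ∈ G.edgeSet, (∀ v ∈ g, v ∉ N) → g ∉ R → c ∉ D.arc g) (T : ℕ)
    (hT : ∀ x ∈ N, ∑ g ∈ OA G Nᶜ (↑R : Set (Sym2 V)), (ρ x ∩ D.arc g).ncard ≤ T) :
    (CR2 G : ℝ) ≤ 3 / 8 * CR G - 1 / 8 * (∑ e ∈ EN G N, (cre D e : ℝ)) +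
      (EN G N).card * T + (SP G N).card / 2 + R.card * (ES G).card := by
  obtain ⟨O, hO⟩ : ∃ O, O = OA G Nᶜ (↑R : Set (Sym2 V)) := ⟨_, rfl⟩
  obtain ⟨E, hE⟩ : ∃ E, E = EN G N := ⟨_, rfl⟩
  obtain ⟨Q, hQ⟩ : ∃ Q, Q = OR G N (↑R : Set (Sym2 V)) := ⟨_, rfl⟩
  obtain ⟨x, hx⟩ : ∃ x : Sym2 V → Sym2 V → ℝ, x = fun e f => (D.x e f : ℝ) := ⟨_, rfl⟩
  have hxc : ∀ e f, x e f = x f e := by
    intro e f
    rw [hx]
    simp only
    rw [D.x_comm]
  have hx0 : ∀ e f, 0 ≤ x e f := by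
    intro e f
    rw [hx]
    exact Nat.cast_nonneg _
  have hOS : O ⊆ ES G := fun e he => by
    rw [hO] at he
    exact (mOA.1 he).1
  have hES : E ⊆ ES G := fun e he => by
    rw [hE] at he
    exact (mEN.1 he).1
  have hQS : Q ⊆ ES G := fun e he => by
    rw [hQ] at he
    exact (mOR.1 he).1
  have hx1 : ∀ e ∈ ES G, ∀ f ∈ ES G, x e f ≤ 1 := by
    intro e he f hf
    rw [hx]
    have h1 := opt_once D hD he hf
    show (D.x e f : ℝ) ≤ 1
    exact_mod_cast h1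
  have hmeet : ∀ e ∈ ES G, ∀ f ∈ ES G, Meets e f → x e f = 0 := by
    rintro e he f hf ⟨v, h1, h2⟩
    rw [hx]
    simp only [Nat.cast_eq_zero]
    exact opt_x D hD he hf h1 h2
  obtain ⟨s, hs⟩ := avg_fin N O E Q x hx0
    (fun g hg => G.not_isDiag_of_mem_edgeSet (mem_ES.1 (hOS hg)))
    (fun g hg h hh => hmeet g (hOS hg) h (hOS hh))
    (fun e he g hg => hmeet e (hES he) g (hOS hg))
    (fun e he => by
      rw [hE] at he
      exact (mEN.1 he).2)
  have htop := top_bound D hR hc (fun g hg h1 h2 => hc' g hg h1 h2) T hT s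
  rw [← hO, ← hE, ← hQ] at htop
  have hxx : ∀ e f, (D.x e f : ℝ) = x e f := fun e f => by rw [hx]
  simp only [hxx] at htop
  -- the decomposition of the edge set
  have hdec : ∀ F : Sym2 V → ℝ, ∑ e ∈ ES G, F e = ∑ e ∈ O, F e + ∑ e ∈ E, F e + ∑ e ∈ Q, F e := by
    intro F
    have h1 : ES G = O ∪ E ∪ Q := by
      ext e
      rw [Finset.mem_union, Finset.mem_union, hO, hE, hQ, mOA, mEN, mOR]
      constructor
      · intro he
        by_cases h1 : ∃ x ∈ e, x ∈ N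
        · exact Or.inl (Or.inr ⟨he, h1⟩)
        · push Not at h1
          by_cases h2 : e ∈ (↑R : Set (Sym2 V))
          · exact Or.inr ⟨he, h1, h2⟩
          · exact Or.inl (Or.inl ⟨he, h1, h2⟩)
      · rintro ((h | h) | h)
        · exact h.1
        · exact h.1
        · exact h.1
    have h2 : Disjoint O E := by
      rw [Finset.disjoint_left]
      intro e he he'
      rw [hO] at he
      rw [hE] at he'
      obtain ⟨v, hv, hvN⟩ := (mEN.1 he').2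
      exact (mOA.1 he).2.1 v hv hvN
    have h3 : Disjoint (O ∪ E) Q := by
      rw [Finset.disjoint_left]
      intro e he he'
      rw [hQ] at he'
      have h4 := (mOR.1 he').2
      rcases Finset.mem_union.1 he with he | he
      · rw [hO] at he
        exact (mOA.1 he).2.2 h4.2
      · rw [hE] at he
        obtain ⟨v, hv, hvN⟩ := (mEN.1 he).2
        exact h4.1 v hv hvN
    rw [h1, Finset.sum_union h3, Finset.sum_union h2]
  have hsym : ∀ A B : Finset (Sym2 V), ∑ a ∈ A, ∑ b ∈ B, x a b = ∑ b ∈ B, ∑ a ∈ A, x b a := by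
    intro A B
    rw [Finset.sum_comm]
    exact Finset.sum_congr rfl fun b _ => Finset.sum_congr rfl fun a _ => hxc a b
  have htwo : 2 * (D.cr : ℝ) = ∑ e ∈ ES G, ∑ f ∈ ES G, x e f := by
    have := D.two_mul_cr
    have h2 : ((2 * D.cr : ℕ) : ℝ) = ((∑ e ∈ ES G, ∑ f ∈ ES G, D.x e f : ℕ) : ℝ) := by rw [this]
    push_cast at h2
    rw [h2]
    simp only [hxx]
  have hcre : ∑ e ∈ E, (cre D e : ℝ) = ∑ e ∈ E, ∑ f ∈ ES G, x e f := by
    refine Finset.sum_congr rfl fun e _ => ?_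
    unfold cre
    push_cast
    simp only [hxx]
  have hsplit : ∀ A : Finset (Sym2 V), ∑ a ∈ A, ∑ f ∈ ES G, x a f =
      ∑ a ∈ A, ∑ f ∈ O, x a f + ∑ a ∈ A, ∑ f ∈ E, x a f + ∑ a ∈ A, ∑ f ∈ Q, x a f := by
    intro A
    rw [← Finset.sum_add_distrib, ← Finset.sum_add_distrib]
    exact Finset.sum_congr rfl fun a _ => hdec _
  rw [hdec, hsplit, hsplit, hsplit] at htwo
  rw [hsplit] at hcre
  have hnn : ∀ A B : Finset (Sym2 V), 0 ≤ ∑ a ∈ A, ∑ b ∈ B, x a b := fun A B =>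
    Finset.sum_nonneg fun a _ => Finset.sum_nonneg fun b _ => hx0 a b
  have hQR : Q.card ≤ R.card := by
    refine Finset.card_le_card fun e he => ?_
    rw [hQ] at he
    exact (mOR.1 he).2.2
  have hle : ∀ B ⊆ ES G, ∑ a ∈ Q, ∑ b ∈ B, x a b ≤ R.card * (ES G).card := by
    intro B hB
    calc ∑ a ∈ Q, ∑ b ∈ B, x a b ≤ ∑ _a ∈ Q, ∑ _b ∈ B, (1 : ℝ) :=
          Finset.sum_le_sum fun a ha => Finset.sum_le_sum fun b hb => hx1 a (hQS ha) b (hB hb)
      _ = Q.card * B.card := by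
          rw [Finset.sum_const, Finset.sum_const, nsmul_eq_mul, nsmul_eq_mul, mul_one]
      _ ≤ R.card * (ES G).card := by
          have h1 : (Q.card : ℝ) ≤ R.card := by exact_mod_cast hQR
          have h2 : (B.card : ℝ) ≤ (ES G).card := by exact_mod_cast Finset.card_le_card hB
          exact mul_le_mul h1 h2 (Nat.cast_nonneg _) (Nat.cast_nonneg _)
  have hRO := hle O hOS
  have hRR := hle Q hQS
  have hRM : (0 : ℝ) ≤ R.card * (ES G).card := mul_nonneg (Nat.cast_nonneg _) (Nat.cast_nonneg _)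
  have hEE := hnn E E
  have hQE := hnn Q E
  have hOE := hsym O E
  have hOQ := hsym O Q
  have hEQ := hsym E Q
  rw [← hE, ← hD, hcre]
  linarith

theorem baby (D : Drawing G) (hD : D.cr = CR G) (v : V) :
    (CR2 G : ℝ) ≤ 3 / 8 * CR G - 1 / 8 * ∑ e ∈ (ES G).filter (fun e => v ∈ e), (cre D e : ℝ) := by
  have hav : ∀ g ∈ G.edgeSet, (∀ w ∈ g, w ∉ ({v} : Set V)) → D.pos v ∉ D.arc g := by
    intro g hg hgv hp
    induction g using Sym2.ind with
    | _ a b =>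
      rcases D.avoid a b v hg hp with h | h
      · exact hgv a (by simp) (by simp [h])
      · exact hgv b (by simp) (by simp [h])
  have hR : Roads D ({v} : Set V) (↑(∅ : Finset (Sym2 V)) : Set (Sym2 V)) (D.pos v)
      (fun _ => {D.pos v}) := by
    refine ⟨?_, ?_, ?_⟩
    · intro x hx
      rw [Set.mem_singleton_iff] at hx
      subst hx
      exact Or.inl ⟨rfl, rfl⟩
    · intro x hx w hw
      rw [Set.mem_singleton_iff] at hx hw
      rw [hx]
      exact D.pos_inj hw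
    · intro x _ g _ _ _
      exact (Set.finite_singleton _).subset Set.inter_subset_left
  have h := core D hD (R := ∅) (by simp) hR ?_ ?_ 0 ?_
  · have hEN : EN G {v} = (ES G).filter (fun e => v ∈ e) := by
      unfold EN
      refine Finset.filter_congr fun e _ => ?_
      simp
    have hSP : SP G {v} = ∅ := by
      unfold SP
      rw [Finset.filter_eq_empty_iff]
      rintro ⟨e, f⟩ hef ⟨_, h2⟩
      rw [hEN, Finset.mem_product, Finset.mem_filter, Finset.mem_filter] at hef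
      exact h2 ⟨v, rfl, hef.1.2, hef.2.2⟩
    rw [hSP, hEN] at h
    simpa using h
  · intro w hw hh
    exact hw (by rw [Set.mem_singleton_iff]; exact (D.pos_inj hh).symm)
  · intro g hg h1 _
    exact hav g hg h1
  · intro x _
    rw [Nat.le_zero, Finset.sum_eq_zero_iff]
    intro g hg
    rw [mOA] at hg
    have h1 : ({D.pos v} ∩ D.arc g : Set ℂ) = ∅ := by
      rw [Set.eq_empty_iff_forall_notMem]
      rintro z ⟨hz, hz2⟩
      rw [Set.mem_singleton_iff] at hz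
      rw [hz] at hz2
      exact hav g (mem_ES.1 hg.1) (fun w hw => hg.2.1 w hw) hz2
    rw [h1, Set.ncard_empty]

end H29.BT
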