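import Pool.Agent.H29.BP.Opt

/-!
# [H29 BT UNCS] crossings of two edges at the root are free

Paper proof. For a drawing `D` let `OX D` be the set of the crossings of `D` which lie on the arc of
some edge `g` of `H` with `r ∉ g`. `oX_count`: as in `two_mul_cr` (`BP/Cnt.lean`): every crossing lies
on the arcs of exactly two edges `e ≠ f` (`no_triple`), and it is in `OX D` if and only if not
both of them contain `r`; so `2 * (OX D).ncard` is the double sum.

`uncs`: let `c₀` be the double sum for `D₀`. Among all drawings `D` of `H` whose double sum is at most `c₀` take one with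
minimal `D.cr`. If two different edges `s(r,u)`, `s(r,v)` cross, then `unc` gives `D'` with
`Better D D' s(r,u) s(r,v)`: it has a smaller `cr` (`Better.cr_lt`), and
`OX D' ⊆ OX D` (the crossings of `D'` are crossings of `D`, the arcs of the edges `g` with `r ∉ g` are
unchanged), so its double sum is at most `c₀` by `oX_count`: a contradiction. So the edges at `r` do not
cross each other and `2 * D.cr = ∑ ∑ D.x e f` is the double sum. Finally `CR H ≤ D.cr` (`Nat.sInf_le`).
-/

set_option autoImplicit false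

open Set
open scoped Classical

noncomputable section

namespace H29.BT

open H29.BP

variable {W : Type} [Finite W] {H : SimpleGraph W}

/-- the crossings on the arcs of the edges which do not contain `r` -/
def OX (D : Drawing H) (r : W) : Set ℂ :=
  {p | p ∈ D.crossings ∧ ∃ g ∈ H.edgeSet, r ∉ g ∧ p ∈ D.arc g}

theorem OX_finite (D : Drawing H) (r : W) : (OX D r).Finite :=
  D.crossings_finite.subset fun _ hp => hp.1

theorem oX_count (D : Drawing H) (r : W) :
    2 * (OX D r).ncard = ∑ e ∈ ES H, ∑ f ∈ ES H, if r ∈ e ∧ r ∈ f then 0 else D.x e f := by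
  set C : Finset ℂ := (OX_finite D r).toFinset with hC
  have hcr : (OX D r).ncard = C.card := Set.ncard_eq_toFinset_card _ (OX_finite D r)
  have hx : ∀ e ∈ ES H, ∀ f ∈ ES H, (if r ∈ e ∧ r ∈ f then 0 else D.x e f) =
      ∑ p ∈ C, if e ≠ f ∧ p ∈ D.X e f then 1 else 0 := by
    intro e he f hf
    by_cases hr : r ∈ e ∧ r ∈ f
    · rw [if_pos hr]
      symm
      refine Finset.sum_eq_zero fun p hp => ?_
      rw [if_neg]
      rintro ⟨hef, hpX⟩
      rw [hC, Set.Finite.mem_toFinset] at hp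
      obtain ⟨_, g, hg, hrg, hpg⟩ := hp
      refine hpX.2 (D.no_triple e (mem_ES.1 he) f (mem_ES.1 hf) g hg hef ?_ ?_ p hpX.1 hpg)
      · rintro rfl
        exact hrg hr.1
      · rintro rfl
        exact hrg hr.2
    · rw [if_neg hr]
      by_cases hef : e = f
      · unfold Drawing.x
        rw [if_pos hef]
        symm
        refine Finset.sum_eq_zero fun p _ => ?_
        rw [if_neg (fun h => h.1 hef)]
      · unfold Drawing.x
        rw [if_neg hef, Finset.sum_ite, Finset.sum_const_zero, add_zero, Finset.sum_const,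
          smul_eq_mul, mul_one,
          Set.ncard_eq_toFinset_card _ (D.X_finite (mem_ES.1 he) (mem_ES.1 hf) hef)]
        congr 1
        ext p
        rw [Set.Finite.mem_toFinset, Finset.mem_filter, hC, Set.Finite.mem_toFinset]
        constructor
        · intro hp
          refine ⟨⟨⟨e, mem_ES.1 he, f, mem_ES.1 hf, hef, hp⟩, ?_⟩, hef, hp⟩
          by_cases hre : r ∈ e
          · exact ⟨f, mem_ES.1 hf, fun h => hr ⟨hre, h⟩, hp.1.2⟩
          · exact ⟨e, mem_ES.1 he, hre, hp.1.1⟩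
        · exact fun hp => hp.2.2
  rw [Finset.sum_congr rfl fun e he => Finset.sum_congr rfl fun f hf => hx e he f hf]
  have h1 : ∑ e ∈ ES H, ∑ f ∈ ES H, ∑ p ∈ C, (if e ≠ f ∧ p ∈ D.X e f then 1 else 0) =
      ∑ p ∈ C, ∑ e ∈ ES H, ∑ f ∈ ES H, (if e ≠ f ∧ p ∈ D.X e f then 1 else 0) := by
    have h2 : ∀ e ∈ ES H, ∑ f ∈ ES H, ∑ p ∈ C, (if e ≠ f ∧ p ∈ D.X e f then 1 else 0) =
        ∑ p ∈ C, ∑ f ∈ ES H, (if e ≠ f ∧ p ∈ D.X e f then 1 else 0) := by
      intro e _
      rw [Finset.sum_comm]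
    rw [Finset.sum_congr rfl h2, Finset.sum_comm]
  have h3 : ∀ p ∈ C, ∑ e ∈ ES H, ∑ f ∈ ES H, (if e ≠ f ∧ p ∈ D.X e f then 1 else 0) = 2 := by
    intro p hp
    rw [hC, Set.Finite.mem_toFinset] at hp
    obtain ⟨⟨e₀, he₀, f₀, hf₀, hef₀, hp₀⟩, _⟩ := hp
    rw [← Finset.sum_product' (f := fun e f => if e ≠ f ∧ p ∈ D.X e f then 1 else 0),
      Finset.sum_ite, Finset.sum_const_zero, add_zero, Finset.sum_const, smul_eq_mul, mul_one]
    have h4 : ((ES H ×ˢ ES H).filter fun q : Sym2 W × Sym2 W => q.1 ≠ q.2 ∧ p ∈ D.X q.1 q.2) =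
        {(e₀, f₀), (f₀, e₀)} := by
      ext ⟨e, f⟩
      rw [Finset.mem_filter, Finset.mem_product, mem_ES, mem_ES, Finset.mem_insert,
        Finset.mem_singleton, Prod.mk.injEq, Prod.mk.injEq]
      constructor
      · rintro ⟨⟨he, hf⟩, hef, hp1⟩
        simp only at he hf hef hp1
        have hin : ∀ g ∈ H.edgeSet, p ∈ D.arc g → g = e₀ ∨ g = f₀ := by
          intro g hg hpg
          by_contra hne
          push Not at hne
          exact hp₀.2 (D.no_triple e₀ he₀ f₀ hf₀ g hg hef₀ hne.1.symm hne.2.symm p hp₀.1 hpg)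
        rcases hin e he hp1.1.1 with h5 | h5 <;> rcases hin f hf hp1.1.2 with h6 | h6
        · exact absurd (h5.trans h6.symm) hef
        · exact Or.inl ⟨h5, h6⟩
        · exact Or.inr ⟨h5, h6⟩
        · exact absurd (h5.trans h6.symm) hef
      · rintro (⟨rfl, rfl⟩ | ⟨rfl, rfl⟩)
        · exact ⟨⟨he₀, hf₀⟩, hef₀, hp₀⟩
        · exact ⟨⟨hf₀, he₀⟩, hef₀.symm, by rw [D.X_comm]; exact hp₀⟩
    rw [h4, Finset.card_pair]
    intro h5
    exact hef₀ (Prod.mk.inj h5).1
  rw [h1, Finset.sum_congr rfl h3, Finset.sum_const, smul_eq_mul, hcr, mul_comm]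

theorem uncs (D₀ : Drawing H) (r : W) :
    2 * CR H ≤ ∑ e ∈ ES H, ∑ f ∈ ES H, if r ∈ e ∧ r ∈ f then 0 else D₀.x e f := by
  -- minimal number of crossings among the drawings with at most the same number of relevant ones
  have hex : ∃ n, ∃ D : Drawing H, (OX D r).ncard ≤ (OX D₀ r).ncard ∧ D.cr = n :=
    ⟨D₀.cr, D₀, le_rfl, rfl⟩
  obtain ⟨D, hD1, hD2⟩ := Nat.find_spec hex
  have hmin : ∀ D' : Drawing H, (OX D' r).ncard ≤ (OX D₀ r).ncard → D.cr ≤ D'.cr := by
    intro D' h1
    rw [hD2]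
    exact Nat.find_min' hex ⟨D', h1, rfl⟩
  have hadj : ∀ u v, H.Adj r u → H.Adj r v → u ≠ v → D.X s(r, u) s(r, v) = ∅ := by
    intro u v hu hv huv
    by_contra hne
    obtain ⟨D', hB⟩ := unc D hu hv huv (Set.nonempty_iff_ne_empty.2 hne)
    have h1 : (OX D' r).ncard ≤ (OX D₀ r).ncard := by
      refine (Set.ncard_le_ncard ?_ (OX_finite D r)).trans hD1
      rintro p ⟨hp, g, hg, hrg, hpg⟩
      refine ⟨hB.2.2.1 hp, g, hg, hrg, ?_⟩
      rw [hB.2.1 g (fun h => hrg (h ▸ (Sym2.mem_mk_left r u)))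
        (fun h => hrg (h ▸ (Sym2.mem_mk_left r v)))] at hpg
      exact hpg
    have h2 := hmin D' h1
    have h3 := hB.cr_lt
    omega
  have hx0 : ∀ e ∈ ES H, ∀ f ∈ ES H, r ∈ e → r ∈ f → D.x e f = 0 := by
    intro e he f hf hre hrf
    unfold Drawing.x
    split_ifs with hef
    · rfl
    · obtain ⟨u, rfl⟩ := Sym2.mem_iff_exists.1 hre
      obtain ⟨v, rfl⟩ := Sym2.mem_iff_exists.1 hrf
      rw [mem_ES, SimpleGraph.mem_edgeSet] at he hf
      rw [hadj u v he hf (fun h => hef (by rw [h])), Set.ncard_empty]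
  have h1 : 2 * D.cr = ∑ e ∈ ES H, ∑ f ∈ ES H, if r ∈ e ∧ r ∈ f then 0 else D.x e f := by
    rw [D.two_mul_cr]
    refine Finset.sum_congr rfl fun e he => Finset.sum_congr rfl fun f hf => ?_
    split_ifs with h
    · exact hx0 e he f hf h.1 h.2
    · rfl
  have h2 : CR H ≤ D.cr := Nat.sInf_le ⟨D, rfl⟩
  rw [← oX_count D₀ r]
  rw [← oX_count D r] at h1
  omega

end H29.BT
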