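import Pool.Agent.H29.BT.Sys
import Pool.Agent.H29.BT.App
import Pool.Agent.H29.BT.UncS

/-!
# [H29 BT COSTA] crossing number of a sheet graph

Paper proof. `sys` gives `Q`, `app` (with `ε = 1`) a drawing `D₀` of `SG G N A R` with
`(D₀.X e f).ncard ≤ ((Q.arc e ∩ Q.arc f) \ range Q.pos).ncard` for edges `e ≠ f` not both containing `rt`, and
`uncs` with `r = rt` gives `2 * CR (SG G N A R) ≤ ∑ ∑ [not both contain rt, e ≠ f] ((Q.arc e ∩ Q.arc f) \ range Q.pos).ncard`.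
The edges of the sheet graph are (bijectively) the `g.map vtx`, `g ∈ OA G A R`, and the
`s(rt, mid e)`, `s(mid e, vtx y)` for `e = s(x,y) ∈ ENA G N A` (`x ∈ N`, `y ∈ A` are determined by `e`). Terms with
an edge `s(mid e, vtx y)` are `0` (last property of `sys`). The term of `g.map vtx`, `h.map vtx`, `g ≠ h`, is at most `D.x g h`:
a common point of `D.arc g`, `D.arc h` which is a place `D.pos v` has `v ∈ g`, so `v ∈ A` and it is in `range Q.pos`.
The term of `s(rt, mid e)` and `g.map vtx` is at most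
`(ρ x ∩ D.arc g).ncard + D.x e g`: a common point of `Q.arc s(rt, mid e)` and `D.arc g` is in `ρ x ∩ D.arc g` (finite) or in
`D.arc e ∩ D.arc g`, different from `pos y`; if it were the place of a vertex `v` then `v ∈ e`, `v ∈ g`, so `v = y`
(`x ∉ g`, as `g` is inside `A`). For fixed `e` the sum over
`g ∈ OA G A R` is at most `T + ∑ g, D.x e g` by `hT` (`OA G A R ⊆ OA G Nᶜ R`). The pairs `(s(rt, mid e), g.map vtx)` and
`(g.map vtx, s(rt, mid e))` give the factor `2`.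
-/

set_option autoImplicit false

open Set
open scoped Classical

namespace H29.BT

open H29.BP

/-- the three kinds of edges of the sheet graph -/
theorem sg_cases {V : Type} [Finite V] {G : SimpleGraph V} {N A : Set V} {R : Set (Sym2 V)}
    {e : Sym2 (WV V)} (he : e ∈ (SG G N A R).edgeSet) :
    (∃ g ∈ OA G A R, e = g.map vtx) ∨
    (∃ x y, G.Adj x y ∧ x ∈ N ∧ y ∈ A ∧ e = s(rt, mid s(x, y))) ∨
    ∃ x y, G.Adj x y ∧ x ∈ N ∧ y ∈ A ∧ e = s(mid s(x, y), vtx y) := by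
  have key : ∀ p q : WV V, ((∃ u v, p = vtx u ∧ q = vtx v ∧ G.Adj u v ∧ u ∈ A ∧ v ∈ A ∧ s(u, v) ∉ R) ∨
    (∃ x y, G.Adj x y ∧ x ∈ N ∧ y ∈ A ∧ p = rt ∧ q = mid s(x, y)) ∨
    (∃ x y, G.Adj x y ∧ x ∈ N ∧ y ∈ A ∧ p = mid s(x, y) ∧ q = vtx y)) →
    ((∃ g ∈ OA G A R, s(p, q) = g.map vtx) ∨
    (∃ x y, G.Adj x y ∧ x ∈ N ∧ y ∈ A ∧ s(p, q) = s(rt, mid s(x, y))) ∨
    ∃ x y, G.Adj x y ∧ x ∈ N ∧ y ∈ A ∧ s(p, q) = s(mid s(x, y), vtx y)) := by
    rintro p q (⟨u, v, rfl, rfl, huv, hu, hv, hR⟩ | ⟨x, y, hxy, hx, hy, rfl, rfl⟩ |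
      ⟨x, y, hxy, hx, hy, rfl, rfl⟩)
    · left
      refine ⟨s(u, v), ?_, by rw [Sym2.map_mk]⟩
      rw [OA, Finset.mem_filter, mem_ES]
      refine ⟨huv, ?_, hR⟩
      intro w hw
      rcases Sym2.mem_iff.1 hw with rfl | rfl <;> assumption
    · exact Or.inr (Or.inl ⟨x, y, hxy, hx, hy, rfl⟩)
    · exact Or.inr (Or.inr ⟨x, y, hxy, hx, hy, rfl⟩)
  induction e using Sym2.ind with
  | _ p q =>
    rw [SimpleGraph.mem_edgeSet, SG, SimpleGraph.fromRel_adj] at he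
    obtain ⟨_, h | h⟩ := he
    · exact key p q h
    · rw [Sym2.eq_swap]
      exact key q p h

theorem sg_vtx {V : Type} [Finite V] {G : SimpleGraph V} {N A : Set V} {R : Set (Sym2 V)}
    {g : Sym2 V} (hg : g ∈ OA G A R) : g.map vtx ∈ (SG G N A R).edgeSet := by
  induction g using Sym2.ind with
  | _ u v =>
    rw [OA, Finset.mem_filter, mem_ES] at hg
    obtain ⟨h1, h2, h3⟩ := hg
    rw [Sym2.map_mk, SimpleGraph.mem_edgeSet, SG, SimpleGraph.fromRel_adj]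
    refine ⟨fun h => ?_, Or.inl (Or.inl ⟨u, v, rfl, rfl, h1, h2 u (Sym2.mem_mk_left _ _),
      h2 v (Sym2.mem_mk_right _ _), h3⟩)⟩
    exact G.ne_of_adj h1 (Sum.inl.inj h)

theorem sg_rt {V : Type} {G : SimpleGraph V} {N A : Set V} {R : Set (Sym2 V)}
    {x y : V} (h : G.Adj x y) (hx : x ∈ N) (hy : y ∈ A) :
    s(rt, mid s(x, y)) ∈ (SG G N A R).edgeSet := by
  rw [SimpleGraph.mem_edgeSet, SG, SimpleGraph.fromRel_adj]
  exact ⟨by simp [rt, mid], Or.inl (Or.inr (Or.inl ⟨x, y, h, hx, hy, rfl, rfl⟩))⟩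

theorem rt_notMem_map {V : Type} (g : Sym2 V) : (rt : WV V) ∉ g.map vtx := by
  intro h
  rw [Sym2.mem_map] at h
  obtain ⟨x, _, hx⟩ := h
  simp [rt, vtx] at hx

theorem map_vtx_inj {V : Type} : Function.Injective (Sym2.map (vtx : V → WV V)) :=
  Sym2.map.injective fun _ _ h => Sum.inl.inj h

theorem rt_mid_inj {V : Type} : Function.Injective fun e : Sym2 V => (s(rt, mid e) : Sym2 (WV V)) := by
  intro e f h
  have h1 : (s(rt, mid e) : Sym2 (WV V)) = s(rt, mid f) := h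
  rw [Sym2.congr_right] at h1
  simpa [mid] using h1

theorem ENA_cases {V : Type} [Finite V] {G : SimpleGraph V} {N A : Set V} (hNA : Disjoint N A)
    {e : Sym2 V} (he : e ∈ ENA G N A) : ∃ x y, G.Adj x y ∧ x ∈ N ∧ y ∈ A ∧ e = s(x, y) := by
  rw [ENA, Finset.mem_filter, mem_ES] at he
  obtain ⟨h1, ⟨x, hxe, hx⟩, y, hye, hy⟩ := he
  have hxy : x ≠ y := fun h => Set.disjoint_left.1 hNA hx (h ▸ hy)
  have h2 : e = s(x, y) := ((Sym2.mem_and_mem_iff hxy).1 ⟨hxe, hye⟩)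
  rw [h2] at h1
  exact ⟨x, y, h1, hx, hy, h2⟩

theorem cost_sheet {V : Type} [Finite V] {G : SimpleGraph V} (D : Drawing G) {N A : Set V}
    {R : Set (Sym2 V)} {c : ℂ} {ρ : V → Set ℂ} (hR : Roads D N R c ρ) (hNA : Disjoint N A)
    (hc : ∀ v, v ∈ A → c ≠ D.pos v)
    (hc' : ∀ g ∈ G.edgeSet, (∀ v ∈ g, v ∈ A) → g ∉ R → c ∉ D.arc g) (T : ℕ)
    (hT : ∀ x ∈ N, ∑ g ∈ OA G Nᶜ R, (ρ x ∩ D.arc g).ncard ≤ T) :
    2 * CR (SG G N A R) ≤ (∑ g ∈ OA G A R, ∑ h ∈ OA G A R, D.x g h) +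
      2 * ∑ e ∈ ENA G N A, (T + ∑ g ∈ OA G A R, D.x e g) := by
  obtain ⟨Q, hQ1, hQ2, hQ3, hQ4⟩ := sys D hR hNA hc hc'
  obtain ⟨D₀, _, _, hX⟩ := app Q 1 one_pos
  refine (uncs D₀ rt).trans ?_
  set n : Sym2 (WV V) → Sym2 (WV V) → ℕ := fun e f => ((Q.arc e ∩ Q.arc f) \ range Q.pos).ncard
    with hn
  have hnc : ∀ e f, n e f = n f e := by
    intro e f
    simp only [hn]
    rw [Set.inter_comm]
  set w : Sym2 (WV V) → Sym2 (WV V) → ℕ := fun e f =>
    if (rt ∈ e ∧ rt ∈ f) ∨ e = f then 0 else n e f with hw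
  have hwc : ∀ e f, w e f = w f e := by
    intro e f
    simp only [hw]
    by_cases h : (rt ∈ e ∧ rt ∈ f) ∨ e = f
    · rw [if_pos h, if_pos (h.imp And.symm Eq.symm)]
    · rw [if_neg h, if_neg (fun h' => h (h'.imp And.symm Eq.symm)), hnc]
  refine le_trans (b := ∑ e ∈ ES (SG G N A R), ∑ f ∈ ES (SG G N A R), w e f)
    (Finset.sum_le_sum fun e he => Finset.sum_le_sum fun f hf => ?_) ?_
  · simp only [hw]
    by_cases h2 : rt ∈ e ∧ rt ∈ f
    · rw [if_pos h2]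
      exact Nat.zero_le _
    · rw [if_neg h2]
      unfold Drawing.x
      by_cases h3 : e = f
      · rw [if_pos h3]
        exact Nat.zero_le _
      · rw [if_neg h3, if_neg (not_or.2 ⟨h2, h3⟩)]
        exact hX e (mem_ES.1 he) f (mem_ES.1 hf) h3 h2
  -- the third kind of edges
  have hz : ∀ x y, G.Adj x y → x ∈ N → y ∈ A → ∀ f ∈ ES (SG G N A R), w s(mid s(x, y), vtx y) f = 0 := by
    intro x y hxy hx hy f hf
    simp only [hw]
    by_cases h2 : (rt ∈ s(mid s(x, y), vtx y) ∧ rt ∈ f) ∨ s(mid s(x, y), vtx y) = f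
    · rw [if_pos h2]
    · rw [if_neg h2]
      have h3 := hQ4 x y hxy hx hy f (mem_ES.1 hf) (fun h => h2 (Or.inr h.symm))
      simp only [hn]
      rw [Set.sdiff_eq_empty.2 h3, Set.ncard_empty]
  set E1 : Finset (Sym2 (WV V)) := (OA G A R).image (Sym2.map vtx) with hE1
  set E2 : Finset (Sym2 (WV V)) := (ENA G N A).image (fun e => s(rt, mid e)) with hE2
  have hE1s : E1 ⊆ ES (SG G N A R) := by
    intro e he
    rw [hE1, Finset.mem_image] at he
    obtain ⟨g, hg, rfl⟩ := he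
    exact mem_ES.2 (sg_vtx hg)
  have hE2s : E2 ⊆ ES (SG G N A R) := by
    intro e he
    rw [hE2, Finset.mem_image] at he
    obtain ⟨g, hg, rfl⟩ := he
    obtain ⟨x, y, hxy, hx, hy, rfl⟩ := ENA_cases hNA hg
    exact mem_ES.2 (sg_rt hxy hx hy)
  have hdis : Disjoint E1 E2 := by
    rw [Finset.disjoint_left]
    intro e he1 he2
    rw [hE1, Finset.mem_image] at he1
    rw [hE2, Finset.mem_image] at he2
    obtain ⟨g, hg, rfl⟩ := he1
    obtain ⟨g', _, h⟩ := he2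
    have h3 : (rt : WV V) ∈ g.map vtx := by
      rw [← h]
      exact Sym2.mem_mk_left _ _
    exact rt_notMem_map g h3
  have h0 : ∀ e ∈ ES (SG G N A R), e ∉ E1 ∪ E2 → ∀ f ∈ ES (SG G N A R), w e f = 0 := by
    intro e he hne f hf
    rw [Finset.mem_union, not_or] at hne
    rcases sg_cases (mem_ES.1 he) with ⟨g, hg, rfl⟩ | ⟨x, y, hxy, hx, hy, rfl⟩ |
      ⟨x, y, hxy, hx, hy, rfl⟩
    · exact absurd (Finset.mem_image_of_mem _ hg) hne.1
    · refine absurd ?_ hne.2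
      rw [hE2, Finset.mem_image]
      refine ⟨s(x, y), ?_, rfl⟩
      rw [ENA, Finset.mem_filter, mem_ES]
      exact ⟨hxy, ⟨x, Sym2.mem_mk_left _ _, hx⟩, y, Sym2.mem_mk_right _ _, hy⟩
    · exact hz x y hxy hx hy f hf
  have hES : E1 ∪ E2 ⊆ ES (SG G N A R) := Finset.union_subset hE1s hE2s
  have h2 : ∑ e ∈ ES (SG G N A R), ∑ f ∈ ES (SG G N A R), w e f = ∑ e ∈ E1 ∪ E2, ∑ f ∈ E1 ∪ E2, w e f := by
    rw [← Finset.sum_subset hES (fun e he hne => Finset.sum_eq_zero fun f hf => h0 e he hne f hf)]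
    refine Finset.sum_congr rfl fun e he => ?_
    rw [← Finset.sum_subset hES (fun f hf hne => ?_)]
    rw [hwc]
    exact h0 f hf hne e (hES he)
  rw [h2, Finset.sum_union hdis]
  have h3 : ∀ e, ∑ f ∈ E1 ∪ E2, w e f = ∑ f ∈ E1, w e f + ∑ f ∈ E2, w e f :=
    fun e => Finset.sum_union hdis
  have h31 : ∀ E : Finset (Sym2 (WV V)), ∑ e ∈ E, ∑ f ∈ E1 ∪ E2, w e f =
      ∑ e ∈ E, ∑ f ∈ E1, w e f + ∑ e ∈ E, ∑ f ∈ E2, w e f := by
    intro E
    rw [← Finset.sum_add_distrib]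
    exact Finset.sum_congr rfl fun e _ => h3 e
  rw [h31, h31]
  have h4 : ∑ e ∈ E2, ∑ f ∈ E2, w e f = 0 := by
    refine Finset.sum_eq_zero fun e he => Finset.sum_eq_zero fun f hf => ?_
    rw [hE2, Finset.mem_image] at he hf
    obtain ⟨g, _, rfl⟩ := he
    obtain ⟨g', _, rfl⟩ := hf
    simp only [hw]
    rw [if_pos (Or.inl ⟨Sym2.mem_mk_left _ _, Sym2.mem_mk_left _ _⟩)]
  have h5 : ∑ e ∈ E1, ∑ f ∈ E2, w e f = ∑ e ∈ E2, ∑ f ∈ E1, w e f := by
    rw [Finset.sum_comm]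
    exact Finset.sum_congr rfl fun e _ => Finset.sum_congr rfl fun f _ => hwc f e
  -- facts on the edges inside `A`
  have hOA : ∀ g ∈ OA G A R, g ∈ G.edgeSet ∧ (∀ v ∈ g, v ∈ A) ∧ g ∉ R := by
    intro g hg
    rw [OA, Finset.mem_filter, mem_ES] at hg
    exact hg
  have havoid : ∀ g ∈ G.edgeSet, ∀ v, D.pos v ∈ D.arc g → v ∈ g := by
    intro g hg v hv
    induction g using Sym2.ind with
    | _ x y =>
      rw [Sym2.mem_iff]
      exact D.avoid x y v hg hv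
  have h6 : ∑ e ∈ E1, ∑ f ∈ E1, w e f ≤ ∑ g ∈ OA G A R, ∑ h ∈ OA G A R, D.x g h := by
    rw [hE1, Finset.sum_image fun _ _ _ _ h => map_vtx_inj h]
    refine Finset.sum_le_sum fun g hg => ?_
    rw [Finset.sum_image fun _ _ _ _ h => map_vtx_inj h]
    refine Finset.sum_le_sum fun h hh => ?_
    obtain ⟨g1, g2, g3⟩ := hOA g hg
    obtain ⟨k1, k2, k3⟩ := hOA h hh
    simp only [hw, hn]
    unfold Drawing.x
    by_cases hgh : g = h
    · rw [if_pos (Or.inr (by rw [hgh])), if_pos hgh]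
    · rw [if_neg hgh, if_neg]
      · rw [hQ2 g g1 g2 g3, hQ2 h k1 k2 k3]
        refine Set.ncard_le_ncard ?_ (D.X_finite g1 k1 hgh)
        rintro p ⟨hp, hpp⟩
        refine ⟨hp, ?_⟩
        rintro ⟨v, rfl⟩
        have hv := g2 v (havoid g g1 v hp.1)
        exact hpp ⟨vtx v, hQ1 v hv⟩
      · rintro (h' | h')
        · exact rt_notMem_map g h'.1
        · exact hgh (map_vtx_inj h')
  have h7 : ∑ e ∈ E2, ∑ f ∈ E1, w e f ≤ ∑ e ∈ ENA G N A, (T + ∑ g ∈ OA G A R, D.x e g) := by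
    rw [hE2, Finset.sum_image fun _ _ _ _ h => rt_mid_inj h]
    refine Finset.sum_le_sum fun e he => ?_
    rw [hE1, Finset.sum_image fun _ _ _ _ h => map_vtx_inj h]
    obtain ⟨x, y, hxy, hx, hy, rfl⟩ := ENA_cases hNA he
    have h8 : ∀ g ∈ OA G A R, w s(rt, mid s(x, y)) (g.map vtx) ≤
        (ρ x ∩ D.arc g).ncard + D.x s(x, y) g := by
      intro g hg
      obtain ⟨g1, g2, g3⟩ := hOA g hg
      have hxg : x ∉ g := fun h => Set.disjoint_left.1 hNA hx (g2 x h)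
      have hne : s(x, y) ≠ g := fun h => hxg (h ▸ Sym2.mem_mk_left _ _)
      simp only [hw, hn]
      unfold Drawing.x
      rw [if_neg hne]
      rw [if_neg]
      · refine (Set.ncard_le_ncard (t := (ρ x ∩ D.arc g) ∪ D.X s(x, y) g) ?_ ?_).trans
          (Set.ncard_union_le _ _)
        · rintro p ⟨⟨hp1, hp2⟩, hpp⟩
          rw [hQ2 g g1 g2 g3] at hp2
          rcases hQ3 x y hxy hx hy hp1 with h | ⟨h, h'⟩
          · exact Or.inl ⟨h, hp2⟩
          · refine Or.inr ⟨⟨h, hp2⟩, ?_⟩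
            rintro ⟨v, rfl⟩
            have hv := havoid g g1 v hp2
            have hv' := havoid s(x, y) hxy v h
            rcases Sym2.mem_iff.1 hv' with rfl | rfl
            · exact hxg hv
            · exact h' rfl
        · refine Set.Finite.union (hR.fin x hx g g1 (fun v hv h => ?_) g3) (D.X_finite hxy g1 hne)
          exact Set.disjoint_left.1 hNA h (g2 v hv)
      · rintro (h' | h')
        · exact rt_notMem_map g h'.2
        · exact rt_notMem_map g (h' ▸ Sym2.mem_mk_left _ _)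
    refine (Finset.sum_le_sum h8).trans ?_
    rw [Finset.sum_add_distrib]
    refine Nat.add_le_add_right ?_ _
    refine le_trans ?_ (hT x hx)
    refine Finset.sum_le_sum_of_subset ?_
    intro g hg
    rw [OA, Finset.mem_filter] at hg ⊢
    exact ⟨hg.1, fun v hv h => Set.disjoint_left.1 hNA h (hg.2.1 v hv), hg.2.2⟩
  rw [h4, h5]
  omega

end H29.BT
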