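import Pool.Agent.H29.BP.UncB

/-!
# [H29 BT DBLA] a crossing becomes a vertex

`Gp G a b a' b'` is the graph `G` without the edges `ab` and `a'b'`, with a new vertex `none` joined to
`a`, `b`, `a'`, `b'`. If the arcs of `ab` and `a'b'` cross at `c` we get a drawing of this graph, the new
vertex is at `c` and the crossing `c` has disappeared.

Paper proof. Let `α`, `β` be parametrisations of the arcs of `s(a,b)` (from `pos a` to `pos b`) and
`s(a',b')`, `c = α t = β r`, `0 < t < 1`, `0 < r < 1` (`c` is not a vertex). `pos' none = c`,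
`pos' (some v) = pos v`; the arcs are `α '' [0,t]`, `α '' [t,1]`, `β '' [0,r]`, `β '' [r,1]` for the
four new edges (`isArc_sub`) and `arc s(u,v)` for the old ones. Formally: define for `e : Sym2 (Option V)` the
arc by cases `e = s(none, some a)`, ..., `e = s(some u, some v)`.
`pos_inj`: `c ∉ range pos`. `avoid`: a vertex `pos v` on a half of `α` is `pos a` or `pos b` and by
injectivity it is the end point of the half; `c` is only on the arcs of `s(a,b)` and `s(a',b')`
(`no_triple`, `c` is not a vertex). `inter_finite`: the halves are subsets of the arcs; two halves of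
the same arc have only `c` in common. `proper`: let `p ≠ c` be a common point of two arcs of different
edges, not a vertex. If they are the two halves of the same arc then `p = c`. Otherwise they are
subsets of arcs of different edges of `G`, which cross properly at `p`; near `p` a half agrees with the
whole arc (take for `U` the complement of the other, compact, half, which does not contain `p` by
injectivity of `α`), `CrossAt.congr`. `no_triple`: three different edges of `Gp` with a common point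
`p ∉ range pos'` belong to three different edges of `G` (two halves of the same arc meet only in `c`).
So all crossings are crossings of `D`, different from `c`. A second crossing `c'` of `s(a,b)` and
`s(a',b')` lies on one half of `α` and on one half of `β`.
-/

set_option autoImplicit false

open Set

namespace H29.BT

open H29.BP

/-- `G` with the edges `ab`, `a'b'` replaced by a new vertex `none` joined to `a, b, a', b'` -/
def Gp {V : Type} (G : SimpleGraph V) (a b a' b' : V) : SimpleGraph (Option V) :=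
  SimpleGraph.fromRel fun p q =>
    (∃ u v, p = some u ∧ q = some v ∧ G.Adj u v ∧ s(u, v) ≠ s(a, b) ∧ s(u, v) ≠ s(a', b')) ∨
      (p = none ∧ ∃ u, q = some u ∧ (u = a ∨ u = b ∨ u = a' ∨ u = b'))

variable {V : Type} {G : SimpleGraph V}

theorem gp_cases {a b a' b' : V} {e : Sym2 (Option V)} (he : e ∈ (Gp G a b a' b').edgeSet) :
    (e = s(none, some a) ∨ e = s(none, some b)) ∨ (e = s(none, some a') ∨ e = s(none, some b')) ∨
      ∃ g ∈ G.edgeSet, g ≠ s(a, b) ∧ g ≠ s(a', b') ∧ e = g.map some := by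
  induction e using Sym2.ind with
  | _ x y =>
    rw [SimpleGraph.mem_edgeSet, Gp, SimpleGraph.fromRel_adj] at he
    obtain ⟨_, (⟨u, v, rfl, rfl, h1, h2, h3⟩ | ⟨rfl, u, rfl, hu⟩) |
      (⟨u, v, rfl, rfl, h1, h2, h3⟩ | ⟨rfl, u, rfl, hu⟩)⟩ := he
    · exact Or.inr (Or.inr ⟨s(u, v), h1, h2, h3, rfl⟩)
    · rcases hu with rfl | rfl | rfl | rfl
      · exact Or.inl (Or.inl rfl)
      · exact Or.inl (Or.inr rfl)
      · exact Or.inr (Or.inl (Or.inl rfl))
      · exact Or.inr (Or.inl (Or.inr rfl))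
    · refine Or.inr (Or.inr ⟨s(u, v), h1, h2, h3, ?_⟩)
      rw [Sym2.map_mk, Sym2.eq_swap]
    · rw [Sym2.eq_swap]
      rcases hu with rfl | rfl | rfl | rfl
      · exact Or.inl (Or.inl rfl)
      · exact Or.inl (Or.inr rfl)
      · exact Or.inr (Or.inl (Or.inl rfl))
      · exact Or.inr (Or.inl (Or.inr rfl))

theorem gp_half {a b a' b' u : V} (hu : u = a ∨ u = b ∨ u = a' ∨ u = b') :
    (Gp G a b a' b').Adj none (some u) := by
  rw [Gp, SimpleGraph.fromRel_adj]
  exact ⟨by simp, Or.inl (Or.inr ⟨rfl, u, rfl, hu⟩)⟩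

theorem none_notMem_map (g : Sym2 V) : (none : Option V) ∉ g.map some := by
  rw [Sym2.mem_map]
  rintro ⟨x, _, h⟩
  exact absurd h (by simp)

open scoped Classical in
/-- the edge of `G` to which an edge of the new graph belongs -/
noncomputable def edg (a b a' b' : V) (e : Sym2 (Option V)) : Sym2 V :=
  if e = s(none, some a) ∨ e = s(none, some b) then s(a, b)
  else if e = s(none, some a') ∨ e = s(none, some b') then s(a', b')
  else e.map (fun o => o.getD a)

open scoped Classical in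
/-- the arcs of the new drawing -/
noncomputable def arcN (D : Drawing G) (a b a' b' : V) (A1 A2 A3 A4 : Set ℂ)
    (e : Sym2 (Option V)) : Set ℂ :=
  if e = s(none, some a) then A1 else if e = s(none, some b) then A2
  else if e = s(none, some a') then A3 else if e = s(none, some b') then A4
  else D.arc (e.map (fun o => o.getD a))

theorem map_some_ne {g : Sym2 V} {u : V} : g.map some ≠ s(none, some u) := by
  intro h
  exact none_notMem_map g (by rw [h]; simp)

theorem map_getD (g : Sym2 V) (a : V) : (g.map some).map (fun o => o.getD a) = g := by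
  rw [Sym2.map_map]
  have h : ((fun o : Option V => o.getD a) ∘ some) = id := rfl
  rw [h, Sym2.map_id]
  rfl

theorem half_ne {u v : V} (h : u ≠ v) : (s(none, some u) : Sym2 (Option V)) ≠ s(none, some v) := by
  intro h1
  rw [Sym2.eq_iff] at h1
  rcases h1 with ⟨_, h1⟩ | ⟨h1, _⟩
  · exact h (Option.some.inj h1)
  · exact absurd h1 (by simp)

theorem dblA (D : Drawing G) {a b a' b' : V} (hab : G.Adj a b) (hab' : G.Adj a' b')
    (h1 : a ≠ a') (h2 : a ≠ b') (h3 : b ≠ a') (h4 : b ≠ b') {c : ℂ}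
    (hc : c ∈ D.X s(a, b) s(a', b')) :
    ∃ D' : Drawing (Gp G a b a' b'), D'.crossings ⊆ D.crossings \ {c} ∧
      ∀ c' ∈ D.X s(a, b) s(a', b'), c' ≠ c → ∃ u v, u ≠ v ∧
        (Gp G a b a' b').Adj none (some u) ∧ (Gp G a b a' b').Adj none (some v) ∧
        c' ∈ D'.X s(none, some u) s(none, some v) := by
  classical
  obtain ⟨α, hαc, hαi, hα0, hα1, hα⟩ := D.isArc a b hab
  obtain ⟨β, hβc, hβi, hβ0, hβ1, hβ⟩ := D.isArc a' b' hab'
  have h00 : (0 : ℝ) ∈ Icc (0 : ℝ) 1 := ⟨le_rfl, zero_le_one⟩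
  have h11 : (1 : ℝ) ∈ Icc (0 : ℝ) 1 := ⟨zero_le_one, le_rfl⟩
  have hef : s(a, b) ≠ s(a', b') := by
    intro h
    rw [Sym2.eq_iff] at h
    rcases h with ⟨h, _⟩ | ⟨h, _⟩
    · exact h1 h
    · exact h2 h
  obtain ⟨⟨hcα, hcβ⟩, hcv⟩ := hc
  obtain ⟨t, ht, htc⟩ : ∃ t ∈ Icc (0 : ℝ) 1, α t = c := by
    rw [← hα] at hcα
    exact hcα
  obtain ⟨r, hr, hrc⟩ : ∃ r ∈ Icc (0 : ℝ) 1, β r = c := by
    rw [← hβ] at hcβ
    exact hcβ
  have ht0 : 0 < t := by
    rcases ht.1.eq_or_lt with h | h
    · exfalso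
      rw [← h, hα0] at htc
      exact hcv ⟨a, htc⟩
    · exact h
  have ht1 : t < 1 := by
    rcases ht.2.eq_or_lt with h | h
    · exfalso
      rw [h, hα1] at htc
      exact hcv ⟨b, htc⟩
    · exact h
  have hr0 : 0 < r := by
    rcases hr.1.eq_or_lt with h | h
    · exfalso
      rw [← h, hβ0] at hrc
      exact hcv ⟨a', hrc⟩
    · exact h
  have hr1 : r < 1 := by
    rcases hr.2.eq_or_lt with h | h
    · exfalso
      rw [h, hβ1] at hrc
      exact hcv ⟨b', hrc⟩
    · exact h
  set A1 : Set ℂ := α '' Icc 0 t with hA1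
  set A2 : Set ℂ := α '' Icc t 1 with hA2
  set A3 : Set ℂ := β '' Icc 0 r with hA3
  set A4 : Set ℂ := β '' Icc r 1 with hA4
  set AN := arcN D a b a' b' A1 A2 A3 A4 with hAN
  -- evaluation
  have v1 : AN s(none, some a) = A1 := by
    rw [hAN, arcN, if_pos rfl]
  have v2 : AN s(none, some b) = A2 := by
    rw [hAN, arcN, if_neg (half_ne hab.ne.symm), if_pos rfl]
  have v3 : AN s(none, some a') = A3 := by
    rw [hAN, arcN, if_neg (half_ne h1.symm), if_neg (half_ne h3.symm), if_pos rfl]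
  have v4 : AN s(none, some b') = A4 := by
    rw [hAN, arcN, if_neg (half_ne h2.symm), if_neg (half_ne h4.symm),
      if_neg (half_ne hab'.ne.symm), if_pos rfl]
  have v5 : ∀ g : Sym2 V, AN (g.map some) = D.arc g := by
    intro g
    rw [hAN, arcN, if_neg map_some_ne, if_neg map_some_ne, if_neg map_some_ne,
      if_neg map_some_ne, map_getD]
  have p1 : edg a b a' b' s(none, some a) = s(a, b) := by
    rw [edg, if_pos (Or.inl rfl)]
  have p2 : edg a b a' b' s(none, some b) = s(a, b) := by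
    rw [edg, if_pos (Or.inr rfl)]
  have p3 : edg a b a' b' s(none, some a') = s(a', b') := by
    rw [edg, if_neg, if_pos (Or.inl rfl)]
    rintro (h | h)
    · exact half_ne h1.symm h
    · exact half_ne h3.symm h
  have p4 : edg a b a' b' s(none, some b') = s(a', b') := by
    rw [edg, if_neg, if_pos (Or.inr rfl)]
    rintro (h | h)
    · exact half_ne h2.symm h
    · exact half_ne h4.symm h
  have p5 : ∀ g : Sym2 V, edg a b a' b' (g.map some) = g := by
    intro g
    rw [edg, if_neg, if_neg, map_getD]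
    · rintro (h | h) <;> exact map_some_ne h
    · rintro (h | h) <;> exact map_some_ne h
  -- the arcs
  have hA1s : A1 ⊆ D.arc s(a, b) := by
    rw [← hα]
    exact Set.image_mono (Icc_subset_Icc le_rfl ht1.le)
  have hA2s : A2 ⊆ D.arc s(a, b) := by
    rw [← hα]
    exact Set.image_mono (Icc_subset_Icc ht0.le le_rfl)
  have hA3s : A3 ⊆ D.arc s(a', b') := by
    rw [← hβ]
    exact Set.image_mono (Icc_subset_Icc le_rfl hr1.le)
  have hA4s : A4 ⊆ D.arc s(a', b') := by
    rw [← hβ]
    exact Set.image_mono (Icc_subset_Icc hr0.le le_rfl)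
  have hα' : D.arc s(a, b) = A1 ∪ A2 := by
    rw [← hα, hA1, hA2, ← Set.image_union, Icc_union_Icc_eq_Icc ht0.le ht1.le]
  have hβ' : D.arc s(a', b') = A3 ∪ A4 := by
    rw [← hβ, hA3, hA4, ← Set.image_union, Icc_union_Icc_eq_Icc hr0.le hr1.le]
  have hA12 : A1 ∩ A2 ⊆ {c} := by
    rintro _ ⟨⟨s, hs, rfl⟩, ⟨s', hs', h⟩⟩
    have h5 := hαi ⟨ht0.le.trans hs'.1, hs'.2⟩ ⟨hs.1, hs.2.trans ht1.le⟩ h
    rw [h5] at hs'
    rw [le_antisymm hs.2 hs'.1, htc]
    rfl
  have hA34 : A3 ∩ A4 ⊆ {c} := by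
    rintro _ ⟨⟨s, hs, rfl⟩, ⟨s', hs', h⟩⟩
    have h5 := hβi ⟨hr0.le.trans hs'.1, hs'.2⟩ ⟨hs.1, hs.2.trans hr1.le⟩ h
    rw [h5] at hs'
    rw [le_antisymm hs.2 hs'.1, hrc]
    rfl
  have hA1c : IsClosed A1 := (isCompact_Icc.image_of_continuousOn
    (hαc.mono (Icc_subset_Icc le_rfl ht1.le))).isClosed
  have hA2c : IsClosed A2 := (isCompact_Icc.image_of_continuousOn
    (hαc.mono (Icc_subset_Icc ht0.le le_rfl))).isClosed
  have hA3c : IsClosed A3 := (isCompact_Icc.image_of_continuousOn
    (hβc.mono (Icc_subset_Icc le_rfl hr1.le))).isClosed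
  have hA4c : IsClosed A4 := (isCompact_Icc.image_of_continuousOn
    (hβc.mono (Icc_subset_Icc hr0.le le_rfl))).isClosed
  -- locality
  have hloc : ∀ (X Y Z : Set ℂ), Z = X ∪ Y → X ∩ Y ⊆ {c} → IsClosed Y → ∀ p ∈ X, p ≠ c →
      ∃ U : Set ℂ, IsOpen U ∧ p ∈ U ∧ X ∩ U = Z ∩ U := by
    intro X Y Z hZ hXY hY p hp hpc
    refine ⟨Yᶜ, hY.isOpen_compl, fun h => hpc (hXY ⟨hp, h⟩), ?_⟩
    rw [hZ]
    ext z
    constructor
    · rintro ⟨h, h'⟩
      exact ⟨Or.inl h, h'⟩
    · rintro ⟨h | h, h'⟩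
      · exact ⟨h, h'⟩
      · exact absurd h h'
  -- the classes of the edges
  have hclass : ∀ e ∈ (Gp G a b a' b').edgeSet,
      (edg a b a' b' e = s(a, b) ∧ (e = s(none, some a) ∨ e = s(none, some b))) ∨
      (edg a b a' b' e = s(a', b') ∧ (e = s(none, some a') ∨ e = s(none, some b'))) ∨
      (edg a b a' b' e ∈ G.edgeSet ∧ edg a b a' b' e ≠ s(a, b) ∧ edg a b a' b' e ≠ s(a', b') ∧
        e = (edg a b a' b' e).map some ∧ AN e = D.arc (edg a b a' b' e)) := by
    intro e he
    rcases gp_cases he with (rfl | rfl) | (rfl | rfl) | ⟨g, hg, hg1, hg2, rfl⟩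
    · exact Or.inl ⟨p1, Or.inl rfl⟩
    · exact Or.inl ⟨p2, Or.inr rfl⟩
    · exact Or.inr (Or.inl ⟨p3, Or.inl rfl⟩)
    · exact Or.inr (Or.inl ⟨p4, Or.inr rfl⟩)
    · refine Or.inr (Or.inr ?_)
      rw [p5]
      exact ⟨hg, hg1, hg2, rfl, v5 g⟩
  have F1 : ∀ e ∈ (Gp G a b a' b').edgeSet, edg a b a' b' e ∈ G.edgeSet := by
    intro e he
    rcases hclass e he with ⟨h, _⟩ | ⟨h, _⟩ | h
    · rw [h]
      exact hab
    · rw [h]
      exact hab'
    · exact h.1
  have F2 : ∀ e ∈ (Gp G a b a' b').edgeSet, AN e ⊆ D.arc (edg a b a' b' e) := by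
    intro e he
    rcases hclass e he with ⟨h, rfl | rfl⟩ | ⟨h, rfl | rfl⟩ | h
    · rw [h, v1]
      exact hA1s
    · rw [h, v2]
      exact hA2s
    · rw [h, v3]
      exact hA3s
    · rw [h, v4]
      exact hA4s
    · rw [h.2.2.2.2]
  have F3 : ∀ e ∈ (Gp G a b a' b').edgeSet, ∀ p ∈ AN e, p ≠ c →
      ∃ U : Set ℂ, IsOpen U ∧ p ∈ U ∧ AN e ∩ U = D.arc (edg a b a' b' e) ∩ U := by
    intro e he p hp hpc
    rcases hclass e he with ⟨h, rfl | rfl⟩ | ⟨h, rfl | rfl⟩ | h
    · rw [h, v1]
      rw [v1] at hp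
      exact hloc A1 A2 _ hα' hA12 hA2c p hp hpc
    · rw [h, v2]
      rw [v2] at hp
      exact hloc A2 A1 _ (hα'.trans (Set.union_comm _ _)) (by rw [Set.inter_comm]; exact hA12)
        hA1c p hp hpc
    · rw [h, v3]
      rw [v3] at hp
      exact hloc A3 A4 _ hβ' hA34 hA4c p hp hpc
    · rw [h, v4]
      rw [v4] at hp
      exact hloc A4 A3 _ (hβ'.trans (Set.union_comm _ _)) (by rw [Set.inter_comm]; exact hA34)
        hA3c p hp hpc
    · exact ⟨Set.univ, isOpen_univ, Set.mem_univ _, by rw [h.2.2.2.2]⟩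
  have F4 : ∀ e ∈ (Gp G a b a' b').edgeSet, ∀ f ∈ (Gp G a b a' b').edgeSet, e ≠ f →
      edg a b a' b' e = edg a b a' b' f → AN e ∩ AN f ⊆ {c} := by
    intro e he f hf hne hpar
    rcases hclass e he with ⟨k, hk⟩ | ⟨k, hk⟩ | ⟨k0, k1, k2, k3, k4⟩ <;>
      rcases hclass f hf with ⟨l, hl⟩ | ⟨l, hl⟩ | ⟨l0, l1, l2, l3, l4⟩
    · rcases hk with rfl | rfl <;> rcases hl with rfl | rfl
      · exact absurd rfl hne
      · rw [v1, v2]
        exact hA12
      · rw [v1, v2, Set.inter_comm]
        exact hA12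
      · exact absurd rfl hne
    · exact absurd (k.symm.trans (hpar.trans l)) hef
    · exact absurd (hpar.symm.trans k) l1
    · exact absurd (l.symm.trans (hpar.symm.trans k)) hef
    · rcases hk with rfl | rfl <;> rcases hl with rfl | rfl
      · exact absurd rfl hne
      · rw [v3, v4]
        exact hA34
      · rw [v3, v4, Set.inter_comm]
        exact hA34
      · exact absurd rfl hne
    · exact absurd (hpar.symm.trans k) l2
    · exact absurd (hpar.trans l) k1
    · exact absurd (hpar.trans l) k2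
    · exact absurd (k3.trans ((congrArg (Sym2.map some) hpar).trans l3.symm)) hne
  have hcno : ∀ g ∈ G.edgeSet, g ≠ s(a, b) → g ≠ s(a', b') → c ∉ D.arc g := by
    intro g hg hg1 hg2 h
    exact hcv (D.no_triple _ hab _ hab' g hg hef hg1.symm hg2.symm c ⟨hcα, hcβ⟩ h)
  have F5 : ∀ e ∈ (Gp G a b a' b').edgeSet, c ∈ AN e → none ∈ e := by
    intro e he h
    rcases hclass e he with ⟨_, rfl | rfl⟩ | ⟨_, rfl | rfl⟩ | ⟨k0, k1, k2, _, k4⟩
    · simp
    · simp
    · simp
    · simp
    · rw [k4] at h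
      exact absurd h (hcno _ k0 k1 k2)
  have F6 : ∀ e ∈ (Gp G a b a' b').edgeSet, ∀ w, D.pos w ∈ AN e → some w ∈ e := by
    intro e he w hw
    rcases hclass e he with ⟨_, rfl | rfl⟩ | ⟨_, rfl | rfl⟩ | ⟨k0, k1, k2, k3, k4⟩
    · rw [v1] at hw
      rcases D.avoid a b w hab (hA1s hw) with rfl | rfl
      · simp
      · exfalso
        obtain ⟨s, hs, h⟩ := hw
        rw [← hα1] at h
        have h5 := hαi ⟨hs.1, hs.2.trans ht1.le⟩ h11 h
        rw [h5] at hs
        exact absurd ht1 (not_lt.2 hs.2)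
    · rw [v2] at hw
      rcases D.avoid a b w hab (hA2s hw) with rfl | rfl
      · exfalso
        obtain ⟨s, hs, h⟩ := hw
        rw [← hα0] at h
        have h5 := hαi ⟨ht0.le.trans hs.1, hs.2⟩ h00 h
        rw [h5] at hs
        exact absurd ht0 (not_lt.2 hs.1)
      · simp
    · rw [v3] at hw
      rcases D.avoid a' b' w hab' (hA3s hw) with rfl | rfl
      · simp
      · exfalso
        obtain ⟨s, hs, h⟩ := hw
        rw [← hβ1] at h
        have h5 := hβi ⟨hs.1, hs.2.trans hr1.le⟩ h11 h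
        rw [h5] at hs
        exact absurd hr1 (not_lt.2 hs.2)
    · rw [v4] at hw
      rcases D.avoid a' b' w hab' (hA4s hw) with rfl | rfl
      · exfalso
        obtain ⟨s, hs, h⟩ := hw
        rw [← hβ0] at h
        have h5 := hβi ⟨hr0.le.trans hs.1, hs.2⟩ h00 h
        rw [h5] at hs
        exact absurd hr0 (not_lt.2 hs.1)
      · simp
    · rw [k4] at hw
      have h5 : w ∈ edg a b a' b' e := by
        generalize edg a b a' b' e = g at *
        induction g using Sym2.ind with
        | _ x y =>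
          rw [Sym2.mem_iff]
          exact D.avoid x y w k0 hw
      rw [k3, Sym2.mem_map]
      exact ⟨w, h5, rfl⟩
  -- arcs
  have hI1 : IsArc (D.pos a) c A1 := by
    rw [← hα0, ← htc]
    exact isArc_sub hαc hαi le_rfl ht0 ht1.le
  have hI2 : IsArc c (D.pos b) A2 := by
    rw [← hα1, ← htc]
    exact isArc_sub hαc hαi ht0.le ht1 le_rfl
  have hI3 : IsArc (D.pos a') c A3 := by
    rw [← hβ0, ← hrc]
    exact isArc_sub hβc hβi le_rfl hr0 hr1.le
  have hI4 : IsArc c (D.pos b') A4 := by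
    rw [← hβ1, ← hrc]
    exact isArc_sub hβc hβi hr0.le hr1 le_rfl
  have hIh : ∀ u, (u = a ∨ u = b ∨ u = a' ∨ u = b') → IsArc c (D.pos u) (AN s(none, some u)) := by
    rintro u (rfl | rfl | rfl | rfl)
    · rw [v1]
      exact hI1.symm
    · rw [v2]
      exact hI2
    · rw [v3]
      exact hI3.symm
    · rw [v4]
      exact hI4
  set pos' : Option V → ℂ := fun o => o.elim c D.pos with hpos'
  have hran : ∀ p, p ∉ range pos' → p ≠ c ∧ p ∉ range D.pos := by
    intro p hp
    refine ⟨?_, ?_⟩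
    · rintro rfl
      exact hp ⟨none, rfl⟩
    · rintro ⟨w, rfl⟩
      exact hp ⟨some w, rfl⟩
  have hex : ∃ D' : Drawing (Gp G a b a' b'), D'.pos = pos' ∧ D'.arc = AN := by
    refine ⟨{ pos := pos'
              arc := AN
              pos_inj := ?_
              isArc := ?_
              avoid := ?_
              inter_finite := ?_
              proper := ?_
              no_triple := ?_ }, rfl, rfl⟩
    · intro x y hxy
      cases x with
      | none =>
        cases y with
        | none => rfl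
        | some y => exact absurd ⟨y, hxy.symm⟩ hcv
      | some x =>
        cases y with
        | none => exact absurd ⟨x, hxy⟩ hcv
        | some y => rw [D.pos_inj hxy]
    · intro x y hxy
      have hxy' := hxy
      rw [Gp, SimpleGraph.fromRel_adj] at hxy
      obtain ⟨_, (⟨u, v, rfl, rfl, k1, k2, k3⟩ | ⟨rfl, u, rfl, hu⟩) |
        (⟨u, v, rfl, rfl, k1, k2, k3⟩ | ⟨rfl, u, rfl, hu⟩)⟩ := hxy
      · have h5 := v5 s(u, v)
        rw [Sym2.map_mk] at h5
        rw [h5]
        exact D.isArc u v k1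
      · exact hIh u hu
      · have h5 := v5 s(v, u)
        rw [Sym2.map_mk] at h5
        rw [h5]
        exact D.isArc v u k1.symm
      · rw [Sym2.eq_swap]
        exact (hIh u hu).symm
    · intro x y w hxy hw
      rw [← Sym2.mem_iff]
      cases w with
      | none => exact F5 _ hxy hw
      | some w => exact F6 _ hxy w hw
    · intro e he f hf hne
      by_cases hp : edg a b a' b' e = edg a b a' b' f
      · exact (Set.finite_singleton c).subset (F4 e he f hf hne hp)
      · exact (D.inter_finite _ (F1 e he) _ (F1 f hf) hp).subset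
          (Set.inter_subset_inter (F2 e he) (F2 f hf))
    · intro e he f hf hne p hp hpp
      obtain ⟨hpc, hpv⟩ := hran p hpp
      by_cases hpar : edg a b a' b' e = edg a b a' b' f
      · exact absurd (F4 e he f hf hne hpar hp) hpc
      · obtain ⟨U, hU, hpU, hUe⟩ := F3 e he p hp.1 hpc
        obtain ⟨U', hU', hpU', hUe'⟩ := F3 f hf p hp.2 hpc
        refine (D.proper _ (F1 e he) _ (F1 f hf) hpar p ⟨F2 e he hp.1, F2 f hf hp.2⟩ hpv).congr
          (U ∩ U') (hU.inter hU') ⟨hpU, hpU'⟩ ?_ ?_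
        · rw [← Set.inter_assoc, hUe, Set.inter_assoc]
        · rw [Set.inter_comm U U', ← Set.inter_assoc, hUe', Set.inter_assoc]
    · intro e he f hf g hg hef' heg hfg p hp hpg
      by_contra hpp
      obtain ⟨hpc, hpv⟩ := hran p hpp
      have k1 : edg a b a' b' e ≠ edg a b a' b' f := fun h => hpc (F4 e he f hf hef' h hp)
      have k2 : edg a b a' b' e ≠ edg a b a' b' g := fun h => hpc (F4 e he g hg heg h ⟨hp.1, hpg⟩)
      have k3 : edg a b a' b' f ≠ edg a b a' b' g := fun h => hpc (F4 f hf g hg hfg h ⟨hp.2, hpg⟩)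
      exact hpv (D.no_triple _ (F1 e he) _ (F1 f hf) _ (F1 g hg) k1 k2 k3 p
        ⟨F2 e he hp.1, F2 f hf hp.2⟩ (F2 g hg hpg))
  obtain ⟨D', hD1, hD2⟩ := hex
  refine ⟨D', ?_, ?_⟩
  · rintro p ⟨e, he, f, hf, hne, hp, hpp⟩
    rw [hD2] at hp
    rw [hD1] at hpp
    obtain ⟨hpc, hpv⟩ := hran p hpp
    exact ⟨⟨_, F1 e he, _, F1 f hf, fun h => hpc (F4 e he f hf hne h hp),
      ⟨F2 e he hp.1, F2 f hf hp.2⟩, hpv⟩, hpc⟩
  · rintro c' ⟨⟨hc1, hc2⟩, hcv'⟩ hcc
    have hc'v : c' ∉ range pos' := by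
      rintro ⟨o, ho⟩
      cases o with
      | none => exact hcc ho.symm
      | some w => exact hcv' ⟨w, ho⟩
    rw [hα'] at hc1
    rw [hβ'] at hc2
    have key : ∀ u v, u ≠ v → (u = a ∨ u = b ∨ u = a' ∨ u = b') →
        (v = a ∨ v = b ∨ v = a' ∨ v = b') → c' ∈ AN s(none, some u) → c' ∈ AN s(none, some v) →
        ∃ u v, u ≠ v ∧ (Gp G a b a' b').Adj none (some u) ∧ (Gp G a b a' b').Adj none (some v) ∧
          c' ∈ D'.X s(none, some u) s(none, some v) := by
      intro u v huv hu hv k1 k2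
      refine ⟨u, v, huv, gp_half hu, gp_half hv, ?_⟩
      unfold Drawing.X
      rw [hD1, hD2]
      exact ⟨⟨k1, k2⟩, hc'v⟩
    rcases hc1 with hc1 | hc1 <;> rcases hc2 with hc2 | hc2
    · exact key a a' h1 (by simp) (by simp) (by rw [v1]; exact hc1) (by rw [v3]; exact hc2)
    · exact key a b' h2 (by simp) (by simp) (by rw [v1]; exact hc1) (by rw [v4]; exact hc2)
    · exact key b a' h3 (by simp) (by simp) (by rw [v2]; exact hc1) (by rw [v3]; exact hc2)
    · exact key b b' h4 (by simp) (by simp) (by rw [v2]; exact hc1) (by rw [v4]; exact hc2)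

end H29.BT
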