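import Pool.Agent.H29.BT.DblA
import Pool.Agent.H29.BT.App

/-!
# [H29 BT DBLB] a vertex of degree four becomes at most one crossing

Paper proof. `z = none`. Let `Q : Semi G ∅` with `pos v = D'.pos (some v)`, the arc of `s(a,b)` is the union of
the arcs of `s(none, some a)` and `s(none, some b)` (they have only the place of `none` in common: other
common points would be crossings, excluded by `hX`, or vertices, excluded by `avoid`;
`IsArc.symm`, `IsArc.trans`), the same for `s(a',b')`, and the arc of every other edge `s(u,v)` is the arc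
of `s(some u, some v)`. `avoid` is clear, `fin`: finite unions. `app` gives a drawing `D` with
`(D.X e f).ncard ≤ ((Q.arc e ∩ Q.arc f) \ range Q.pos).ncard` for `e ≠ f`. By `two_mul_cr`
`2 * D.cr ≤ ∑_{(e, f), e ≠ f} ((Q.arc e ∩ Q.arc f) \ range Q.pos).ncard`, the number of triples `(p, e, f)`, `e ≠ f`
edges of `G`, `p` not in `range Q.pos`, `p` on both arcs. For given `p = D'.pos none` the only edges are
`s(a,b)` and `s(a',b')` (by `avoid` the other arcs do not contain it), two triples. For another `p`: `p` is a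
crossing of `D'` (it is on the arcs of two different edges of `Gp` and not a vertex of `D'`) and by
`no_triple` it is on at most two arcs of `Q` (three different arcs of `Q` would give three different
arcs of `D'`): at most two triples. So `2 * D.cr ≤ 2 * (D'.cr + 1)`.
-/

set_option autoImplicit false

open Set
open scoped Classical

namespace H29.BT

open H29.BP

variable {V : Type} [Finite V] {G : SimpleGraph V}

/-- every point of a finite set is on at most two arcs: number of pairs -/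
theorem pairs_le {ι : Type} (E : Finset ι) (A : ι → Set ℂ) (C : Finset ℂ)
    (h3 : ∀ p ∈ C, ∀ e ∈ E, ∀ f ∈ E, ∀ g ∈ E, e ≠ f → e ≠ g → f ≠ g → p ∈ A e → p ∈ A f →
      p ∉ A g) (N : ι → ι → ℕ)
    (hN : ∀ e ∈ E, ∀ f ∈ E, N e f ≤ if e = f then 0 else
      {p | p ∈ C ∧ p ∈ A e ∧ p ∈ A f}.ncard) :
    ∑ e ∈ E, ∑ f ∈ E, N e f ≤ 2 * C.card := by
  have h1 : ∑ e ∈ E, ∑ f ∈ E, N e f ≤
      ∑ e ∈ E, ∑ f ∈ E, ∑ p ∈ C, if e ≠ f ∧ p ∈ A e ∧ p ∈ A f then 1 else 0 := by
    refine Finset.sum_le_sum fun e he => Finset.sum_le_sum fun f hf => ?_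
    refine (hN e he f hf).trans ?_
    by_cases hef : e = f
    · rw [if_pos hef]
      exact Nat.zero_le _
    · have h0 : {p | p ∈ C ∧ p ∈ A e ∧ p ∈ A f} =
          ((C.filter fun p => p ∈ A e ∧ p ∈ A f : Finset ℂ) : Set ℂ) := by
        ext p
        simp
      rw [if_neg hef, h0, Set.ncard_coe_finset, Finset.card_filter]
      refine Finset.sum_le_sum fun p _ => ?_
      by_cases hp : p ∈ A e ∧ p ∈ A f
      · rw [if_pos hp, if_pos ⟨hef, hp⟩]
      · rw [if_neg hp]
        exact Nat.zero_le _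
  have h2 : ∑ e ∈ E, ∑ f ∈ E, ∑ p ∈ C, (if e ≠ f ∧ p ∈ A e ∧ p ∈ A f then 1 else 0) =
      ∑ p ∈ C, ∑ e ∈ E, ∑ f ∈ E, (if e ≠ f ∧ p ∈ A e ∧ p ∈ A f then 1 else 0) := by
    have h4 : ∀ e ∈ E, ∑ f ∈ E, ∑ p ∈ C, (if e ≠ f ∧ p ∈ A e ∧ p ∈ A f then 1 else 0) =
        ∑ p ∈ C, ∑ f ∈ E, (if e ≠ f ∧ p ∈ A e ∧ p ∈ A f then 1 else 0) := by
      intro e _
      rw [Finset.sum_comm]
    rw [Finset.sum_congr rfl h4, Finset.sum_comm]
  refine h1.trans (h2.le.trans ?_)
  rw [mul_comm, ← smul_eq_mul, ← Finset.sum_const]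
  refine Finset.sum_le_sum fun p hp => ?_
  rw [← Finset.sum_product' (f := fun e f => if e ≠ f ∧ p ∈ A e ∧ p ∈ A f then 1 else 0),
    Finset.sum_ite, Finset.sum_const_zero, add_zero, Finset.sum_const, smul_eq_mul, mul_one]
  set T : Finset ι := E.filter fun e => p ∈ A e with hT
  have h5 : ((E ×ˢ E).filter fun q : ι × ι => q.1 ≠ q.2 ∧ p ∈ A q.1 ∧ p ∈ A q.2) ⊆
      T.offDiag := by
    intro q hq
    rw [Finset.mem_filter, Finset.mem_product] at hq
    rw [Finset.mem_offDiag, hT, Finset.mem_filter, Finset.mem_filter]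
    exact ⟨⟨hq.1.1, hq.2.2.1⟩, ⟨hq.1.2, hq.2.2.2⟩, hq.2.1⟩
  refine (Finset.card_le_card h5).trans ?_
  have h6 : T.card ≤ 2 := by
    by_contra h7
    push Not at h7
    obtain ⟨e, f, g, he, hf, hg, hef, heg, hfg⟩ := Finset.two_lt_card_iff.1 h7
    rw [hT, Finset.mem_filter] at he hf hg
    exact h3 p hp e he.1 f hf.1 g hg.1 hef heg hfg he.2 hf.2 hg.2
  rw [Finset.offDiag_card]
  interval_cases T.card <;> norm_num

theorem dblB {a b a' b' : V} (hab : G.Adj a b) (hab' : G.Adj a' b')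
    (h1 : a ≠ a') (h2 : a ≠ b') (h3 : b ≠ a') (h4 : b ≠ b') (D' : Drawing (Gp G a b a' b'))
    (hX : ∀ u v, (Gp G a b a' b').Adj none (some u) → (Gp G a b a' b').Adj none (some v) →
      u ≠ v → D'.X s(none, some u) s(none, some v) = ∅) :
    ∃ D : Drawing G, D.cr ≤ D'.cr + 1 := by
  have hef : s(a, b) ≠ s(a', b') := by
    intro h
    rw [Sym2.eq_iff] at h
    rcases h with ⟨h, _⟩ | ⟨h, _⟩
    · exact h1 h
    · exact h2 h
  have p1 : edg a b a' b' s(none, some a) = s(a, b) := by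
    rw [edg, if_pos (Or.inl rfl)]
  have p2 : edg a b a' b' s(none, some b) = s(a, b) := by
    rw [edg, if_pos (Or.inr rfl)]
  have p3 : edg a b a' b' s(none, some a') = s(a', b') := by
    rw [edg, if_neg, if_pos (Or.inl rfl)]
    rintro (h | h)
    · exact half_ne h1.symm h
    · exact half_ne h3.symm h
  have p4 : edg a b a' b' s(none, some b') = s(a', b') := by
    rw [edg, if_neg, if_pos (Or.inr rfl)]
    rintro (h | h)
    · exact half_ne h2.symm h
    · exact half_ne h4.symm h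
  have p5 : ∀ g : Sym2 V, edg a b a' b' (g.map some) = g := by
    intro g
    rw [edg, if_neg, if_neg, map_getD]
    · rintro (h | h) <;> exact map_some_ne h
    · rintro (h | h) <;> exact map_some_ne h
  set E := (Gp G a b a' b').edgeSet with hE
  have e1 : s(none, some a) ∈ E := gp_half (by simp)
  have e2 : s(none, some b) ∈ E := gp_half (by simp)
  have e3 : s(none, some a') ∈ E := gp_half (by simp)
  have e4 : s(none, some b') ∈ E := gp_half (by simp)
  have e5 : ∀ g ∈ G.edgeSet, g ≠ s(a, b) → g ≠ s(a', b') → g.map some ∈ E := by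
    intro g hg hg1 hg2
    induction g using Sym2.ind with
    | _ x y =>
      rw [hE, Sym2.map_mk, SimpleGraph.mem_edgeSet, Gp, SimpleGraph.fromRel_adj]
      refine ⟨fun h => ?_, Or.inl (Or.inl ⟨x, y, rfl, rfl, hg, hg1, hg2⟩)⟩
      exact G.ne_of_adj hg (Option.some.inj h)
  set arcQ : Sym2 V → Set ℂ := fun e => ⋃ g ∈ {g | g ∈ E ∧ edg a b a' b' g = e}, D'.arc g with hQ
  have q1 : arcQ s(a, b) = D'.arc s(none, some a) ∪ D'.arc s(none, some b) := by
    ext z
    constructor
    · intro hz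
      obtain ⟨g, ⟨hg, hgp⟩, hzg⟩ := Set.mem_iUnion₂.1 hz
      rcases gp_cases hg with (rfl | rfl) | (rfl | rfl) | ⟨g', hg', hg1, hg2, rfl⟩
      · exact Or.inl hzg
      · exact Or.inr hzg
      · exact absurd (hgp.symm.trans p3) hef
      · exact absurd (hgp.symm.trans p4) hef
      · rw [p5] at hgp
        exact absurd hgp hg1
    · rintro (hz | hz)
      · exact Set.mem_iUnion₂.2 ⟨_, ⟨e1, p1⟩, hz⟩
      · exact Set.mem_iUnion₂.2 ⟨_, ⟨e2, p2⟩, hz⟩
  have q2 : arcQ s(a', b') = D'.arc s(none, some a') ∪ D'.arc s(none, some b') := by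
    ext z
    constructor
    · intro hz
      obtain ⟨g, ⟨hg, hgp⟩, hzg⟩ := Set.mem_iUnion₂.1 hz
      rcases gp_cases hg with (rfl | rfl) | (rfl | rfl) | ⟨g', hg', hg1, hg2, rfl⟩
      · exact absurd (p1.symm.trans hgp) hef
      · exact absurd (p2.symm.trans hgp) hef
      · exact Or.inl hzg
      · exact Or.inr hzg
      · rw [p5] at hgp
        exact absurd hgp hg2
    · rintro (hz | hz)
      · exact Set.mem_iUnion₂.2 ⟨_, ⟨e3, p3⟩, hz⟩
      · exact Set.mem_iUnion₂.2 ⟨_, ⟨e4, p4⟩, hz⟩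
  have q3 : ∀ g ∈ G.edgeSet, g ≠ s(a, b) → g ≠ s(a', b') → arcQ g = D'.arc (g.map some) := by
    intro g hg hg1 hg2
    ext z
    constructor
    · intro hz
      obtain ⟨g', ⟨hg', hgp⟩, hzg⟩ := Set.mem_iUnion₂.1 hz
      rcases gp_cases hg' with (rfl | rfl) | (rfl | rfl) | ⟨g'', hg'', hg1', hg2', rfl⟩
      · exact absurd (hgp.symm.trans p1) hg1
      · exact absurd (hgp.symm.trans p2) hg1
      · exact absurd (hgp.symm.trans p3) hg2
      · exact absurd (hgp.symm.trans p4) hg2
      · rw [p5] at hgp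
        rw [← hgp]
        exact hzg
    · intro hz
      exact Set.mem_iUnion₂.2 ⟨_, ⟨e5 g hg hg1 hg2, p5 g⟩, hz⟩
  -- two halves have only the place of `none` in common
  have hhalf : ∀ u v, u ≠ v → (u = a ∨ u = b ∨ u = a' ∨ u = b') →
      (v = a ∨ v = b ∨ v = a' ∨ v = b') →
      D'.arc s(none, some u) ∩ D'.arc s(none, some v) ⊆ {D'.pos none} := by
    intro u v huv hu hv p hp
    by_contra hpn
    have hpr : p ∉ range D'.pos := by
      rintro ⟨w, rfl⟩
      rcases D'.avoid _ _ w (gp_half hu) hp.1 with rfl | rfl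
      · exact hpn rfl
      · rcases D'.avoid _ _ _ (gp_half hv) hp.2 with h5 | h5
        · exact absurd h5 (by simp)
        · exact huv (Option.some.inj h5)
    have h5 : p ∈ D'.X s(none, some u) s(none, some v) := ⟨hp, hpr⟩
    rw [hX u v (gp_half hu) (gp_half hv) huv] at h5
    exact h5
  have havoid : ∀ g ∈ E, ∀ w, D'.pos w ∈ D'.arc g → w ∈ g := by
    intro g hg w hw
    induction g using Sym2.ind with
    | _ x y =>
      rw [Sym2.mem_iff]
      exact D'.avoid x y w hg hw
  have hfinQ : ∀ e ∈ G.edgeSet, ∀ f ∈ G.edgeSet, e ≠ f → (arcQ e ∩ arcQ f).Finite := by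
    intro e he f hf hne
    have h5 : arcQ e ∩ arcQ f ⊆ ⋃ q ∈ {q : Sym2 (Option V) × Sym2 (Option V) |
        q.1 ∈ E ∧ q.2 ∈ E ∧ q.1 ≠ q.2}, (D'.arc q.1 ∩ D'.arc q.2) := by
      rintro p ⟨hp1, hp2⟩
      obtain ⟨g, ⟨hg, hgp⟩, hzg⟩ := Set.mem_iUnion₂.1 hp1
      obtain ⟨g', ⟨hg', hgp'⟩, hzg'⟩ := Set.mem_iUnion₂.1 hp2
      refine Set.mem_iUnion₂.2 ⟨(g, g'), ⟨hg, hg', fun h => hne ?_⟩, hzg, hzg'⟩
      have h6 : g = g' := h
      rw [← hgp, ← hgp', h6]
    refine (Set.Finite.biUnion (Set.toFinite _) ?_).subset h5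
    rintro q ⟨hq1, hq2, hq3⟩
    exact D'.inter_finite _ hq1 _ hq2 hq3
  have hQ : ∃ Q : Semi G ∅, Q.pos = (fun v => D'.pos (some v)) ∧ Q.arc = arcQ := by
    refine ⟨{ pos := fun v => D'.pos (some v)
              arc := arcQ
              pos_inj := fun u v h => Option.some.inj (D'.pos_inj h)
              isArc := ?_
              avoid := ?_
              fin := fun e he f hf hne _ => hfinQ e he f hf hne }, rfl, rfl⟩
    · intro u v huv
      by_cases c1 : s(u, v) = s(a, b)
      · have h5 : IsArc (D'.pos (some a)) (D'.pos (some b)) (arcQ s(a, b)) := by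
          rw [q1]
          exact (D'.isArc _ _ (gp_half (by simp))).symm.trans (D'.isArc _ _ (gp_half (by simp)))
            (hhalf a b hab.ne (by simp) (by simp))
        rw [c1]
        rw [Sym2.eq_iff] at c1
        rcases c1 with ⟨rfl, rfl⟩ | ⟨rfl, rfl⟩
        · exact h5
        · exact h5.symm
      · by_cases c2 : s(u, v) = s(a', b')
        · have h5 : IsArc (D'.pos (some a')) (D'.pos (some b')) (arcQ s(a', b')) := by
            rw [q2]
            exact (D'.isArc _ _ (gp_half (by simp))).symm.trans (D'.isArc _ _ (gp_half (by simp)))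
              (hhalf a' b' hab'.ne (by simp) (by simp))
          rw [c2]
          rw [Sym2.eq_iff] at c2
          rcases c2 with ⟨rfl, rfl⟩ | ⟨rfl, rfl⟩
          · exact h5
          · exact h5.symm
        · rw [q3 _ huv c1 c2]
          have h5 := e5 _ huv c1 c2
          rw [Sym2.map_mk] at h5 ⊢
          exact D'.isArc _ _ h5
    · intro u v w huv hw
      obtain ⟨g, ⟨hg, hgp⟩, hwg⟩ := Set.mem_iUnion₂.1 hw
      have h5 := havoid g hg _ hwg
      rw [← Sym2.mem_iff, ← hgp]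
      rcases gp_cases hg with (rfl | rfl) | (rfl | rfl) | ⟨g'', hg'', hg1', hg2', rfl⟩
      · rw [p1]
        have h6 : w = a := by simpa using h5
        rw [h6]
        simp
      · rw [p2]
        have h6 : w = b := by simpa using h5
        rw [h6]
        simp
      · rw [p3]
        have h6 : w = a' := by simpa using h5
        rw [h6]
        simp
      · rw [p4]
        have h6 : w = b' := by simpa using h5
        rw [h6]
        simp
      · rw [p5]
        rw [Sym2.mem_map] at h5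
        obtain ⟨x, hx, h6⟩ := h5
        rw [← Option.some.inj h6]
        exact hx
  obtain ⟨Q, hQ1, hQ2⟩ := hQ
  obtain ⟨D, _, _, hDX⟩ := app Q 1 one_pos
  refine ⟨D, ?_⟩
  -- counting
  set C : Finset ℂ := insert (D'.pos none) D'.crossings_finite.toFinset with hC
  have hCcard : C.card ≤ D'.cr + 1 := by
    rw [hC]
    refine (Finset.card_insert_le _ _).trans ?_
    unfold Drawing.cr
    rw [Set.ncard_eq_toFinset_card _ D'.crossings_finite]
  have hsub : ∀ e ∈ G.edgeSet, ∀ f ∈ G.edgeSet, e ≠ f → ∀ p ∈ arcQ e ∩ arcQ f,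
      p ∉ range Q.pos → p ∈ C := by
    rintro e he f hf hne p ⟨hp1, hp2⟩ hpp
    obtain ⟨g, ⟨hg, hgp⟩, hzg⟩ := Set.mem_iUnion₂.1 hp1
    obtain ⟨g', ⟨hg', hgp'⟩, hzg'⟩ := Set.mem_iUnion₂.1 hp2
    rw [hC, Finset.mem_insert, Set.Finite.mem_toFinset]
    by_cases hpn : p = D'.pos none
    · exact Or.inl hpn
    · refine Or.inr ⟨g, hg, g', hg', fun h => hne (by rw [← hgp, ← hgp', h]), ⟨hzg, hzg'⟩, ?_⟩
      rintro ⟨w, hw⟩
      cases w with
      | none => exact hpn hw.symm
      | some w => exact hpp ⟨w, by rw [hQ1]; exact hw⟩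
  have htrip : ∀ p, p ∉ range Q.pos → ∀ e ∈ G.edgeSet, ∀ f ∈ G.edgeSet, ∀ g ∈ G.edgeSet,
      e ≠ f → e ≠ g → f ≠ g → p ∈ arcQ e → p ∈ arcQ f → p ∉ arcQ g := by
    intro p hpp e he f hf g hg hne1 hne2 hne3 hp1 hp2 hp3
    obtain ⟨x, ⟨hx, hxp⟩, hzx⟩ := Set.mem_iUnion₂.1 hp1
    obtain ⟨y, ⟨hy, hyp⟩, hzy⟩ := Set.mem_iUnion₂.1 hp2
    obtain ⟨z, ⟨hz, hzp⟩, hzz⟩ := Set.mem_iUnion₂.1 hp3
    by_cases hpn : p = D'.pos none
    · have hpar : ∀ x ∈ E, p ∈ D'.arc x →
          edg a b a' b' x = s(a, b) ∨ edg a b a' b' x = s(a', b') := by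
        intro x hx hpx
        rw [hpn] at hpx
        have h5 := havoid x hx _ hpx
        rcases gp_cases hx with (rfl | rfl) | (rfl | rfl) | ⟨g'', hg'', hg1', hg2', rfl⟩
        · exact Or.inl p1
        · exact Or.inl p2
        · exact Or.inr p3
        · exact Or.inr p4
        · exact absurd h5 (none_notMem_map _)
      rcases hpar x hx hzx with k1 | k1 <;> rcases hpar y hy hzy with k2 | k2 <;>
        rcases hpar z hz hzz with k3 | k3 <;> rw [hxp] at k1 <;> rw [hyp] at k2 <;>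
        rw [hzp] at k3
      · exact hne1 (k1.trans k2.symm)
      · exact hne1 (k1.trans k2.symm)
      · exact hne2 (k1.trans k3.symm)
      · exact hne3 (k2.trans k3.symm)
      · exact hne3 (k2.trans k3.symm)
      · exact hne2 (k1.trans k3.symm)
      · exact hne1 (k1.trans k2.symm)
      · exact hne1 (k1.trans k2.symm)
    · have h5 := D'.no_triple x hx y hy z hz (fun h => hne1 (by rw [← hxp, ← hyp, h]))
        (fun h => hne2 (by rw [← hxp, ← hzp, h])) (fun h => hne3 (by rw [← hyp, ← hzp, h])) p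
        ⟨hzx, hzy⟩ hzz
      obtain ⟨w, hw⟩ := h5
      cases w with
      | none => exact hpn hw.symm
      | some w => exact hpp ⟨w, by rw [hQ1]; exact hw⟩
  have hfinal := pairs_le (ES G) (fun e => Q.arc e \ range Q.pos) C
    (fun p _ e he f hf g hg n1 n2 n3 h5 h6 h7 => by
      rw [hQ2] at h5 h6 h7
      exact htrip p h5.2 e (mem_ES.1 he) f (mem_ES.1 hf) g (mem_ES.1 hg) n1 n2 n3 h5.1 h6.1 h7.1)
    (fun e f => D.x e f)
    (fun e he f hf => by
      by_cases hne : e = f
      · unfold Drawing.x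
        rw [if_pos hne, if_pos hne]
      · unfold Drawing.x
        rw [if_neg hne, if_neg hne]
        refine (hDX e (mem_ES.1 he) f (mem_ES.1 hf) hne (fun h => h.1)).trans ?_
        refine Set.ncard_le_ncard ?_ (C.finite_toSet.subset fun p hp => hp.1)
        rintro p ⟨hp, hpp⟩
        refine ⟨hsub e (mem_ES.1 he) f (mem_ES.1 hf) hne p ?_ hpp, ⟨hp.1, hpp⟩, ⟨hp.2, hpp⟩⟩
        rw [← hQ2]
        exact hp)
  rw [← D.two_mul_cr] at hfinal
  omega

end H29.BT
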