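import Pool.Agent.H29.BT.PDef

/-!
# [H29 BT DISC] small disjoint discs; separation of finitely many compact sets

Paper proofs. `sep`: for every pair `(i, j)` of the finite index set with `Disjoint (A i) (B j)`
(compact sets) there is a positive `η` with disjoint `η`-thickenings
(`Disjoint.exists_thickenings`); take the minimum. `disc`: the minimum of: `ε/2`; a third of the
distances of different points of `Z`; for every edge and every `z ∈ Z` not on its arc half of the
distance of `z` and the compact arc.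
-/

set_option autoImplicit false

open Set Metric
open scoped Classical

noncomputable section

namespace H29.BT

open H29.BP

/-- the minimum of finitely many positive numbers -/
theorem pos_min {α : Type} [Finite α] (f : α → ℝ) (hf : ∀ a, 0 < f a) :
    ∃ η : ℝ, 0 < η ∧ ∀ a, η ≤ f a := by
  rcases isEmpty_or_nonempty α with h | h
  · exact ⟨1, one_pos, fun a => (IsEmpty.false a).elim⟩
  · obtain ⟨a, ha⟩ := Finite.exists_min f
    exact ⟨f a, hf a, ha⟩

theorem sep {ι κ : Type} [Finite ι] [Finite κ] (A : ι → Set ℂ) (B : κ → Set ℂ)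
    (hA : ∀ i, IsCompact (A i)) (hB : ∀ j, IsCompact (B j)) (R : ι → κ → Prop)
    (h : ∀ i j, R i j → Disjoint (A i) (B j)) :
    ∃ η : ℝ, 0 < η ∧ ∀ i j, R i j → Disjoint (thickening η (A i)) (thickening η (B j)) := by
  have h1 : ∀ p : ι × κ, ∃ δ : ℝ, 0 < δ ∧
      (R p.1 p.2 → Disjoint (thickening δ (A p.1)) (thickening δ (B p.2))) := by
    rintro ⟨i, j⟩
    by_cases hR : R i j
    · obtain ⟨δ, hδ, h2⟩ := (h i j hR).exists_thickenings (hA i) (hB j).isClosed
      exact ⟨δ, hδ, fun _ => h2⟩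
    · exact ⟨1, one_pos, fun h2 => absurd h2 hR⟩
  choose δ hδ h2 using h1
  obtain ⟨η, hη, h3⟩ := pos_min δ hδ
  refine ⟨η, hη, fun i j hR => ?_⟩
  exact (h2 (i, j) hR).mono (thickening_mono (h3 (i, j)) _) (thickening_mono (h3 (i, j)) _)

theorem Semi.compact {W : Type} {H : SimpleGraph W} {S : Set (Sym2 W)} (Q : Semi H S)
    {e : Sym2 W} (he : e ∈ H.edgeSet) : IsCompact (Q.arc e) := by
  induction e using Sym2.ind with
  | _ a b => exact (Q.isArc a b he).isCompact

theorem Semi.nonempty {W : Type} {H : SimpleGraph W} {S : Set (Sym2 W)} (Q : Semi H S)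
    {e : Sym2 W} (he : e ∈ H.edgeSet) : (Q.arc e).Nonempty := by
  induction e using Sym2.ind with
  | _ a b => exact ⟨_, (Q.isArc a b he).left_mem⟩

theorem disc {W : Type} [Finite W] {H : SimpleGraph W} {S : Set (Sym2 W)} (Q : Semi H S)
    (Z : Finset ℂ) (ε : ℝ) (hε : 0 < ε) :
    ∃ ρ : ℝ, 0 < ρ ∧ ρ < ε ∧
      (∀ z ∈ Z, ∀ z' ∈ Z, z ≠ z' → Disjoint (closedBall z ρ) (closedBall z' ρ)) ∧
      ∀ e ∈ H.edgeSet, ∀ z ∈ Z, z ∉ Q.arc e → Disjoint (closedBall z ρ) (Q.arc e) := by
  obtain ⟨η₁, hη₁, h1⟩ := pos_min (α := {z // z ∈ Z} × {z // z ∈ Z})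
    (fun p => if (p.1 : ℂ) = p.2 then 1 else dist (p.1 : ℂ) p.2 / 3) (by
      rintro ⟨z, z'⟩
      simp only
      split_ifs with h
      · exact one_pos
      · have := dist_pos.2 h
        linarith)
  obtain ⟨η₂, hη₂, h2⟩ := pos_min (α := Sym2 W × {z // z ∈ Z})
    (fun p => if p.1 ∈ H.edgeSet ∧ (p.2 : ℂ) ∉ Q.arc p.1 then infDist (p.2 : ℂ) (Q.arc p.1) / 2
      else 1) (by
      rintro ⟨e, z⟩
      simp only
      split_ifs with h
      · have := ((Q.compact h.1).isClosed.notMem_iff_infDist_pos (Q.nonempty h.1)).1 h.2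
        linarith
      · exact one_pos)
  refine ⟨min (ε / 2) (min η₁ η₂), ?_, ?_, ?_, ?_⟩
  · exact lt_min (by linarith) (lt_min hη₁ hη₂)
  · exact (min_le_left _ _).trans_lt (by linarith)
  · intro z hz z' hz' hne
    have h3 := h1 (⟨z, hz⟩, ⟨z', hz'⟩)
    simp only at h3
    rw [if_neg hne] at h3
    have h4 : min (ε / 2) (min η₁ η₂) ≤ η₁ := (min_le_right _ _).trans (min_le_left _ _)
    have h5 := dist_pos.2 hne
    refine closedBall_disjoint_closedBall ?_
    linarith
  · intro e he z hz hne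
    have h3 := h2 (e, ⟨z, hz⟩)
    simp only at h3
    rw [if_pos ⟨he, hne⟩] at h3
    have h4 : min (ε / 2) (min η₁ η₂) ≤ η₂ := (min_le_right _ _).trans (min_le_right _ _)
    rw [Set.disjoint_left]
    intro w hw hwe
    rw [mem_closedBall] at hw
    have h5 : infDist z (Q.arc e) ≤ dist z w := infDist_le_dist_of_mem hwe
    have h6 := ((Q.compact he).isClosed.notMem_iff_infDist_pos (Q.nonempty he)).1 hne
    rw [dist_comm] at hw
    linarith

end H29.BT
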