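import Pool.Agent.H29.BT.Place

/-!
# [H29 BT FINT] final theorem for dense graphs

Paper proofs. `greedy`: add elements one after the other until the sum is at least `M` (induction over `s`, or a minimal subset with
sum `≥ M`).

`dense`: let `m = (ES G).card ≥ 1`, `D` an optimal drawing (`exists_opt`), `X = D.cr = CR G`. If `X = 0` then `baby` with any
vertex `v` (there is one as `m ≥ 1`) gives `CR2 G ≤ 3/8 X = 0`. Let `X ≥ 1`, `μ = X / m²`; `μ ≤ 1/2` as `2 X = ∑∑ D.x e f ≤ m²`. For every vertex `v` put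
`cv v = ∑ e ∋ v, cre D e`.
(a) There is a vertex with `cv v ≥ 2 X / m`: `∑_v cv v = 4 X` and at most `2 m` vertices have `cv v ≠ 0`. So `baby` gives
`CR2 G ≤ 3/8 X - X / (4 m)`. If `m < 2^37 / μ⁴` then `1 / (4 m) ≥ μ⁴ / 2^39`: done. Let `m ≥ 2^37 / μ⁴` now.
Put `ℓ = 2 X / m = 2 μ m ≥ 2^38 / μ³ ≥ 2^38`.
(b) If some good vertex `v` has `dg G v ≥ ℓ / 2048` then `cv v ≥ dg v * ℓ / 16 ≥ ℓ² / 2^15` and `baby` gives the gain
`ℓ² / 2^18 = 4 μ² m² / 2^18 = μ X / 2^16 ≥ μ⁴ X / 2^39`: done.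
(c) Otherwise let `R = ⌊ℓ / 2048⌋₊ ≥ ℓ / 4096`, `R ≥ 1`, `R ≤ ℓ / 32 = X / (16 m)`. `place` gives `c, F, N₀, ρ`,
`∑ x ∈ N₀, dg x ≥ 29/256 * (ℓ²/2^24) * X / m³ ≥ M := μ³ m / 2^26` (`ℓ² X / m³ = 4 μ³ m`, `29 * 4 / 2^32 = 29 / 2^30 ≥ 2^-26`). `greedy` with the
weights `dg x ≤ ℓ / 2048` gives `N ⊆ N₀` with `M ≤ ∑ x ∈ N, dg x ≤ M + ℓ / 2048 ≤ ℓ / 1024` (`M = μ² ℓ / 2^27`). Let `K = (EN G N).card`:
`K ≤ ∑_N dg ≤ 2 K`. So `K ≤ ℓ / 1024`, `K ≥ M / 2`. `core` with `R = F`, `T = 2 R ≤ ℓ / 1024` (the hypotheses from `place`, with `S = OA G Nᶜ F`),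
`(SP G N).card ≤ K²`, `∑ e ∈ EN, cre D e ≥ (1/2) ∑ x ∈ N, cv x ≥ (1/2) (ℓ / 16) ∑ x ∈ N, dg x ≥ K ℓ / 32` (every edge is counted at most twice).
So the gain is at least `K ℓ / 256 - K ℓ / 1024 - K² / 2 - 2 m ≥ K ℓ (8 - 2 - 1) / 2048 - 2 m = 5 K ℓ / 2048 - 2 m`, and
`K ℓ ≥ (μ³ m / 2^27) (2 μ m) = μ⁴ m² / 2^26`; so it is at least `5 μ⁴ m² / 2^37 - 2 m ≥ 3 μ⁴ m² / 2^37` as
`m ≤ μ⁴ m² / 2^37`. Finally `3 μ⁴ m² / 2^37 = 3 μ³ X / 2^37 ≥ μ⁴ X / 2^39`.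
-/

set_option autoImplicit false

open Set
open scoped Classical

noncomputable section

namespace H29.BT

open H29.BP

theorem greedy {α : Type} (s : Finset α) (w : α → ℝ) (_hw0 : ∀ a ∈ s, 0 ≤ w a) (M d : ℝ)
    (hw : ∀ a ∈ s, w a ≤ d) (hd : 0 ≤ d) (hM0 : 0 ≤ M) (hM : M ≤ ∑ a ∈ s, w a) :
    ∃ t ⊆ s, M ≤ ∑ a ∈ t, w a ∧ ∑ a ∈ t, w a ≤ M + d := by
  obtain ⟨t, ht, hmin⟩ := Finset.exists_min_image (s.powerset.filter fun t => M ≤ ∑ a ∈ t, w a)
    Finset.card ⟨s, Finset.mem_filter.2 ⟨Finset.mem_powerset_self s, hM⟩⟩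
  obtain ⟨ht1, ht2⟩ := Finset.mem_filter.1 ht
  have hts : t ⊆ s := Finset.mem_powerset.1 ht1
  refine ⟨t, hts, ht2, ?_⟩
  rcases t.eq_empty_or_nonempty with h | ⟨a, ha⟩
  · rw [h, Finset.sum_empty]
    linarith
  · have h1 : ∑ b ∈ t.erase a, w b < M := by
      by_contra h2
      push Not at h2
      have h3 := hmin (t.erase a) (Finset.mem_filter.2 ⟨Finset.mem_powerset.2
        ((Finset.erase_subset a t).trans hts), h2⟩)
      have h4 := Finset.card_erase_lt_of_mem ha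
      omega
    have h2 := Finset.add_sum_erase t w ha
    have h3 := hw a (hts ha)
    linarith

section count

variable {V : Type} [Finite V] {G : SimpleGraph V}

private theorem cnt_le (N : Finset V) (e : Sym2 V) : (N.filter fun x => x ∈ e).card ≤ 2 := by
  induction e using Sym2.ind with
  | _ a b =>
    have h1 : (N.filter fun x => x ∈ s(a, b)) ⊆ {a, b} := by
      intro x hx
      have h2 := (Finset.mem_filter.1 hx).2
      rw [Sym2.mem_iff] at h2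
      simpa using h2
    exact (Finset.card_le_card h1).trans Finset.card_le_two

private theorem OA_sub (A : Set V) (R : Set (Sym2 V)) : OA G A R ⊆ ES G := Finset.filter_subset _ _

private theorem mem_OA {A : Set V} {R : Set (Sym2 V)} {g : Sym2 V} (hg : g ∈ OA G A R) :
    (∀ v ∈ g, v ∈ A) ∧ g ∉ R := (Finset.mem_filter.1 hg).2

private theorem SP_card (N : Set V) : (SP G N).card ≤ (EN G N).card * (EN G N).card := by
  unfold SP
  refine (Finset.card_filter_le _ _).trans ?_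
  rw [Finset.card_product]

private theorem dbl (N : Finset V) (f : Sym2 V → ℝ) :
    ∑ x ∈ N, ∑ e ∈ (ES G).filter (fun e => x ∈ e), f e =
      ∑ e ∈ ES G, ((N.filter fun x => x ∈ e).card : ℝ) * f e := by
  have h1 : ∀ x ∈ N, ∑ e ∈ (ES G).filter (fun e => x ∈ e), f e =
      ∑ e ∈ ES G, if x ∈ e then f e else 0 := fun x _ => Finset.sum_filter _ _
  rw [Finset.sum_congr rfl h1, Finset.sum_comm]
  refine Finset.sum_congr rfl fun e _ => ?_
  rw [← Finset.sum_filter, Finset.sum_const, nsmul_eq_mul]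

private theorem dbl_le (N : Finset V) (f : Sym2 V → ℝ) (hf : ∀ e, 0 ≤ f e) :
    ∑ x ∈ N, ∑ e ∈ (ES G).filter (fun e => x ∈ e), f e ≤ 2 * ∑ e ∈ EN G (↑N : Set V), f e := by
  rw [dbl, Finset.mul_sum]
  unfold EN
  rw [Finset.sum_filter]
  refine Finset.sum_le_sum fun e _ => ?_
  split_ifs with h
  · refine mul_le_mul_of_nonneg_right ?_ (hf e)
    exact_mod_cast cnt_le N e
  · have h1 : (N.filter fun x => x ∈ e) = ∅ := by
      rw [Finset.filter_eq_empty_iff]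
      intro x hx hxe
      exact h ⟨x, hxe, hx⟩
    rw [h1, Finset.card_empty, Nat.cast_zero, zero_mul]

private theorem le_dbl (N : Finset V) (f : Sym2 V → ℝ) (hf : ∀ e, 0 ≤ f e) :
    ∑ e ∈ EN G (↑N : Set V), f e ≤ ∑ x ∈ N, ∑ e ∈ (ES G).filter (fun e => x ∈ e), f e := by
  rw [dbl]
  unfold EN
  rw [Finset.sum_filter]
  refine Finset.sum_le_sum fun e _ => ?_
  split_ifs with h
  · obtain ⟨x, hxe, hx⟩ := h
    have h1 : 1 ≤ (N.filter fun x => x ∈ e).card :=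
      Finset.card_pos.2 ⟨x, Finset.mem_filter.2 ⟨hx, hxe⟩⟩
    have h2 : (1 : ℝ) ≤ ((N.filter fun x => x ∈ e).card : ℝ) := by exact_mod_cast h1
    have h3 := mul_le_mul_of_nonneg_right h2 (hf e)
    linarith
  · exact mul_nonneg (Nat.cast_nonneg _) (hf e)

private theorem card_le (N : Finset V) :
    ((EN G (↑N : Set V)).card : ℝ) ≤ ∑ x ∈ N, (dg G x : ℝ) := by
  have h := le_dbl (G := G) N (fun _ => 1) (fun _ => zero_le_one)
  simpa [dg] using h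

private theorem le_card (N : Finset V) :
    ∑ x ∈ N, (dg G x : ℝ) ≤ 2 * ((EN G (↑N : Set V)).card : ℝ) := by
  have h := dbl_le (G := G) N (fun _ => 1) (fun _ => zero_le_one)
  simpa [dg] using h

private theorem sum_cre (D : Drawing G) : ∑ e ∈ ES G, (cre D e : ℝ) = 2 * D.cr := by
  have h := D.two_mul_cr
  have h1 : ((2 * D.cr : ℕ) : ℝ) = ((∑ e ∈ ES G, ∑ f ∈ ES G, D.x e f : ℕ) : ℝ) := by rw [h]
  push_cast at h1
  rw [h1]
  unfold cre
  push_cast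
  rfl

private theorem cr_le (D : Drawing G) (hD : D.cr = CR G) :
    2 * (D.cr : ℝ) ≤ ((ES G).card : ℝ) ^ 2 := by
  have h := D.two_mul_cr
  have h1 : ∑ e ∈ ES G, ∑ f ∈ ES G, D.x e f ≤ ∑ e ∈ ES G, ∑ f ∈ ES G, 1 :=
    Finset.sum_le_sum fun e he => Finset.sum_le_sum fun f hf => opt_once D hD he hf
  rw [← h] at h1
  simp only [Finset.sum_const, smul_eq_mul, mul_one] at h1
  have h2 : ((2 * D.cr : ℕ) : ℝ) ≤ (((ES G).card * (ES G).card : ℕ) : ℝ) := by exact_mod_cast h1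
  push_cast at h2
  rw [sq]
  exact h2

end count

theorem dense {V : Type} [Finite V] (G : SimpleGraph V) (hm : 1 ≤ (ES G).card) :
    (CR2 G : ℝ) ≤ (3 / 8 - ((CR G : ℝ) / (ES G).card ^ 2) ^ 4 / 2 ^ 39) * CR G := by
  obtain ⟨D, hD⟩ := exists_opt G
  have hDr : (CR G : ℝ) = (D.cr : ℝ) := by rw [hD]
  obtain ⟨m, hmdef⟩ : ∃ m : ℝ, m = ((ES G).card : ℝ) := ⟨_, rfl⟩
  obtain ⟨X, hXdef⟩ : ∃ X : ℝ, X = (D.cr : ℝ) := ⟨_, rfl⟩
  have hm1 : 1 ≤ m := by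
    rw [hmdef]
    exact_mod_cast hm
  have hm0 : 0 < m := by linarith
  have hX0 : 0 ≤ X := by
    rw [hXdef]
    exact Nat.cast_nonneg _
  have hb : ∀ v, (CR2 G : ℝ) ≤ 3 / 8 * X -
      1 / 8 * ∑ e ∈ (ES G).filter (fun e => v ∈ e), (cre D e : ℝ) := by
    intro v
    have h := baby D hD v
    rwa [hDr, ← hXdef] at h
  rw [hDr, ← hXdef, ← hmdef]
  obtain ⟨μ, hμ⟩ : ∃ μ : ℝ, μ = X / m ^ 2 := ⟨_, rfl⟩
  rw [← hμ]
  have hm2 : (0 : ℝ) < m ^ 2 := by positivity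
  have hXμ : X = μ * m ^ 2 := by
    rw [hμ]
    field_simp
  have hμ0 : 0 ≤ μ := by
    rw [hμ]
    positivity
  have hμ1 : μ ≤ 1 / 2 := by
    have h := cr_le D hD
    rw [← hXdef, ← hmdef] at h
    rw [hμ, div_le_iff₀ hm2]
    linarith
  have hμ41 : μ ^ 4 ≤ μ := by
    calc μ ^ 4 = μ * μ ^ 3 := by ring
      _ ≤ μ * 1 := mul_le_mul_of_nonneg_left (pow_le_one₀ hμ0 (by linarith)) hμ0
      _ = μ := mul_one _
  -- (a)
  have hcre0 : ∀ e, (0 : ℝ) ≤ (cre D e : ℝ) := fun e => Nat.cast_nonneg _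
  have ha : ∃ v, 2 * X / m ≤ ∑ e ∈ (ES G).filter (fun e => v ∈ e), (cre D e : ℝ) := by
    have h1 : ∃ e ∈ ES G, 2 * X / m ≤ (cre D e : ℝ) := by
      by_contra h2
      push Not at h2
      have hne : (ES G).Nonempty := Finset.card_pos.1 (by omega)
      have h3 := Finset.sum_lt_sum_of_nonempty hne h2
      rw [Finset.sum_const, nsmul_eq_mul, ← hmdef, sum_cre, ← hXdef] at h3
      have h4 : m * (2 * X / m) = 2 * X := by field_simp
      rw [h4] at h3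
      exact lt_irrefl _ h3
    obtain ⟨e, he, h2⟩ := h1
    refine ⟨tl e, h2.trans ?_⟩
    refine Finset.single_le_sum (f := fun e => (cre D e : ℝ)) (fun e _ => hcre0 e) ?_
    refine Finset.mem_filter.2 ⟨he, ?_⟩
    have h3 : tl e ∈ s(tl e, hd e) := Sym2.mem_mk_left _ _
    rwa [tl_hd] at h3
  obtain ⟨v₀, hv₀⟩ := ha
  have hbv₀ := hb v₀
  by_cases hsm : μ ^ 4 * m ≤ 2 ^ 37
  · have h1 : μ ^ 4 / 2 ^ 39 * X ≤ 1 / 8 * (2 * X / m) := by
      have h2 : 1 / 8 * (2 * X / m) = 1 / 4 * (X / m) := by ring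
      have h3 : μ ^ 4 / 2 ^ 39 * X = (μ ^ 4 * m) / 2 ^ 39 * (X / m) := by
        field_simp
      rw [h2, h3]
      refine mul_le_mul_of_nonneg_right ?_ (by positivity)
      rw [div_le_iff₀ (by positivity)]
      linarith
    nlinarith
  push Not at hsm
  have hμpos : 0 < μ := by
    rcases hμ0.lt_or_eq with h | h
    · exact h
    · rw [← h] at hsm
      norm_num at hsm
  have hXpos : 0 < X := by
    rw [hXμ]
    positivity
  obtain ⟨l, hl⟩ : ∃ l : ℝ, l = 2 * μ * m := ⟨_, rfl⟩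
  have hl38 : (2 : ℝ) ^ 38 ≤ l := by
    have h1 : μ ^ 4 * m ≤ μ * m := mul_le_mul_of_nonneg_right hμ41 hm0.le
    rw [hl]
    linarith
  have hlpos : 0 < l := by linarith [show (0 : ℝ) < 2 ^ 38 by positivity]
  have hlX : X / (8 * m) = l / 16 := by
    rw [hl, hXμ]
    field_simp
    ring
  have hlX' : X / (16 * m) = l / 32 := by
    rw [hl, hXμ]
    field_simp
    ring
  -- (b)
  have hgood : ∀ v, GoodV D v →
      (dg G v : ℝ) * (l / 16) ≤ ∑ e ∈ (ES G).filter (fun e => v ∈ e), (cre D e : ℝ) := by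
    intro v hv
    unfold GoodV at hv
    rwa [← hXdef, ← hmdef, hlX] at hv
  by_cases hbg : ∃ v, GoodV D v ∧ l / 2048 ≤ (dg G v : ℝ)
  · obtain ⟨v, hv, hd⟩ := hbg
    have h1 := hgood v hv
    have h2 := hb v
    have h3 : l / 2048 * (l / 16) ≤ (dg G v : ℝ) * (l / 16) :=
      mul_le_mul_of_nonneg_right hd (by positivity)
    have h4 : l / 2048 * (l / 16) = μ * X / 2 ^ 13 := by
      rw [hl, hXμ]
      ring
    have h5 : μ ^ 4 / 2 ^ 39 * X ≤ μ * X / 2 ^ 16 := by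
      have h6 : μ ^ 4 * X ≤ μ * X := mul_le_mul_of_nonneg_right hμ41 hX0
      have h7 : 0 ≤ μ * X := by positivity
      linarith
    linarith
  push Not at hbg
  -- (c)
  obtain ⟨R, hRdef⟩ : ∃ R : ℕ, R = ⌊l / 2048⌋₊ := ⟨_, rfl⟩
  have hRle : (R : ℝ) ≤ l / 2048 := by
    rw [hRdef]
    exact Nat.floor_le (by positivity)
  have hRge : l / 4096 ≤ (R : ℝ) := by
    have h1 := Nat.lt_floor_add_one (l / 2048)
    rw [← hRdef] at h1
    linarith
  have hR1 : 1 ≤ R := by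
    have h1 : (1 : ℝ) ≤ (R : ℝ) := by linarith
    exact_mod_cast h1
  have hRX : (R : ℝ) ≤ D.cr / (16 * (ES G).card) := by
    rw [← hXdef, ← hmdef, hlX']
    linarith
  obtain ⟨c, F, N₀, ρ, hF, hc, hcF, hN₀, hsum, hroad⟩ := place D hD R hR1 hRX
  rw [← hXdef, ← hmdef] at hsum
  obtain ⟨M, hMdef⟩ : ∃ M : ℝ, M = μ ^ 3 * m / 2 ^ 26 := ⟨_, rfl⟩
  have hM0 : 0 ≤ M := by
    rw [hMdef]
    positivity
  have hMs : M ≤ ∑ x ∈ N₀, (dg G x : ℝ) := by
    refine le_trans ?_ hsum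
    have h1 : (l / 4096) ^ 2 ≤ (R : ℝ) ^ 2 := pow_le_pow_left₀ (by positivity) hRge 2
    have h2 : 29 / 256 * (l / 4096) ^ 2 * X / m ^ 3 ≤ 29 / 256 * (R : ℝ) ^ 2 * X / m ^ 3 := by
      refine div_le_div_of_nonneg_right ?_ (by positivity)
      refine mul_le_mul_of_nonneg_right ?_ hX0
      linarith
    refine le_trans ?_ h2
    have h3 : 29 / 256 * (l / 4096) ^ 2 * X / m ^ 3 = 29 / 2 ^ 30 * (μ ^ 3 * m) := by
      rw [hl, hXμ]
      field_simp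
      ring
    rw [h3, hMdef]
    have h4 : 0 ≤ μ ^ 3 * m := by positivity
    linarith
  have hMl : M ≤ l / 2048 := by
    have h1 : M = μ ^ 2 * l / 2 ^ 27 := by
      rw [hMdef, hl]
      ring
    have h2 : μ ^ 2 ≤ 1 := pow_le_one₀ hμ0 (by linarith)
    have h3 : μ ^ 2 * l ≤ 1 * l := mul_le_mul_of_nonneg_right h2 hlpos.le
    rw [h1]
    linarith
  obtain ⟨N, hNN, hN1, hN2⟩ := greedy N₀ (fun x => (dg G x : ℝ)) (fun _ _ => Nat.cast_nonneg _) M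
    (l / 2048) (fun x hx => (hbg x (hN₀ x hx)).le) (by positivity) hM0 hMs
  obtain ⟨K, hK⟩ : ∃ K : ℝ, K = ((EN G (↑N : Set V)).card : ℝ) := ⟨_, rfl⟩
  have hK1 := card_le (G := G) N
  have hK2 := le_card (G := G) N
  rw [← hK] at hK1 hK2
  have hK0 : 0 ≤ K := by
    rw [hK]
    exact Nat.cast_nonneg _
  have hKl : K ≤ l / 1024 := by linarith
  have hKM : M / 2 ≤ K := by linarith
  have hcore := core D hD (N := (↑N : Set V)) (R := F) hF.le (c := c) (ρ := ρ)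
    ⟨fun x hx => (hroad x (hNN hx)).1, fun x hx => (hroad x (hNN hx)).2.1, fun x hx g hg hgN hgF =>
      ((hroad x (hNN hx)).2.2 {g} (by
        intro g' hg'
        rw [Finset.mem_singleton] at hg'
        rw [hg']
        exact mem_ES.2 hg) (by
        intro g' hg'
        rw [Finset.mem_singleton] at hg'
        rw [hg']
        exact ⟨fun hxg => hgN x hxg hx, hgF⟩)).1 g (Finset.mem_singleton_self g)⟩
    (fun v _ h => hc ⟨v, h.symm⟩) (fun g hg _ hgF => hcF g (mem_ES.2 hg) hgF) (2 * R)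
    (fun x hx => ((hroad x (hNN hx)).2.2 _ (OA_sub _ _) (by
      intro g hg
      have h1 := mem_OA hg
      exact ⟨fun hxg => h1.1 x hxg hx, h1.2⟩)).2)
  rw [hDr, ← hXdef, ← hK, ← hmdef, hF] at hcore
  have hcE : K * (l / 32) ≤ ∑ e ∈ EN G (↑N : Set V), (cre D e : ℝ) := by
    have h1 := dbl_le (G := G) N (fun e => (cre D e : ℝ)) hcre0
    have h2 : ∑ x ∈ N, (dg G x : ℝ) * (l / 16) ≤
        ∑ x ∈ N, ∑ e ∈ (ES G).filter (fun e => x ∈ e), (cre D e : ℝ) :=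
      Finset.sum_le_sum fun x hx => hgood x (hN₀ x (hNN hx))
    rw [← Finset.sum_mul] at h2
    have h3 : K * (l / 16) ≤ (∑ x ∈ N, (dg G x : ℝ)) * (l / 16) :=
      mul_le_mul_of_nonneg_right hK1 (by positivity)
    linarith
  have hSP : ((SP G (↑N : Set V)).card : ℝ) ≤ K ^ 2 := by
    have h1 := SP_card (G := G) (↑N : Set V)
    rw [hK, sq]
    exact_mod_cast h1
  push_cast at hcore
  have hKR : K * (2 * (R : ℝ)) ≤ K * (l / 1024) := mul_le_mul_of_nonneg_left (by linarith) hK0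
  have hKK : K ^ 2 ≤ K * (l / 1024) := by
    rw [sq]
    exact mul_le_mul_of_nonneg_left hKl hK0
  have hKlow : μ ^ 4 * m ^ 2 / 2 ^ 26 ≤ K * l := by
    have h1 : M / 2 * l ≤ K * l := mul_le_mul_of_nonneg_right hKM hlpos.le
    refine le_trans (le_of_eq ?_) h1
    rw [hMdef, hl]
    ring
  have hmm : m ≤ μ ^ 4 * m ^ 2 / 2 ^ 37 := by
    rw [le_div_iff₀ (by positivity)]
    have h1 := mul_le_mul_of_nonneg_right hsm.le hm0.le
    linarith
  have hfin : μ ^ 4 / 2 ^ 39 * X ≤ μ ^ 4 * m ^ 2 / 2 ^ 37 := by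
    rw [hXμ]
    have h1 : 0 ≤ μ ^ 4 * m ^ 2 := by positivity
    have h2 : μ ^ 4 / 2 ^ 39 * (μ * m ^ 2) = μ * (μ ^ 4 * m ^ 2) / 2 ^ 39 := by ring
    have h3 : μ * (μ ^ 4 * m ^ 2) ≤ 1 / 2 * (μ ^ 4 * m ^ 2) := mul_le_mul_of_nonneg_right hμ1 h1
    rw [h2]
    linarith
  linarith

end H29.BT
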