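import Pool.Agent.H29.BT.TDef

/-!
# The large graph: two sheets and a strip
-/

set_option autoImplicit false

open Set

namespace H29.BT

open H29.BP

/-- vertices of `G` (in the strip), cut sheet graph of `A`, cut sheet graph of `B` -/
abbrev OV (V : Type) : Type := V ⊕ ((WV V ⊕ WV V) ⊕ (WV V ⊕ WV V))

variable {V : Type}

/-- embedding of the upper sheet -/
def iA : (WV V ⊕ WV V) ↪ OV V := ⟨fun w => Sum.inr (Sum.inl w), fun _ _ h => by simpa using h⟩

/-- embedding of the lower sheet -/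
def iB : (WV V ⊕ WV V) ↪ OV V := ⟨fun w => Sum.inr (Sum.inr w), fun _ _ h => by simpa using h⟩

/-- the port of the edge `e` in the upper sheet -/
def ptA (e : Sym2 V) : OV V := iA (Sum.inr (mid e))

/-- the port of the edge `e` in the lower sheet -/
def ptB (e : Sym2 V) : OV V := iB (Sum.inr (mid e))

/-- the graph of the strip -/
def KS (G : SimpleGraph V) (N A B : Set V) : SimpleGraph (OV V) :=
  SimpleGraph.fromRel fun p q =>
    (∃ x x', G.Adj x x' ∧ x ∈ N ∧ x' ∈ N ∧ p = Sum.inl x ∧ q = Sum.inl x') ∨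
    (∃ x y, G.Adj x y ∧ x ∈ N ∧ y ∈ A ∧ p = Sum.inl x ∧ q = ptA s(x, y)) ∨
    (∃ x y, G.Adj x y ∧ x ∈ N ∧ y ∈ B ∧ p = Sum.inl x ∧ q = ptB s(x, y))

/-- the upper sheet -/
def KA (G : SimpleGraph V) (N A : Set V) (R : Set (Sym2 V)) : SimpleGraph (OV V) :=
  (HP (SG G N A R) rt).map iA

/-- the lower sheet -/
def KB (G : SimpleGraph V) (N B : Set V) (R : Set (Sym2 V)) : SimpleGraph (OV V) :=
  (HP (SG G N B R) rt).map iB

/-- a drawing in the upper half plane in which exactly the ports are on the boundary line -/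
def Upper {W : Type} {H : SimpleGraph W} {r : W} (D : Drawing (HP H r)) : Prop :=
  (∀ w, 1 ≤ (D.pos w).im) ∧ (∀ w, (D.pos w).im = 1 ↔ ∃ m, H.Adj r m ∧ w = Sum.inr m) ∧
    ∀ e ∈ (HP H r).edgeSet, ∀ z ∈ D.arc e, 1 ≤ z.im ∧ (z.im = 1 → z ∈ range D.pos)

end H29.BT
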