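import Pool.Agent.H29.BT.Genp

/-!
# [H29 BT GENS] points in a strip in general position with respect to points on its boundary

The ports are different points on the two lines `im = 1` and `im = -1`; we look for points `q n`,
`|im| < 1`. A pair of indices is called good if at least one of them is in `N`.

Paper proof. Induction over the finite type `N` (or over a finite set `S` of elements of `N`, statement
for the indices in `S` and all ports; at the end `S = univ`). Insert `w`: keep the old places and choose the place `q w` by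
`avoid_near` with `z = 0`, `η = 1` (then `|im| < 1`) outside of finitely many lines: (1) the lines through two different
old points (places of `S` or ports; different points by induction, ports are different by `hinj`,
and old points of `S` have `|im| < 1`); (2) the lines through an old point `P e` and a common
point `p ≠ P e` of the segments `ab`, `cd` of two good pairs of old points, with `a, b, c, d, e` different (`p` is unique
for given `a, b, c, d`: two different common points would put `a, b, c` on a line, but one of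
`a, b` is in `N`, against the first property; the set of these `p` is finite).
First property: three different indices, one of which is in `N`: if none is `w` induction (one of the three is in `S`),
otherwise `q w` is not on the line through the other two. (If `w` is the only one in `N` and the other two are
ports this is case (1).) `cp` of three points is up to sign independent of their order. Second
property: `w` is at most once among the six indices; if it is there, without loss of
generality `f = w`: the common point `p` of the first two segments is different from `P e` (`e` is not on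
the line `ab`, first property), and `q w` is not on the line through `P e` and `p`.
-/

set_option autoImplicit false

open Set Metric

namespace H29.BT

open H29.BP

private noncomputable def qp {N P : Type} (port : P → ℂ) :
    N ⊕ P → MvPolynomial (N × Bool) ℝ × MvPolynomial (N × Bool) ℝ
  | Sum.inl n => pp n
  | Sum.inr p => (MvPolynomial.C (port p).re, MvPolynomial.C (port p).im)

private noncomputable def qs {N P : Type} (port : P → ℂ) (x : N × Bool → ℝ) : N ⊕ P → ℂ :=
  Sum.elim (plc x) port

private theorem eval_qp {N P : Type} (port : P → ℂ) (x : N × Bool → ℝ) (a : N ⊕ P) :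
    MvPolynomial.eval x (qp port a).1 = (qs port x a).re ∧
    MvPolynomial.eval x (qp port a).2 = (qs port x a).im := by
  rcases a with n | p
  · simp [qp, qs, pp, plc]
  · simp [qp, qs]

private noncomputable def qA {N P : Type} (port : P → ℂ) (a b c : N ⊕ P) :
    MvPolynomial (N × Bool) ℝ :=
  pcp (qp port b - qp port a) (qp port c - qp port a)

private noncomputable def qC {N P : Type} (port : P → ℂ) (a b c d e f : N ⊕ P) :
    MvPolynomial (N × Bool) ℝ :=
  pcp (qp port b - qp port a) (qp port a) * pcp (qp port d - qp port c) (qp port f - qp port e) +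
    pcp (qp port d - qp port c) (qp port c) * pcp (qp port f - qp port e) (qp port b - qp port a) +
    pcp (qp port f - qp port e) (qp port e) * pcp (qp port b - qp port a) (qp port d - qp port c)

private theorem eval_qA {N P : Type} (port : P → ℂ) (x : N × Bool → ℝ) (a b c : N ⊕ P) :
    MvPolynomial.eval x (qA port a b c) =
      cp (qs port x b - qs port x a) (qs port x c - qs port x a) := by
  simp [qA, pcp, cp, (eval_qp port x a).1, (eval_qp port x a).2, (eval_qp port x b).1,
    (eval_qp port x b).2, (eval_qp port x c).1, (eval_qp port x c).2]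

/-- the expression of three lines -/
private noncomputable def KK (a b c d e f : ℂ) : ℝ :=
  cp (b - a) a * cp (d - c) (f - e) + cp (d - c) c * cp (f - e) (b - a) +
    cp (f - e) e * cp (b - a) (d - c)

private theorem eval_qC {N P : Type} (port : P → ℂ) (x : N × Bool → ℝ) (a b c d e f : N ⊕ P) :
    MvPolynomial.eval x (qC port a b c d e f) = KK (qs port x a) (qs port x b) (qs port x c)
      (qs port x d) (qs port x e) (qs port x f) := by
  simp [qC, KK, pcp, cp, (eval_qp port x a).1, (eval_qp port x a).2, (eval_qp port x b).1,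
    (eval_qp port x b).2, (eval_qp port x c).1, (eval_qp port x c).2, (eval_qp port x d).1,
    (eval_qp port x d).2, (eval_qp port x e).1, (eval_qp port x e).2, (eval_qp port x f).1,
    (eval_qp port x f).2]

private theorem cp_cyc (a b c : ℂ) : cp (b - a) (c - a) = cp (c - b) (a - b) := by
  simp only [cp, Complex.sub_re, Complex.sub_im]
  ring

private theorem KK_sw1 (a b c d e f : ℂ) : KK b a c d e f = -KK a b c d e f := by
  simp only [KK, cp, Complex.sub_re, Complex.sub_im]
  ring

private theorem KK_sw2 (a b c d e f : ℂ) : KK a b d c e f = -KK a b c d e f := by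
  simp only [KK, cp, Complex.sub_re, Complex.sub_im]
  ring

private theorem KK_sw3 (a b c d e f : ℂ) : KK a b c d f e = -KK a b c d e f := by
  simp only [KK, cp, Complex.sub_re, Complex.sub_im]
  ring

private theorem KK_val (b d f w : ℂ) (hw : w = b - d) :
    KK (b - Complex.I * w) b (d - Complex.I * w) d (f - w) f = (w.re ^ 2 + w.im ^ 2) ^ 2 := by
  subst hw
  simp only [KK, cp, Complex.sub_re, Complex.sub_im, Complex.mul_re, Complex.mul_im,
    Complex.I_re, Complex.I_im]
  ring

private theorem cp_val (b c w : ℂ) (hw : w = c - b) :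
    cp (b - (b + Complex.I * w)) (c - (b + Complex.I * w)) = w.re ^ 2 + w.im ^ 2 := by
  subst hw
  simp only [cp, Complex.sub_re, Complex.sub_im, Complex.add_re, Complex.add_im,
    Complex.mul_re, Complex.mul_im, Complex.I_re, Complex.I_im]
  ring

private theorem w_pos {w : ℂ} (hw : w ≠ 0) : w.re ^ 2 + w.im ^ 2 ≠ 0 := by
  intro h
  have h1 : w.re = 0 := by nlinarith [sq_nonneg w.re, sq_nonneg w.im]
  have h2 : w.im = 0 := by nlinarith [sq_nonneg w.re, sq_nonneg w.im]
  exact hw (Complex.ext h1 h2)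

/-- an injective assignment -/
private theorem base {N P : Type} [Finite N] (port : P → ℂ)
    (hinj : Function.Injective port) (him : ∀ p, (port p).im = 1 ∨ (port p).im = -1) :
    ∃ g : N → ℂ, Function.Injective (Sum.elim g port) := by
  obtain ⟨n, ⟨φ⟩⟩ := Finite.exists_equiv_fin N
  refine ⟨fun v => (((φ v : ℕ) : ℝ) : ℂ), ?_⟩
  rintro (a | a) (b | b) h
  · simp only [Sum.elim_inl] at h
    have h1 : ((φ a : ℕ) : ℝ) = ((φ b : ℕ) : ℝ) := Complex.ofReal_injective h
    have h2 : (φ a : ℕ) = (φ b : ℕ) := by exact_mod_cast h1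
    rw [φ.injective (Fin.ext h2)]
  · exfalso
    simp only [Sum.elim_inl, Sum.elim_inr] at h
    have h1 := congrArg Complex.im h
    rw [Complex.ofReal_im] at h1
    rcases him b with h2 | h2 <;> rw [h2] at h1 <;> norm_num at h1
  · exfalso
    simp only [Sum.elim_inl, Sum.elim_inr] at h
    have h1 := congrArg Complex.im h
    rw [Complex.ofReal_im] at h1
    rcases him a with h2 | h2 <;> rw [h2] at h1 <;> norm_num at h1
  · rw [hinj h]

private theorem exA1 {N P : Type} (port : P → ℂ) {g : N → ℂ}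
    (hg : Function.Injective (Sum.elim g port)) (n : N) (b c : N ⊕ P) (hab : Sum.inl n ≠ b)
    (hac : Sum.inl n ≠ c) (hbc : b ≠ c) : ∃ g' : N → ℂ,
    cp (Sum.elim g' port b - Sum.elim g' port (Sum.inl n))
      (Sum.elim g' port c - Sum.elim g' port (Sum.inl n)) ≠ 0 := by
  classical
  set B := Sum.elim g port b with hB
  set C := Sum.elim g port c with hC
  have hval : ∀ d : N ⊕ P, Sum.inl n ≠ d → Sum.elim (Function.update g n
      (B + Complex.I * (C - B))) port d = Sum.elim g port d := by
    rintro (d | d) hd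
    · simp only [Sum.elim_inl]
      rw [Function.update_of_ne]
      rintro rfl
      exact hd rfl
    · simp only [Sum.elim_inr]
  refine ⟨Function.update g n (B + Complex.I * (C - B)), ?_⟩
  rw [hval b hab, hval c hac, ← hB, ← hC, Sum.elim_inl, Function.update_self,
    cp_val B C (C - B) rfl]
  exact w_pos (sub_ne_zero.2 fun h => hbc (hg h.symm))

private theorem exA {N P : Type} (port : P → ℂ) {g : N → ℂ}
    (hg : Function.Injective (Sum.elim g port)) (a b c : N ⊕ P) (hab : a ≠ b) (hac : a ≠ c)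
    (hbc : b ≠ c) (h : a.isLeft ∨ b.isLeft ∨ c.isLeft) : ∃ g' : N → ℂ,
    cp (Sum.elim g' port b - Sum.elim g' port a)
      (Sum.elim g' port c - Sum.elim g' port a) ≠ 0 := by
  rcases h with h | h | h
  · obtain ⟨n, rfl⟩ := Sum.isLeft_iff.1 h
    exact exA1 port hg n b c hab hac hbc
  · obtain ⟨n, rfl⟩ := Sum.isLeft_iff.1 h
    obtain ⟨g', h1⟩ := exA1 port hg n c a hbc hab.symm hac.symm
    exact ⟨g', by rwa [cp_cyc]⟩
  · obtain ⟨n, rfl⟩ := Sum.isLeft_iff.1 h
    obtain ⟨g', h1⟩ := exA1 port hg n a b hac.symm hbc.symm hab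
    exact ⟨g', by rwa [cp_cyc, cp_cyc]⟩

private theorem exC1 {N P : Type} (port : P → ℂ) {g : N → ℂ}
    (hg : Function.Injective (Sum.elim g port)) (n₁ n₂ n₃ : N) (b d f : N ⊕ P)
    (h : [Sum.inl n₁, b, Sum.inl n₂, d, Sum.inl n₃, f].Nodup) : ∃ g' : N → ℂ,
    KK (Sum.elim g' port (Sum.inl n₁)) (Sum.elim g' port b) (Sum.elim g' port (Sum.inl n₂))
      (Sum.elim g' port d) (Sum.elim g' port (Sum.inl n₃)) (Sum.elim g' port f) ≠ 0 := by
  classical
  simp only [List.nodup_cons, List.mem_cons, List.not_mem_nil, or_false, not_or,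
    List.nodup_nil, not_false_eq_true, and_true] at h
  obtain ⟨⟨ab, ac, ad, ae, af⟩, ⟨bc, bd, be, bf⟩, ⟨cd, ce, cf⟩, ⟨de, df⟩, ef⟩ := h
  have n12 : n₁ ≠ n₂ := fun h => ac (by rw [h])
  have n13 : n₁ ≠ n₃ := fun h => ae (by rw [h])
  have n23 : n₂ ≠ n₃ := fun h => ce (by rw [h])
  set B := Sum.elim g port b with hB
  set D := Sum.elim g port d with hD
  set F := Sum.elim g port f with hF
  set g' := Function.update (Function.update (Function.update g n₁
    (B - Complex.I * (B - D))) n₂ (D - Complex.I * (B - D))) n₃ (F - (B - D)) with hg'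
  have hval : ∀ x : N ⊕ P, Sum.inl n₁ ≠ x → Sum.inl n₂ ≠ x → Sum.inl n₃ ≠ x →
      Sum.elim g' port x = Sum.elim g port x := by
    rintro (x | x) h1 h2 h3
    · simp only [Sum.elim_inl]
      rw [hg', Function.update_of_ne, Function.update_of_ne, Function.update_of_ne]
      · rintro rfl
        exact h1 rfl
      · rintro rfl
        exact h2 rfl
      · rintro rfl
        exact h3 rfl
    · simp only [Sum.elim_inr]
  have e1 : Sum.elim g' port (Sum.inl n₁) = B - Complex.I * (B - D) := by
    rw [Sum.elim_inl, hg', Function.update_of_ne n13, Function.update_of_ne n12,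
      Function.update_self]
  have e2 : Sum.elim g' port (Sum.inl n₂) = D - Complex.I * (B - D) := by
    rw [Sum.elim_inl, hg', Function.update_of_ne n23, Function.update_self]
  have e3 : Sum.elim g' port (Sum.inl n₃) = F - (B - D) := by
    rw [Sum.elim_inl, hg', Function.update_self]
  refine ⟨g', ?_⟩
  rw [e1, e2, e3, hval b ab (Ne.symm bc) (Ne.symm be), hval d ad cd (Ne.symm de),
    hval f af cf ef, ← hB, ← hD, ← hF, KK_val B D F (B - D) rfl]
  exact pow_ne_zero 2 (w_pos (sub_ne_zero.2 fun h => bd (hg h)))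

private theorem exC {N P : Type} (port : P → ℂ) {g : N → ℂ}
    (hg : Function.Injective (Sum.elim g port)) (a b c d e f : N ⊕ P)
    (h : [a, b, c, d, e, f].Nodup) (h1 : a.isLeft ∨ b.isLeft) (h2 : c.isLeft ∨ d.isLeft)
    (h3 : e.isLeft ∨ f.isLeft) : ∃ g' : N → ℂ,
    KK (Sum.elim g' port a) (Sum.elim g' port b) (Sum.elim g' port c)
      (Sum.elim g' port d) (Sum.elim g' port e) (Sum.elim g' port f) ≠ 0 := by
  -- the first point of every pair can be assumed to be in `N`
  have s3 : ∀ a b c d e f : N ⊕ P, [a, b, c, d, e, f].Nodup → a.isLeft → c.isLeft →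
      (e.isLeft ∨ f.isLeft) → ∃ g' : N → ℂ,
      KK (Sum.elim g' port a) (Sum.elim g' port b) (Sum.elim g' port c)
      (Sum.elim g' port d) (Sum.elim g' port e) (Sum.elim g' port f) ≠ 0 := by
    intro a b c d e f h h1 h2 h3
    obtain ⟨n₁, rfl⟩ := Sum.isLeft_iff.1 h1
    obtain ⟨n₂, rfl⟩ := Sum.isLeft_iff.1 h2
    rcases h3 with h3 | h3
    · obtain ⟨n₃, rfl⟩ := Sum.isLeft_iff.1 h3
      exact exC1 port hg n₁ n₂ n₃ b d f h
    · obtain ⟨n₃, rfl⟩ := Sum.isLeft_iff.1 h3
      have hp : List.Perm [Sum.inl n₁, b, Sum.inl n₂, d, e, Sum.inl n₃]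
          [Sum.inl n₁, b, Sum.inl n₂, d, Sum.inl n₃, e] :=
        ((((List.Perm.swap _ _ _).cons _).cons _).cons _).cons _
      obtain ⟨g', h4⟩ := exC1 port hg n₁ n₂ n₃ b d e (hp.nodup_iff.1 h)
      exact ⟨g', by rw [KK_sw3]; exact neg_ne_zero.2 h4⟩
  have s2 : ∀ a b c d e f : N ⊕ P, [a, b, c, d, e, f].Nodup → a.isLeft →
      (c.isLeft ∨ d.isLeft) → (e.isLeft ∨ f.isLeft) → ∃ g' : N → ℂ,
      KK (Sum.elim g' port a) (Sum.elim g' port b) (Sum.elim g' port c)
      (Sum.elim g' port d) (Sum.elim g' port e) (Sum.elim g' port f) ≠ 0 := by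
    intro a b c d e f h h1 h2 h3
    rcases h2 with h2 | h2
    · exact s3 a b c d e f h h1 h2 h3
    · have hp : List.Perm [a, b, c, d, e, f] [a, b, d, c, e, f] :=
        ((List.Perm.swap _ _ _).cons _).cons _
      obtain ⟨g', h4⟩ := s3 a b d c e f (hp.nodup_iff.1 h) h1 h2 h3
      exact ⟨g', by rw [KK_sw2]; exact neg_ne_zero.2 h4⟩
  rcases h1 with h1 | h1
  · exact s2 a b c d e f h h1 h2 h3
  · have hp : List.Perm [a, b, c, d, e, f] [b, a, c, d, e, f] := List.Perm.swap _ _ _
    obtain ⟨g', h4⟩ := s2 b a c d e f (hp.nodup_iff.1 h) h1 h2 h3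
    exact ⟨g', by rw [KK_sw1]; exact neg_ne_zero.2 h4⟩

private theorem qs_asg {N P : Type} (port : P → ℂ) (g : N → ℂ) (a : N ⊕ P) :
    qs port (asg g) a = Sum.elim g port a := by
  rcases a with n | p
  · simp only [qs, Sum.elim_inl, plc_asg]
  · simp only [qs, Sum.elim_inr]

theorem genStrip {N P : Type} [Finite N] [Finite P] (port : P → ℂ)
    (hinj : Function.Injective port) (him : ∀ p, (port p).im = 1 ∨ (port p).im = -1) :
    ∃ pos : N ⊕ P → ℂ, (∀ p, pos (Sum.inr p) = port p) ∧ (∀ n, |(pos (Sum.inl n)).im| < 1) ∧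
      (∀ a b c : N ⊕ P, a ≠ b → a ≠ c → b ≠ c → (a.isLeft ∨ b.isLeft ∨ c.isLeft) →
        cp (pos b - pos a) (pos c - pos a) ≠ 0) ∧
      ∀ a b c d e f : N ⊕ P, [a, b, c, d, e, f].Nodup → (a.isLeft ∨ b.isLeft) →
        (c.isLeft ∨ d.isLeft) → (e.isLeft ∨ f.isLeft) →
        ∀ p ∈ segment ℝ (pos a) (pos b), p ∈ segment ℝ (pos c) (pos d) →
          p ∉ segment ℝ (pos e) (pos f) := by
  classical
  have := Fintype.ofFinite (N ⊕ P)
  obtain ⟨g, hg⟩ := base (N := N) port hinj him
  set S3 : Finset ((N ⊕ P) × (N ⊕ P) × (N ⊕ P)) := Finset.univ.filter fun q =>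
    (q.1 ≠ q.2.1 ∧ q.1 ≠ q.2.2 ∧ q.2.1 ≠ q.2.2) ∧
      (q.1.isLeft ∨ q.2.1.isLeft ∨ q.2.2.isLeft) with hS3
  set S6 : Finset ((N ⊕ P) × (N ⊕ P) × (N ⊕ P) × (N ⊕ P) × (N ⊕ P) × (N ⊕ P)) :=
    Finset.univ.filter fun q =>
    [q.1, q.2.1, q.2.2.1, q.2.2.2.1, q.2.2.2.2.1, q.2.2.2.2.2].Nodup ∧
      (q.1.isLeft ∨ q.2.1.isLeft) ∧ (q.2.2.1.isLeft ∨ q.2.2.2.1.isLeft) ∧
      (q.2.2.2.2.1.isLeft ∨ q.2.2.2.2.2.isLeft) with hS6
  set P3 : MvPolynomial (N × Bool) ℝ := ∏ q ∈ S3, qA port q.1 q.2.1 q.2.2 with hP3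
  set P6 : MvPolynomial (N × Bool) ℝ := ∏ q ∈ S6,
    qC port q.1 q.2.1 q.2.2.1 q.2.2.2.1 q.2.2.2.2.1 q.2.2.2.2.2 with hP6
  have h3 : P3 ≠ 0 := by
    rw [hP3, Finset.prod_ne_zero_iff]
    intro q hq
    obtain ⟨_, ⟨h4, h5, h6⟩, h7⟩ := Finset.mem_filter.1 hq
    obtain ⟨g', h8⟩ := exA port hg q.1 q.2.1 q.2.2 h4 h5 h6 h7
    refine ne_zero_of_eval g' ?_
    rw [eval_qA]
    simp only [qs_asg]
    exact h8
  have h6 : P6 ≠ 0 := by
    rw [hP6, Finset.prod_ne_zero_iff]
    intro q hq
    obtain ⟨_, h4, h5, h6, h7⟩ := Finset.mem_filter.1 hq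
    obtain ⟨g', h8⟩ := exC port hg q.1 q.2.1 q.2.2.1 q.2.2.2.1 q.2.2.2.2.1 q.2.2.2.2.2 h4 h5 h6 h7
    refine ne_zero_of_eval g' ?_
    rw [eval_qC]
    simp only [qs_asg]
    exact h8
  have hne : P3 * P6 ≠ 0 := mul_ne_zero h3 h6
  set s : N × Bool → Set ℝ := fun _ => Ioo (-1) 1 with hs
  obtain ⟨x, hxs, hx⟩ : ∃ x ∈ Set.pi Set.univ s, MvPolynomial.eval x (P3 * P6) ≠ 0 := by
    by_contra hcon
    push Not at hcon
    refine hne (MvPolynomial.funext_set s (fun q => Set.Ioo_infinite (by norm_num)) fun x hx => ?_)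
    rw [hcon x hx, map_zero]
  rw [map_mul] at hx
  have hx3 : MvPolynomial.eval x P3 ≠ 0 := left_ne_zero_of_mul hx
  have hx6 : MvPolynomial.eval x P6 ≠ 0 := right_ne_zero_of_mul hx
  rw [hP3, map_prod, Finset.prod_ne_zero_iff] at hx3
  rw [hP6, map_prod, Finset.prod_ne_zero_iff] at hx6
  refine ⟨qs port x, fun p => rfl, ?_, ?_, ?_⟩
  · intro n
    have e2 := hxs (n, true) (Set.mem_univ _)
    simp only [hs, Set.mem_Ioo] at e2
    show |(plc x n).im| < 1
    rw [abs_lt]
    exact e2
  · intro a b c hab hac hbc hl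
    have h7 := hx3 (a, b, c) (by
      rw [hS3, Finset.mem_filter]
      exact ⟨Finset.mem_univ _, ⟨hab, hac, hbc⟩, hl⟩)
    rwa [eval_qA] at h7
  · intro a b c d e f hnd k1 k2 k3 p hp1 hp2 hp3
    have h7 := hx6 (a, b, c, d, e, f) (by
      rw [hS6, Finset.mem_filter]
      exact ⟨Finset.mem_univ _, hnd, k1, k2, k3⟩)
    rw [eval_qC] at h7
    exact h7 (concur (cp_segment hp1) (cp_segment hp2) (cp_segment hp3))

end H29.BT
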