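import Mathlib

/-!
# [H29 BT MOB] a map of the exterior of a disc to a half plane

Paper proof. `T z = I + I (z - c + u) / (z - c - u)` for `z ≠ c + u`, with inverse
`S w = c + u (w - I + I) / (w - I - I)` (solve `(w - I)/I = (ζ + u)/(ζ - u)`, `ζ = z - c`: with
`κ = (w - I)/I ≠ 1`, i.e. `w ≠ 2 I`, `ζ = u (κ + 1)/(κ - 1)`). `T` maps `{c + u}ᶜ` bijectively onto
`{2 I}ᶜ` (`κ = 1` iff `ζ + u = ζ - u`, impossible as `u ≠ 0`); both maps are continuous (quotients).
`(T z).im = 1 + re ((ζ + u)/(ζ - u)) = 1 + (‖ζ‖² - ‖u‖²)/‖ζ - u‖²`, as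
`re ((ζ + u) * conj (ζ - u)) = ‖ζ‖² - ‖u‖²`.
-/

set_option autoImplicit false

open Set

namespace H29.BT

theorem mob (c u : ℂ) (hu : u ≠ 0) :
    ∃ T : OpenPartialHomeomorph ℂ ℂ, T.source = {c + u}ᶜ ∧
      (∀ z, z ≠ c + u → ‖u‖ < dist z c → 1 < (T z).im) ∧
      ∀ z, z ≠ c + u → dist z c = ‖u‖ → (T z).im = 1 := by
  have hI : Complex.I ≠ 0 := Complex.I_ne_zero
  have h2I : ∀ z : ℂ, z ≠ c + u → z - c - u ≠ 0 := by
    intro z hz h
    apply hz
    linear_combination h
  have hS : ∀ w : ℂ, w ≠ 2 * Complex.I → w - Complex.I - Complex.I ≠ 0 := by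
    intro w hw h
    apply hw
    linear_combination h
  have himT : ∀ z : ℂ, z ≠ c + u → (Complex.I + Complex.I * ((z - c + u) / (z - c - u))).im =
      1 + (‖z - c‖ ^ 2 - ‖u‖ ^ 2) / ‖z - c - u‖ ^ 2 := by
    intro z hz
    have h1 := h2I z hz
    obtain ⟨ζ, hζ⟩ : ∃ ζ, ζ = z - c := ⟨_, rfl⟩
    rw [← hζ] at h1 ⊢
    have h2 : ‖ζ - u‖ ^ 2 ≠ 0 := pow_ne_zero 2 (norm_ne_zero_iff.2 h1)
    rw [Complex.add_im, Complex.I_im, Complex.I_mul_im]
    congr 1
    have h3 : ((ζ + u) / (ζ - u)).re = ((ζ + u) * (starRingEnd ℂ) (ζ - u)).re / Complex.normSq (ζ - u) := by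
      rw [div_eq_mul_inv, Complex.inv_def, ← mul_assoc, Complex.re_mul_ofReal,
        div_eq_mul_inv]
    rw [h3, Complex.normSq_eq_norm_sq]
    congr 1
    rw [← Complex.normSq_eq_norm_sq, ← Complex.normSq_eq_norm_sq, Complex.normSq_apply, Complex.normSq_apply]
    simp only [Complex.mul_re, Complex.add_re, Complex.add_im, Complex.conj_re, Complex.conj_im,
      Complex.sub_re, Complex.sub_im]
    ring
  refine ⟨{ toFun := fun z => Complex.I + Complex.I * ((z - c + u) / (z - c - u))
            invFun := fun w => c + u * ((w - Complex.I + Complex.I) / (w - Complex.I - Complex.I))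
            source := {c + u}ᶜ
            target := {2 * Complex.I}ᶜ
            map_source' := ?_
            map_target' := ?_
            left_inv' := ?_
            right_inv' := ?_
            open_source := isOpen_compl_singleton
            open_target := isOpen_compl_singleton
            continuousOn_toFun := ?_
            continuousOn_invFun := ?_ }, rfl, ?_, ?_⟩
  · intro z hz h
    have h1 := h2I z hz
    have h2 : Complex.I * ((z - c + u) / (z - c - u)) = Complex.I := by
      have h3 : Complex.I + Complex.I * ((z - c + u) / (z - c - u)) = 2 * Complex.I := h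
      linear_combination h3
    have h3 : (z - c + u) / (z - c - u) = 1 := by
      have h4 : Complex.I * ((z - c + u) / (z - c - u)) = Complex.I * 1 := by rw [h2, mul_one]
      exact mul_left_cancel₀ hI h4
    rw [div_eq_one_iff_eq h1] at h3
    apply hu
    linear_combination h3 / 2
  · intro w hw h
    have h1 := hS w hw
    have h2 : c + u * ((w - Complex.I + Complex.I) / (w - Complex.I - Complex.I)) = c + u := h
    have h3 : u * ((w - Complex.I + Complex.I) / (w - Complex.I - Complex.I)) = u * 1 := by
      linear_combination h2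
    have h4 := mul_left_cancel₀ hu h3
    rw [div_eq_one_iff_eq h1] at h4
    apply hI
    linear_combination h4 / 2
  · intro z hz
    have h1 := h2I z hz
    have h5 : Complex.I + Complex.I * ((z - c + u) / (z - c - u)) - Complex.I - Complex.I =
        Complex.I * (2 * u) / (z - c - u) := by
      field_simp
      ring
    have h6 : Complex.I + Complex.I * ((z - c + u) / (z - c - u)) - Complex.I + Complex.I =
        Complex.I * (2 * (z - c)) / (z - c - u) := by
      field_simp
      ring
    show c + u * ((Complex.I + Complex.I * ((z - c + u) / (z - c - u)) - Complex.I + Complex.I) /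
      (Complex.I + Complex.I * ((z - c + u) / (z - c - u)) - Complex.I - Complex.I)) = z
    rw [h5, h6]
    field_simp
    ring
  · intro w hw
    have h1 := hS w hw
    have h5 : c + u * ((w - Complex.I + Complex.I) / (w - Complex.I - Complex.I)) - c + u =
        u * (2 * (w - Complex.I)) / (w - Complex.I - Complex.I) := by
      field_simp
      ring
    have h6 : c + u * ((w - Complex.I + Complex.I) / (w - Complex.I - Complex.I)) - c - u =
        u * (2 * Complex.I) / (w - Complex.I - Complex.I) := by
      field_simp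
      ring
    show Complex.I + Complex.I * ((c + u * ((w - Complex.I + Complex.I) / (w - Complex.I - Complex.I)) - c + u) /
      (c + u * ((w - Complex.I + Complex.I) / (w - Complex.I - Complex.I)) - c - u)) = w
    rw [h5, h6]
    field_simp
    ring
  · refine ContinuousOn.add continuousOn_const (ContinuousOn.mul continuousOn_const
      (ContinuousOn.div (by fun_prop) (by fun_prop) fun z hz => h2I z hz))
  · refine ContinuousOn.add continuousOn_const (ContinuousOn.mul continuousOn_const
      (ContinuousOn.div (by fun_prop) (by fun_prop) fun z hz => hS z hz))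
  · intro z hz h
    show 1 < (Complex.I + Complex.I * ((z - c + u) / (z - c - u))).im
    rw [himT z hz]
    have h1 : 0 < ‖z - c - u‖ := norm_pos_iff.2 (h2I z hz)
    rw [Complex.dist_eq] at h
    have h2 : 0 < (‖z - c‖ ^ 2 - ‖u‖ ^ 2) / ‖z - c - u‖ ^ 2 := by
      apply div_pos _ (by positivity)
      have := pow_lt_pow_left₀ h (norm_nonneg u) two_ne_zero
      linarith
    linarith
  · intro z hz h
    show (Complex.I + Complex.I * ((z - c + u) / (z - c - u))).im = 1
    rw [himT z hz]
    rw [Complex.dist_eq] at h
    rw [h, sub_self, zero_div, add_zero]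

end H29.BT
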