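import Pool.Agent.H29.BT.HalfA
import Pool.Agent.H29.BT.Mob
import Pool.Agent.H29.BT.Ops

/-!
# [H29 BT HALF] the graph cut at a vertex, drawn in a half plane

Paper proof. Apply `phom` to the drawing of `halfA` and the map of `mob` with `c = D.pos r`, `‖u‖ = ρ`, such that
`c + u` is different from the finitely many places of the vertices: then it is on no arc (a point of an arc at distance
`ρ` from `c` is the place of a vertex). (There are infinitely many `u` with `‖u‖ = ρ`.) The points at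
distance `> ρ` go to `im > 1`, the points at distance `ρ` to `im = 1`.
`D'.cr ≤ D.cr`: `ncard` of a subset of an image of a finite set.
-/

set_option autoImplicit false

open Set

namespace H29.BT

open H29.BP

private theorem hf_inf (ρ : ℝ) (hρ : 0 < ρ) (F : Set ℂ) (hF : F.Finite) :
    ∃ u : ℂ, ‖u‖ = ρ ∧ u ∉ F := by
  have h1 : ((fun t : ℝ => (⟨t, Real.sqrt (ρ ^ 2 - t ^ 2)⟩ : ℂ)) '' Icc 0 ρ).Infinite := by
    refine (Set.Icc_infinite hρ).image ?_
    intro a _ b _ h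
    exact congrArg Complex.re h
  obtain ⟨u, ⟨t, ht, rfl⟩, hu⟩ := (h1.sdiff hF).nonempty
  refine ⟨_, ?_, hu⟩
  have h2 : 0 ≤ ρ ^ 2 - t ^ 2 := by nlinarith [ht.1, ht.2]
  have h3 : ‖(⟨t, Real.sqrt (ρ ^ 2 - t ^ 2)⟩ : ℂ)‖ ^ 2 = ρ ^ 2 := by
    rw [← Complex.normSq_eq_norm_sq, Complex.normSq_mk, Real.mul_self_sqrt h2]
    ring
  exact (pow_left_inj₀ (norm_nonneg _) hρ.le two_ne_zero).1 h3

theorem half {W : Type} [Finite W] {H : SimpleGraph W} (D : Drawing H) (r : W)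
    (hadj : ∀ u v, H.Adj r u → H.Adj r v → u ≠ v → D.X s(r, u) s(r, v) = ∅) :
    ∃ D' : Drawing (HP H r), (∀ w, 1 ≤ (D'.pos w).im) ∧
      (∀ w, (D'.pos w).im = 1 ↔ ∃ m, H.Adj r m ∧ w = Sum.inr m) ∧
      (∀ e ∈ (HP H r).edgeSet, ∀ z ∈ D'.arc e, 1 ≤ z.im ∧ (z.im = 1 → z ∈ range D'.pos)) ∧
      D'.cr ≤ D.cr ∧
      ∀ e ∈ (HP H r).edgeSet, ∀ f ∈ (HP H r).edgeSet, e ≠ f →
        D.X (e.map (fold r)) (f.map (fold r)) = ∅ → D'.X e f = ∅ := by
  obtain ⟨ρ, D0, hρ, hd, hd2, harc, hcr, hX⟩ := halfA D r hadj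
  obtain ⟨u, hu, huF⟩ := hf_inf ρ hρ (range fun w => D0.pos w - D.pos r) (Set.finite_range _)
  have hu0 : u ≠ 0 := by
    rintro rfl
    rw [norm_zero] at hu
    exact hρ.ne hu
  obtain ⟨T, hT, hT1, hT2⟩ := mob (D.pos r) u hu0
  rw [hu] at hT1 hT2
  have hp : ∀ w, D0.pos w ≠ D.pos r + u := by
    intro w h
    exact huF ⟨w, by
      show D0.pos w - D.pos r = u
      rw [h]
      ring⟩
  have ha : ∀ e ∈ (HP H r).edgeSet, ∀ z ∈ D0.arc e, z ≠ D.pos r + u := by
    rintro e he z hz rfl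
    have h1 : dist (D.pos r + u) (D.pos r) = ρ := by
      rw [dist_eq_norm, add_sub_cancel_left, hu]
    obtain ⟨w, hw⟩ := (harc e he _ hz).2 h1
    exact hp w hw
  obtain ⟨D', hpos, harc', hcr', hX'⟩ := phom D0 T (fun w => by
    rw [hT]
    exact hp w) (fun e he z hz => by
    rw [hT]
    exact ha e he z hz)
  have him : ∀ z, z ≠ D.pos r + u → ρ ≤ dist z (D.pos r) →
      1 ≤ (T z).im ∧ ((T z).im = 1 ↔ dist z (D.pos r) = ρ) := by
    intro z hz hd
    rcases hd.eq_or_lt with h | h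
    · have h1 := hT2 z hz h.symm
      exact ⟨h1.ge, fun _ => h.symm, fun _ => h1⟩
    · have h1 := hT1 z hz h
      exact ⟨h1.le, fun h2 => absurd h2 h1.ne', fun h2 => absurd h2 h.ne'⟩
  refine ⟨D', fun w => ?_, fun w => ?_, fun e he z hz => ?_, ?_, fun e he f hf hef hE => ?_⟩
  · rw [hpos]
    exact (him _ (hp w) (hd w)).1
  · rw [hpos, (him _ (hp w) (hd w)).2]
    exact hd2 w
  · rw [harc' e he] at hz
    obtain ⟨z0, hz0, rfl⟩ := hz
    have h1 := him z0 (ha e he z0 hz0) (harc e he z0 hz0).1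
    refine ⟨h1.1, fun h2 => ?_⟩
    obtain ⟨w, hw⟩ := (harc e he z0 hz0).2 (h1.2.1 h2)
    exact ⟨w, by rw [hpos, hw]⟩
  · unfold Drawing.cr
    calc D'.crossings.ncard ≤ (T '' D0.crossings).ncard :=
          Set.ncard_le_ncard hcr' (D0.crossings_finite.image _)
      _ ≤ D0.crossings.ncard := Set.ncard_image_le D0.crossings_finite
      _ ≤ D.crossings.ncard := Set.ncard_le_ncard hcr D.crossings_finite
  · have h1 := (hX' e he f hf).trans (Set.image_mono (hX e he f hf hef))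
    rw [hE, Set.image_empty] at h1
    exact Set.subset_empty_iff.1 h1

end H29.BT
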