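import Pool.Agent.H29.BT.Big
import Pool.Agent.H29.BT.Asm
import Pool.Agent.H29.BT.Half
import Pool.Agent.H29.BP.Opt

/-!
# [H29 BT GLUE] crossing number of the first plane

Paper proof. Take optimal drawings of the two sheet graphs (`exists_opt`), in which adjacent edges do not
cross (`opt_adj`); `half` with `r = rt` gives `DA`, `DB` (`Upper`), `DA.cr ≤ CR (SG G N A R)`, and edges of the cut graph whose
images under `fold rt` are different edges with a common end do not cross (`DA.X e f = ∅`). `big` gives `D`. Now apply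
`assemble` with `φ v = inl v` for `v ∈ N`, `φ v = iA (inl (vtx v))` for `v ∈ A`, `φ v = iB (inl (vtx v))` for
`v ∈ B`, and
* `P s(u,v) = {s(φ u, φ v)}` for edges of `L1` inside `A`, inside `B`, inside `N`;
* `P s(x,y) = {s(inl x, ptA s(x,y)), s(ptA s(x,y), iA (inl (mid s(x,y)))),
  s(iA (inl (mid s(x,y))), iA (inl (vtx y)))}` for `x ∈ N`, `y ∈ A`, in the same way for `y ∈ B`.
(Formally `P e` = the set of all edges of the large graph which have one of these forms for some
representation `e = s(x,y)`.) `harc` in the second case: the three arcs `γ₁` (strip), `γ₂`, `γ₃` are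
arcs with `γ₁ ∩ γ₂ = {place of the port}` (`|im| ≤ 1` on `γ₁`, `im ≥ 1` on `γ₂`, so `im = 1`, so a vertex, so the common
end by `avoid`), `γ₂ ∩ γ₃ = {place of mid}` (no crossing: `X = ∅`, so a vertex, a common end by
`avoid`), `γ₁ ∩ γ₃ = ∅`; `IsArc.trans` twice. `hend`, `hpriv`: the only vertices of these edges in `range φ` are the ends; the ports and
middle vertices are different for different edges. The order of the end points: `IsArc.symm`.
`CR (L1 …) ≤ D'.cr ≤ D.cr` (`Nat.sInf_le`, `ncard` of a subset).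
-/

set_option autoImplicit false

open Set

namespace H29.BT

open H29.BP

private theorem fin_sym2 (V : Type) [Finite V] : Finite (Sym2 V) := by
  unfold Sym2
  infer_instance

private theorem path3 {Ω : Type} {K : SimpleGraph Ω} (D : Drawing K) {a b c d : Ω}
    (h1 : K.Adj a b) (h2 : K.Adj b c) (h3 : K.Adj c d) (hac : a ≠ c) (had : a ≠ d) (hbd : b ≠ d)
    (x12 : D.X s(a, b) s(b, c) = ∅) (x23 : D.X s(b, c) s(c, d) = ∅)
    (x13 : D.X s(a, b) s(c, d) = ∅) :
    IsArc (D.pos a) (D.pos d) (D.arc s(a, b) ∪ (D.arc s(b, c) ∪ D.arc s(c, d))) := by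
  have hpos : ∀ e f : Sym2 Ω, D.X e f = ∅ → ∀ p ∈ D.arc e ∩ D.arc f, p ∈ range D.pos := by
    intro e f h p hp
    by_contra hn
    have : p ∈ D.X e f := ⟨hp, hn⟩
    rw [h] at this
    exact this
  refine IsArc.trans (D.isArc a b h1) (IsArc.trans (D.isArc b c h2) (D.isArc c d h3) ?_) ?_
  · rintro p hp
    obtain ⟨w, rfl⟩ := hpos _ _ x23 p hp
    rcases D.avoid b c w h2 hp.1 with rfl | rfl
    · rcases D.avoid c d w h3 hp.2 with h | h
      · exact absurd h h2.ne
      · exact absurd h hbd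
    · rfl
  · rintro p ⟨hp1, hp2⟩
    rcases hp2 with hp2 | hp2
    · obtain ⟨w, rfl⟩ := hpos _ _ x12 p ⟨hp1, hp2⟩
      rcases D.avoid a b w h1 hp1 with rfl | rfl
      · rcases D.avoid b c w h2 hp2 with h | h
        · exact absurd h h1.ne
        · exact absurd h hac
      · rfl
    · obtain ⟨w, rfl⟩ := hpos _ _ x13 p ⟨hp1, hp2⟩
      exfalso
      rcases D.avoid a b w h1 hp1 with rfl | rfl
      · rcases D.avoid c d w h3 hp2 with h | h
        · exact hac h
        · exact had h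
      · rcases D.avoid c d w h3 hp2 with h | h
        · exact h2.ne h
        · exact hbd h

/-- the edge to which a vertex of a sheet graph belongs -/
private def ownW {V : Type} : WV V → Option (Sym2 V)
  | Sum.inl _ => none
  | Sum.inr (Sum.inl e) => some e
  | Sum.inr (Sum.inr _) => none

/-- the edge to which a vertex of the large graph belongs -/
private def own {V : Type} : OV V → Option (Sym2 V) :=
  Sum.elim (fun _ => none) (Sum.elim (Sum.elim ownW ownW) (Sum.elim ownW ownW))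

open Classical in
/-- the place of a vertex in the large graph -/
private noncomputable def ph {V : Type} (N A : Set V) (v : V) : OV V :=
  if v ∈ N then Sum.inl v else if v ∈ A then iA (Sum.inl (vtx v)) else iB (Sum.inl (vtx v))

/-- the edges of the large graph which represent the edge `xy` -/
private inductive Fm {V : Type} (N A B : Set V) (R : Set (Sym2 V)) (x y : V) :
    Sym2 (OV V) → Prop
  | nn : x ∈ N → y ∈ N → Fm N A B R x y s(Sum.inl x, Sum.inl y)
  | aa : x ∈ A → y ∈ A → s(x, y) ∉ R →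
      Fm N A B R x y s(iA (Sum.inl (vtx x)), iA (Sum.inl (vtx y)))
  | bb : x ∈ B → y ∈ B → s(x, y) ∉ R →
      Fm N A B R x y s(iB (Sum.inl (vtx x)), iB (Sum.inl (vtx y)))
  | a1 : x ∈ N → y ∈ A → Fm N A B R x y s(Sum.inl x, ptA s(x, y))
  | a2 : x ∈ N → y ∈ A → Fm N A B R x y s(ptA s(x, y), iA (Sum.inl (mid s(x, y))))
  | a3 : x ∈ N → y ∈ A →
      Fm N A B R x y s(iA (Sum.inl (mid s(x, y))), iA (Sum.inl (vtx y)))
  | b1 : x ∈ N → y ∈ B → Fm N A B R x y s(Sum.inl x, ptB s(x, y))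
  | b2 : x ∈ N → y ∈ B → Fm N A B R x y s(ptB s(x, y), iB (Sum.inl (mid s(x, y))))
  | b3 : x ∈ N → y ∈ B →
      Fm N A B R x y s(iB (Sum.inl (mid s(x, y))), iB (Sum.inl (vtx y)))

/-- the representation of an edge -/
private def Pr {V : Type} (G : SimpleGraph V) (N A B : Set V) (R : Set (Sym2 V))
    (e : Sym2 V) : Set (Sym2 (OV V)) :=
  {g | ∃ x y, G.Adj x y ∧ e = s(x, y) ∧ Fm N A B R x y g}

section

variable {V : Type} {G : SimpleGraph V} {N A B : Set V} {R : Set (Sym2 V)}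

private theorem hp_vv {x y : V} (h : G.Adj x y) (hx : x ∈ A) (hy : y ∈ A) (hR : s(x, y) ∉ R) :
    (HP (SG G N A R) rt).Adj (Sum.inl (vtx x)) (Sum.inl (vtx y)) := by
  have h1 : (SG G N A R).Adj (vtx x) (vtx y) := by
    refine (SimpleGraph.fromRel_adj _ _ _).2 ⟨fun hh => h.ne (Sum.inl_injective hh), Or.inl ?_⟩
    exact Or.inl ⟨x, y, rfl, rfl, h, hx, hy, hR⟩
  refine (SimpleGraph.fromRel_adj _ _ _).2 ⟨fun hh => h1.ne (Sum.inl_injective hh), Or.inl ?_⟩
  exact Or.inl ⟨_, _, rfl, rfl, h1, by simp [vtx, rt], by simp [vtx, rt]⟩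

private theorem sg_rm {x y : V} (h : G.Adj x y) (hx : x ∈ N) (hy : y ∈ A) :
    (SG G N A R).Adj rt (mid s(x, y)) := by
  refine (SimpleGraph.fromRel_adj _ _ _).2 ⟨by simp [rt, mid], Or.inl ?_⟩
  exact Or.inr (Or.inl ⟨x, y, h, hx, hy, rfl, rfl⟩)

private theorem sg_mv {x y : V} (h : G.Adj x y) (hx : x ∈ N) (hy : y ∈ A) :
    (SG G N A R).Adj (mid s(x, y)) (vtx y) := by
  refine (SimpleGraph.fromRel_adj _ _ _).2 ⟨by simp [vtx, mid], Or.inl ?_⟩
  exact Or.inr (Or.inr ⟨x, y, h, hx, hy, rfl, rfl⟩)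

private theorem hp_pm {x y : V} (h : G.Adj x y) (hx : x ∈ N) (hy : y ∈ A) :
    (HP (SG G N A R) rt).Adj (Sum.inr (mid s(x, y))) (Sum.inl (mid s(x, y))) := by
  refine (SimpleGraph.fromRel_adj _ _ _).2 ⟨by simp, Or.inl ?_⟩
  exact Or.inr ⟨_, rfl, rfl, sg_rm h hx hy⟩

private theorem hp_mv {x y : V} (h : G.Adj x y) (hx : x ∈ N) (hy : y ∈ A) :
    (HP (SG G N A R) rt).Adj (Sum.inl (mid s(x, y))) (Sum.inl (vtx y)) := by
  refine (SimpleGraph.fromRel_adj _ _ _).2 ⟨by simp [vtx, mid], Or.inl ?_⟩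
  exact Or.inl ⟨_, _, rfl, rfl, sg_mv h hx hy, by simp [rt, mid], by simp [rt, vtx]⟩

private theorem ks_nn {x y : V} (h : G.Adj x y) (hx : x ∈ N) (hy : y ∈ N) :
    (KS G N A B).Adj (Sum.inl x) (Sum.inl y) := by
  refine (SimpleGraph.fromRel_adj _ _ _).2 ⟨fun hh => h.ne (Sum.inl_injective hh), Or.inl ?_⟩
  exact Or.inl ⟨x, y, h, hx, hy, rfl, rfl⟩

private theorem ks_a {x y : V} (h : G.Adj x y) (hx : x ∈ N) (hy : y ∈ A) :
    (KS G N A B).Adj (Sum.inl x) (ptA s(x, y)) := by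
  refine (SimpleGraph.fromRel_adj _ _ _).2 ⟨by simp [ptA, iA], Or.inl ?_⟩
  exact Or.inr (Or.inl ⟨x, y, h, hx, hy, rfl, rfl⟩)

private theorem ks_b {x y : V} (h : G.Adj x y) (hx : x ∈ N) (hy : y ∈ B) :
    (KS G N A B).Adj (Sum.inl x) (ptB s(x, y)) := by
  refine (SimpleGraph.fromRel_adj _ _ _).2 ⟨by simp [ptB, iB], Or.inl ?_⟩
  exact Or.inr (Or.inr ⟨x, y, h, hx, hy, rfl, rfl⟩)

private theorem own_ph (v : V) : own (ph N A v) = none := by
  unfold ph
  split_ifs <;> rfl

private theorem ab_ne (a b : WV V ⊕ WV V) : iA a ≠ iB b := by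
  intro h
  have h' : (Sum.inr (Sum.inl a) : OV V) = Sum.inr (Sum.inr b) := h
  simp at h'

private theorem la_ne (v : V) (b : WV V ⊕ WV V) : (Sum.inl v : OV V) ≠ iA b := by
  intro h
  have h' : (Sum.inl v : OV V) = Sum.inr (Sum.inl b) := h
  simp at h'

private theorem lb_ne (v : V) (b : WV V ⊕ WV V) : (Sum.inl v : OV V) ≠ iB b := by
  intro h
  have h' : (Sum.inl v : OV V) = Sum.inr (Sum.inr b) := h
  simp at h'

private theorem ph_inj : Function.Injective (ph N A) := by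
  intro u v h
  unfold ph at h
  split_ifs at h
  · exact Sum.inl_injective h
  · exact absurd h (la_ne _ _)
  · exact absurd h (lb_ne _ _)
  · exact absurd h.symm (la_ne _ _)
  · exact Sum.inl_injective (Sum.inl_injective (iA.injective h))
  · exact absurd h (ab_ne _ _)
  · exact absurd h.symm (lb_ne _ _)
  · exact absurd h.symm (ab_ne _ _)
  · exact Sum.inl_injective (Sum.inl_injective (iB.injective h))

private theorem ph_N {v : V} (h : v ∈ N) : ph N A v = Sum.inl v := if_pos h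

private theorem ph_A (hNA : Disjoint N A) {v : V} (h : v ∈ A) :
    ph N A v = iA (Sum.inl (vtx v)) := by
  unfold ph
  rw [if_neg (Set.disjoint_right.1 hNA h), if_pos h]

private theorem ph_B (hNB : Disjoint N B) (hAB : Disjoint A B) {v : V} (h : v ∈ B) :
    ph N A v = iB (Sum.inl (vtx v)) := by
  unfold ph
  rw [if_neg (Set.disjoint_right.1 hNB h), if_neg (Set.disjoint_right.1 hAB h)]

private theorem pr_edge {e : Sym2 V} {g : Sym2 (OV V)} (h : g ∈ Pr G N A B R e) :
    g ∈ (KA G N A R ⊔ KB G N B R ⊔ KS G N A B).edgeSet := by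
  obtain ⟨x, y, hG, _, hF⟩ := h
  cases hF with
  | nn hx hy => exact Or.inr (ks_nn hG hx hy)
  | aa hx hy hR =>
    exact Or.inl (Or.inl ((SimpleGraph.map_adj _ _ _ _).2 ⟨_, _, hp_vv hG hx hy hR, rfl, rfl⟩))
  | bb hx hy hR =>
    exact Or.inl (Or.inr ((SimpleGraph.map_adj _ _ _ _).2 ⟨_, _, hp_vv hG hx hy hR, rfl, rfl⟩))
  | a1 hx hy => exact Or.inr (ks_a hG hx hy)
  | a2 hx hy =>
    exact Or.inl (Or.inl ((SimpleGraph.map_adj _ _ _ _).2 ⟨_, _, hp_pm hG hx hy, rfl, rfl⟩))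
  | a3 hx hy =>
    exact Or.inl (Or.inl ((SimpleGraph.map_adj _ _ _ _).2 ⟨_, _, hp_mv hG hx hy, rfl, rfl⟩))
  | b1 hx hy => exact Or.inr (ks_b hG hx hy)
  | b2 hx hy =>
    exact Or.inl (Or.inr ((SimpleGraph.map_adj _ _ _ _).2 ⟨_, _, hp_pm hG hx hy, rfl, rfl⟩))
  | b3 hx hy =>
    exact Or.inl (Or.inr ((SimpleGraph.map_adj _ _ _ _).2 ⟨_, _, hp_mv hG hx hy, rfl, rfl⟩))

private theorem pr_own (hNA : Disjoint N A) (hNB : Disjoint N B) (hAB : Disjoint A B)
    {e : Sym2 V} {g : Sym2 (OV V)} (h : g ∈ Pr G N A B R e) {ω : OV V} (hω : ω ∈ g) :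
    own ω = some e ∨ ∃ v ∈ e, ω = ph N A v := by
  obtain ⟨x, y, hG, rfl, hF⟩ := h
  have hx' : x ∈ s(x, y) := Sym2.mem_mk_left x y
  have hy' : y ∈ s(x, y) := Sym2.mem_mk_right x y
  cases hF with
  | nn hx hy =>
    rcases Sym2.mem_iff.1 hω with rfl | rfl
    · exact Or.inr ⟨x, hx', (ph_N hx).symm⟩
    · exact Or.inr ⟨y, hy', (ph_N hy).symm⟩
  | aa hx hy hR =>
    rcases Sym2.mem_iff.1 hω with rfl | rfl
    · exact Or.inr ⟨x, hx', (ph_A hNA hx).symm⟩
    · exact Or.inr ⟨y, hy', (ph_A hNA hy).symm⟩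
  | bb hx hy hR =>
    rcases Sym2.mem_iff.1 hω with rfl | rfl
    · exact Or.inr ⟨x, hx', (ph_B hNB hAB hx).symm⟩
    · exact Or.inr ⟨y, hy', (ph_B hNB hAB hy).symm⟩
  | a1 hx hy =>
    rcases Sym2.mem_iff.1 hω with rfl | rfl
    · exact Or.inr ⟨x, hx', (ph_N hx).symm⟩
    · exact Or.inl rfl
  | a2 hx hy =>
    rcases Sym2.mem_iff.1 hω with rfl | rfl
    · exact Or.inl rfl
    · exact Or.inl rfl
  | a3 hx hy =>
    rcases Sym2.mem_iff.1 hω with rfl | rfl
    · exact Or.inl rfl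
    · exact Or.inr ⟨y, hy', (ph_A hNA hy).symm⟩
  | b1 hx hy =>
    rcases Sym2.mem_iff.1 hω with rfl | rfl
    · exact Or.inr ⟨x, hx', (ph_N hx).symm⟩
    · exact Or.inl rfl
  | b2 hx hy =>
    rcases Sym2.mem_iff.1 hω with rfl | rfl
    · exact Or.inl rfl
    · exact Or.inl rfl
  | b3 hx hy =>
    rcases Sym2.mem_iff.1 hω with rfl | rfl
    · exact Or.inl rfl
    · exact Or.inr ⟨y, hy', (ph_B hNB hAB hy).symm⟩

section

variable (hNA : Disjoint N A) (hNB : Disjoint N B) (hAB : Disjoint A B)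
include hNA hNB hAB

private theorem pr_nn {u v : V} (h : G.Adj u v) (hu : u ∈ N) (hv : v ∈ N) :
    Pr G N A B R s(u, v) = {s(Sum.inl u, Sum.inl v)} := by
  have a1 := Set.disjoint_left.1 hNA
  have a2 := Set.disjoint_left.1 hNB
  ext g
  rw [Set.mem_singleton_iff]
  constructor
  · rintro ⟨x, y, hG, he, hF⟩
    rcases Sym2.eq_iff.1 he with ⟨rfl, rfl⟩ | ⟨rfl, rfl⟩
    · cases hF with
      | nn hx hy => rfl
      | aa hx hy hR => exact absurd hx (a1 hu)
      | bb hx hy hR => exact absurd hx (a2 hu)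
      | a1 hx hy => exact absurd hy (a1 hv)
      | a2 hx hy => exact absurd hy (a1 hv)
      | a3 hx hy => exact absurd hy (a1 hv)
      | b1 hx hy => exact absurd hy (a2 hv)
      | b2 hx hy => exact absurd hy (a2 hv)
      | b3 hx hy => exact absurd hy (a2 hv)
    · cases hF with
      | nn hx hy => exact Sym2.eq_swap
      | aa hx hy hR => exact absurd hx (a1 hv)
      | bb hx hy hR => exact absurd hx (a2 hv)
      | a1 hx hy => exact absurd hy (a1 hu)
      | a2 hx hy => exact absurd hy (a1 hu)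
      | a3 hx hy => exact absurd hy (a1 hu)
      | b1 hx hy => exact absurd hy (a2 hu)
      | b2 hx hy => exact absurd hy (a2 hu)
      | b3 hx hy => exact absurd hy (a2 hu)
  · rintro rfl
    exact ⟨u, v, h, rfl, Fm.nn hu hv⟩

private theorem pr_aa {u v : V} (h : G.Adj u v) (hu : u ∈ A) (hv : v ∈ A) (hR : s(u, v) ∉ R) :
    Pr G N A B R s(u, v) = {s(iA (Sum.inl (vtx u)), iA (Sum.inl (vtx v)))} := by
  have a1 := Set.disjoint_right.1 hNA
  have a2 := Set.disjoint_left.1 hAB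
  ext g
  rw [Set.mem_singleton_iff]
  constructor
  · rintro ⟨x, y, hG, he, hF⟩
    rcases Sym2.eq_iff.1 he with ⟨rfl, rfl⟩ | ⟨rfl, rfl⟩
    · cases hF with
      | nn hx hy => exact absurd hx (a1 hu)
      | aa hx hy hR => rfl
      | bb hx hy hR => exact absurd hx (a2 hu)
      | a1 hx hy => exact absurd hx (a1 hu)
      | a2 hx hy => exact absurd hx (a1 hu)
      | a3 hx hy => exact absurd hx (a1 hu)
      | b1 hx hy => exact absurd hx (a1 hu)
      | b2 hx hy => exact absurd hx (a1 hu)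
      | b3 hx hy => exact absurd hx (a1 hu)
    · cases hF with
      | nn hx hy => exact absurd hx (a1 hv)
      | aa hx hy hR => exact Sym2.eq_swap
      | bb hx hy hR => exact absurd hx (a2 hv)
      | a1 hx hy => exact absurd hx (a1 hv)
      | a2 hx hy => exact absurd hx (a1 hv)
      | a3 hx hy => exact absurd hx (a1 hv)
      | b1 hx hy => exact absurd hx (a1 hv)
      | b2 hx hy => exact absurd hx (a1 hv)
      | b3 hx hy => exact absurd hx (a1 hv)
  · rintro rfl
    exact ⟨u, v, h, rfl, Fm.aa hu hv hR⟩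

private theorem pr_bb {u v : V} (h : G.Adj u v) (hu : u ∈ B) (hv : v ∈ B) (hR : s(u, v) ∉ R) :
    Pr G N A B R s(u, v) = {s(iB (Sum.inl (vtx u)), iB (Sum.inl (vtx v)))} := by
  have a1 := Set.disjoint_right.1 hNB
  have a2 := Set.disjoint_right.1 hAB
  ext g
  rw [Set.mem_singleton_iff]
  constructor
  · rintro ⟨x, y, hG, he, hF⟩
    rcases Sym2.eq_iff.1 he with ⟨rfl, rfl⟩ | ⟨rfl, rfl⟩
    · cases hF with
      | nn hx hy => exact absurd hx (a1 hu)
      | aa hx hy hR => exact absurd hx (a2 hu)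
      | bb hx hy hR => rfl
      | a1 hx hy => exact absurd hx (a1 hu)
      | a2 hx hy => exact absurd hx (a1 hu)
      | a3 hx hy => exact absurd hx (a1 hu)
      | b1 hx hy => exact absurd hx (a1 hu)
      | b2 hx hy => exact absurd hx (a1 hu)
      | b3 hx hy => exact absurd hx (a1 hu)
    · cases hF with
      | nn hx hy => exact absurd hx (a1 hv)
      | aa hx hy hR => exact absurd hx (a2 hv)
      | bb hx hy hR => exact Sym2.eq_swap
      | a1 hx hy => exact absurd hx (a1 hv)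
      | a2 hx hy => exact absurd hx (a1 hv)
      | a3 hx hy => exact absurd hx (a1 hv)
      | b1 hx hy => exact absurd hx (a1 hv)
      | b2 hx hy => exact absurd hx (a1 hv)
      | b3 hx hy => exact absurd hx (a1 hv)
  · rintro rfl
    exact ⟨u, v, h, rfl, Fm.bb hu hv hR⟩

private theorem pr_na {u v : V} (h : G.Adj u v) (hu : u ∈ N) (hv : v ∈ A) :
    Pr G N A B R s(u, v) = {s(Sum.inl u, ptA s(u, v)), s(ptA s(u, v), iA (Sum.inl (mid s(u, v)))),
      s(iA (Sum.inl (mid s(u, v))), iA (Sum.inl (vtx v)))} := by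
  have a1 := Set.disjoint_left.1 hNA
  have a2 := Set.disjoint_left.1 hNB
  have a3 := Set.disjoint_left.1 hAB
  have a4 := Set.disjoint_right.1 hNA
  ext g
  rw [Set.mem_insert_iff, Set.mem_insert_iff, Set.mem_singleton_iff]
  constructor
  · rintro ⟨x, y, hG, he, hF⟩
    rcases Sym2.eq_iff.1 he with ⟨rfl, rfl⟩ | ⟨rfl, rfl⟩
    · cases hF with
      | nn hx hy => exact absurd hy (a4 hv)
      | aa hx hy hR => exact absurd hx (a1 hu)
      | bb hx hy hR => exact absurd hx (a2 hu)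
      | a1 hx hy => exact Or.inl rfl
      | a2 hx hy => exact Or.inr (Or.inl rfl)
      | a3 hx hy => exact Or.inr (Or.inr rfl)
      | b1 hx hy => exact absurd hy (a3 hv)
      | b2 hx hy => exact absurd hy (a3 hv)
      | b3 hx hy => exact absurd hy (a3 hv)
    · cases hF with
      | nn hx hy => exact absurd hx (a4 hv)
      | aa hx hy hR => exact absurd hy (a1 hu)
      | bb hx hy hR => exact absurd hy (a2 hu)
      | a1 hx hy => exact absurd hx (a4 hv)
      | a2 hx hy => exact absurd hx (a4 hv)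
      | a3 hx hy => exact absurd hx (a4 hv)
      | b1 hx hy => exact absurd hx (a4 hv)
      | b2 hx hy => exact absurd hx (a4 hv)
      | b3 hx hy => exact absurd hx (a4 hv)
  · rintro (rfl | rfl | rfl)
    · exact ⟨u, v, h, rfl, Fm.a1 hu hv⟩
    · exact ⟨u, v, h, rfl, Fm.a2 hu hv⟩
    · exact ⟨u, v, h, rfl, Fm.a3 hu hv⟩

private theorem pr_nb {u v : V} (h : G.Adj u v) (hu : u ∈ N) (hv : v ∈ B) :
    Pr G N A B R s(u, v) = {s(Sum.inl u, ptB s(u, v)), s(ptB s(u, v), iB (Sum.inl (mid s(u, v)))),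
      s(iB (Sum.inl (mid s(u, v))), iB (Sum.inl (vtx v)))} := by
  have a1 := Set.disjoint_left.1 hNA
  have a2 := Set.disjoint_left.1 hNB
  have a3 := Set.disjoint_right.1 hAB
  have a4 := Set.disjoint_right.1 hNB
  ext g
  rw [Set.mem_insert_iff, Set.mem_insert_iff, Set.mem_singleton_iff]
  constructor
  · rintro ⟨x, y, hG, he, hF⟩
    rcases Sym2.eq_iff.1 he with ⟨rfl, rfl⟩ | ⟨rfl, rfl⟩
    · cases hF with
      | nn hx hy => exact absurd hy (a4 hv)
      | aa hx hy hR => exact absurd hx (a1 hu)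
      | bb hx hy hR => exact absurd hx (a2 hu)
      | a1 hx hy => exact absurd hy (a3 hv)
      | a2 hx hy => exact absurd hy (a3 hv)
      | a3 hx hy => exact absurd hy (a3 hv)
      | b1 hx hy => exact Or.inl rfl
      | b2 hx hy => exact Or.inr (Or.inl rfl)
      | b3 hx hy => exact Or.inr (Or.inr rfl)
    · cases hF with
      | nn hx hy => exact absurd hx (a4 hv)
      | aa hx hy hR => exact absurd hy (a1 hu)
      | bb hx hy hR => exact absurd hy (a2 hu)
      | a1 hx hy => exact absurd hx (a4 hv)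
      | a2 hx hy => exact absurd hx (a4 hv)
      | a3 hx hy => exact absurd hx (a4 hv)
      | b1 hx hy => exact absurd hx (a4 hv)
      | b2 hx hy => exact absurd hx (a4 hv)
      | b3 hx hy => exact absurd hx (a4 hv)
  · rintro (rfl | rfl | rfl)
    · exact ⟨u, v, h, rfl, Fm.b1 hu hv⟩
    · exact ⟨u, v, h, rfl, Fm.b2 hu hv⟩
    · exact ⟨u, v, h, rfl, Fm.b3 hu hv⟩

end

/-- three arcs on the way from the strip into a sheet -/
private theorem three {K : SimpleGraph (OV V)} {C : Set V} (i : (WV V ⊕ WV V) ↪ OV V)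
    (D : Drawing K) (hi : ∀ v w, i w ≠ Sum.inl v) (hKC : (HP (SG G N C R) rt).map i ≤ K)
    {S : SimpleGraph (OV V)} (hS : S ≤ K)
    (hs : ∀ e ∈ S.edgeSet, ∀ f ∈ ((HP (SG G N C R) rt).map i).edgeSet,
      D.X e f = ∅) {x y : V} (h : G.Adj x y) (hx : x ∈ N) (hy : y ∈ C)
    (h1 : S.Adj (Sum.inl x) (i (Sum.inr (mid s(x, y)))))
    (h23 : D.X s(i (Sum.inr (mid s(x, y))), i (Sum.inl (mid s(x, y))))
      s(i (Sum.inl (mid s(x, y))), i (Sum.inl (vtx y))) = ∅) :
    IsArc (D.pos (Sum.inl x)) (D.pos (i (Sum.inl (vtx y))))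
      (D.arc s(Sum.inl x, i (Sum.inr (mid s(x, y)))) ∪
        (D.arc s(i (Sum.inr (mid s(x, y))), i (Sum.inl (mid s(x, y)))) ∪
        D.arc s(i (Sum.inl (mid s(x, y))), i (Sum.inl (vtx y))))) := by
  have e2 : ((HP (SG G N C R) rt).map i).Adj (i (Sum.inr (mid s(x, y))))
      (i (Sum.inl (mid s(x, y)))) :=
    (SimpleGraph.map_adj _ _ _ _).2 ⟨_, _, hp_pm h hx hy, rfl, rfl⟩
  have e3 : ((HP (SG G N C R) rt).map i).Adj (i (Sum.inl (mid s(x, y))))
      (i (Sum.inl (vtx y))) :=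
    (SimpleGraph.map_adj _ _ _ _).2 ⟨_, _, hp_mv h hx hy, rfl, rfl⟩
  refine path3 D (hS h1) (hKC e2) (hKC e3) (hi x _).symm (hi x _).symm ?_ (hs _ h1 _ e2) h23
    (hs _ h1 _ e3)
  intro hh
  have := i.injective hh
  simp at this

private theorem cr_le {W : Type} [Finite W] {H : SimpleGraph W} (D : Drawing H) :
    CR H ≤ D.cr := Nat.sInf_le ⟨D, rfl⟩

/-- optimal drawing of a sheet graph, cut at the root -/
private theorem sheet [Finite V] (C : Set V) :
    ∃ DC : Drawing (HP (SG G N C R) rt), Upper DC ∧ DC.cr ≤ CR (SG G N C R) ∧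
      ∀ x y, G.Adj x y → x ∈ N → y ∈ C →
        DC.X s(Sum.inr (mid s(x, y)), Sum.inl (mid s(x, y)))
          s(Sum.inl (mid s(x, y)), Sum.inl (vtx y)) = ∅ := by
  have := fin_sym2 V
  obtain ⟨D0, hD0⟩ := exists_opt (SG G N C R)
  obtain ⟨DC, k1, k2, k3, k4, k5⟩ := half D0 rt
    (fun u v hu hv huv => opt_adj D0 hD0 hu hv huv)
  refine ⟨DC, ⟨k1, k2, k3⟩, k4.trans hD0.le, ?_⟩
  intro x y h hx hy
  refine k5 _ (hp_pm h hx hy) _ (hp_mv h hx hy) ?_ ?_
  · intro hh
    rcases Sym2.eq_iff.1 hh with ⟨h1, _⟩ | ⟨h1, _⟩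
    · simp at h1
    · simp at h1
  · have h1 := opt_adj D0 hD0 (sg_rm h hx hy).symm (sg_mv h hx hy)
      (by simp [rt, vtx] : (rt : WV V) ≠ vtx y)
    rw [Sym2.map_mk, Sym2.map_mk]
    have e : (s(fold rt (Sum.inr (mid s(x, y))), fold rt (Sum.inl (mid s(x, y)))) : Sym2 (WV V)) =
        s(mid s(x, y), rt) := Sym2.eq_swap
    have e' : (s(fold rt (Sum.inl (mid s(x, y))), fold rt (Sum.inl (vtx y))) : Sym2 (WV V)) =
        s(mid s(x, y), vtx y) := rfl
    rw [e, e']
    exact h1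

end

theorem glue {V : Type} [Finite V] (G : SimpleGraph V) (N A B : Set V) (R : Set (Sym2 V))
    (hNA : Disjoint N A) (hNB : Disjoint N B) (hAB : Disjoint A B)
    (hcov : ∀ v, v ∈ N ∨ v ∈ A ∨ v ∈ B) :
    2 * CR (L1 G N A B R) ≤ 2 * CR (SG G N A R) + 2 * CR (SG G N B R) + (SP G N).card := by
  have := fin_sym2 V
  obtain ⟨DA, uA, cA, xA⟩ := sheet (G := G) (N := N) (R := R) A
  obtain ⟨DB, uB, cB, xB⟩ := sheet (G := G) (N := N) (R := R) B
  obtain ⟨D, _, _, _, k4, k5, k6, k7, k8, k9⟩ := big G N A B R hNA hNB hAB DA uA DB uB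
  have hsA : ∀ e ∈ (KS G N A B).edgeSet, ∀ f ∈ (KA G N A R).edgeSet, D.X e f = ∅ := by
    intro e he f hf
    rw [Set.eq_empty_iff_forall_notMem]
    rintro p ⟨⟨p1, p2⟩, p3⟩
    have h1 := k6 e he p p1
    obtain ⟨h2, h3⟩ := k4 f hf p p2
    exact p3 (h3 (le_antisymm ((le_abs_self _).trans h1) h2))
  have hsB : ∀ e ∈ (KS G N A B).edgeSet, ∀ f ∈ (KB G N B R).edgeSet, D.X e f = ∅ := by
    intro e he f hf
    rw [Set.eq_empty_iff_forall_notMem]
    rintro p ⟨⟨p1, p2⟩, p3⟩
    have h1 := k6 e he p p1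
    obtain ⟨h2, h3⟩ := k5 f hf p p2
    exact p3 (h3 (le_antisymm h2 (by linarith [neg_abs_le p.im])))
  have hadj : ∀ u v, G.Adj u v → (u ∈ N ∨ (u ∈ A ∧ v ∈ A ∧ s(u, v) ∉ R) ∨
      (u ∈ B ∧ v ∈ B ∧ s(u, v) ∉ R)) →
      IsArc (D.pos (ph N A u)) (D.pos (ph N A v)) (⋃ g ∈ Pr G N A B R s(u, v), D.arc g) := by
    intro u v h hc
    rcases hc with hu | ⟨hu, hv, hR⟩ | ⟨hu, hv, hR⟩
    · rcases hcov v with hv | hv | hv
      · rw [pr_nn hNA hNB hAB h hu hv, Set.biUnion_singleton, ph_N hu, ph_N hv]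
        exact D.isArc _ _ (Or.inr (ks_nn h hu hv))
      · rw [pr_na hNA hNB hAB h hu hv, Set.biUnion_insert, Set.biUnion_insert,
          Set.biUnion_singleton, ph_N hu, ph_A hNA hv]
        refine three iA D (fun _ _ => by simp [iA]) (le_sup_left.trans le_sup_left) le_sup_right
          hsA h hu hv (ks_a h hu hv) ?_
        exact k7 _ (hp_pm h hu hv) _ (hp_mv h hu hv) (xA u v h hu hv)
      · rw [pr_nb hNA hNB hAB h hu hv, Set.biUnion_insert, Set.biUnion_insert,
          Set.biUnion_singleton, ph_N hu, ph_B hNB hAB hv]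
        refine three iB D (fun _ _ => by simp [iB]) (le_sup_right.trans le_sup_left) le_sup_right
          hsB h hu hv (ks_b h hu hv) ?_
        exact k8 _ (hp_pm h hu hv) _ (hp_mv h hu hv) (xB u v h hu hv)
    · rw [pr_aa hNA hNB hAB h hu hv hR, Set.biUnion_singleton, ph_A hNA hu, ph_A hNA hv]
      exact D.isArc _ _ (Or.inl (Or.inl ((SimpleGraph.map_adj _ _ _ _).2
        ⟨_, _, hp_vv h hu hv hR, rfl, rfl⟩)))
    · rw [pr_bb hNA hNB hAB h hu hv hR, Set.biUnion_singleton, ph_B hNB hAB hu, ph_B hNB hAB hv]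
      exact D.isArc _ _ (Or.inl (Or.inr ((SimpleGraph.map_adj _ _ _ _).2
        ⟨_, _, hp_vv h hu hv hR, rfl, rfl⟩)))
  obtain ⟨D', _, _, hD'⟩ := assemble (G := L1 G N A B R) D (ph N A) ph_inj (Pr G N A B R)
    (fun e _ g hg => pr_edge hg)
    (by
      intro e _ f _ hef
      rw [Set.disjoint_left]
      intro g hg hg'
      have hK := pr_edge hg
      induction g with
      | _ a b =>
        have o1 : ∀ ω, ω ∈ s(a, b) → ∃ v ∈ e, v ∈ f ∧ ω = ph N A v := by
          intro ω hω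
          rcases pr_own hNA hNB hAB hg hω with h1 | ⟨v, hv, h1⟩
          · rcases pr_own hNA hNB hAB hg' hω with h2 | ⟨v, hv, h2⟩
            · rw [h1] at h2
              exact absurd (Option.some.inj h2) hef
            · rw [h2, own_ph] at h1
              exact absurd h1 (by simp)
          · rcases pr_own hNA hNB hAB hg' hω with h2 | ⟨v', hv', h2⟩
            · rw [h1, own_ph] at h2
              exact absurd h2 (by simp)
            · have : v = v' := ph_inj (h1.symm.trans h2)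
              exact ⟨v, hv, this ▸ hv', h1⟩
        obtain ⟨v, hv, hv', h1⟩ := o1 a (Sym2.mem_mk_left a b)
        obtain ⟨w, hw, hw', h2⟩ := o1 b (Sym2.mem_mk_right a b)
        have hne : v ≠ w := by
          intro hh
          have h3 : a ≠ b := SimpleGraph.Adj.ne (G := KA G N A R ⊔ KB G N B R ⊔ KS G N A B) hK
          exact h3 (by rw [h1, h2, hh])
        apply hef
        rw [(Sym2.mem_and_mem_iff hne).1 ⟨hv, hw⟩, (Sym2.mem_and_mem_iff hne).1 ⟨hv', hw'⟩])
    (by
      intro u v huv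
      obtain ⟨_, h1 | h1⟩ := (SimpleGraph.fromRel_adj _ _ _).1 huv
      · exact hadj u v h1.1 h1.2
      · have := hadj v u h1.1 h1.2
        rw [Sym2.eq_swap] at this
        exact this.symm)
    (by
      intro e _ g hg v hv
      rcases pr_own hNA hNB hAB hg hv with h1 | ⟨w, hw, h1⟩
      · rw [own_ph] at h1
        exact absurd h1 (by simp)
      · rw [ph_inj h1]
        exact hw)
    (by
      intro e _ f _ hef g hg g' hg' ω hω hω'
      rcases pr_own hNA hNB hAB hg hω with h1 | ⟨w, _, h1⟩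
      · rcases pr_own hNA hNB hAB hg' hω' with h2 | ⟨w, _, h2⟩
        · rw [h1] at h2
          exact absurd (Option.some.inj h2) hef
        · exact ⟨w, h2.symm⟩
      · exact ⟨w, h1.symm⟩)
  have h1 : CR (L1 G N A B R) ≤ D'.cr := cr_le D'
  have h2 : D'.cr ≤ D.cr := Set.ncard_le_ncard hD' D.crossings_finite
  omega

end H29.BT
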