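import Pool.Agent.H29.BP.Loc

/-!
# [H29 BT TRIM] cutting off a small disc around a vertex

Paper proof. Let `c = D.pos r`. The finitely many places of the other vertices and the finitely many compact
arcs of the edges which do not contain `r` (they do not contain `c`, `avoid`) have a positive distance
from `c`; take `ρ` smaller than all of them. For a neighbour `m` of `r` let `α` be a parametrisation of the arc
of `s(r,m)` from `c` to `D.pos m` and `t` the last time with `dist (α t) c ≤ ρ` (the set of these times is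
compact, contains `0`, not `1`); `dist (α t) c = ρ` by continuity (`0 < t < 1`). Put `q = α t`,
`γ = α '' [t,1]` (`isArc_sub`). Local form: for `z = α s`, `s > t`, take `U = (α '' [0,t])ᶜ`.
-/

set_option autoImplicit false

open Set

namespace H29.BT

open H29.BP

theorem trim {W : Type} [Finite W] {H : SimpleGraph W} (D : Drawing H) (r : W) :
    ∃ ρ : ℝ, 0 < ρ ∧ (∀ w, w ≠ r → ρ < dist (D.pos w) (D.pos r)) ∧
      (∀ e ∈ H.edgeSet, r ∉ e → ∀ z ∈ D.arc e, ρ < dist z (D.pos r)) ∧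
      ∀ m, H.Adj r m → ∃ (q : ℂ) (γ : Set ℂ), IsArc q (D.pos m) γ ∧ γ ⊆ D.arc s(r, m) ∧
        dist q (D.pos r) = ρ ∧ (∀ z ∈ γ, z ≠ q → ρ < dist z (D.pos r)) ∧
        ∀ z ∈ γ, z ≠ q → ∃ U : Set ℂ, IsOpen U ∧ z ∈ U ∧ γ ∩ U = D.arc s(r, m) ∩ U := by
  classical
  obtain ⟨c, hc⟩ : ∃ c, c = D.pos r := ⟨_, rfl⟩
  obtain ⟨F, hF⟩ : ∃ F : Set ℂ, F = (⋃ w ∈ {w : W | w ≠ r}, {D.pos w}) ∪
    ⋃ e ∈ {e : Sym2 W | e ∈ H.edgeSet ∧ r ∉ e}, D.arc e := ⟨_, rfl⟩
  have hFc : IsClosed F := by
    rw [hF]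
    refine IsClosed.union ?_ ?_
    · exact (Set.toFinite _).isClosed_biUnion fun w _ => isClosed_singleton
    · refine (Set.toFinite _).isClosed_biUnion fun e he => ?_
      obtain ⟨he1, -⟩ := he
      induction e with
      | _ u v => exact (D.isArc u v he1).isCompact.isClosed
  have hcF : c ∉ F := by
    rw [hF]
    rintro (h | h)
    · rw [Set.mem_iUnion₂] at h
      obtain ⟨w, hw, hw2⟩ := h
      have hw3 : c = D.pos w := hw2
      rw [hc] at hw3
      exact hw (D.pos_inj hw3).symm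
    · rw [Set.mem_iUnion₂] at h
      obtain ⟨e, he, he2⟩ := h
      obtain ⟨he1, he3⟩ := he
      induction e with
      | _ u v =>
        rw [hc] at he2
        rcases D.avoid u v r he1 he2 with h | h
        · exact he3 (by rw [h]; exact Sym2.mem_mk_left _ _)
        · exact he3 (by rw [h]; exact Sym2.mem_mk_right _ _)
  obtain ⟨ε, hε, hεF⟩ := Metric.isOpen_iff.1 hFc.isOpen_compl c hcF
  have hfar : ∀ z ∈ F, ε / 2 < dist z c := by
    intro z hz
    by_contra hcon
    have h1 : z ∈ Metric.ball c ε := by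
      rw [Metric.mem_ball]
      linarith
    exact hεF h1 hz
  refine ⟨ε / 2, by positivity, ?_, ?_, ?_⟩
  · intro w hw
    rw [← hc]
    refine hfar _ ?_
    rw [hF]
    exact Or.inl (Set.mem_biUnion (show w ∈ {w : W | w ≠ r} from hw) rfl)
  · intro e he her z hz
    rw [← hc]
    refine hfar _ ?_
    rw [hF]
    exact Or.inr (Set.mem_biUnion (show e ∈ {e : Sym2 W | e ∈ H.edgeSet ∧ r ∉ e} from ⟨he, her⟩) hz)
  · intro m hm
    obtain ⟨f, hfc, hfi, hf0, hf1, himg⟩ := D.isArc r m hm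
    have hm1 : ε / 2 < dist (f 1) c := by
      rw [hf1]
      refine hfar _ ?_
      rw [hF]
      exact Or.inl (Set.mem_biUnion (show m ∈ {w : W | w ≠ r} from hm.ne') rfl)
    have hgc : ContinuousOn (fun t => dist (f t) c) (Icc 0 1) :=
      (continuous_id.dist continuous_const).comp_continuousOn hfc
    obtain ⟨T, hT⟩ : ∃ T : Set ℝ, T = {t | t ∈ Icc (0 : ℝ) 1 ∧ dist (f t) c ≤ ε / 2} := ⟨_, rfl⟩
    have hTc : IsCompact T := by
      have h1 : IsClosed (Icc (0 : ℝ) 1 ∩ (fun t => dist (f t) c) ⁻¹' Iic (ε / 2)) :=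
        hgc.preimage_isClosed_of_isClosed isClosed_Icc isClosed_Iic
      have h2 : T = Icc (0 : ℝ) 1 ∩ (fun t => dist (f t) c) ⁻¹' Iic (ε / 2) := by
        rw [hT]
        rfl
      rw [h2]
      exact isCompact_Icc.of_isClosed_subset h1 inter_subset_left
    have h0T : (0 : ℝ) ∈ T := by
      rw [hT]
      refine ⟨⟨le_rfl, zero_le_one⟩, ?_⟩
      rw [hf0, hc, dist_self]
      positivity
    obtain ⟨t, ht⟩ : ∃ t, t = sSup T := ⟨_, rfl⟩
    have htT : t ∈ T := by
      rw [ht]
      exact hTc.sSup_mem ⟨0, h0T⟩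
    have htmax : ∀ s ∈ T, s ≤ t := by
      intro s hs
      rw [ht]
      exact le_csSup hTc.bddAbove hs
    have htT' : t ∈ Icc (0 : ℝ) 1 ∧ dist (f t) c ≤ ε / 2 := by
      rw [hT] at htT
      exact htT
    obtain ⟨⟨ht0, ht1⟩, htd⟩ := htT'
    have hsub : Icc t 1 ⊆ Icc (0 : ℝ) 1 := Icc_subset_Icc_left ht0
    have hgt : ∀ s, t < s → s ≤ 1 → ε / 2 < dist (f s) c := by
      intro s hs hs1
      by_contra hcon
      have h1 : s ∈ T := by
        rw [hT]
        exact ⟨⟨by linarith, hs1⟩, not_lt.1 hcon⟩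
      have := htmax s h1
      linarith
    have htd' : dist (f t) c = ε / 2 := by
      obtain ⟨s, hs, hs2⟩ := intermediate_value_Icc ht1 (hgc.mono hsub)
        (show ε / 2 ∈ Icc (dist (f t) c) (dist (f 1) c) from ⟨htd, hm1.le⟩)
      have h1 : s ∈ T := by
        rw [hT]
        exact ⟨hsub hs, (le_of_eq hs2)⟩
      have h2 : s = t := le_antisymm (htmax s h1) hs.1
      rw [h2] at hs2
      exact hs2
    have ht1' : t < 1 := by
      rcases ht1.eq_or_lt with h | h
      · rw [h] at htd'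
        linarith
      · exact h
    refine ⟨f t, f '' Icc t 1, ?_, ?_, ?_, ?_, ?_⟩
    · have := isArc_sub hfc hfi ht0 ht1' le_rfl
      rwa [hf1] at this
    · rw [← himg]
      exact image_mono hsub
    · rw [← hc]
      exact htd'
    · rintro z ⟨s, hs, rfl⟩ hne
      rw [← hc]
      refine hgt s (lt_of_le_of_ne hs.1 ?_) hs.2
      rintro rfl
      exact hne rfl
    · rintro z ⟨s, hs, rfl⟩ hne
      have hts : t < s := lt_of_le_of_ne hs.1 (by
        rintro rfl
        exact hne rfl)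
      refine ⟨(f '' Icc 0 t)ᶜ, ?_, ?_, ?_⟩
      · exact (isCompact_Icc.image_of_continuousOn
          (hfc.mono (Icc_subset_Icc_right ht1))).isClosed.isOpen_compl
      · rintro ⟨s', hs', he⟩
        have h1 := hfi ⟨hs'.1, hs'.2.trans ht1⟩ (hsub hs) he
        rw [h1] at hs'
        linarith [hs'.2]
      · rw [← himg]
        ext x
        constructor
        · rintro ⟨⟨s', hs', rfl⟩, hx⟩
          exact ⟨⟨s', hsub hs', rfl⟩, hx⟩
        · rintro ⟨⟨s', hs', rfl⟩, hx⟩
          refine ⟨⟨s', ⟨?_, hs'.2⟩, rfl⟩, hx⟩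
          by_contra hcon
          exact hx ⟨s', ⟨hs'.1, (not_le.1 hcon).le⟩, rfl⟩

end H29.BT
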