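import Pool.Agent.H29.BT.TDef
import Pool.Agent.H29.BT.Trim

/-!
# [H29 BT HALFA] the graph cut at a vertex, drawn outside of a disc

Paper proof. `trim` gives `ρ`, and `q m`, `γ m` for the neighbours `m` of `r`. Let `c = D.pos r`. The points `q m`
are different: `q m ∈ D.arc s(r,m)`, a common point of two of these arcs is not a crossing (`hadj`), so
it is a vertex `pos w`, `w ∈ {r, m} ∩ {r, m'}`, `w = r`, but `dist (q m) c = ρ > 0`. Places: `inl w ↦ D.pos w` for
`w ≠ r`, `inr m ↦ q m` for the neighbours `m` of `r`, and the finitely many other elements of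
`W ⊕ W` get different places with `dist z c > ρ` outside of all arcs and different from all `D.pos w` (for example
far away: all arcs are bounded). Arcs: `D.arc s(u,v)` for `s(inl u, inl v)`, `γ m` for
`s(inr m, inl m)`. All properties of a drawing follow from those of `D`: two arcs are subsets of the arcs of
different edges of `H` (their images under `fold r`), near a common point `p` which is no vertex
the subsets agree with the arcs (`trim`; `p ≠ q m` as `q m` is a vertex now), `CrossAt.congr`. A common point `p`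
of two arcs which is not a vertex of the new drawing is not in `range D.pos` (`p = D.pos w` is possible
only for a common end `w` of the two edges of `H`; if `w ≠ r` it is the place of `inl w`, and `w = r` is
excluded as `dist p c ≥ ρ`). The last property: exchange of the order of end points: `IsArc.symm`.
-/

set_option autoImplicit false

open Set

namespace H29.BT

open H29.BP

/-- the two kinds of edges of the cut graph -/
private theorem hp_cases {W : Type} {H : SimpleGraph W} {r : W} {p q : W ⊕ W} (h : (HP H r).Adj p q) :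
    (∃ u v, p = Sum.inl u ∧ q = Sum.inl v ∧ H.Adj u v ∧ u ≠ r ∧ v ≠ r) ∨
    (∃ m, p = Sum.inr m ∧ q = Sum.inl m ∧ H.Adj r m) ∨ (∃ m, p = Sum.inl m ∧ q = Sum.inr m ∧ H.Adj r m) := by
  rw [HP, SimpleGraph.fromRel_adj] at h
  obtain ⟨-, (⟨u, v, h1, h2, h3, h4, h5⟩ | ⟨m, h1, h2, h3⟩) | (⟨u, v, h1, h2, h3, h4, h5⟩ | ⟨m, h1, h2, h3⟩)⟩ := h
  · exact Or.inl ⟨u, v, h1, h2, h3, h4, h5⟩
  · exact Or.inr (Or.inl ⟨m, h1, h2, h3⟩)
  · exact Or.inl ⟨v, u, h2, h1, h3.symm, h5, h4⟩
  · exact Or.inr (Or.inr ⟨m, h2, h1, h3⟩)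

private theorem hp_edge {W : Type} {H : SimpleGraph W} {r : W} {e : Sym2 (W ⊕ W)} (h : e ∈ (HP H r).edgeSet) :
    (∃ u v, e = s(Sum.inl u, Sum.inl v) ∧ H.Adj u v ∧ u ≠ r ∧ v ≠ r) ∨
    (∃ m, e = s(Sum.inr m, Sum.inl m) ∧ H.Adj r m) := by
  induction e with
  | _ p q =>
    rcases hp_cases (show (HP H r).Adj p q from h) with ⟨u, v, rfl, rfl, h3, h4, h5⟩ | ⟨m, rfl, rfl, h3⟩ |
      ⟨m, rfl, rfl, h3⟩
    · exact Or.inl ⟨u, v, rfl, h3, h4, h5⟩
    · exact Or.inr ⟨m, rfl, h3⟩
    · exact Or.inr ⟨m, Sym2.eq_swap, h3⟩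

theorem halfA {W : Type} [Finite W] {H : SimpleGraph W} (D : Drawing H) (r : W)
    (hadj : ∀ u v, H.Adj r u → H.Adj r v → u ≠ v → D.X s(r, u) s(r, v) = ∅) :
    ∃ (ρ : ℝ) (D' : Drawing (HP H r)), 0 < ρ ∧
      (∀ w, ρ ≤ dist (D'.pos w) (D.pos r)) ∧
      (∀ w, dist (D'.pos w) (D.pos r) = ρ ↔ ∃ m, H.Adj r m ∧ w = Sum.inr m) ∧
      (∀ e ∈ (HP H r).edgeSet, ∀ z ∈ D'.arc e, ρ ≤ dist z (D.pos r) ∧
        (dist z (D.pos r) = ρ → z ∈ range D'.pos)) ∧
      D'.crossings ⊆ D.crossings ∧
      ∀ e ∈ (HP H r).edgeSet, ∀ f ∈ (HP H r).edgeSet, e ≠ f →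
        D'.X e f ⊆ D.X (e.map (fold r)) (f.map (fold r)) := by
  classical
  obtain ⟨ρ, hρ, hpos, harc, htrim⟩ := trim D r
  choose! q γ hIs hsub hdist hfar hloc using htrim
  obtain ⟨c, hc⟩ : ∃ c, c = D.pos r := ⟨_, rfl⟩
  rw [← hc] at hpos harc hdist hfar ⊢
  -- everything is bounded
  obtain ⟨M, hM0, hMarc, hMpos⟩ : ∃ M : ℝ, 0 < M ∧ (∀ e ∈ H.edgeSet, ∀ z ∈ D.arc e, dist z c ≤ M) ∧
      ∀ w, dist (D.pos w) c ≤ M := by
    have hb : Bornology.IsBounded ((⋃ e ∈ H.edgeSet, D.arc e) ∪ range D.pos) := by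
      refine Bornology.IsBounded.union ?_ (Set.toFinite _).isBounded
      refine (Bornology.isBounded_biUnion (Set.toFinite _)).2 fun e he => ?_
      induction e with
      | _ u v => exact (D.isArc u v he).isCompact.isBounded
    obtain ⟨M, hM⟩ := hb.subset_closedBall c
    refine ⟨max M 1, by positivity, fun e he z hz => ?_, fun w => ?_⟩
    · have := hM (Or.inl (Set.mem_biUnion he hz))
      exact (Metric.mem_closedBall.1 this).trans (le_max_left _ _)
    · have := hM (Or.inr (mem_range_self w))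
      exact (Metric.mem_closedBall.1 this).trans (le_max_left _ _)
  obtain ⟨φ, hφ⟩ : ∃ φ : W ⊕ W → ℕ, Function.Injective φ := exists_injective_nat (W ⊕ W)
  obtain ⟨E, hE⟩ : ∃ E : W ⊕ W → ℂ, E = fun x => c + ((M + ρ + 1 + φ x : ℝ) : ℂ) := ⟨_, rfl⟩
  have hEd : ∀ x, dist (E x) c = M + ρ + 1 + φ x := by
    intro x
    rw [hE, Complex.dist_eq]
    simp only [add_sub_cancel_left]
    rw [Complex.norm_real, Real.norm_eq_abs, abs_of_pos (by positivity)]
  have hEM : ∀ x, M + ρ < dist (E x) c := by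
    intro x
    rw [hEd]
    have : (0 : ℝ) ≤ φ x := Nat.cast_nonneg _
    linarith
  have hEinj : ∀ x y, E x = E y → x = y := by
    intro x y hxy
    have h1 := hEd x
    rw [hxy, hEd] at h1
    have h2 : (φ y : ℝ) = φ x := by linarith
    exact (hφ (by exact_mod_cast h2)).symm
  have hEarc : ∀ x, ∀ e ∈ H.edgeSet, E x ∉ D.arc e := by
    intro x e he h
    have := hMarc e he _ h
    have := hEM x
    linarith
  have hEpos : ∀ x w, E x ≠ D.pos w := by
    intro x w h
    have h1 := hMpos w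
    rw [← h] at h1
    have := hEM x
    linarith
  -- the new end points are different
  have hqarc : ∀ m, H.Adj r m → q m ∈ D.arc s(r, m) := fun m hm => hsub m hm (hIs m hm).left_mem
  have hqpos : ∀ m, H.Adj r m → ∀ w, q m ≠ D.pos w := by
    intro m hm w h
    have h1 := hqarc m hm
    rw [h] at h1
    have h3 := hdist m hm
    rcases D.avoid r m w hm h1 with h2 | h2
    · rw [h, h2, ← hc, dist_self] at h3
      linarith
    · have h4 := hpos m hm.ne'
      rw [h, h2] at h3
      linarith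
  have hqinj : ∀ m m', H.Adj r m → H.Adj r m' → q m = q m' → m = m' := by
    intro m m' hm hm' h
    by_contra hne
    have h1 : q m ∈ D.X s(r, m) s(r, m') := by
      refine ⟨⟨hqarc m hm, ?_⟩, ?_⟩
      · rw [h]
        exact hqarc m' hm'
      · rintro ⟨w, hw⟩
        exact hqpos m hm w hw.symm
    rw [hadj m m' hm hm' hne] at h1
    exact h1
  obtain ⟨P, hP⟩ : ∃ P : W ⊕ W → ℂ, P = fun x => match x with
    | Sum.inl w => if w = r then E (Sum.inl w) else D.pos w
    | Sum.inr m => if H.Adj r m then q m else E (Sum.inr m) := ⟨_, rfl⟩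
  have hPl : ∀ w, w ≠ r → P (Sum.inl w) = D.pos w := fun w hw => by rw [hP]; exact if_neg hw
  have hPr : P (Sum.inl r) = E (Sum.inl r) := by rw [hP]; exact if_pos rfl
  have hPm : ∀ m, H.Adj r m → P (Sum.inr m) = q m := fun m hm => by rw [hP]; exact if_pos hm
  have hPn : ∀ m, ¬ H.Adj r m → P (Sum.inr m) = E (Sum.inr m) := fun m hm => by rw [hP]; exact if_neg hm
  -- the four kinds of places
  have hPcases : ∀ x, (∃ w, w ≠ r ∧ x = Sum.inl w ∧ P x = D.pos w) ∨ (P x = E x) ∨
      (∃ m, H.Adj r m ∧ x = Sum.inr m ∧ P x = q m) := by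
    rintro (w | m)
    · by_cases hw : w = r
      · right; left
        rw [hw, hPr]
      · left
        exact ⟨w, hw, rfl, hPl w hw⟩
    · by_cases hm : H.Adj r m
      · right; right
        exact ⟨m, hm, rfl, hPm m hm⟩
      · right; left
        exact hPn m hm
  have hEq : ∀ x m, H.Adj r m → E x ≠ q m := by
    intro x m hm h
    exact hEarc x _ ((SimpleGraph.mem_edgeSet H).2 hm) (by rw [h]; exact hqarc m hm)
  have hPinj : Function.Injective P := by
    intro x y hxy
    rcases hPcases x with ⟨w, hw, rfl, h1⟩ | h1 | ⟨m, hm, rfl, h1⟩ <;>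
      rcases hPcases y with ⟨w', hw', rfl, h2⟩ | h2 | ⟨m', hm', rfl, h2⟩ <;> rw [h1, h2] at hxy
    · rw [D.pos_inj hxy]
    · exact absurd hxy.symm (hEpos _ _)
    · exact absurd hxy.symm (hqpos _ hm' _)
    · exact absurd hxy (hEpos _ _)
    · exact hEinj _ _ hxy
    · exact absurd hxy (hEq _ _ hm')
    · exact absurd hxy (hqpos _ hm _)
    · exact absurd hxy.symm (hEq _ _ hm)
    · rw [hqinj m m' hm hm' hxy]
  obtain ⟨A, hA⟩ : ∃ A : Sym2 (W ⊕ W) → Set ℂ, A = fun e =>
    if h : ∃ m, H.Adj r m ∧ e = s(Sum.inr m, Sum.inl m) then γ h.choose else D.arc (e.map (fold r)) := ⟨_, rfl⟩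
  have hA2 : ∀ m, H.Adj r m → A s(Sum.inr m, Sum.inl m) = γ m := by
    intro m hm
    have h : ∃ m', H.Adj r m' ∧ s(Sum.inr m, Sum.inl m) = (s(Sum.inr m', Sum.inl m') : Sym2 (W ⊕ W)) := ⟨m, hm, rfl⟩
    have h1 : A s(Sum.inr m, Sum.inl m) = γ h.choose := by
      rw [hA]
      exact dif_pos h
    rw [h1]
    congr 1
    have h2 := h.choose_spec.2
    rw [Sym2.eq_iff] at h2
    rcases h2 with h2 | h2
    · exact (Sum.inr_injective h2.1).symm
    · exact absurd h2.1 Sum.inr_ne_inl
  have hA1 : ∀ u v, A s(Sum.inl u, Sum.inl v) = D.arc s(u, v) := by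
    intro u v
    have h : ¬ ∃ m', H.Adj r m' ∧ s(Sum.inl u, Sum.inl v) = (s(Sum.inr m', Sum.inl m') : Sym2 (W ⊕ W)) := by
      rintro ⟨m', -, h2⟩
      rw [Sym2.eq_iff] at h2
      rcases h2 with h2 | h2
      · exact Sum.inl_ne_inr h2.1
      · exact Sum.inl_ne_inr h2.2
    rw [hA]
    exact dif_neg h
  have hmap : ∀ e ∈ (HP H r).edgeSet, e.map (fold r) ∈ H.edgeSet := by
    intro e he
    rcases hp_edge he with ⟨u, v, rfl, h1, -, -⟩ | ⟨m, rfl, h1⟩
    · exact h1
    · exact h1
  have hmapinj : ∀ e ∈ (HP H r).edgeSet, ∀ f ∈ (HP H r).edgeSet, e ≠ f → e.map (fold r) ≠ f.map (fold r) := by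
    intro e he f hf hef h
    apply hef
    rcases hp_edge he with ⟨u, v, rfl, h1, h2, h3⟩ | ⟨m, rfl, h1⟩ <;>
      rcases hp_edge hf with ⟨u', v', rfl, h1', h2', h3'⟩ | ⟨m', rfl, h1'⟩
    · have h4 : s(u, v) = s(u', v') := h
      rw [Sym2.eq_iff] at h4
      rcases h4 with ⟨rfl, rfl⟩ | ⟨rfl, rfl⟩
      · rfl
      · exact Sym2.eq_swap
    · have h4 : s(u, v) = s(r, m') := h
      rw [Sym2.eq_iff] at h4
      rcases h4 with ⟨h5, -⟩ | ⟨-, h5⟩
      · exact absurd h5 h2
      · exact absurd h5 h3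
    · have h4 : s(r, m) = s(u', v') := h
      rw [Sym2.eq_iff] at h4
      rcases h4 with ⟨h5, -⟩ | ⟨h5, -⟩
      · exact absurd h5.symm h2'
      · exact absurd h5.symm h3'
    · have h4 : s(r, m) = s(r, m') := h
      rw [Sym2.eq_iff] at h4
      rcases h4 with ⟨-, h5⟩ | ⟨h5, h6⟩
      · rw [h5]
      · rw [← h5, ← h6] at *
  have hAsub : ∀ e ∈ (HP H r).edgeSet, A e ⊆ D.arc (e.map (fold r)) := by
    intro e he
    rcases hp_edge he with ⟨u, v, rfl, h1, -, -⟩ | ⟨m, rfl, h1⟩
    · rw [hA1]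
      exact Subset.rfl
    · rw [hA2 m h1]
      exact hsub m h1
  have hAdist : ∀ e ∈ (HP H r).edgeSet, ∀ z ∈ A e, ρ ≤ dist z c ∧ (dist z c = ρ → z ∈ range P) := by
    intro e he z hz
    rcases hp_edge he with ⟨u, v, rfl, h1, h2, h3⟩ | ⟨m, rfl, h1⟩
    · rw [hA1] at hz
      have h4 := harc s(u, v) h1 (by
        rw [Sym2.mem_iff]
        rintro (h | h)
        · exact h2 h.symm
        · exact h3 h.symm) z hz
      exact ⟨h4.le, fun h => absurd h h4.ne'⟩
    · rw [hA2 m h1] at hz
      by_cases h4 : z = q m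
      · rw [h4, hdist m h1]
        exact ⟨le_rfl, fun _ => ⟨Sum.inr m, hPm m h1⟩⟩
      · have h5 := hfar m h1 z hz h4
        exact ⟨h5.le, fun h => absurd h h5.ne'⟩
  have hAloc : ∀ e ∈ (HP H r).edgeSet, ∀ z ∈ A e, z ∉ range P → ∃ U : Set ℂ, IsOpen U ∧ z ∈ U ∧
      A e ∩ U = D.arc (e.map (fold r)) ∩ U := by
    intro e he z hz hzP
    rcases hp_edge he with ⟨u, v, rfl, h1, h2, h3⟩ | ⟨m, rfl, h1⟩
    · refine ⟨univ, isOpen_univ, mem_univ _, ?_⟩
      rw [hA1]
      rfl
    · rw [hA2 m h1] at hz ⊢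
      refine hloc m h1 z hz ?_
      rintro rfl
      exact hzP ⟨Sum.inr m, hPm m h1⟩
  -- points of the new arcs which are old vertices are new vertices
  have hrange : ∀ e ∈ (HP H r).edgeSet, ∀ z ∈ A e, z ∈ range D.pos → z ∈ range P := by
    rintro e he z hz ⟨w, rfl⟩
    by_cases hw : w = r
    · have h1 := (hAdist e he _ hz).1
      rw [hw, ← hc, dist_self] at h1
      linarith
    · exact ⟨Sum.inl w, hPl w hw⟩
  have hX : ∀ e ∈ (HP H r).edgeSet, ∀ f ∈ (HP H r).edgeSet, e ≠ f →
      (A e ∩ A f) \ range P ⊆ D.X (e.map (fold r)) (f.map (fold r)) := by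
    rintro e he f hf hef z ⟨⟨h1, h2⟩, h3⟩
    exact ⟨⟨hAsub e he h1, hAsub f hf h2⟩, fun h => h3 (hrange e he z h1 h)⟩
  let D' : Drawing (HP H r) :=
    { pos := P
      arc := A
      pos_inj := hPinj
      isArc := by
        intro x y hxy
        rcases hp_cases hxy with ⟨u, v, rfl, rfl, h3, h4, h5⟩ | ⟨m, rfl, rfl, h3⟩ | ⟨m, rfl, rfl, h3⟩
        · rw [hA1, hPl u h4, hPl v h5]
          exact D.isArc u v h3
        · rw [hA2 m h3, hPm m h3, hPl m h3.ne']
          exact hIs m h3
        · rw [Sym2.eq_swap, hA2 m h3, hPm m h3, hPl m h3.ne']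
          exact (hIs m h3).symm
      avoid := by
        intro x y w hxy hw
        have hE' : P w ≠ E w := by
          intro h
          rw [h] at hw
          exact hEarc w _ (hmap s(x, y) hxy) (hAsub s(x, y) hxy hw)
        have key : ∀ m, H.Adj r m → P w ∈ γ m → w = Sum.inr m ∨ w = Sum.inl m := by
          intro m hm hw
          rcases hPcases w with ⟨w', hw', rfl, h1⟩ | h1 | ⟨m', hm', rfl, h1⟩
          · rw [h1] at hw
            rcases D.avoid r m w' hm (hsub m hm hw) with h2 | h2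
            · exact absurd h2 hw'
            · right
              rw [h2]
          · exact absurd h1 hE'
          · rw [h1] at hw
            left
            by_cases h2 : q m' = q m
            · rw [hqinj m' m hm' hm h2]
            · have h3 := hfar m hm _ hw h2
              rw [hdist m' hm'] at h3
              exact absurd h3 (lt_irrefl _)
        rcases hp_cases hxy with ⟨u, v, rfl, rfl, h3, h4, h5⟩ | ⟨m, rfl, rfl, h3⟩ | ⟨m, rfl, rfl, h3⟩
        · rw [hA1] at hw
          rcases hPcases w with ⟨w', hw', rfl, h1⟩ | h1 | ⟨m', hm', rfl, h1⟩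
          · rw [h1] at hw
            rcases D.avoid u v w' h3 hw with h2 | h2
            · left
              rw [h2]
            · right
              rw [h2]
          · exact absurd h1 hE'
          · rw [h1] at hw
            have h6 := harc s(u, v) h3 (by
              rw [Sym2.mem_iff]
              rintro (h | h)
              · exact h4 h.symm
              · exact h5 h.symm) _ hw
            rw [hdist m' hm'] at h6
            exact absurd h6 (lt_irrefl _)
        · rw [hA2 m h3] at hw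
          exact key m h3 hw
        · rw [Sym2.eq_swap, hA2 m h3] at hw
          exact (key m h3 hw).symm
      inter_finite := by
        intro e he f hf hef
        exact (D.inter_finite _ (hmap e he) _ (hmap f hf) (hmapinj e he f hf hef)).subset
          (inter_subset_inter (hAsub e he) (hAsub f hf))
      proper := by
        rintro e he f hf hef p ⟨hp1, hp2⟩ hpP
        have h1 := D.proper _ (hmap e he) _ (hmap f hf) (hmapinj e he f hf hef) p
          ⟨hAsub e he hp1, hAsub f hf hp2⟩ (fun h => hpP (hrange e he p hp1 h))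
        obtain ⟨U, hU, hpU, hUe⟩ := hAloc e he p hp1 hpP
        obtain ⟨U', hU', hpU', hUf⟩ := hAloc f hf p hp2 hpP
        refine h1.congr (U ∩ U') (hU.inter hU') ⟨hpU, hpU'⟩ ?_ ?_
        · rw [← inter_assoc, hUe, inter_assoc]
        · rw [inter_comm U U', ← inter_assoc, hUf, inter_assoc]
      no_triple := by
        rintro e he f hf g hg hef heg hfg p ⟨hp1, hp2⟩ hp3
        exact hrange e he p hp1 (D.no_triple _ (hmap e he) _ (hmap f hf) _ (hmap g hg)
          (hmapinj e he f hf hef) (hmapinj e he g hg heg) (hmapinj f hf g hg hfg) p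
          ⟨hAsub e he hp1, hAsub f hf hp2⟩ (hAsub g hg hp3)) }
  refine ⟨ρ, D', hρ, ?_, ?_, ?_, ?_, ?_⟩
  · intro w
    show ρ ≤ dist (P w) c
    rcases hPcases w with ⟨w', hw', rfl, h1⟩ | h1 | ⟨m', hm', rfl, h1⟩
    · rw [h1]
      exact (hpos w' hw').le
    · rw [h1]
      have := hEM w
      linarith
    · rw [h1, hdist m' hm']
  · intro w
    show dist (P w) c = ρ ↔ ∃ m, H.Adj r m ∧ w = Sum.inr m
    constructor
    · intro h
      rcases hPcases w with ⟨w', hw', rfl, h1⟩ | h1 | ⟨m', hm', rfl, h1⟩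
      · rw [h1] at h
        exact absurd h (hpos w' hw').ne'
      · rw [h1] at h
        have := hEM w
        linarith
      · exact ⟨m', hm', rfl⟩
    · rintro ⟨m, hm, rfl⟩
      rw [hPm m hm, hdist m hm]
  · exact hAdist
  · rintro p ⟨e, he, f, hf, hef, hp⟩
    exact ⟨e.map (fold r), hmap e he, f.map (fold r), hmap f hf, hmapinj e he f hf hef, hX e he f hf hef hp⟩
  · exact hX

end H29.BT
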