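import Pool.Agent.H29.BT.TDef
import Pool.Agent.H29.BP.Loc

/-!
# [H29 BT JOIN] simple arcs in a union of arcs; splitting an arc near its end point

Paper proofs. `join`: let `f`, `g` be parametrisations of `γ` (from `a` to `b`) and `δ` (from `b` to `c`). If
`a ∈ δ`, `a = g t`, then `t < 1` and `g '' [t,1]` is an arc from `a` to `c` (`isArc_sub`). Otherwise let `s` be the first
time with `f s ∈ δ` (the set of these times is compact and contains `1`), `s > 0`, `f s = g t`. If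
`t = 1` (so `f s = c`) take `f '' [0,s]`. Otherwise take `f '' [0,s] ∪ g '' [t,1]`; the two parts have only
`f s` in common (`IsArc.trans`).

`midv`: let `f` be a parametrisation from `x` to `y`. The set of all `t ∈ [0,1]` with `f t ∈ K` is compact and does not contain
`1`, so there is `t₀`, `0 < t₀ < 1`, with `f '' [t₀,1]` disjoint from `K`. `m = f t₀`, `γ₁ = f '' [0,t₀]`,
`γ₂ = f '' [t₀,1]`.
-/

set_option autoImplicit false

open Set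

namespace H29.BT

open H29.BP

theorem join {a b c : ℂ} {γ δ : Set ℂ} (h1 : IsArc a b γ) (h2 : IsArc b c δ) (h : a ≠ c) :
    ∃ ε : Set ℂ, IsArc a c ε ∧ ε ⊆ γ ∪ δ := by
  obtain ⟨f, hfc, hfi, hf0, hf1, hfim⟩ := h1
  have hδ := h2.isCompact.isClosed
  obtain ⟨g, hgc, hgi, hg0, hg1, hgim⟩ := h2
  have m0 : (0 : ℝ) ∈ Icc (0 : ℝ) 1 := ⟨le_rfl, zero_le_one⟩
  have m1 : (1 : ℝ) ∈ Icc (0 : ℝ) 1 := ⟨zero_le_one, le_rfl⟩
  by_cases ha : a ∈ δ
  · rw [← hgim] at ha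
    obtain ⟨t, ht, hta⟩ := ha
    have ht1 : t < 1 := by
      refine lt_of_le_of_ne ht.2 ?_
      rintro rfl
      exact h (hta.symm.trans hg1)
    have h3 := isArc_sub hgc hgi ht.1 ht1 le_rfl
    rw [hta, hg1] at h3
    refine ⟨_, h3, ?_⟩
    rw [← hgim]
    exact (image_mono (Icc_subset_Icc ht.1 le_rfl)).trans subset_union_right
  · have hT : IsCompact (Icc (0 : ℝ) 1 ∩ f ⁻¹' δ) := by
      apply isCompact_Icc.of_isClosed_subset
      · exact hfc.preimage_isClosed_of_isClosed isClosed_Icc hδ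
      · exact inter_subset_left
    have hTn : (Icc (0 : ℝ) 1 ∩ f ⁻¹' δ).Nonempty := by
      refine ⟨1, m1, ?_⟩
      show f 1 ∈ δ
      rw [hf1, ← hgim, ← hg0]
      exact ⟨0, m0, rfl⟩
    obtain ⟨s, ⟨hs, hsδ⟩, hleast⟩ := hT.exists_isLeast hTn
    have hs0 : 0 < s := by
      refine lt_of_le_of_ne hs.1 ?_
      rintro rfl
      exact ha (hf0 ▸ hsδ)
    have hsδ' : f s ∈ g '' Icc 0 1 := by rw [hgim]; exact hsδ
    obtain ⟨t, ht, hst⟩ := hsδ'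
    have h3 := isArc_sub hfc hfi le_rfl hs0 hs.2
    rw [hf0] at h3
    rcases eq_or_ne t 1 with ht1 | ht1
    · rw [← hst, ht1, hg1] at h3
      refine ⟨_, h3, ?_⟩
      rw [← hfim]
      exact (image_mono (Icc_subset_Icc le_rfl hs.2)).trans subset_union_left
    · have h4 := isArc_sub hgc hgi ht.1 (lt_of_le_of_ne ht.2 ht1) le_rfl
      rw [hst, hg1] at h4
      refine ⟨_, h3.trans h4 ?_, ?_⟩
      · rintro z ⟨⟨u, hu, rfl⟩, ⟨w, hw, hwz⟩⟩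
        have hu' : u ∈ Icc (0 : ℝ) 1 ∩ f ⁻¹' δ := by
          refine ⟨⟨hu.1, hu.2.trans hs.2⟩, ?_⟩
          show f u ∈ δ
          rw [← hgim, ← hwz]
          exact ⟨w, ⟨ht.1.trans hw.1, hw.2⟩, rfl⟩
        have := hleast hu'
        have hus : u = s := le_antisymm hu.2 this
        rw [hus]
        rfl
      · rw [← hfim, ← hgim]
        exact union_subset_union (image_mono (Icc_subset_Icc le_rfl hs.2))
          (image_mono (Icc_subset_Icc ht.1 le_rfl))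

theorem join_road {a b c : ℂ} {γ δ : Set ℂ} (h1 : IsRoad a b γ) (h2 : IsArc b c δ)
    (h : a ≠ c) : ∃ ε : Set ℂ, IsArc a c ε ∧ ε ⊆ γ ∪ δ := by
  rcases h1 with ⟨h3, h4⟩ | h1
  · subst h3
    exact ⟨δ, h2, Set.subset_union_right⟩
  · exact join h1 h2 h

theorem midv {x y : ℂ} {γ : Set ℂ} (h : IsArc x y γ) (K : Set ℂ) (hK : IsClosed K)
    (hy : y ∉ K) :
    ∃ (m : ℂ) (γ₁ γ₂ : Set ℂ), m ≠ x ∧ m ≠ y ∧ IsArc x m γ₁ ∧ IsArc m y γ₂ ∧ γ₁ ∪ γ₂ = γ ∧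
      γ₁ ∩ γ₂ = {m} ∧ Disjoint γ₂ K := by
  obtain ⟨f, hfc, hfi, hf0, hf1, hfim⟩ := h
  have m0 : (0 : ℝ) ∈ Icc (0 : ℝ) 1 := ⟨le_rfl, zero_le_one⟩
  have m1 : (1 : ℝ) ∈ Icc (0 : ℝ) 1 := ⟨zero_le_one, le_rfl⟩
  have hT : IsClosed (Icc (0 : ℝ) 1 ∩ f ⁻¹' K) :=
    hfc.preimage_isClosed_of_isClosed isClosed_Icc hK
  have h1 : (1 : ℝ) ∈ (Icc (0 : ℝ) 1 ∩ f ⁻¹' K)ᶜ := by
    rintro ⟨-, h2⟩
    exact hy (hf1 ▸ h2)
  obtain ⟨ε, hε, hball⟩ := Metric.isOpen_iff.1 hT.isOpen_compl 1 h1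
  obtain ⟨t, ht⟩ : ∃ t, t = max (1 / 2) (1 - ε / 2) := ⟨_, rfl⟩
  have ht2 : (1 / 2 : ℝ) ≤ t := by rw [ht]; exact le_max_left _ _
  have ht3 : 1 - ε / 2 ≤ t := by rw [ht]; exact le_max_right _ _
  have ht1 : t < 1 := by
    rw [ht]
    exact max_lt (by norm_num) (by linarith)
  have ht0 : 0 < t := by linarith
  have hm : t ∈ Icc (0 : ℝ) 1 := ⟨ht0.le, ht1.le⟩
  refine ⟨f t, f '' Icc 0 t, f '' Icc t 1, ?_, ?_, ?_, ?_, ?_, ?_, ?_⟩
  · rw [← hf0]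
    intro h2
    exact ht0.ne' (hfi hm m0 h2)
  · rw [← hf1]
    intro h2
    exact ht1.ne (hfi hm m1 h2)
  · have := isArc_sub hfc hfi le_rfl ht0 ht1.le
    rwa [hf0] at this
  · have := isArc_sub hfc hfi ht0.le ht1 le_rfl
    rwa [hf1] at this
  · rw [← image_union, Icc_union_Icc_eq_Icc ht0.le ht1.le, hfim]
  · ext z
    constructor
    · rintro ⟨⟨u, hu, rfl⟩, ⟨w, hw, hwz⟩⟩
      have h3 := hfi ⟨ht0.le.trans hw.1, hw.2⟩ ⟨hu.1, hu.2.trans ht1.le⟩ hwz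
      have h4 : u = t := le_antisymm hu.2 (by rw [← h3]; exact hw.1)
      rw [h4]
      rfl
    · rintro rfl
      exact ⟨⟨t, ⟨ht0.le, le_rfl⟩, rfl⟩, ⟨t, ⟨le_rfl, ht1.le⟩, rfl⟩⟩
  · rw [Set.disjoint_left]
    rintro z ⟨u, hu, rfl⟩ hz
    have h3 : u ∈ Metric.ball (1 : ℝ) ε := by
      rw [Metric.mem_ball, Real.dist_eq, abs_lt]
      constructor <;> linarith [hu.1, hu.2]
    exact hball h3 ⟨⟨ht0.le.trans hu.1, hu.2⟩, hz⟩

end H29.BT
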