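import Mathlib

/-!
# [H29 BT LINK] decomposition of a path by disjoint discs

Paper proof. Construct `z i`, `s i`, `s' i` recursively. `z 0 = α 0`. Let `s i` be the last time `t` with
`α t ∈ closedBall (z i) ρ` (the set of these times is compact; it is not empty: `0` for `i = 0`,
`s' (i-1)` for `i > 0`), so `s (i) ≥ s' (i-1)`. If `z i = α 1` stop with `N + 1 = i`. Otherwise
`α 1 ∉ closedBall (z i) ρ` (`α 1 ∈ Z` has a disjoint ball), so `s i < 1` and `dist (α (s i)) (z i) = ρ`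
(if it were `< ρ` a slightly later time would be in the ball). Let `s' i` be the first time
`t ≥ s i` at which `α t` is in a ball around another point of `Z` (the set of these times is compact
and contains `1`), `z (i+1)` the centre of this ball; `dist (α (s' i)) (z (i+1)) = ρ`, as
`α (s i)` is not in this ball. For `t ∈ [s i, s' i]` all distances to points of `Z` are `≥ ρ`.
`z (i+1)` is different from all `z j`, `j ≤ i`, since `α` is never in `closedBall (z j) ρ` after the
time `s j ≤ s i` (and at the time `s' i = s j` it would be in two disjoint balls). As `Z` is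
finite the construction stops.
-/

set_option autoImplicit false

open Set Metric

namespace H29.BT

/-- one step of the decomposition -/
theorem link_step (α : ℝ → ℂ) (hα : ContinuousOn α (Icc 0 1)) (Z : Finset ℂ) (ρ : ℝ) (hρ : 0 < ρ)
    (hd : ∀ z ∈ Z, ∀ z' ∈ Z, z ≠ z' → Disjoint (closedBall z ρ) (closedBall z' ρ))
    (h1 : α 1 ∈ Z) (a : ℝ) (ha0 : 0 ≤ a) (ha1 : a ≤ 1) (z : ℂ) (hz : z ∈ Z) (hz1 : z ≠ α 1)
    (haz : α a ∈ closedBall z ρ) :
    ∃ (s s' : ℝ) (z' : ℂ), a ≤ s ∧ s < s' ∧ s' ≤ 1 ∧ z' ∈ Z ∧ z' ≠ z ∧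
      dist (α s) z = ρ ∧ dist (α s') z' = ρ ∧ (∀ t ∈ Icc s s', ∀ w ∈ Z, ρ ≤ dist (α t) w) ∧
      ∀ t, s < t → t ≤ 1 → α t ∉ closedBall z ρ := by
  have hαa : ContinuousOn α (Icc a 1) := hα.mono (Icc_subset_Icc_left ha0)
  -- last time in the ball around `z`
  have hT : IsCompact (Icc a 1 ∩ α ⁻¹' closedBall z ρ) :=
    isCompact_Icc.of_isClosed_subset (hαa.preimage_isClosed_of_isClosed isClosed_Icc
      isClosed_closedBall) Set.inter_subset_left
  obtain ⟨s, hsT, hsmax⟩ := hT.exists_isGreatest ⟨a, ⟨le_rfl, ha1⟩, haz⟩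
  have hs1 : s < 1 := by
    refine lt_of_le_of_ne hsT.1.2 fun h => ?_
    have h2 : α 1 ∈ closedBall z ρ := by
      rw [← h]
      exact hsT.2
    exact Set.disjoint_left.1 (hd z hz _ h1 hz1) h2 (mem_closedBall_self hρ.le)
  have hafter : ∀ t, s < t → t ≤ 1 → α t ∉ closedBall z ρ := by
    intro t hst ht1 h2
    exact absurd (hsmax ⟨⟨hsT.1.1.trans hst.le, ht1⟩, h2⟩) (not_le.2 hst)
  have hαs : ContinuousOn α (Icc s 1) := hα.mono (Icc_subset_Icc_left (ha0.trans hsT.1.1))
  have hsρ : dist (α s) z = ρ := by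
    refine le_antisymm (mem_closedBall.1 hsT.2) ?_
    by_contra hlt
    push Not at hlt
    have h3 : ContinuousOn (fun t => dist (α t) z) (Icc s 1) := (continuous_id.dist continuous_const).comp_continuousOn hαs
    have h4 : ρ ∈ Icc (dist (α s) z) (dist (α 1) z) := by
      refine ⟨hlt.le, ?_⟩
      have h5 := hafter 1 hs1 le_rfl
      rw [mem_closedBall, not_le] at h5
      exact h5.le
    obtain ⟨t, ht, h5⟩ := intermediate_value_Icc hs1.le h3 h4
    have h6 : t ≤ s := hsmax ⟨⟨hsT.1.1.trans ht.1, ht.2⟩, by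
      rw [Set.mem_preimage, mem_closedBall]
      exact h5.le⟩
    have h7 : t = s := le_antisymm h6 ht.1
    simp only [h7] at h5
    exact hlt.ne h5
  -- first time in another ball
  have hC : IsClosed (⋃ w ∈ {w | w ∈ Z ∧ w ≠ z}, closedBall w ρ) := by
    refine Set.Finite.isClosed_biUnion ?_ fun w _ => isClosed_closedBall
    exact Z.finite_toSet.subset fun w hw => hw.1
  have hT' : IsCompact (Icc s 1 ∩ α ⁻¹' ⋃ w ∈ {w | w ∈ Z ∧ w ≠ z}, closedBall w ρ) :=
    isCompact_Icc.of_isClosed_subset (hαs.preimage_isClosed_of_isClosed isClosed_Icc hC)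
      Set.inter_subset_left
  obtain ⟨s', hs'T, hs'min⟩ := hT'.exists_isLeast ⟨1, ⟨hs1.le, le_rfl⟩,
    Set.mem_iUnion₂.2 ⟨α 1, ⟨h1, hz1.symm⟩, mem_closedBall_self hρ.le⟩⟩
  obtain ⟨z', ⟨hz'Z, hz'z⟩, hz'⟩ := Set.mem_iUnion₂.1 hs'T.2
  have hss' : s < s' := by
    refine lt_of_le_of_ne hs'T.1.1 fun h => ?_
    rw [← h] at hz'
    exact Set.disjoint_left.1 (hd z' hz'Z z hz hz'z) hz' hsT.2
  have hbefore : ∀ t ∈ Icc s 1, ∀ w ∈ Z, w ≠ z → α t ∈ closedBall w ρ → s' ≤ t := by
    intro t ht w hw hwz h3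
    exact hs'min ⟨ht, Set.mem_iUnion₂.2 ⟨w, ⟨hw, hwz⟩, h3⟩⟩
  have hs'ρ : dist (α s') z' = ρ := by
    refine le_antisymm (mem_closedBall.1 hz') ?_
    by_contra hlt
    push Not at hlt
    have h3 : ContinuousOn (fun t => dist (α t) z') (Icc s s') :=
      (continuous_id.dist continuous_const).comp_continuousOn (hαs.mono (Icc_subset_Icc_right hs'T.1.2))
    have h4 : ρ ∈ Icc (dist (α s') z') (dist (α s) z') := by
      refine ⟨hlt.le, ?_⟩
      have h5 := Set.disjoint_left.1 (hd z hz z' hz'Z hz'z.symm) hsT.2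
      rw [mem_closedBall, not_le] at h5
      exact h5.le
    obtain ⟨t, ht, h5⟩ := intermediate_value_Icc' hss'.le h3 h4
    have h6 : s' ≤ t := hbefore t ⟨ht.1, ht.2.trans hs'T.1.2⟩ z' hz'Z hz'z (by
      rw [mem_closedBall]
      exact h5.le)
    have h7 : t = s' := le_antisymm ht.2 h6
    simp only [h7] at h5
    exact hlt.ne h5
  refine ⟨s, s', z', hsT.1.1, hss', hs'T.1.2, hz'Z, hz'z, hsρ, hs'ρ, ?_, hafter⟩
  intro t ht w hw
  by_cases hwz : w = z
  · subst hwz
    rcases ht.1.eq_or_lt with h3 | h3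
    · rw [← h3, hsρ]
    · have h4 := hafter t h3 (ht.2.trans hs'T.1.2)
      rw [mem_closedBall, not_le] at h4
      exact h4.le
  · rcases ht.2.eq_or_lt with h3 | h3
    · rw [h3]
      by_cases hwz' : w = z'
      · rw [hwz', hs'ρ]
      · have h4 := Set.disjoint_left.1 (hd z' hz'Z w hw (fun h => hwz' h.symm)) hz'
        rw [mem_closedBall, not_le] at h4
        exact h4.le
    · by_contra h4
      push Not at h4
      exact absurd (hbefore t ⟨ht.1, ht.2.trans hs'T.1.2⟩ w hw hwz (mem_closedBall.2 h4.le))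
        (not_le.2 h3)

theorem link_aux (α : ℝ → ℂ) (hα : ContinuousOn α (Icc 0 1)) (Z : Finset ℂ) (ρ : ℝ) (hρ : 0 < ρ)
    (hd : ∀ z ∈ Z, ∀ z' ∈ Z, z ≠ z' → Disjoint (closedBall z ρ) (closedBall z' ρ))
    (h1 : α 1 ∈ Z) (k : ℕ) : ∀ Y : Finset ℂ, Y ⊆ Z → (Z.card - Y.card = k) → ∀ (a : ℝ) (z : ℂ),
      0 ≤ a → a ≤ 1 → z ∈ Z → z ∉ Y → z ≠ α 1 → α a ∈ closedBall z ρ →
      (∀ w ∈ Y, ∀ t ∈ Icc a 1, α t ∉ closedBall w ρ) →
      ∃ (N : ℕ) (zs : ℕ → ℂ) (s s' : ℕ → ℝ), zs 0 = z ∧ zs (N + 1) = α 1 ∧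
        (∀ i ≤ N + 1, zs i ∈ Z ∧ zs i ∉ Y) ∧
        (∀ i ≤ N + 1, ∀ j ≤ N + 1, i ≠ j → zs i ≠ zs j) ∧
        ∀ i ≤ N, a ≤ s i ∧ s i ≤ s' i ∧ s' i ≤ 1 ∧ dist (α (s i)) (zs i) = ρ ∧
          dist (α (s' i)) (zs (i + 1)) = ρ ∧
          ∀ t ∈ Icc (s i) (s' i), ∀ w ∈ Z, ρ ≤ dist (α t) w := by
  induction k using Nat.strong_induction_on with
  | _ k ih =>
    intro Y hYZ hk a z ha0 ha1 hz hzY hz1 haz hY
    obtain ⟨s, s', z', has, hss', hs'1, hz'Z, hz'z, hsρ, hs'ρ, hlink, hafter⟩ :=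
      link_step α hα Z ρ hρ hd h1 a ha0 ha1 z hz hz1 haz
    have hz'Y : z' ∉ Y := by
      intro h2
      exact hY z' h2 s' ⟨has.trans hss'.le, hs'1⟩ (mem_closedBall.2 hs'ρ.le)
    by_cases hz'1 : z' = α 1
    · refine ⟨0, fun i => if i = 0 then z else z', fun _ => s, fun _ => s', rfl, ?_, ?_, ?_, ?_⟩
      · simp [hz'1]
      · intro i _
        simp only
        split_ifs
        · exact ⟨hz, hzY⟩
        · exact ⟨hz'Z, hz'Y⟩
      · intro i hi j hj hij
        have hi' : i = 0 ∨ i = 1 := by omega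
        have hj' : j = 0 ∨ j = 1 := by omega
        rcases hi' with rfl | rfl <;> rcases hj' with rfl | rfl
        · exact absurd rfl hij
        · simpa using hz'z.symm
        · simpa using hz'z
        · exact absurd rfl hij
      · intro i hi
        have hi' : i = 0 := by omega
        subst hi'
        refine ⟨has, hss'.le, hs'1, hsρ, ?_, hlink⟩
        simpa using hs'ρ
    · classical
      have hcard : Y.card < Z.card := by
        refine Finset.card_lt_card ⟨hYZ, fun h2 => hzY (h2 hz)⟩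
      obtain ⟨N, zs, t, t', h2, h3, h4, h5, h6⟩ := ih (Z.card - (insert z Y).card) (by
          rw [Finset.card_insert_of_notMem hzY]
          omega) (insert z Y) (Finset.insert_subset hz hYZ) rfl s' z'
        (ha0.trans (has.trans hss'.le)) hs'1 hz'Z (by
          rw [Finset.mem_insert, not_or]
          exact ⟨hz'z, hz'Y⟩) hz'1 (mem_closedBall.2 hs'ρ.le) (by
          intro w hw u hu
          rw [Finset.mem_insert] at hw
          rcases hw with rfl | hw
          · exact hafter u (hss'.trans_le hu.1) hu.2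
          · exact hY w hw u ⟨(has.trans hss'.le).trans hu.1, hu.2⟩)
      refine ⟨N + 1, fun i => Nat.casesOn i z zs, fun i => Nat.casesOn i s t,
        fun i => Nat.casesOn i s' t', rfl, h3, ?_, ?_, ?_⟩
      · intro i hi
        cases i with
        | zero => exact ⟨hz, hzY⟩
        | succ i =>
          have h7 := h4 i (by omega)
          exact ⟨h7.1, fun h8 => h7.2 (Finset.mem_insert_of_mem h8)⟩
      · intro i hi j hj hij
        cases i with
        | zero =>
          cases j with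
          | zero => exact absurd rfl hij
          | succ j =>
            intro h7
            refine (h4 j (by omega)).2 ?_
            have h8 : z = zs j := h7
            rw [← h8]
            exact Finset.mem_insert_self _ _
        | succ i =>
          cases j with
          | zero =>
            intro h7
            refine (h4 i (by omega)).2 ?_
            have h8 : zs i = z := h7
            rw [h8]
            exact Finset.mem_insert_self _ _
          | succ j => exact h5 i (by omega) j (by omega) (by omega)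
      · intro i hi
        cases i with
        | zero =>
          refine ⟨has, hss'.le, hs'1, hsρ, ?_, hlink⟩
          show dist (α s') (zs 0) = ρ
          rw [h2]
          exact hs'ρ
        | succ i =>
          obtain ⟨k1, k2, k3, k4, k5, k6⟩ := h6 i (by omega)
          exact ⟨(has.trans hss'.le).trans k1, k2, k3, k4, k5, k6⟩

theorem link (α : ℝ → ℂ) (hα : ContinuousOn α (Icc 0 1)) (Z : Finset ℂ) (ρ : ℝ) (hρ : 0 < ρ)
    (hd : ∀ z ∈ Z, ∀ z' ∈ Z, z ≠ z' → Disjoint (closedBall z ρ) (closedBall z' ρ))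
    (h0 : α 0 ∈ Z) (h1 : α 1 ∈ Z) (h01 : α 0 ≠ α 1) :
    ∃ (N : ℕ) (z : ℕ → ℂ) (s s' : ℕ → ℝ), z 0 = α 0 ∧ z (N + 1) = α 1 ∧
      (∀ i ≤ N + 1, z i ∈ Z) ∧ (∀ i ≤ N + 1, ∀ j ≤ N + 1, i ≠ j → z i ≠ z j) ∧
      ∀ i ≤ N, 0 ≤ s i ∧ s i ≤ s' i ∧ s' i ≤ 1 ∧ dist (α (s i)) (z i) = ρ ∧
        dist (α (s' i)) (z (i + 1)) = ρ ∧
        ∀ t ∈ Icc (s i) (s' i), ∀ w ∈ Z, ρ ≤ dist (α t) w := by
  obtain ⟨N, zs, s, s', h2, h3, h4, h5, h6⟩ := link_aux α hα Z ρ hρ hd h1 (Z.card - 0) ∅
    (Finset.empty_subset _) (by simp) 0 (α 0) le_rfl zero_le_one h0 (Finset.notMem_empty _) h01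
    (mem_closedBall_self hρ.le) (by simp)
  exact ⟨N, zs, s, s', h2, h3, fun i hi => (h4 i hi).1, h5, h6⟩

end H29.BT
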