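import Pool.Agent.H29.BP.Loc
import Pool.Agent.H29.BP.Cnt
import Pool.Agent.H29.BP.GenPos

/-!
# Definitions for the polygonal approximation of systems of arcs

`Semi H S` is a system of simple arcs for the edges of the graph `H` in which two edges of `S` may
have infinitely many common points (they may even overlap). `app` (file `App`) turns it into a
drawing of `H` which is close to it and has no more crossings of pairs of edges not both in `S`.

Polygonal systems: corners are indexed by `Ix W = W ⊕ (Sym2 W × ℕ)`, `P : Ix W → ℂ` are the places of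
the corners (`P (inl w)` is the place of the vertex `w`), the edge `e` has the corners
`idx n e 0, …, idx n e (n e + 1)`: its tail, `n e` private corners `inr (e, k)`, `1 ≤ k ≤ n e`, and
its head.
-/

set_option autoImplicit false

open Set
open scoped Classical

noncomputable section

namespace H29.BT

open H29.BP

/-- a system of simple arcs for the edges of `H`; pairs of edges which are not both in `S` have
finitely many common points -/
structure Semi {W : Type} (H : SimpleGraph W) (S : Set (Sym2 W)) where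
  pos : W → ℂ
  arc : Sym2 W → Set ℂ
  pos_inj : Function.Injective pos
  isArc : ∀ u v, H.Adj u v → IsArc (pos u) (pos v) (arc s(u, v))
  avoid : ∀ u v w, H.Adj u v → pos w ∈ arc s(u, v) → w = u ∨ w = v
  fin : ∀ e ∈ H.edgeSet, ∀ f ∈ H.edgeSet, e ≠ f → ¬ (e ∈ S ∧ f ∈ S) → (arc e ∩ arc f).Finite

variable {W : Type}

/-- one end point of an edge -/
def tl (e : Sym2 W) : W := (Quot.out e).1

/-- the other end point of an edge -/
def hd (e : Sym2 W) : W := (Quot.out e).2

theorem tl_hd (e : Sym2 W) : s(tl e, hd e) = e :=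
  Quot.out_eq e

/-- indices of the corners -/
abbrev Ix (W : Type) : Type := W ⊕ (Sym2 W × ℕ)

/-- the `k`-th corner of the edge `e` -/
def idx (n : Sym2 W → ℕ) (e : Sym2 W) (k : ℕ) : Ix W :=
  if k = 0 then Sum.inl (tl e) else if k ≤ n e then Sum.inr (e, k) else Sum.inl (hd e)

/-- the `k`-th segment of the edge `e`, `k ≤ n e` -/
def sgm (n : Sym2 W → ℕ) (P : Ix W → ℂ) (e : Sym2 W) (k : ℕ) : Set ℂ :=
  segment ℝ (P (idx n e k)) (P (idx n e (k + 1)))

/-- the segments `k` of `e` and `l` of `f` have no common corner index -/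
def NoCom (n : Sym2 W → ℕ) (e f : Sym2 W) (k l : ℕ) : Prop :=
  idx n e k ≠ idx n f l ∧ idx n e k ≠ idx n f (l + 1) ∧ idx n e (k + 1) ≠ idx n f l ∧
    idx n e (k + 1) ≠ idx n f (l + 1)

/-- the number of pairs of segments of `e` and `f` without common corner which meet -/
def cnt (n : Sym2 W → ℕ) (P : Ix W → ℂ) (e f : Sym2 W) : ℕ :=
  ((Finset.range (n e + 1) ×ˢ Finset.range (n f + 1)).filter fun p =>
    NoCom n e f p.1 p.2 ∧ (sgm n P e p.1 ∩ sgm n P f p.2).Nonempty).card

/-- general position of the points `P i`, `i ∈ J` -/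
def Gen {ι : Type} (P : ι → ℂ) (J : Set ι) : Prop :=
  (∀ a ∈ J, ∀ b ∈ J, ∀ c ∈ J, a ≠ b → a ≠ c → b ≠ c → cp (P b - P a) (P c - P a) ≠ 0) ∧
  (∀ a ∈ J, ∀ b ∈ J, a ≠ b → P a ≠ P b) ∧
  (∀ a ∈ J, ∀ b ∈ J, ∀ c ∈ J, ∀ d ∈ J, ∀ e ∈ J, ∀ f ∈ J, [a, b, c, d, e, f].Nodup →
    ∀ p ∈ segment ℝ (P a) (P b), p ∈ segment ℝ (P c) (P d) → p ∉ segment ℝ (P e) (P f))

/-- the indices used by the edges of `H` -/
def used (H : SimpleGraph W) (n : Sym2 W → ℕ) : Set (Ix W) :=
  {i | (∃ w, i = Sum.inl w) ∨ ∃ e ∈ H.edgeSet, ∃ k, 1 ≤ k ∧ k ≤ n e ∧ i = Sum.inr (e, k)}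

end H29.BT
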