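import Pool.Agent.H29.BT.Road

/-!
# [H29 BT PLACE] a crossing with many good vertices near to it

`m` = number of edges, `X = D.cr`. A vertex `x` is good if the edges at `x` have together at least `deg x * X / (8 m)`
crossings.

Paper proof. Half-edges `(e, b)`, `e ∈ ES G`, `b : Bool`, with end `endp (e, b)`; every `e` has two different ends, and the number of half-edges
with end `x` is `dg G x`. `∑_{(e,b)} cre D e = 2 * ∑ e, cre D e = 4 X` (`two_mul_cr`). Let `Hs` be the set of all half-edges `(e, b)` with good end and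
`cre D e ≥ X / (16 m)`. The half-edges with an end `x` which is not good have together less than
`∑ dg x * X / (8 m) ≤ 2 m * X / (8 m) = X / 4` crossings, those with `cre D e < X / (16 m)` at most
`2 m * X / (16 m) = X / 8`. So `∑_{Hs} cre D e ≥ 29 X / 8`; as `cre D e ≤ m` (`opt_once`), `|Hs| ≥ 29 X / (8 m)`; `Hs` is not
empty. `R ≤ X / (16 m) ≤ cre D e` on `Hs`. Put `σ = X R / (4 m²)`: `σ ≤ R` as `2 X = ∑∑ D.x e f ≤ m²`, and `8 m σ = 2 X R / m ≤ |Hs| R`. `choose_c` (with
`onE_card`, `inc_card`, `inc_inj`, `rk_lt`, `rk_inj`) gives `c` with `|Hs| R σ ≤ 8 X * (number of near h ∈ Hs)`, so this number is at least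
`(29 X / (8 m)) R (X R / (4 m²)) / (8 X) = 29 R² X / (256 m³)`. `N₀` = the set of the ends of the near half-edges `h ∈ Hs`; the number of the
near half-edges is at most `∑ x ∈ N₀, dg G x`. For `x ∈ N₀` take the road of `road` for one of these half-edges.
-/

set_option autoImplicit false

open Set
open scoped Classical

noncomputable section

namespace H29.BT

open H29.BP

variable {V : Type} [Finite V] {G : SimpleGraph V}

/-- the degree -/
def dg (G : SimpleGraph V) (x : V) : ℕ := ((ES G).filter fun e => x ∈ e).card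

/-- the edges at `x` have on the average many crossings -/
def GoodV (D : Drawing G) (x : V) : Prop :=
  (dg G x : ℝ) * (D.cr / (8 * (ES G).card)) ≤ ∑ e ∈ (ES G).filter (fun e => x ∈ e), (cre D e : ℝ)

/-- the half-edges -/
private def HE (G : SimpleGraph V) : Finset (Sym2 V × Bool) := ES G ×ˢ Finset.univ

private theorem pl_mem {h : Sym2 V × Bool} : h ∈ HE G ↔ h.1 ∈ ES G := by
  simp [HE]

private theorem pl_sum2 (F : Sym2 V → ℝ) : ∑ h ∈ HE G, F h.1 = 2 * ∑ e ∈ ES G, F e := by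
  unfold HE
  rw [Finset.sum_product, Finset.mul_sum]
  refine Finset.sum_congr rfl fun e _ => ?_
  rw [Fintype.sum_bool]
  ring

private theorem pl_ne {e : Sym2 V} (he : e ∈ ES G) : hd e ≠ tl e := by
  intro h
  rw [mem_ES] at he
  have h1 := tl_hd e
  rw [h] at h1
  rw [← h1, SimpleGraph.mem_edgeSet] at he
  exact G.loopless.irrefl _ he

private theorem pl_mem_e (x : V) (e : Sym2 V) : x ∈ e ↔ x = tl e ∨ x = hd e := by
  conv_lhs => rw [← tl_hd e]
  rw [Sym2.mem_iff]

private theorem pl_fiber (x : V) (F : Sym2 V → ℝ) :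
    ∑ h ∈ (HE G).filter (fun h => endp h = x), F h.1 =
      ∑ e ∈ (ES G).filter (fun e => x ∈ e), F e := by
  rw [Finset.sum_filter, Finset.sum_filter]
  unfold HE
  rw [Finset.sum_product]
  refine Finset.sum_congr rfl fun e he => ?_
  rw [Fintype.sum_bool]
  have h1 : endp (e, true) = hd e := rfl
  have h2 : endp (e, false) = tl e := rfl
  have h3 := pl_ne he
  simp only [h1, h2, pl_mem_e]
  by_cases ha : hd e = x
  · have hb : tl e ≠ x := fun h => h3 (ha.trans h.symm)
    rw [if_pos ha, if_neg hb, if_pos (Or.inr ha.symm), add_zero]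
  · by_cases hb : tl e = x
    · rw [if_neg ha, if_pos hb, if_pos (Or.inl hb.symm), zero_add]
    · have : ¬ (x = tl e ∨ x = hd e) := by
        rintro (h | h)
        · exact hb h.symm
        · exact ha h.symm
      rw [if_neg ha, if_neg hb, if_neg this, add_zero]

private theorem pl_group (t : Finset V) (F : Sym2 V → ℝ) :
    ∑ h ∈ (HE G).filter (fun h => endp h ∈ t), F h.1 =
      ∑ x ∈ t, ∑ e ∈ (ES G).filter (fun e => x ∈ e), F e := by
  have h1 := Finset.sum_fiberwise_of_maps_to (s := (HE G).filter (fun h => endp h ∈ t)) (t := t)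
    (g := endp) (fun h hh => (Finset.mem_filter.1 hh).2) (fun h => F h.1)
  rw [← h1]
  refine Finset.sum_congr rfl fun x hx => ?_
  rw [← pl_fiber x F, Finset.filter_filter]
  refine Finset.sum_congr ?_ fun _ _ => rfl
  ext h
  simp only [Finset.mem_filter]
  constructor
  · rintro ⟨h1, _, h2⟩
    exact ⟨h1, h2⟩
  · rintro ⟨h1, h2⟩
    exact ⟨h1, by rw [h2]; exact hx, h2⟩

private theorem pl_card (t : Finset V) :
    (((HE G).filter (fun h => endp h ∈ t)).card : ℝ) = ∑ x ∈ t, (dg G x : ℝ) := by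
  have h1 := pl_group (G := G) t (fun _ => (1 : ℝ))
  simp only [Finset.sum_const, nsmul_eq_mul, mul_one] at h1
  rw [h1]
  rfl

theorem place (D : Drawing G) (hD : D.cr = CR G) (R : ℕ) (hR : 1 ≤ R)
    (hRX : (R : ℝ) ≤ D.cr / (16 * (ES G).card)) :
    ∃ (c : ℂ) (F : Finset (Sym2 V)) (N₀ : Finset V) (ρ : V → Set ℂ), F.card = 2 ∧
      c ∉ range D.pos ∧ (∀ g ∈ ES G, g ∉ F → c ∉ D.arc g) ∧ (∀ x ∈ N₀, GoodV D x) ∧
      (29 / 256 * R ^ 2 * D.cr / (ES G).card ^ 3 : ℝ) ≤ ∑ x ∈ N₀, (dg G x : ℝ) ∧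
      ∀ x ∈ N₀, IsRoad c (D.pos x) (ρ x) ∧ (∀ v, D.pos v ∈ ρ x → v = x) ∧
        ∀ S : Finset (Sym2 V), S ⊆ ES G → (∀ g ∈ S, x ∉ g ∧ g ∉ F) →
          (∀ g ∈ S, (ρ x ∩ D.arc g).Finite) ∧ ∑ g ∈ S, (ρ x ∩ D.arc g).ncard ≤ 2 * R := by
  have := Fintype.ofFinite V
  obtain ⟨m, hm⟩ : ∃ m : ℝ, m = (ES G).card := ⟨_, rfl⟩
  obtain ⟨X, hX⟩ : ∃ X : ℝ, X = D.cr := ⟨_, rfl⟩
  rw [← hm, ← hX] at hRX
  rw [← hm, ← hX]
  have hR1 : (1 : ℝ) ≤ R := by exact_mod_cast hR
  have hm0 : 0 ≤ m := by rw [hm]; exact Nat.cast_nonneg _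
  have hm1 : 0 < m := by
    rcases hm0.eq_or_lt with h | h
    · rw [← h, mul_zero, div_zero] at hRX
      linarith
    · exact h
  have hRX2 : R * (16 * m) ≤ X := by rwa [le_div_iff₀ (by positivity)] at hRX
  have hX0 : 0 < X := by
    have : 0 < R * (16 * m) := by positivity
    linarith
  -- the sums
  have hsum : ∑ e ∈ ES G, (cre D e : ℝ) = 2 * X := by
    have h1 := D.two_mul_cr
    rw [hX]
    unfold cre
    exact_mod_cast h1.symm
  have hcre : ∀ e ∈ ES G, (cre D e : ℝ) ≤ m := by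
    intro e he
    have h1 : cre D e ≤ ∑ _f ∈ ES G, 1 := Finset.sum_le_sum fun f hf => opt_once D hD he hf
    rw [Finset.sum_const, smul_eq_mul, mul_one] at h1
    rw [hm]
    exact_mod_cast h1
  have hXm : 2 * X ≤ m * m := by
    rw [← hsum]
    refine (Finset.sum_le_sum hcre).trans (le_of_eq ?_)
    rw [Finset.sum_const, nsmul_eq_mul, ← hm]
  -- the half-edges
  set Hs := (HE G).filter (fun h => GoodV D (endp h) ∧ X / (16 * m) ≤ cre D h.1) with hHs
  have hHsub : ∀ h ∈ Hs, h.1 ∈ ES G := fun h hh => pl_mem.1 (Finset.mem_filter.1 hh).1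
  have hall : ∑ h ∈ HE G, (cre D h.1 : ℝ) = 4 * X := by
    rw [pl_sum2 (fun e => (cre D e : ℝ)), hsum]
    ring
  have hbad1 : ∑ h ∈ (HE G).filter (fun h => endp h ∈
      (Finset.univ.filter fun x => ¬ GoodV D x)), (cre D h.1 : ℝ) ≤ X / 4 := by
    rw [pl_group _ (fun e => (cre D e : ℝ))]
    have h1 : ∀ x ∈ (Finset.univ.filter fun x => ¬ GoodV D x),
        ∑ e ∈ (ES G).filter (fun e => x ∈ e), (cre D e : ℝ) ≤ (dg G x : ℝ) * (X / (8 * m)) := by
      intro x hx
      have h2 := (Finset.mem_filter.1 hx).2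
      unfold GoodV at h2
      rw [← hm, ← hX] at h2
      exact (not_le.1 h2).le
    refine (Finset.sum_le_sum h1).trans ?_
    rw [← Finset.sum_mul, ← pl_card]
    have h2 : (((HE G).filter (fun h => endp h ∈
        (Finset.univ.filter fun x => ¬ GoodV D x))).card : ℝ) ≤ 2 * m := by
      have h3 : ((HE G).card : ℝ) = 2 * m := by
        have h4 := pl_sum2 (G := G) (fun _ => (1 : ℝ))
        simp only [Finset.sum_const, nsmul_eq_mul, mul_one] at h4
        rw [h4, hm]
      rw [← h3]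
      exact_mod_cast Finset.card_filter_le _ _
    refine (mul_le_mul_of_nonneg_right h2 (by positivity)).trans (le_of_eq ?_)
    field_simp
    ring
  have hbad2 : ∑ h ∈ (HE G).filter (fun h => ¬ X / (16 * m) ≤ cre D h.1), (cre D h.1 : ℝ) ≤
      X / 8 := by
    have h1 : ∀ h ∈ (HE G).filter (fun h => ¬ X / (16 * m) ≤ cre D h.1),
        (cre D h.1 : ℝ) ≤ X / (16 * m) := fun h hh => (not_le.1 (Finset.mem_filter.1 hh).2).le
    refine (Finset.sum_le_sum h1).trans ?_
    rw [Finset.sum_const, nsmul_eq_mul]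
    have h2 : (((HE G).filter (fun h => ¬ X / (16 * m) ≤ cre D h.1)).card : ℝ) ≤ 2 * m := by
      have h3 : ((HE G).card : ℝ) = 2 * m := by
        have h4 := pl_sum2 (G := G) (fun _ => (1 : ℝ))
        simp only [Finset.sum_const, nsmul_eq_mul, mul_one] at h4
        rw [h4, hm]
      rw [← h3]
      exact_mod_cast Finset.card_filter_le _ _
    refine (mul_le_mul_of_nonneg_right h2 (by positivity)).trans (le_of_eq ?_)
    field_simp
    ring
  have hgood : 29 * X / 8 ≤ ∑ h ∈ Hs, (cre D h.1 : ℝ) := by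
    have h1 : ∑ h ∈ HE G, (cre D h.1 : ℝ) ≤ ∑ h ∈ Hs, (cre D h.1 : ℝ) +
        ∑ h ∈ (HE G).filter (fun h => endp h ∈
          (Finset.univ.filter fun x => ¬ GoodV D x)), (cre D h.1 : ℝ) +
        ∑ h ∈ (HE G).filter (fun h => ¬ X / (16 * m) ≤ cre D h.1), (cre D h.1 : ℝ) := by
      rw [hHs, Finset.sum_filter, Finset.sum_filter, Finset.sum_filter,
        ← Finset.sum_add_distrib, ← Finset.sum_add_distrib]
      refine Finset.sum_le_sum fun h _ => ?_
      have h0 : (0 : ℝ) ≤ cre D h.1 := Nat.cast_nonneg _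
      simp only [Finset.mem_filter, Finset.mem_univ, true_and]
      by_cases h1 : GoodV D (endp h)
      · by_cases h2 : X / (16 * m) ≤ cre D h.1
        · simp [h1, h2]
        · simp [h1, h2]
      · by_cases h2 : X / (16 * m) ≤ cre D h.1
        · simp [h1, h2]
        · simp [h1, h2]
    linarith
  have hcard : 29 * X / (8 * m) ≤ Hs.card := by
    rw [div_le_iff₀ (by positivity)]
    have h1 : ∑ h ∈ Hs, (cre D h.1 : ℝ) ≤ Hs.card * m := by
      refine (Finset.sum_le_sum fun h hh => hcre _ (hHsub h hh)).trans (le_of_eq ?_)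
      rw [Finset.sum_const, nsmul_eq_mul]
    linarith
  have hcp : (0 : ℝ) < Hs.card := lt_of_lt_of_le (by positivity) hcard
  have hne : Hs.Nonempty := by
    rw [← Finset.card_pos]
    exact_mod_cast hcp
  obtain ⟨σ, hσ⟩ : ∃ σ : ℝ, σ = X * R / (4 * m ^ 2) := ⟨_, rfl⟩
  have hσ0 : 0 < σ := by
    rw [hσ]
    positivity
  have hσR : σ ≤ R := by
    rw [hσ, div_le_iff₀ (by positivity)]
    have : X * R ≤ (m * m) * R := mul_le_mul_of_nonneg_right (by linarith) (by positivity)
    nlinarith [mul_nonneg (mul_nonneg hm0 hm0) (by positivity : (0 : ℝ) ≤ R)]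
  have h8 : 8 * (ES G).card * σ ≤ Hs.card * R := by
    rw [← hm, hσ]
    have e : 8 * m * (X * R / (4 * m ^ 2)) = 2 * X / m * R := by
      field_simp
      ring
    rw [e]
    refine mul_le_mul_of_nonneg_right (le_trans ?_ hcard) (by positivity)
    rw [div_le_div_iff₀ hm1 (by positivity)]
    nlinarith [mul_pos hX0 hm1]
  obtain ⟨c, hcC, hc⟩ := choose_c (ES G) (CC D) (inc D) (rk D) (fun c hc => inc_card D hc)
    (fun p hp q hq h => inc_inj D hD hp hq h) (fun e _ p hp he => rk_lt D hp he)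
    (fun e _ p hp q hq he he' h => rk_inj D hp hq he he' h) R hR Hs hne
    (fun h hh => ⟨hHsub h hh, by
      rw [onE_card D (hHsub h hh)]
      have h1 := (Finset.mem_filter.1 hh).2.2
      exact_mod_cast hRX.trans h1⟩) σ hσ0 hσR h8
  rw [CC_card, ← hX] at hc
  set Nr := Hs.filter fun h => Near (CC D) (inc D) (rk D) R h c with hNr
  have hroad : ∀ x, ∃ ρ : Set ℂ, x ∈ Nr.image endp → IsRoad c (D.pos x) ρ ∧
      (∀ v, D.pos v ∈ ρ → v = x) ∧
        ∀ S : Finset (Sym2 V), S ⊆ ES G → (∀ g ∈ S, x ∉ g ∧ g ∉ inc D c) →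
          (∀ g ∈ S, (ρ ∩ D.arc g).Finite) ∧ ∑ g ∈ S, (ρ ∩ D.arc g).ncard ≤ 2 * R := by
    intro x
    by_cases hx : x ∈ Nr.image endp
    · obtain ⟨h, hh, rfl⟩ := Finset.mem_image.1 hx
      rw [hNr, Finset.mem_filter] at hh
      obtain ⟨ρ, h1, h2, h3⟩ := road D R (hHsub h hh.1) hcC hh.2
      exact ⟨ρ, fun _ => ⟨h1, h2, h3⟩⟩
    · exact ⟨∅, fun h => absurd h hx⟩
  choose ρ hρ using hroad
  refine ⟨c, inc D c, Nr.image endp, ρ, (inc_card D hcC).1, CC_not_pos D hcC, ?_, ?_, ?_, hρ⟩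
  · intro g hg hgF hgc
    exact hgF (Finset.mem_filter.2 ⟨hg, hgc⟩)
  · intro x hx
    obtain ⟨h, hh, rfl⟩ := Finset.mem_image.1 hx
    rw [hNr, Finset.mem_filter, hHs, Finset.mem_filter] at hh
    exact hh.1.2.1
  · rw [← pl_card]
    have h1 : (Nr.card : ℝ) ≤ ((HE G).filter (fun h => endp h ∈ Nr.image endp)).card := by
      have h2 : Nr ⊆ (HE G).filter (fun h => endp h ∈ Nr.image endp) := by
        intro h hh
        rw [Finset.mem_filter]
        refine ⟨?_, Finset.mem_image_of_mem _ hh⟩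
        rw [hNr, Finset.mem_filter, hHs, Finset.mem_filter] at hh
        exact hh.1.1
      exact_mod_cast Finset.card_le_card h2
    refine le_trans ?_ h1
    have h2 : 29 * X / (8 * m) * R * σ ≤ 8 * X * Nr.card :=
      le_trans (mul_le_mul_of_nonneg_right (mul_le_mul_of_nonneg_right hcard (by positivity))
        hσ0.le) hc
    have e : 29 / 256 * (R : ℝ) ^ 2 * X / m ^ 3 = 29 * X / (8 * m) * R * σ / (8 * X) := by
      rw [hσ]
      field_simp
      ring
    rw [e, div_le_iff₀ (by positivity)]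
    linarith

end H29.BT
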