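import Mathlib

/-!
# [H29 BT REFI] polygonal refinement of a path given by chords and links

Paper proofs. `poly`: uniform continuity of `α` on the compact interval; equidistant times `τ i`
with consecutive values closer than `η`; every point of the segment has distance `< η` to `α (τ i)`
(`dist` to one end point of a segment is at most the length).

`refine_path`: concatenate, in this order: chord `0` from `x` to `α (s 0)`, the corners of `poly`
for the link `0`, chord `1` from `α (s' 0)` to `α (s 1)`, the corners for the link `1`, ..., chord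
`N + 1` from `α (s' N)` to `y`. `ch k = j` if the segment `k` is the chord `j`, `ch k = N + 2` if it is
a segment of a link. (Formally: induction over the number of links, for example build the lists of
corners and of labels recursively; or induction over `N` with `y` arbitrary: replace the last
chord `α (s' N) → y` by chord to `α (s (N+1))`, link, chord to `y`.)
-/

set_option autoImplicit false
set_option linter.unusedSimpArgs false

open Set Metric

namespace H29.BT

theorem poly (α : ℝ → ℂ) (s s' : ℝ) (hs : s ≤ s') (hα : ContinuousOn α (Icc s s')) (η : ℝ)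
    (hη : 0 < η) :
    ∃ (k : ℕ) (τ : ℕ → ℝ), τ 0 = s ∧ τ (k + 1) = s' ∧ (∀ i ≤ k + 1, τ i ∈ Icc s s') ∧
      ∀ i ≤ k, segment ℝ (α (τ i)) (α (τ (i + 1))) ⊆ thickening η (α '' Icc s s') := by
  have huc := isCompact_Icc.uniformContinuousOn_of_continuous hα
  rw [Metric.uniformContinuousOn_iff] at huc
  obtain ⟨δ, hδ, huc⟩ := huc η hη
  obtain ⟨k, hk⟩ := exists_nat_gt ((s' - s) / δ)
  have hk0 : (0 : ℝ) < (k : ℝ) + 1 := by positivity
  have hstep : (s' - s) / ((k : ℝ) + 1) < δ := by
    rw [div_lt_iff₀ hk0]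
    rw [div_lt_iff₀ hδ] at hk
    nlinarith
  have hstep0 : 0 ≤ (s' - s) / ((k : ℝ) + 1) := div_nonneg (by linarith) hk0.le
  refine ⟨k, fun i => s + i * ((s' - s) / ((k : ℝ) + 1)), by simp, ?_, ?_, ?_⟩
  · push_cast
    field_simp
    ring
  · intro i hi
    have hi' : (i : ℝ) ≤ (k : ℝ) + 1 := by exact_mod_cast hi
    refine ⟨?_, ?_⟩
    · have := mul_nonneg (Nat.cast_nonneg (α := ℝ) i) hstep0
      linarith
    · have h1 : (i : ℝ) * ((s' - s) / ((k : ℝ) + 1)) ≤
          ((k : ℝ) + 1) * ((s' - s) / ((k : ℝ) + 1)) := mul_le_mul_of_nonneg_right hi' hstep0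
      rw [mul_div_cancel₀ _ hk0.ne'] at h1
      linarith
  · intro i hi
    have hmem : ∀ j : ℕ, j ≤ k + 1 → s + j * ((s' - s) / ((k : ℝ) + 1)) ∈ Icc s s' := by
      intro j hj
      have hj' : (j : ℝ) ≤ (k : ℝ) + 1 := by exact_mod_cast hj
      refine ⟨?_, ?_⟩
      · have := mul_nonneg (Nat.cast_nonneg (α := ℝ) j) hstep0
        linarith
      · have h1 : (j : ℝ) * ((s' - s) / ((k : ℝ) + 1)) ≤
            ((k : ℝ) + 1) * ((s' - s) / ((k : ℝ) + 1)) := mul_le_mul_of_nonneg_right hj' hstep0
        rw [mul_div_cancel₀ _ hk0.ne'] at h1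
        linarith
    have hdist : dist (α (s + ((i + 1 : ℕ) : ℝ) * ((s' - s) / ((k : ℝ) + 1))))
        (α (s + i * ((s' - s) / ((k : ℝ) + 1)))) < η := by
      refine huc _ (hmem (i + 1) (by omega)) _ (hmem i (by omega)) ?_
      rw [Real.dist_eq]
      have h2 : s + ((i + 1 : ℕ) : ℝ) * ((s' - s) / ((k : ℝ) + 1)) -
          (s + i * ((s' - s) / ((k : ℝ) + 1))) = (s' - s) / ((k : ℝ) + 1) := by
        push_cast
        ring
      rw [h2, abs_of_nonneg hstep0]
      exact hstep
    intro p hp
    rw [Metric.mem_thickening_iff]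
    refine ⟨α (s + i * ((s' - s) / ((k : ℝ) + 1))), ⟨_, hmem i (by omega), rfl⟩, ?_⟩
    refine lt_of_le_of_lt ?_ hdist
    have h3 : segment ℝ (α (s + i * ((s' - s) / ((k : ℝ) + 1))))
        (α (s + ((i + 1 : ℕ) : ℝ) * ((s' - s) / ((k : ℝ) + 1)))) ⊆
        closedBall (α (s + i * ((s' - s) / ((k : ℝ) + 1))))
          (dist (α (s + ((i + 1 : ℕ) : ℝ) * ((s' - s) / ((k : ℝ) + 1))))
            (α (s + i * ((s' - s) / ((k : ℝ) + 1))))) :=
      (convex_closedBall _ _).segment_subset (mem_closedBall_self dist_nonneg)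
        (mem_closedBall.2 le_rfl)
    exact mem_closedBall.1 (h3 hp)

/-- the part of the path up to the end of the link `M` -/
theorem refine_aux (α : ℝ → ℂ) (hα : ContinuousOn α (Icc 0 1)) (N : ℕ) (s s' : ℕ → ℝ)
    (hs : ∀ i ≤ N, 0 ≤ s i ∧ s i ≤ s' i ∧ s' i ≤ 1) (x : ℂ) (η : ℝ) (hη : 0 < η) (M : ℕ)
    (hM : M ≤ N) :
    ∃ (n : ℕ) (q : ℕ → ℂ) (ch : ℕ → ℕ), q 0 = x ∧ q (n + 1) = α (s' M) ∧
      (∀ k ≤ n, ch k ≤ M → q k = (if ch k = 0 then x else α (s' (ch k - 1))) ∧
        q (k + 1) = α (s (ch k))) ∧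
      (∀ k ≤ n, ch k ≤ M ∨ (ch k = N + 2 ∧ ∃ i ≤ M, segment ℝ (q k) (q (k + 1)) ⊆
        thickening η (α '' Icc (s i) (s' i)))) ∧
      (∀ k ≤ n, ∀ l ≤ n, ch k = ch l → ch k ≤ M → k = l) ∧ ch 0 = 0 := by
  induction M with
  | zero =>
    obtain ⟨h1, h2, h3⟩ := hs 0 (Nat.zero_le _)
    obtain ⟨k, τ, hτ0, hτ1, hτ, hseg⟩ := poly α (s 0) (s' 0) h2
      (hα.mono (Icc_subset_Icc h1 h3)) η hη
    refine ⟨k + 1, fun j => if j = 0 then x else α (τ (j - 1)),
      fun j => if j = 0 then 0 else N + 2, by simp, ?_, ?_, ?_, ?_, by simp⟩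
    · simp [hτ1]
    · intro j hj hj2
      by_cases hj0 : j = 0
      · subst hj0
        simp [hτ0]
      · simp [hj0] at hj2
    · intro j hj
      by_cases hj0 : j = 0
      · left
        simp [hj0]
      · right
        refine ⟨by simp [hj0], 0, le_rfl, ?_⟩
        simp only [hj0, if_false, Nat.succ_ne_zero]
        have h4 := hseg (j - 1) (by omega)
        have h5 : j - 1 + 1 = j + 1 - 1 := by omega
        rw [h5] at h4
        exact h4
    · intro j hj l hl hjl hj2
      by_cases hj0 : j = 0
      · by_cases hl0 : l = 0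
        · rw [hj0, hl0]
        · simp [hj0, hl0] at hjl
      · simp [hj0] at hj2
  | succ M ih =>
    obtain ⟨n, q, ch, hq0, hq1, hB, hC, hD, hE⟩ := ih (by omega)
    obtain ⟨h1, h2, h3⟩ := hs (M + 1) hM
    obtain ⟨k, τ, hτ0, hτ1, hτ, hseg⟩ := poly α (s (M + 1)) (s' (M + 1)) h2
      (hα.mono (Icc_subset_Icc h1 h3)) η hη
    have hCM : ∀ j ≤ n, ch j ≤ M ∨ ch j = N + 2 := by
      intro j hj
      rcases hC j hj with h4 | h4
      · exact Or.inl h4
      · exact Or.inr h4.1
    refine ⟨n + k + 2, fun j => if j ≤ n + 1 then q j else α (τ (j - (n + 2))),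
      fun j => if j ≤ n then ch j else if j = n + 1 then M + 1 else N + 2, ?_, ?_, ?_, ?_, ?_, ?_⟩
    · simp [hq0]
    · have h4 : ¬ (n + k + 2 + 1 ≤ n + 1) := by omega
      simp only [h4, if_false]
      have h5 : n + k + 2 + 1 - (n + 2) = k + 1 := by omega
      rw [h5, hτ1]
    · intro j hj hj2
      by_cases hjn : j ≤ n
      · simp only [hjn, if_true] at hj2 ⊢
        have h4 : j ≤ n + 1 := by omega
        have h5 : j + 1 ≤ n + 1 := by omega
        simp only [h4, h5, if_true]
        refine hB j hjn ?_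
        rcases hCM j hjn with h6 | h6
        · exact h6
        · omega
      · by_cases hjn1 : j = n + 1
        · subst hjn1
          have h4 : ¬ (n + 1 ≤ n) := by omega
          have h5 : ¬ (n + 1 + 1 ≤ n + 1) := by omega
          simp only [h4, h5, if_false, le_refl, if_true, Nat.succ_ne_zero]
          refine ⟨?_, ?_⟩
          · rw [hq1]
            rfl
          · have h6 : n + 1 + 1 - (n + 2) = 0 := by omega
            rw [h6, hτ0]
        · simp only [hjn, hjn1, if_false] at hj2
          omega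
    · intro j hj
      by_cases hjn : j ≤ n
      · simp only [hjn, if_true]
        have h4 : j ≤ n + 1 := by omega
        have h5 : j + 1 ≤ n + 1 := by omega
        simp only [h4, h5, if_true]
        rcases hC j hjn with h6 | ⟨h6, i, hi, h7⟩
        · exact Or.inl (by omega)
        · exact Or.inr ⟨h6, i, by omega, h7⟩
      · by_cases hjn1 : j = n + 1
        · left
          subst hjn1
          have h4 : ¬ (n + 1 ≤ n) := by omega
          simp [h4]
        · right
          simp only [hjn, hjn1, if_false]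
          refine ⟨trivial, M + 1, le_rfl, ?_⟩
          have h4 : ¬ (j ≤ n + 1) := by omega
          have h5 : ¬ (j + 1 ≤ n + 1) := by omega
          simp only [h4, h5, if_false]
          have h6 := hseg (j - (n + 2)) (by omega)
          have h7 : j - (n + 2) + 1 = j + 1 - (n + 2) := by omega
          rw [h7] at h6
          exact h6
    · intro j hj l hl hjl hj2
      by_cases hjn : j ≤ n
      · by_cases hln : l ≤ n
        · simp only [hjn, hln, if_true] at hjl hj2
          refine hD j hjn l hln hjl ?_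
          rcases hCM j hjn with h6 | h6
          · exact h6
          · omega
        · exfalso
          have h6 := hCM j hjn
          by_cases hln1 : l = n + 1
          · simp only [hjn, hln, hln1, if_true, if_false, Nat.not_succ_le_self] at hjl hj2
            omega
          · simp only [hjn, hln, hln1, if_true, if_false] at hjl hj2
            omega
      · by_cases hjn1 : j = n + 1
        · by_cases hln : l ≤ n
          · exfalso
            have h6 := hCM l hln
            simp only [hjn, hln, hjn1, if_true, if_false, Nat.not_succ_le_self] at hjl hj2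
            omega
          · by_cases hln1 : l = n + 1
            · omega
            · exfalso
              simp only [hjn, hln, hjn1, hln1, if_true, if_false, Nat.not_succ_le_self] at hjl hj2
              omega
        · exfalso
          simp only [hjn, hjn1, if_false] at hj2
          omega
    · simp [hE]

theorem refine_path (α : ℝ → ℂ) (hα : ContinuousOn α (Icc 0 1)) (N : ℕ) (s s' : ℕ → ℝ)
    (hs : ∀ i ≤ N, 0 ≤ s i ∧ s i ≤ s' i ∧ s' i ≤ 1) (x y : ℂ) (η : ℝ) (hη : 0 < η) :
    ∃ (n : ℕ) (q : ℕ → ℂ) (ch : ℕ → ℕ), q 0 = x ∧ q (n + 1) = y ∧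
      (∀ k ≤ n, ch k ≤ N + 1 →
        q k = (if ch k = 0 then x else α (s' (ch k - 1))) ∧
        q (k + 1) = (if ch k = N + 1 then y else α (s (ch k)))) ∧
      (∀ k ≤ n, N + 1 < ch k → ∃ i ≤ N, segment ℝ (q k) (q (k + 1)) ⊆
        thickening η (α '' Icc (s i) (s' i))) ∧
      (∀ k ≤ n, ∀ l ≤ n, ch k = ch l → ch k ≤ N + 1 → k = l) ∧ ch 0 = 0 ∧ ch n = N + 1 := by
  obtain ⟨n, q, ch, hq0, hq1, hB, hC, hD, hE⟩ := refine_aux α hα N s s' hs x η hη N le_rfl
  have hCM : ∀ j ≤ n, ch j ≤ N ∨ ch j = N + 2 := by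
    intro j hj
    rcases hC j hj with h4 | h4
    · exact Or.inl h4
    · exact Or.inr h4.1
  refine ⟨n + 1, fun j => if j ≤ n + 1 then q j else y,
    fun j => if j ≤ n then ch j else N + 1, ?_, ?_, ?_, ?_, ?_, ?_, ?_⟩
  · simp [hq0]
  · have h4 : ¬ (n + 1 + 1 ≤ n + 1) := by omega
    simp [h4]
  · intro j hj hj2
    by_cases hjn : j ≤ n
    · have h4 : j ≤ n + 1 := by omega
      have h5 : j + 1 ≤ n + 1 := by omega
      simp only [hjn, h4, h5, if_true] at hj2 ⊢
      have h6 : ch j ≤ N := by
        rcases hCM j hjn with h6 | h6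
        · exact h6
        · omega
      have h7 : ¬ (ch j = N + 1) := by omega
      rw [if_neg h7]
      exact hB j hjn h6
    · have hj1 : j = n + 1 := by omega
      subst hj1
      have h4 : ¬ (n + 1 ≤ n) := by omega
      have h5 : ¬ (n + 1 + 1 ≤ n + 1) := by omega
      simp only [h4, h5, if_false, le_refl, if_true, Nat.succ_ne_zero]
      refine ⟨?_, trivial⟩
      rw [hq1]
      rfl
  · intro j hj hj2
    by_cases hjn : j ≤ n
    · have h4 : j ≤ n + 1 := by omega
      have h5 : j + 1 ≤ n + 1 := by omega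
      simp only [hjn, h4, h5, if_true] at hj2 ⊢
      rcases hC j hjn with h6 | ⟨h6, i, hi, h7⟩
      · omega
      · exact ⟨i, hi, h7⟩
    · simp only [hjn, if_false] at hj2
      omega
  · intro j hj l hl hjl hj2
    by_cases hjn : j ≤ n
    · have h6 := hCM j hjn
      by_cases hln : l ≤ n
      · simp only [hjn, hln, if_true] at hjl hj2
        exact hD j hjn l hln hjl (by omega)
      · simp only [hjn, hln, if_true, if_false] at hjl hj2
        omega
    · by_cases hln : l ≤ n
      · have h6 := hCM l hln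
        simp only [hjn, hln, if_true, if_false] at hjl hj2
        omega
      · omega
  · simp [hE]
  · have h4 : ¬ (n + 1 ≤ n) := by omega
    simp [h4]

end H29.BT
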