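import Pool.Agent.H29.BT.Disc
import Pool.Agent.H29.BT.Link
import Pool.Agent.H29.BT.Refi

/-!
# [H29 BT QE] polygonal approximation of a system of arcs

Paper proof. `Z` = the finite set of all `pos w` and of all common points of pairs `e ≠ f` of edges
not both in `S`. `ρ` from `disc` for `ε/2`. For every edge `e` (`e = s(tl e, hd e)`) take a
parametrisation `α_e` of `arc e` from `pos (tl e)` to `pos (hd e)` and the data `N, z, s, s'` of `link`.
The links `L_{e,i} = α_e '' [s i, s' i]`, `i ≤ N`, and the chords `C_{e,j}`, `j ≤ N + 1`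
(`segment` of `cs j = (if j = 0 then α_e 0 else α_e (s' (j-1)))` and
`ce j = (if j = N+1 then α_e 1 else α_e (s j))`, it lies in `closedBall (z j) ρ`), are compact.
For `e ≠ f` not both in `S`: `L_{e,i}` and `L_{f,j}` are disjoint (a common point is in `Z`, but the
points of links have distance `≥ ρ` from `Z`), `L_{e,i}` and `C_{f,j}` are disjoint (a common point
has distance `≥ ρ` from `z_{f,j}`, so it is on the sphere; the segment `C_{f,j}` in the closed ball
meets the sphere only in its end points (strict convexity), which are on `arc f`; so it would be a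
common point of the arcs, in `Z`). Take `η ≤ ε` from `sep` for these pairs (and `η`-thickenings of
chords), and `n e`, `q_e`, `ch_e` from `refine_path` with `x = α_e 0`, `y = α_e 1`; put
`P (inl w) = pos w`, `P (inr (e, k)) = q_e k`; then `P (idx n e k) = q_e k` for `k ≤ n e + 1`.
Closeness: link segments are in the `η`-thickening of `arc e`, chords are in `closedBall (z j) ρ`,
which meets `arc e`, so in the `ε`-thickening (`2 ρ < ε`).
Counting, `e ≠ f` not both in `S`: a pair `(k, l)` with `NoCom` and meeting segments: link/link and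
link/chord are excluded. Chords `j` of `e` and `j'` of `f`: they meet, so `z_{e,j} = z_{f,j'} =: z` (disjoint
balls). `z ∈ arc e` and `z ∈ arc f` by `disc` (the balls meet the arcs). If `z` is not a vertex it is
counted on the right, and `z` determines `j` and `j'` (the `z_{e,j}` are different), so `k` and `l`
(`ch` is injective on chords). If `z = pos w`, then `w` is an end point of `e` and of `f` (`avoid`), so
`z = z_{e,0}` or `z_{e,N+1}`, `k = 0` or `k = n e` and the corner `idx n e 0` or `idx n e (n e + 1)` is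
`inl w`; the same for `f`: common corner, against `NoCom`. So
`(k, l) ↦ z` is an injection into `(arc e ∩ arc f) \ range pos`.
-/

set_option autoImplicit false

open Set Metric
open scoped Classical

noncomputable section

namespace H29.BT

open H29.BP

/-- a segment in a closed ball meets the sphere only in its end points -/
theorem seg_sphere {a b z p : ℂ} {ρ : ℝ} (hρ : 0 < ρ) (ha : a ∈ closedBall z ρ)
    (hb : b ∈ closedBall z ρ) (hp : p ∈ segment ℝ a b) (hd : ρ ≤ dist p z) : p = a ∨ p = b := by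
  by_contra hne
  push Not at hne
  have h1 : p ∈ openSegment ℝ a b := by
    rw [← insert_endpoints_openSegment, Set.mem_insert_iff, Set.mem_insert_iff] at hp
    rcases hp with h | h | h
    · exact absurd h hne.1
    · exact absurd h hne.2
    · exact h
  have hab : a ≠ b := by
    rintro rfl
    rw [openSegment_same, Set.mem_singleton_iff] at h1
    exact hne.1 h1
  have h2 := (strictConvex_closedBall ℝ z ρ).openSegment_subset ha hb hab h1
  rw [interior_closedBall z hρ.ne', mem_ball] at h2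
  exact absurd hd (not_le.2 h2)

theorem qe {W : Type} [Finite W] {H : SimpleGraph W} {S : Set (Sym2 W)} (Q : Semi H S) (ε : ℝ)
    (hε : 0 < ε) :
    ∃ (n : Sym2 W → ℕ) (P : Ix W → ℂ), (∀ w, P (Sum.inl w) = Q.pos w) ∧
      (∀ e ∈ H.edgeSet, ∀ k ≤ n e, sgm n P e k ⊆ thickening ε (Q.arc e)) ∧
      ∀ e ∈ H.edgeSet, ∀ f ∈ H.edgeSet, e ≠ f → ¬ (e ∈ S ∧ f ∈ S) →
        cnt n P e f ≤ ((Q.arc e ∩ Q.arc f) \ range Q.pos).ncard := by
  classical
  -- the finite set of marked points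
  have hZfin : (range Q.pos ∪ ⋃ p ∈ {p : Sym2 W × Sym2 W | p.1 ∈ H.edgeSet ∧ p.2 ∈ H.edgeSet ∧
      p.1 ≠ p.2 ∧ ¬ (p.1 ∈ S ∧ p.2 ∈ S)}, (Q.arc p.1 ∩ Q.arc p.2)).Finite := by
    refine (Set.finite_range _).union (Set.Finite.biUnion (Set.toFinite _) ?_)
    rintro p ⟨h1, h2, h3, h4⟩
    exact Q.fin _ h1 _ h2 h3 h4
  set Z : Finset ℂ := hZfin.toFinset with hZ
  have hZpos : ∀ w, Q.pos w ∈ Z := by
    intro w
    rw [hZ, Set.Finite.mem_toFinset]
    exact Or.inl ⟨w, rfl⟩
  have hZX : ∀ e ∈ H.edgeSet, ∀ f ∈ H.edgeSet, e ≠ f → ¬ (e ∈ S ∧ f ∈ S) →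
      ∀ p, p ∈ Q.arc e → p ∈ Q.arc f → p ∈ Z := by
    intro e he f hf hef hS p h1 h2
    rw [hZ, Set.Finite.mem_toFinset]
    exact Or.inr (Set.mem_iUnion₂.2 ⟨(e, f), ⟨he, hf, hef, hS⟩, h1, h2⟩)
  obtain ⟨ρ, hρ, hρε, hballs, harc⟩ := disc Q Z (ε / 2) (by linarith)
  -- parametrisations
  have hadj : ∀ e ∈ H.edgeSet, H.Adj (tl e) (hd e) := by
    intro e he
    rw [← SimpleGraph.mem_edgeSet, tl_hd]
    exact he
  have hpar : ∀ e, e ∈ H.edgeSet → ∃ α : ℝ → ℂ, ContinuousOn α (Icc 0 1) ∧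
      InjOn α (Icc 0 1) ∧ α 0 = Q.pos (tl e) ∧ α 1 = Q.pos (hd e) ∧
      α '' Icc 0 1 = Q.arc e := by
    intro e he
    obtain ⟨α, h1, h2, h3, h4, h5⟩ := Q.isArc _ _ (hadj e he)
    rw [tl_hd] at h5
    exact ⟨α, h1, h2, h3, h4, h5⟩
  choose! α hαc hαi hα0 hα1 hα using hpar
  have hlink : ∀ e, e ∈ H.edgeSet → ∃ (N : ℕ) (z : ℕ → ℂ) (s s' : ℕ → ℝ), z 0 = α e 0 ∧
      z (N + 1) = α e 1 ∧
      (∀ i ≤ N + 1, z i ∈ Z) ∧ (∀ i ≤ N + 1, ∀ j ≤ N + 1, i ≠ j → z i ≠ z j) ∧
      ∀ i ≤ N, 0 ≤ s i ∧ s i ≤ s' i ∧ s' i ≤ 1 ∧ dist (α e (s i)) (z i) = ρ ∧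
        dist (α e (s' i)) (z (i + 1)) = ρ ∧
        ∀ t ∈ Icc (s i) (s' i), ∀ w ∈ Z, ρ ≤ dist (α e t) w := by
    intro e he
    refine link (α e) (hαc e he) Z ρ hρ hballs ?_ ?_ ?_
    · rw [hα0 e he]
      exact hZpos _
    · rw [hα1 e he]
      exact hZpos _
    · intro h1
      have h2 := hαi e he ⟨le_rfl, zero_le_one⟩ ⟨zero_le_one, le_rfl⟩ h1
      exact zero_ne_one h2
  choose! N z s s' hz0 hz1 hzZ hzi hs using hlink
  -- links and chords
  set L : Sym2 W → ℕ → Set ℂ := fun e i => α e '' Icc (s e i) (s' e i) with hL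
  set cs : Sym2 W → ℕ → ℂ := fun e j => if j = 0 then α e 0 else α e (s' e (j - 1)) with hcs
  set ce : Sym2 W → ℕ → ℂ := fun e j => if j = N e + 1 then α e 1 else α e (s e j) with hce
  set C : Sym2 W → ℕ → Set ℂ := fun e j => segment ℝ (cs e j) (ce e j) with hC
  have hLarc : ∀ e ∈ H.edgeSet, ∀ i ≤ N e, L e i ⊆ Q.arc e := by
    intro e he i hi
    obtain ⟨h1, h2, h3, _⟩ := hs e he i hi
    rw [← hα e he]
    exact Set.image_mono (Icc_subset_Icc h1 h3)
  have hLc : ∀ e ∈ H.edgeSet, ∀ i ≤ N e, IsCompact (L e i) := by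
    intro e he i hi
    obtain ⟨h1, h2, h3, _⟩ := hs e he i hi
    exact isCompact_Icc.image_of_continuousOn ((hαc e he).mono (Icc_subset_Icc h1 h3))
  have hLZ : ∀ e ∈ H.edgeSet, ∀ i ≤ N e, ∀ p ∈ L e i, ∀ w ∈ Z, ρ ≤ dist p w := by
    rintro e he i hi p ⟨t, ht, rfl⟩ w hw
    exact (hs e he i hi).2.2.2.2.2 t ht w hw
  have hLnZ : ∀ e ∈ H.edgeSet, ∀ i ≤ N e, ∀ p ∈ L e i, p ∉ Z := by
    intro e he i hi p hp hpZ
    have h1 := hLZ e he i hi p hp p hpZ
    rw [dist_self] at h1
    exact absurd hρ (not_lt.2 h1)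
  have hcsarc : ∀ e ∈ H.edgeSet, ∀ j ≤ N e + 1, cs e j ∈ Q.arc e := by
    intro e he j hj
    rw [← hα e he]
    simp only [hcs]
    split_ifs with h1
    · exact ⟨0, ⟨le_rfl, zero_le_one⟩, rfl⟩
    · obtain ⟨h2, h3, h4, _⟩ := hs e he (j - 1) (by omega)
      exact ⟨_, ⟨h2.trans h3, h4⟩, rfl⟩
  have hcearc : ∀ e ∈ H.edgeSet, ∀ j ≤ N e + 1, ce e j ∈ Q.arc e := by
    intro e he j hj
    rw [← hα e he]
    simp only [hce]
    split_ifs with h1
    · exact ⟨1, ⟨zero_le_one, le_rfl⟩, rfl⟩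
    · obtain ⟨h2, h3, h4, _⟩ := hs e he j (by omega)
      exact ⟨_, ⟨h2, h3.trans h4⟩, rfl⟩
  have hcsb : ∀ e ∈ H.edgeSet, ∀ j ≤ N e + 1, cs e j ∈ closedBall (z e j) ρ := by
    intro e he j hj
    rw [mem_closedBall]
    simp only [hcs]
    split_ifs with h1
    · rw [h1, hz0 e he, dist_self]
      exact hρ.le
    · have h5 := (hs e he (j - 1) (by omega)).2.2.2.2.1
      have h6 : j - 1 + 1 = j := by omega
      rw [h6] at h5
      exact h5.le
  have hceb : ∀ e ∈ H.edgeSet, ∀ j ≤ N e + 1, ce e j ∈ closedBall (z e j) ρ := by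
    intro e he j hj
    rw [mem_closedBall]
    simp only [hce]
    split_ifs with h1
    · rw [h1, hz1 e he, dist_self]
      exact hρ.le
    · exact (hs e he j (by omega)).2.2.2.1.le
  have hCb : ∀ e ∈ H.edgeSet, ∀ j ≤ N e + 1, C e j ⊆ closedBall (z e j) ρ := by
    intro e he j hj
    exact (convex_closedBall _ _).segment_subset (hcsb e he j hj) (hceb e he j hj)
  have hCc : ∀ e j, IsCompact (C e j) := by
    intro e j
    have h1 : IsCompact (segment ℝ (cs e j) (ce e j)) := by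
      rw [segment_eq_image_lineMap]
      exact isCompact_Icc.image AffineMap.lineMap_continuous
    exact h1
  have hLL : ∀ e ∈ H.edgeSet, ∀ f ∈ H.edgeSet, e ≠ f → ¬ (e ∈ S ∧ f ∈ S) → ∀ i ≤ N e,
      ∀ j ≤ N f, Disjoint (L e i) (L f j) := by
    intro e he f hf hef hS i hi j hj
    rw [Set.disjoint_left]
    intro p hp hp'
    exact hLnZ e he i hi p hp (hZX e he f hf hef hS p (hLarc e he i hi hp) (hLarc f hf j hj hp'))
  have hLC : ∀ e ∈ H.edgeSet, ∀ f ∈ H.edgeSet, e ≠ f → ¬ (e ∈ S ∧ f ∈ S) → ∀ i ≤ N e,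
      ∀ j ≤ N f + 1, Disjoint (L e i) (C f j) := by
    intro e he f hf hef hS i hi j hj
    rw [Set.disjoint_left]
    intro p hp hp'
    have h1 := hLZ e he i hi p hp (z f j) (hzZ f hf j hj)
    have h2 : p ∈ Q.arc f := by
      rcases seg_sphere hρ (hcsb f hf j hj) (hceb f hf j hj) hp' h1 with h3 | h3
      · rw [h3]
        exact hcsarc f hf j hj
      · rw [h3]
        exact hcearc f hf j hj
    exact hLnZ e he i hi p hp (hZX e he f hf hef hS p (hLarc e he i hi hp) h2)
  -- separation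
  obtain ⟨B, hB⟩ : ∃ B : ℕ, ∀ e : Sym2 W, N e + 1 ≤ B := by
    obtain ⟨B, hB⟩ := (Set.finite_range N).bddAbove
    exact ⟨B + 1, fun e => Nat.succ_le_succ (hB ⟨e, rfl⟩)⟩
  obtain ⟨η₁, hη₁, hsep₁⟩ := sep (ι := Sym2 W × Fin (B + 1)) (κ := Sym2 W × Fin (B + 1))
    (fun p => if p.1 ∈ H.edgeSet ∧ (p.2 : ℕ) ≤ N p.1 then L p.1 p.2 else ∅)
    (fun p => if p.1 ∈ H.edgeSet ∧ (p.2 : ℕ) ≤ N p.1 then L p.1 p.2 else ∅)
    (fun p => by
      split_ifs with h
      · exact hLc _ h.1 _ h.2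
      · exact isCompact_empty)
    (fun p => by
      split_ifs with h
      · exact hLc _ h.1 _ h.2
      · exact isCompact_empty)
    (fun p q => p.1 ≠ q.1 ∧ ¬ (p.1 ∈ S ∧ q.1 ∈ S))
    (fun p q hpq => by
      split_ifs with h h'
      · exact hLL _ h.1 _ h'.1 hpq.1 hpq.2 _ h.2 _ h'.2
      · exact Set.disjoint_empty _
      · exact Set.empty_disjoint _
      · exact Set.empty_disjoint _)
  obtain ⟨η₂, hη₂, hsep₂⟩ := sep (ι := Sym2 W × Fin (B + 1)) (κ := Sym2 W × Fin (B + 1))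
    (fun p => if p.1 ∈ H.edgeSet ∧ (p.2 : ℕ) ≤ N p.1 then L p.1 p.2 else ∅)
    (fun p => if p.1 ∈ H.edgeSet ∧ (p.2 : ℕ) ≤ N p.1 + 1 then C p.1 p.2 else ∅)
    (fun p => by
      split_ifs with h
      · exact hLc _ h.1 _ h.2
      · exact isCompact_empty)
    (fun p => by
      split_ifs with h
      · exact hCc _ _
      · exact isCompact_empty)
    (fun p q => p.1 ≠ q.1 ∧ ¬ (p.1 ∈ S ∧ q.1 ∈ S))
    (fun p q hpq => by
      split_ifs with h h'
      · exact hLC _ h.1 _ h'.1 hpq.1 hpq.2 _ h.2 _ h'.2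
      · exact Set.disjoint_empty _
      · exact Set.empty_disjoint _
      · exact Set.empty_disjoint _)
  set η : ℝ := min ε (min η₁ η₂) with hη
  have hη0 : 0 < η := lt_min hε (lt_min hη₁ hη₂)
  have hηε : η ≤ ε := min_le_left _ _
  have hηη₁ : η ≤ η₁ := (min_le_right _ _).trans (min_le_left _ _)
  have hηη₂ : η ≤ η₂ := (min_le_right _ _).trans (min_le_right _ _)
  have hSLL : ∀ e ∈ H.edgeSet, ∀ f ∈ H.edgeSet, e ≠ f → ¬ (e ∈ S ∧ f ∈ S) → ∀ i ≤ N e,
      ∀ j ≤ N f, Disjoint (thickening η (L e i)) (thickening η (L f j)) := by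
    intro e he f hf hef hS i hi j hj
    have hi' : i < B + 1 := by have := hB e; omega
    have hj' : j < B + 1 := by have := hB f; omega
    have h1 := hsep₁ (e, ⟨i, hi'⟩) (f, ⟨j, hj'⟩) ⟨hef, hS⟩
    simp only at h1
    rw [if_pos ⟨he, hi⟩, if_pos ⟨hf, hj⟩] at h1
    exact h1.mono (thickening_mono hηη₁ _) (thickening_mono hηη₁ _)
  have hSLC : ∀ e ∈ H.edgeSet, ∀ f ∈ H.edgeSet, e ≠ f → ¬ (e ∈ S ∧ f ∈ S) → ∀ i ≤ N e,
      ∀ j ≤ N f + 1, Disjoint (thickening η (L e i)) (C f j) := by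
    intro e he f hf hef hS i hi j hj
    have hi' : i < B + 1 := by have := hB e; omega
    have hj' : j < B + 1 := by have := hB f; omega
    have h1 := hsep₂ (e, ⟨i, hi'⟩) (f, ⟨j, hj'⟩) ⟨hef, hS⟩
    simp only at h1
    rw [if_pos ⟨he, hi⟩, if_pos ⟨hf, hj⟩] at h1
    exact h1.mono (thickening_mono hηη₂ _) (self_subset_thickening hη₂ _)
  -- polygons
  have hpoly : ∀ e, e ∈ H.edgeSet → ∃ (n : ℕ) (q : ℕ → ℂ) (ch : ℕ → ℕ), q 0 = α e 0 ∧
      q (n + 1) = α e 1 ∧
      (∀ k ≤ n, ch k ≤ N e + 1 →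
        q k = (if ch k = 0 then α e 0 else α e (s' e (ch k - 1))) ∧
        q (k + 1) = (if ch k = N e + 1 then α e 1 else α e (s e (ch k)))) ∧
      (∀ k ≤ n, N e + 1 < ch k → ∃ i ≤ N e, segment ℝ (q k) (q (k + 1)) ⊆
        thickening η (α e '' Icc (s e i) (s' e i))) ∧
      (∀ k ≤ n, ∀ l ≤ n, ch k = ch l → ch k ≤ N e + 1 → k = l) ∧ ch 0 = 0 ∧
      ch n = N e + 1 := by
    intro e he
    exact refine_path (α e) (hαc e he) (N e) (s e) (s' e)
      (fun i hi => ⟨(hs e he i hi).1, (hs e he i hi).2.1, (hs e he i hi).2.2.1⟩) _ _ η hη0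
  choose! n q ch hq0 hq1 hqch hqlk hchi hch0 hchn using hpoly
  set P : Ix W → ℂ := Sum.elim Q.pos (fun p => q p.1 p.2) with hP
  have hPidx : ∀ e ∈ H.edgeSet, ∀ k ≤ n e + 1, P (idx n e k) = q e k := by
    intro e he k hk
    unfold idx
    split_ifs with h1 h2
    · rw [h1, hq0 e he, hα0 e he]
      rfl
    · rfl
    · have h3 : k = n e + 1 := by omega
      rw [h3, hq1 e he, hα1 e he]
      rfl
  have hsgm : ∀ e ∈ H.edgeSet, ∀ k ≤ n e, sgm n P e k = segment ℝ (q e k) (q e (k + 1)) := by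
    intro e he k hk
    unfold sgm
    rw [hPidx e he k (by omega), hPidx e he (k + 1) (by omega)]
  have hchord : ∀ e ∈ H.edgeSet, ∀ k ≤ n e, ch e k ≤ N e + 1 → sgm n P e k = C e (ch e k) := by
    intro e he k hk hc
    obtain ⟨h1, h2⟩ := hqch e he k hk hc
    rw [hsgm e he k hk, h1, h2]
  have hlk : ∀ e ∈ H.edgeSet, ∀ k ≤ n e, N e + 1 < ch e k → ∃ i ≤ N e,
      sgm n P e k ⊆ thickening η (L e i) := by
    intro e he k hk hc
    obtain ⟨i, hi, h1⟩ := hqlk e he k hk hc
    exact ⟨i, hi, by rw [hsgm e he k hk]; exact h1⟩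
  refine ⟨n, P, fun w => rfl, ?_, ?_⟩
  · -- closeness
    intro e he k hk
    rcases le_or_gt (ch e k) (N e + 1) with hc | hc
    · rw [hchord e he k hk hc]
      intro p hp
      rw [mem_thickening_iff]
      refine ⟨cs e (ch e k), hcsarc e he _ hc, ?_⟩
      have h1 := mem_closedBall.1 (hCb e he _ hc hp)
      have h2 := mem_closedBall.1 (hcsb e he _ hc)
      have h3 := dist_triangle_right p (cs e (ch e k)) (z e (ch e k))
      linarith
    · obtain ⟨i, hi, h1⟩ := hlk e he k hk hc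
      exact h1.trans ((thickening_mono hηε _).trans (thickening_subset_of_subset _
        (hLarc e he i hi)))
  · -- counting
    intro e he f hf hef hS
    have hfin : ((Q.arc e ∩ Q.arc f) \ range Q.pos).Finite :=
      (Q.fin e he f hf hef hS).subset Set.sdiff_subset
    rw [Set.ncard_eq_toFinset_card _ hfin]
    have hS' : ¬ (f ∈ S ∧ e ∈ S) := fun h => hS ⟨h.2, h.1⟩
    have hzarc : ∀ g ∈ H.edgeSet, ∀ j ≤ N g + 1, z g j ∈ Q.arc g := by
      intro g hg j hj
      by_contra h1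
      exact Set.disjoint_left.1 (harc g hg _ (hzZ g hg j hj) h1) (hcsb g hg j hj)
        (hcsarc g hg j hj)
    have key : ∀ k ≤ n e, ∀ l ≤ n f, (sgm n P e k ∩ sgm n P f l).Nonempty →
        ch e k ≤ N e + 1 ∧ ch f l ≤ N f + 1 ∧ z e (ch e k) = z f (ch f l) := by
      rintro k hk l hl ⟨p, hp1, hp2⟩
      have h1 : ch e k ≤ N e + 1 := by
        by_contra hc
        push Not at hc
        obtain ⟨i, hi, h2⟩ := hlk e he k hk hc
        rcases le_or_gt (ch f l) (N f + 1) with hc' | hc'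
        · rw [hchord f hf l hl hc'] at hp2
          exact Set.disjoint_left.1 (hSLC e he f hf hef hS i hi _ hc') (h2 hp1) hp2
        · obtain ⟨i', hi', h3⟩ := hlk f hf l hl hc'
          exact Set.disjoint_left.1 (hSLL e he f hf hef hS i hi i' hi') (h2 hp1) (h3 hp2)
      have h2 : ch f l ≤ N f + 1 := by
        by_contra hc
        push Not at hc
        obtain ⟨i, hi, h3⟩ := hlk f hf l hl hc
        rw [hchord e he k hk h1] at hp1
        exact Set.disjoint_left.1 (hSLC f hf e he hef.symm hS' i hi _ h1) (h3 hp2) hp1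
      refine ⟨h1, h2, ?_⟩
      rw [hchord e he k hk h1] at hp1
      rw [hchord f hf l hl h2] at hp2
      by_contra hne
      exact Set.disjoint_left.1 (hballs _ (hzZ e he _ h1) _ (hzZ f hf _ h2) hne)
        (hCb e he _ h1 hp1) (hCb f hf _ h2 hp2)
    have hend : ∀ g ∈ H.edgeSet, ∀ k ≤ n g, ch g k ≤ N g + 1 → ∀ w, z g (ch g k) = Q.pos w →
        idx n g k = Sum.inl w ∨ idx n g (k + 1) = Sum.inl w := by
      intro g hg k hk hc w hw
      have h1 : Q.pos w ∈ Q.arc s(tl g, hd g) := by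
        rw [tl_hd, ← hw]
        exact hzarc g hg _ hc
      rcases Q.avoid _ _ w (hadj g hg) h1 with h2 | h2
      · left
        have h3 : ch g k = 0 := by
          by_contra h4
          refine hzi g hg _ hc 0 (Nat.zero_le _) h4 ?_
          rw [hw, h2, hz0 g hg, hα0 g hg]
        have h5 : k = 0 := hchi g hg k hk 0 (Nat.zero_le _) (by rw [h3, hch0 g hg]) hc
        rw [h5, h2]
        rfl
      · right
        have h3 : ch g k = N g + 1 := by
          by_contra h4
          refine hzi g hg _ hc (N g + 1) le_rfl h4 ?_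
          rw [hw, h2, hz1 g hg, hα1 g hg]
        have h5 : k = n g := hchi g hg k hk (n g) le_rfl (by rw [h3, hchn g hg]) hc
        rw [h5, h2]
        unfold idx
        rw [if_neg (by omega), if_neg (by omega)]
    refine Finset.card_le_card_of_injOn (fun p => z e (ch e p.1)) ?_ ?_
    · rintro ⟨k, l⟩ hkl
      rw [Finset.mem_coe, Finset.mem_filter, Finset.mem_product, Finset.mem_range,
        Finset.mem_range] at hkl
      obtain ⟨⟨hk, hl⟩, hno, hne⟩ := hkl
      simp only at hk hl hno hne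
      obtain ⟨h1, h2, h3⟩ := key k (by omega) l (by omega) hne
      rw [Finset.mem_coe, Set.Finite.mem_toFinset]
      refine ⟨⟨hzarc e he _ h1, ?_⟩, ?_⟩
      · simp only
        rw [h3]
        exact hzarc f hf _ h2
      · rintro ⟨w, hw⟩
        simp only at hw
        have h4 := hend e he k (by omega) h1 w hw.symm
        have h5 := hend f hf l (by omega) h2 w (by rw [← h3, hw])
        obtain ⟨n1, n2, n3, n4⟩ := hno
        rcases h4 with h4 | h4 <;> rcases h5 with h5 | h5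
        · exact n1 (h4.trans h5.symm)
        · exact n2 (h4.trans h5.symm)
        · exact n3 (h4.trans h5.symm)
        · exact n4 (h4.trans h5.symm)
    · rintro ⟨k, l⟩ hkl ⟨k', l'⟩ hkl' heq
      rw [Finset.mem_coe, Finset.mem_filter, Finset.mem_product, Finset.mem_range,
        Finset.mem_range] at hkl hkl'
      obtain ⟨⟨hk, hl⟩, hno, hne⟩ := hkl
      obtain ⟨⟨hk', hl'⟩, hno', hne'⟩ := hkl'
      simp only at hk hl hno hne hk' hl' hno' hne' heq
      obtain ⟨h1, h2, h3⟩ := key k (by omega) l (by omega) hne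
      obtain ⟨h1', h2', h3'⟩ := key k' (by omega) l' (by omega) hne'
      have h4 : ch e k = ch e k' := by
        by_contra h5
        exact hzi e he _ h1 _ h1' h5 heq
      have h6 : ch f l = ch f l' := by
        by_contra h5
        refine hzi f hf _ h2 _ h2' h5 ?_
        rw [← h3, ← h3', heq]
      have h7 := hchi e he k (by omega) k' (by omega) h4 h1
      have h8 := hchi f hf l (by omega) l' (by omega) h6 h2
      rw [h7, h8]

end H29.BT
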