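import Pool.Agent.H29.BT.Core
import Pool.Agent.H29.BT.Choose
import Pool.Agent.H29.BT.PDef

/-!
# [H29 BT RANK] the order of the crossings along an edge

`tl e`, `hd e` (file `PDef`) are the two end points of `e`; `par D e` is a parametrisation of the arc of `e` from `pos (tl e)` to
`pos (hd e)`; `tm D e p` is the time of the point `p`.

Paper proofs. `exists_par`: `D.isArc` for `s(tl e, hd e) = e`. `crs_card`: the crossings on the arc of `e` are the disjoint union over
`f ≠ e` of the sets `D.X e f` (`no_triple`), which are finite. `inc_card`: a crossing `p` is on the arcs of two different edges, and of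
not more than two (`no_triple`). `inc_inj`: `inc D p = inc D q = {e, f}`: `p, q ∈ D.X e f`, which has at most one element
(`opt_once`). `rk_lt`: the filter set does not contain `p`. `rk_inj`: different crossings on `e` have different times (`par (tm p) = p`), and if
`tm p < tm q` then the filter set of `p` is a proper subset of that of `q` (`p` is in it). `tm_mem`: `tm p` is in `(0,1)` as `p` is
not a vertex.
-/

set_option autoImplicit false

open Set
open scoped Classical

noncomputable section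

namespace H29.BT

open H29.BP

variable {V : Type} {G : SimpleGraph V}

private theorem rk_mem_onE {ι κ : Type} (C : Finset κ) (inc : κ → Finset ι) (e : ι) (c : κ) :
    c ∈ onE C inc e ↔ c ∈ C ∧ e ∈ inc c := by
  unfold onE
  exact Finset.mem_filter

/-- `α` is a parametrisation of the arc of `e` -/
def IsPar (D : Drawing G) (e : Sym2 V) (α : ℝ → ℂ) : Prop :=
  ContinuousOn α (Icc 0 1) ∧ InjOn α (Icc 0 1) ∧ α 0 = D.pos (tl e) ∧ α 1 = D.pos (hd e) ∧
    α '' Icc 0 1 = D.arc e

theorem exists_par (D : Drawing G) {e : Sym2 V} (he : e ∈ G.edgeSet) : ∃ α, IsPar D e α := by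
  have h1 : s(tl e, hd e) = e := tl_hd e
  have h2 : G.Adj (tl e) (hd e) := by
    rw [← SimpleGraph.mem_edgeSet, h1]
    exact he
  obtain ⟨f, h3, h4, h5, h6, h7⟩ := D.isArc _ _ h2
  rw [h1] at h7
  exact ⟨f, h3, h4, h5, h6, h7⟩

/-- a parametrisation of the arc of `e` -/
def par (D : Drawing G) (e : Sym2 V) : ℝ → ℂ :=
  if h : ∃ α, IsPar D e α then Classical.choose h else fun _ => 0

theorem isPar_par (D : Drawing G) {e : Sym2 V} (he : e ∈ G.edgeSet) : IsPar D e (par D e) := by
  have h := exists_par D he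
  rw [par, dif_pos h]
  exact Classical.choose_spec h

/-- the time of the point `p` on the arc of `e` -/
def tm (D : Drawing G) (e : Sym2 V) (p : ℂ) : ℝ := Function.invFunOn (par D e) (Icc 0 1) p

variable [Finite V]

/-- all crossings -/
def CC (D : Drawing G) : Finset ℂ := D.crossings_finite.toFinset

/-- the edges on whose arc `p` lies -/
def inc (D : Drawing G) (p : ℂ) : Finset (Sym2 V) := (ES G).filter fun e => p ∈ D.arc e

/-- the rank of the crossing `p` on `e`, counted from `tl e` -/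
def rk (D : Drawing G) (e : Sym2 V) (p : ℂ) : ℕ :=
  ((CC D).filter fun q => e ∈ inc D q ∧ tm D e q < tm D e p).card

theorem mem_CC (D : Drawing G) {p : ℂ} : p ∈ CC D ↔ p ∈ D.crossings := by
  simp [CC]

theorem CC_card (D : Drawing G) : (CC D).card = D.cr := by
  rw [CC, Drawing.cr, Set.ncard_eq_toFinset_card _ D.crossings_finite]

theorem CC_not_pos (D : Drawing G) {p : ℂ} (hp : p ∈ CC D) : p ∉ range D.pos := by
  rw [mem_CC] at hp
  obtain ⟨e, _, f, _, _, h⟩ := hp
  exact h.2

theorem inc_card (D : Drawing G) {p : ℂ} (hp : p ∈ CC D) :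
    (inc D p).card = 2 ∧ inc D p ⊆ ES G := by
  refine ⟨?_, Finset.filter_subset _ _⟩
  have hnp := CC_not_pos D hp
  rw [mem_CC] at hp
  obtain ⟨e, he, f, hf, hef, h⟩ := hp
  have h1 : inc D p = {e, f} := by
    ext g
    rw [inc, Finset.mem_filter, Finset.mem_insert, Finset.mem_singleton]
    constructor
    · rintro ⟨hg, hpg⟩
      rw [mem_ES] at hg
      by_contra hne
      push Not at hne
      exact hnp (D.no_triple e he f hf g hg hef hne.1.symm hne.2.symm p h.1 hpg)
    · rintro (rfl | rfl)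
      · exact ⟨mem_ES.2 he, h.1.1⟩
      · exact ⟨mem_ES.2 hf, h.1.2⟩
  rw [h1, Finset.card_pair hef]

theorem onE_card (D : Drawing G) {e : Sym2 V} (he : e ∈ ES G) :
    (onE (CC D) (inc D) e).card = cre D e := by
  have he' : e ∈ G.edgeSet := mem_ES.1 he
  have hx : ∀ f ∈ ES G, D.x e f =
      ∑ p ∈ onE (CC D) (inc D) e, if e ≠ f ∧ p ∈ D.arc f then 1 else 0 := by
    intro f hf
    have hf' : f ∈ G.edgeSet := mem_ES.1 hf
    by_cases hef : e = f
    · unfold Drawing.x
      rw [if_pos hef]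
      symm
      refine Finset.sum_eq_zero fun p _ => ?_
      rw [if_neg]
      exact fun h => h.1 hef
    · unfold Drawing.x
      rw [if_neg hef, ← Finset.sum_filter, Finset.sum_const, smul_eq_mul, mul_one,
        Set.ncard_eq_toFinset_card _ (D.X_finite he' hf' hef)]
      congr 1
      ext p
      rw [Set.Finite.mem_toFinset, Finset.mem_filter, rk_mem_onE, mem_CC, inc,
        Finset.mem_filter]
      constructor
      · intro h
        exact ⟨⟨⟨e, he', f, hf', hef, h⟩, he, h.1.1⟩, hef, h.1.2⟩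
      · rintro ⟨⟨h1, _, h2⟩, _, h3⟩
        exact ⟨⟨h2, h3⟩, CC_not_pos D ((mem_CC D).2 h1)⟩
  unfold cre
  rw [Finset.sum_congr rfl hx, Finset.sum_comm, Finset.card_eq_sum_ones]
  refine Finset.sum_congr rfl fun p hp => ?_
  rw [rk_mem_onE] at hp
  obtain ⟨hpC, hep⟩ := hp
  have h2 := (inc_card D hpC).1
  rw [← Finset.sum_filter, Finset.sum_const, smul_eq_mul, mul_one]
  have h3 : (ES G).filter (fun f => e ≠ f ∧ p ∈ D.arc f) = (inc D p).erase e := by
    ext f
    rw [Finset.mem_filter, Finset.mem_erase, inc, Finset.mem_filter]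
    constructor
    · rintro ⟨h4, h5, h6⟩
      exact ⟨h5.symm, h4, h6⟩
    · rintro ⟨h4, h5, h6⟩
      exact ⟨h5, h4.symm, h6⟩
  rw [h3, Finset.card_erase_of_mem hep, h2]

theorem inc_inj (D : Drawing G) (hD : D.cr = CR G) {p q : ℂ} (hp : p ∈ CC D) (hq : q ∈ CC D)
    (h : inc D p = inc D q) : p = q := by
  obtain ⟨e, f, hef, hpe⟩ := Finset.card_eq_two.1 (inc_card D hp).1
  have hep : e ∈ inc D p := by rw [hpe]; simp
  have hfp : f ∈ inc D p := by rw [hpe]; simp
  have heq : e ∈ inc D q := by rw [← h]; exact hep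
  have hfq : f ∈ inc D q := by rw [← h]; exact hfp
  rw [inc, Finset.mem_filter] at hep hfp heq hfq
  have h1 := opt_once D hD hep.1 hfp.1
  unfold Drawing.x at h1
  rw [if_neg hef] at h1
  have hfin := D.X_finite (mem_ES.1 hep.1) (mem_ES.1 hfp.1) hef
  exact (Set.ncard_le_one_iff hfin).1 h1 ⟨⟨hep.2, hfp.2⟩, CC_not_pos D hp⟩
    ⟨⟨heq.2, hfq.2⟩, CC_not_pos D hq⟩

theorem tm_mem (D : Drawing G) {e : Sym2 V} {p : ℂ} (hp : p ∈ CC D) (he : e ∈ inc D p) :
    tm D e p ∈ Ioo (0 : ℝ) 1 ∧ par D e (tm D e p) = p := by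
  rw [inc, Finset.mem_filter] at he
  obtain ⟨_, _, h0, h1, him⟩ := isPar_par D (mem_ES.1 he.1)
  have hmem : p ∈ par D e '' Icc 0 1 := by
    rw [him]
    exact he.2
  have h2 : tm D e p ∈ Icc (0 : ℝ) 1 := Function.invFunOn_mem hmem
  have h3 : par D e (tm D e p) = p := Function.invFunOn_eq hmem
  have hnp := CC_not_pos D hp
  refine ⟨⟨lt_of_le_of_ne h2.1 fun h => ?_, lt_of_le_of_ne h2.2 fun h => ?_⟩, h3⟩
  · rw [← h, h0] at h3
    exact hnp ⟨_, h3⟩
  · rw [h, h1] at h3
    exact hnp ⟨_, h3⟩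

theorem rk_lt (D : Drawing G) {e : Sym2 V} {p : ℂ} (hp : p ∈ CC D) (he : e ∈ inc D p) :
    rk D e p < (onE (CC D) (inc D) e).card := by
  refine Finset.card_lt_card ?_
  rw [Finset.ssubset_iff_of_subset]
  · refine ⟨p, (rk_mem_onE _ _ _ _).2 ⟨hp, he⟩, fun h => ?_⟩
    exact lt_irrefl _ (Finset.mem_filter.1 h).2.2
  · intro q hq
    rw [Finset.mem_filter] at hq
    exact (rk_mem_onE _ _ _ _).2 ⟨hq.1, hq.2.1⟩

theorem rk_inj (D : Drawing G) {e : Sym2 V} {p q : ℂ} (hp : p ∈ CC D) (hq : q ∈ CC D)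
    (he : e ∈ inc D p) (he' : e ∈ inc D q) (h : rk D e p = rk D e q) : p = q := by
  have key : ∀ p q : ℂ, p ∈ CC D → e ∈ inc D p → tm D e p < tm D e q → rk D e p < rk D e q := by
    intro p q hp he hlt
    refine Finset.card_lt_card ?_
    rw [Finset.ssubset_iff_of_subset]
    · refine ⟨p, Finset.mem_filter.2 ⟨hp, he, hlt⟩, fun h => ?_⟩
      exact lt_irrefl _ (Finset.mem_filter.1 h).2.2
    · intro r hr
      rw [Finset.mem_filter] at hr
      exact Finset.mem_filter.2 ⟨hr.1, hr.2.1, hr.2.2.trans hlt⟩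
  rcases lt_trichotomy (tm D e p) (tm D e q) with h1 | h1 | h1
  · exact absurd h (key p q hp he h1).ne
  · rw [← (tm_mem D hp he).2, ← (tm_mem D hq he').2, h1]
  · exact absurd h (key q p hq he' h1).ne'

end H29.BT
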