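import Pool.Agent.H29.BT.Rank
import Pool.Agent.H29.BT.Join

/-!
# [H29 BT ROAD] a road from a crossing to a vertex

Paper proof. `Near` gives a crossing `c'` of `e = h.1` and `f`, `rkb h c' < R`, and `c` is also on `f`, the ranks of `c` and `c'` on `f` differ by at most
`R`. Let `x = endp h`. Road: `ρ₁` = the part of the arc of `f` between `c` and `c'` (the single point `c` if
`c = c'`), `ρ₂` = the part of the arc of `e` between `c'` and `pos x`; both are arcs (`isArc_sub`, `IsArc.symm`), so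
by `join_road` (if `c = c'` take `ρ₂`) there is an arc `ρ ⊆ ρ₁ ∪ ρ₂` from `c` to `pos x` (`c` is not a vertex). `ρ₁` contains no places of vertices (the times
are in `(0,1)`), `ρ₂` only `pos x` . Let `g ∈ S`: an edge with `x ∉ g`, `g ∉ inc D c`. Then `g ≠ e` (`x ∈ e`) and `g ≠ f` (`f ∈ inc D c`). The points of `ρ ∩ D.arc g`
are crossings: they are on `ρ₁` or `ρ₂` and not `pos x` (`avoid`, `x ∉ g`). The crossings `q` on `ρ₁ ∩ D.arc g` are different from `c` (`g ∉ inc D c`) and from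
`c'` (`g ≠ e, f`), so their time on `f` is strictly between those of `c` and `c'`: they are in the set `Z₁` of the crossings on `f` with time
strictly between; `Z₁` has at most `|rk f c - rk f c'| ≤ R` elements. In the same way the crossings on `ρ₂ ∩ D.arc g` are
in the set `Z₂` of the crossings on `e` between `c'` and the end `x` (excluding `c'`), which has `rkb h c' < R` elements: for `h.2 = false` (`x = tl e`) those with
smaller time, their number is `rk e c'`, for `h.2 = true` (`x = hd e`) those with larger time, their number is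
`(onE e).card - 1 - rk e c'`. Every point of `Z₁ ∪ Z₂` is on the arc of at most one `g ∈ S` (`inc_card`: it is on `f` or `e` and one more). So the sum of the numbers is at most
`|Z₁| + |Z₂| ≤ 2 R`.
-/

set_option autoImplicit false

open Set
open scoped Classical

noncomputable section

namespace H29.BT

open H29.BP

variable {V : Type} [Finite V] {G : SimpleGraph V}

/-- the end vertex of a half-edge -/
def endp (h : Sym2 V × Bool) : V := if h.2 then hd h.1 else tl h.1

omit [Finite V] in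
/-- the part of a parametrised arc between two times is a road -/
private theorem isRoad_sub {α : ℝ → ℂ} (hc : ContinuousOn α (Icc 0 1)) (hi : InjOn α (Icc 0 1)) {s t : ℝ}
    (hs : s ∈ Icc (0 : ℝ) 1) (ht : t ∈ Icc (0 : ℝ) 1) : IsRoad (α s) (α t) (α '' uIcc s t) := by
  rcases lt_trichotomy s t with h | h | h
  · right
    rw [uIcc_of_le h.le]
    exact isArc_sub hc hi hs.1 h ht.2
  · left
    rw [h, uIcc_self, image_singleton]
    exact ⟨rfl, rfl⟩
  · right
    rw [uIcc_of_ge h.le]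
    exact (isArc_sub hc hi ht.1 h hs.2).symm

omit [Finite V] in
/-- the places of vertices on a parametrised arc -/
private theorem par_pos (D : Drawing G) {e : Sym2 V} (he : e ∈ G.edgeSet) {u : ℝ} (hu : u ∈ Icc (0 : ℝ) 1)
    {v : V} (h : D.pos v = par D e u) : (u = 0 ∧ v = tl e) ∨ (u = 1 ∧ v = hd e) := by
  obtain ⟨_, hi, h0, h1, him⟩ := isPar_par D he
  have hadj : G.Adj (tl e) (hd e) := by
    rw [← SimpleGraph.mem_edgeSet, tl_hd]
    exact he
  have hmem : D.pos v ∈ D.arc s(tl e, hd e) := by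
    rw [tl_hd, ← him, h]
    exact ⟨u, hu, rfl⟩
  rcases D.avoid _ _ _ hadj hmem with h2 | h2
  · left
    refine ⟨?_, h2⟩
    rw [h2, ← h0] at h
    exact (hi ⟨le_rfl, zero_le_one⟩ hu h).symm
  · right
    refine ⟨?_, h2⟩
    rw [h2, ← h1] at h
    exact (hi ⟨zero_le_one, le_rfl⟩ hu h).symm

/-- strictly between -/
private def Btw (u a b : ℝ) : Prop := min a b < u ∧ u < max a b

private theorem btw_of {u a b : ℝ} (h : u ∈ uIcc a b) (h1 : u ≠ a) (h2 : u ≠ b) : Btw u a b := by
  rw [uIcc, mem_Icc] at h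
  refine ⟨lt_of_le_of_ne h.1 ?_, lt_of_le_of_ne h.2 ?_⟩
  · rcases min_choice a b with h3 | h3
    · rw [h3]; exact h1.symm
    · rw [h3]; exact h2.symm
  · rcases max_choice a b with h3 | h3
    · rw [h3]; exact h1
    · rw [h3]; exact h2

/-- a point on the arcs of two edges which is not a vertex is a crossing, its time is the parameter -/
private theorem mem_of_par (D : Drawing G) {e g : Sym2 V} (he : e ∈ ES G) (hg : g ∈ ES G) (hne : e ≠ g)
    {u : ℝ} (hu : u ∈ Icc (0 : ℝ) 1) (h1 : par D e u ∈ D.arc g) (h2 : par D e u ∉ range D.pos) :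
    par D e u ∈ CC D ∧ e ∈ inc D (par D e u) ∧ g ∈ inc D (par D e u) ∧ tm D e (par D e u) = u := by
  obtain ⟨_, hi, _, _, him⟩ := isPar_par D (mem_ES.1 he)
  have h3 : par D e u ∈ D.arc e := by
    rw [← him]
    exact ⟨u, hu, rfl⟩
  have h4 : par D e u ∈ CC D := by
    rw [mem_CC]
    exact ⟨e, mem_ES.1 he, g, mem_ES.1 hg, hne, ⟨h3, h1⟩, h2⟩
  have h5 : e ∈ inc D (par D e u) := by
    rw [inc, Finset.mem_filter]
    exact ⟨he, h3⟩
  refine ⟨h4, h5, ?_, ?_⟩
  · rw [inc, Finset.mem_filter]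
    exact ⟨hg, h1⟩
  · have h6 := tm_mem D h4 h5
    exact hi (Ioo_subset_Icc_self h6.1) hu h6.2

private def ZZ (D : Drawing G) (e : Sym2 V) (a b : ℝ) : Finset ℂ :=
  (CC D).filter fun q => e ∈ inc D q ∧ Btw (tm D e q) a b

private theorem mem_ZZ (D : Drawing G) (e : Sym2 V) (a b : ℝ) (q : ℂ) :
    q ∈ ZZ D e a b ↔ q ∈ CC D ∧ e ∈ inc D q ∧ Btw (tm D e q) a b := by
  unfold ZZ
  exact Finset.mem_filter

/-- if `e ∉ S` then every crossing on `e` is on at most one arc of `S` -/
private theorem cnt_S (D : Drawing G) {e : Sym2 V} {q : ℂ} (hq : q ∈ CC D) (he : e ∈ inc D q) (S : Finset (Sym2 V))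
    (hS : S ⊆ ES G) (heS : e ∉ S) : (S.filter fun g => q ∈ D.arc g).card ≤ 1 := by
  have h1 : (S.filter fun g => q ∈ D.arc g) ⊆ (inc D q).erase e := by
    intro g hg
    rw [Finset.mem_filter] at hg
    rw [Finset.mem_erase]
    refine ⟨?_, ?_⟩
    · rintro rfl
      exact heS hg.1
    · rw [inc, Finset.mem_filter]
      exact ⟨hS hg.1, hg.2⟩
  have h2 := Finset.card_le_card h1
  rw [Finset.card_erase_of_mem he, (inc_card D hq).1] at h2
  exact h2

private theorem road_core (D : Drawing G) {e f : Sym2 V} (he : e ∈ ES G) (hef : f ≠ e) {c c' : ℂ}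
    (hc : c ∈ CC D) (hc' : c' ∈ CC D) (h1 : e ∈ inc D c') (h2 : f ∈ inc D c') (h3 : f ∈ inc D c)
    (x : V) (τ : ℝ) (hτ : (τ = 0 ∧ x = tl e) ∨ (τ = 1 ∧ x = hd e)) :
    ∃ ρ : Set ℂ, IsRoad c (D.pos x) ρ ∧ (∀ v, D.pos v ∈ ρ → v = x) ∧
      ∀ S : Finset (Sym2 V), S ⊆ ES G → (∀ g ∈ S, x ∉ g ∧ g ∉ inc D c) →
        (∀ g ∈ S, (ρ ∩ D.arc g).Finite) ∧ ∑ g ∈ S, (ρ ∩ D.arc g).ncard ≤
          (ZZ D f (tm D f c) (tm D f c')).card + (ZZ D e (tm D e c') τ).card := by
  have hf : f ∈ ES G := by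
    rw [inc, Finset.mem_filter] at h2
    exact h2.1
  obtain ⟨fc, fi, f0, f1, fim⟩ := isPar_par D (mem_ES.1 hf)
  obtain ⟨ec, ei, e0, e1, eim⟩ := isPar_par D (mem_ES.1 he)
  have t1 := tm_mem D hc h3
  have t2 := tm_mem D hc' h2
  have t3 := tm_mem D hc' h1
  have m0 : (0 : ℝ) ∈ Icc (0 : ℝ) 1 := ⟨le_rfl, zero_le_one⟩
  have m1 : (1 : ℝ) ∈ Icc (0 : ℝ) 1 := ⟨zero_le_one, le_rfl⟩
  have hτm : τ ∈ Icc (0 : ℝ) 1 := by
    rcases hτ with ⟨h, -⟩ | ⟨h, -⟩ <;> rw [h] <;> assumption
  have hτx : par D e τ = D.pos x := by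
    rcases hτ with ⟨h, h'⟩ | ⟨h, h'⟩ <;> rw [h, h'] <;> assumption
  have r1 := isRoad_sub fc fi (Ioo_subset_Icc_self t1.1) (Ioo_subset_Icc_self t2.1)
  rw [t1.2, t2.2] at r1
  have r2 := isRoad_sub ec ei (Ioo_subset_Icc_self t3.1) hτm
  rw [t3.2, hτx] at r2
  have r3 : IsArc c' (D.pos x) (par D e '' uIcc (tm D e c') τ) := by
    rcases r2 with ⟨h, -⟩ | h
    · exact absurd ⟨x, h.symm⟩ (CC_not_pos D hc')
    · exact h
  obtain ⟨ρ, hρ, hsub⟩ := join_road r1 r3 (fun h => CC_not_pos D hc ⟨x, h.symm⟩)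
  have hI1 : ∀ u ∈ uIcc (tm D f c) (tm D f c'), u ∈ Ioo (0 : ℝ) 1 := by
    intro u hu
    rw [uIcc, mem_Icc] at hu
    exact ⟨(lt_min t1.1.1 t2.1.1).trans_le hu.1, hu.2.trans_lt (max_lt t1.1.2 t2.1.2)⟩
  have hI2 : ∀ u ∈ uIcc (tm D e c') τ, u ∈ Icc (0 : ℝ) 1 := by
    intro u hu
    rw [uIcc, mem_Icc] at hu
    exact ⟨(le_min t3.1.1.le hτm.1).trans hu.1, hu.2.trans (max_le t3.1.2.le hτm.2)⟩
  have hv1 : ∀ u ∈ uIcc (tm D f c) (tm D f c'), par D f u ∉ range D.pos := by
    rintro u hu ⟨v, hv⟩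
    have h4 := hI1 u hu
    rcases par_pos D (mem_ES.1 hf) (Ioo_subset_Icc_self h4) hv with ⟨h5, -⟩ | ⟨h5, -⟩
    · exact h4.1.ne' h5
    · exact h4.2.ne h5
  have hv2 : ∀ u ∈ uIcc (tm D e c') τ, ∀ v, D.pos v = par D e u → v = x ∧ u = τ := by
    intro u hu v hv
    rcases par_pos D (mem_ES.1 he) (hI2 u hu) hv with ⟨h5, h6⟩ | ⟨h5, h6⟩
    · rcases hτ with ⟨h, h'⟩ | ⟨h, h'⟩
      · exact ⟨by rw [h6, h'], by rw [h5, h]⟩
      · rw [uIcc, mem_Icc, h, h5] at hu
        have := lt_min t3.1.1 (zero_lt_one (α := ℝ))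
        linarith [hu.1]
    · rcases hτ with ⟨h, h'⟩ | ⟨h, h'⟩
      · rw [uIcc, mem_Icc, h, h5] at hu
        have := max_lt t3.1.2 (zero_lt_one (α := ℝ))
        linarith [hu.2]
      · exact ⟨by rw [h6, h'], by rw [h5, h]⟩
  refine ⟨ρ, Or.inr hρ, ?_, ?_⟩
  · intro v hv
    rcases hsub hv with ⟨u, hu, huv⟩ | ⟨u, hu, huv⟩
    · exact absurd ⟨v, huv.symm⟩ (hv1 u hu)
    · exact (hv2 u hu v huv.symm).1
  · intro S hS hg
    have hxe : x ∈ e := by
      rw [← tl_hd e, Sym2.mem_iff]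
      rcases hτ with ⟨-, h'⟩ | ⟨-, h'⟩
      · exact Or.inl h'
      · exact Or.inr h'
    have heS : e ∉ S := fun h => (hg e h).1 hxe
    have hfS : f ∉ S := fun h => (hg f h).2 h3
    have hincc' : ∀ g ∈ S, c' ∉ D.arc g := by
      intro g hgS hcg
      have k1 := cnt_S D hc' h1 (insert f S) (Finset.insert_subset hf hS) (by
        rw [Finset.mem_insert]
        rintro (h | h)
        · exact hef h.symm
        · exact heS h)
      have hfc' : c' ∈ D.arc f := by
        rw [inc, Finset.mem_filter] at h2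
        exact h2.2
      have k2 := Finset.card_le_one.1 k1 f (Finset.mem_filter.2 ⟨Finset.mem_insert_self _ _, hfc'⟩) g
        (Finset.mem_filter.2 ⟨Finset.mem_insert_of_mem hgS, hcg⟩)
      rw [k2] at hfS
      exact hfS hgS
    have hincc : ∀ g ∈ S, c ∉ D.arc g := by
      intro g hgS hcg
      exact (hg g hgS).2 (by
        rw [inc, Finset.mem_filter]
        exact ⟨hS hgS, hcg⟩)
    obtain ⟨Z, hZ⟩ : ∃ Z : Finset ℂ, Z = ZZ D f (tm D f c) (tm D f c') ∪ ZZ D e (tm D e c') τ := ⟨_, rfl⟩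
    have hmem : ∀ g ∈ S, ρ ∩ D.arc g ⊆ ↑(Z.filter fun q => q ∈ D.arc g) := by
      intro g hgS q hq
      rw [Finset.mem_coe, Finset.mem_filter]
      refine ⟨?_, hq.2⟩
      rw [hZ, Finset.mem_union, mem_ZZ, mem_ZZ]
      rcases hsub hq.1 with ⟨u, hu, huq⟩ | ⟨u, hu, huq⟩
      · left
        have hqg := hq.2
        rw [← huq] at hqg ⊢
        obtain ⟨k1, k2, k3, k4⟩ := mem_of_par D hf (hS hgS) (fun h => hfS (h ▸ hgS))
          (Ioo_subset_Icc_self (hI1 u hu)) hqg (hv1 u hu)
        refine ⟨k1, k2, ?_⟩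
        rw [k4]
        apply btw_of hu
        · rintro rfl
          rw [t1.2] at hqg
          exact hincc g hgS hqg
        · rintro rfl
          rw [t2.2] at hqg
          exact hincc' g hgS hqg
      · right
        have hqg := hq.2
        rw [← huq] at hqg ⊢
        have hnv : par D e u ∉ range D.pos := by
          rintro ⟨v, hv⟩
          have h7 := (hv2 u hu v hv).1
          rw [← hv, h7] at hqg
          have h8 := D.avoid (tl g) (hd g) x (by
            rw [← SimpleGraph.mem_edgeSet, tl_hd]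
            exact mem_ES.1 (hS hgS)) (by rw [tl_hd]; exact hqg)
          apply (hg g hgS).1
          rw [← tl_hd g, Sym2.mem_iff]
          exact h8
        obtain ⟨k1, k2, k3, k4⟩ := mem_of_par D he (hS hgS) (fun h => heS (h ▸ hgS))
          (hI2 u hu) hqg hnv
        refine ⟨k1, k2, ?_⟩
        rw [k4]
        apply btw_of hu
        · rintro rfl
          rw [t3.2] at hqg
          exact hincc' g hgS hqg
        · rintro rfl
          exact hnv ⟨x, hτx.symm⟩
    refine ⟨fun g hgS => (Finset.finite_toSet _).subset (hmem g hgS), ?_⟩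
    calc ∑ g ∈ S, (ρ ∩ D.arc g).ncard ≤ ∑ g ∈ S, (Z.filter fun q => q ∈ D.arc g).card := by
          refine Finset.sum_le_sum fun g hgS => ?_
          have := Set.ncard_le_ncard (hmem g hgS) (Finset.finite_toSet _)
          rwa [Set.ncard_coe_finset] at this
      _ = ∑ q ∈ Z, (S.filter fun g => q ∈ D.arc g).card := by
          simp only [Finset.card_filter]
          exact Finset.sum_comm
      _ ≤ ∑ q ∈ Z, 1 := by
          refine Finset.sum_le_sum fun q hq => ?_
          rw [hZ, Finset.mem_union, mem_ZZ, mem_ZZ] at hq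
          rcases hq with ⟨k1, k2, -⟩ | ⟨k1, k2, -⟩
          · exact cnt_S D k1 k2 S hS hfS
          · exact cnt_S D k1 k2 S hS heS
      _ = Z.card := by rw [Finset.sum_const, smul_eq_mul, mul_one]
      _ ≤ _ := by
          rw [hZ]
          exact Finset.card_union_le _ _

private theorem road_mem_onE {ι κ : Type} (C : Finset κ) (inc : κ → Finset ι) (e : ι) (c : κ) :
    c ∈ onE C inc e ↔ c ∈ C ∧ e ∈ inc c := by
  unfold onE
  exact Finset.mem_filter

private theorem ZZ_comm (D : Drawing G) (e : Sym2 V) (a b : ℝ) : ZZ D e a b = ZZ D e b a := by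
  ext q
  rw [mem_ZZ, mem_ZZ]
  unfold Btw
  rw [min_comm, max_comm]

private theorem ZZ_le (D : Drawing G) {e : Sym2 V} {c c' : ℂ} (h : tm D e c ≤ tm D e c') :
    (ZZ D e (tm D e c) (tm D e c')).card + rk D e c ≤ rk D e c' := by
  unfold rk
  rw [← Finset.card_union_of_disjoint]
  · apply Finset.card_le_card
    intro q hq
    rw [Finset.mem_union, mem_ZZ, Finset.mem_filter] at hq
    rw [Finset.mem_filter]
    rcases hq with ⟨k1, k2, k3⟩ | ⟨k1, k2, k3⟩
    · have := k3.2
      rw [max_eq_right h] at this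
      exact ⟨k1, k2, this⟩
    · exact ⟨k1, k2, k3.trans_le h⟩
  · rw [Finset.disjoint_left]
    intro q hq hq'
    rw [mem_ZZ] at hq
    rw [Finset.mem_filter] at hq'
    have := hq.2.2.1
    rw [min_eq_left h] at this
    linarith [hq'.2.2]

theorem road (D : Drawing G) (R : ℕ) {h : Sym2 V × Bool} (hh : h.1 ∈ ES G) {c : ℂ}
    (hc : c ∈ CC D) (hN : Near (CC D) (inc D) (rk D) R h c) :
    ∃ ρ : Set ℂ, IsRoad c (D.pos (endp h)) ρ ∧ (∀ v, D.pos v ∈ ρ → v = endp h) ∧
      ∀ S : Finset (Sym2 V), S ⊆ ES G → (∀ g ∈ S, endp h ∉ g ∧ g ∉ inc D c) →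
        (∀ g ∈ S, (ρ ∩ D.arc g).Finite) ∧ ∑ g ∈ S, (ρ ∩ D.arc g).ncard ≤ 2 * R := by
  obtain ⟨c', hc', h1, hr, f, h2, hef, h3, hr1, hr2⟩ := hN
  obtain ⟨e, b⟩ := h
  simp only at hh h1 hef
  obtain ⟨τ, hτ⟩ : ∃ τ : ℝ, τ = if b then 1 else 0 := ⟨_, rfl⟩
  have hτ' : (τ = 0 ∧ endp (e, b) = tl e) ∨ (τ = 1 ∧ endp (e, b) = hd e) := by
    unfold endp
    cases b with
    | false => left; rw [hτ]; simp
    | true => right; rw [hτ]; simp
  obtain ⟨ρ, k1, k2, k3⟩ := road_core D hh hef hc hc' h1 h2 h3 (endp (e, b)) τ hτ'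
  refine ⟨ρ, k1, k2, fun S hS hg => ⟨(k3 S hS hg).1, (k3 S hS hg).2.trans ?_⟩⟩
  have z1 : (ZZ D f (tm D f c) (tm D f c')).card ≤ R := by
    rcases le_total (tm D f c) (tm D f c') with h4 | h4
    · have := ZZ_le D h4
      omega
    · rw [ZZ_comm]
      have := ZZ_le D h4
      omega
  have t3 := tm_mem D hc' h1
  have z2 : (ZZ D e (tm D e c') τ).card ≤ R := by
    refine le_trans ?_ hr.le
    unfold rkb
    cases b with
    | false =>
      simp only [Bool.false_eq_true, if_false] at hτ ⊢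
      unfold rk
      apply Finset.card_le_card
      intro q hq
      rw [mem_ZZ] at hq
      rw [Finset.mem_filter]
      refine ⟨hq.1, hq.2.1, ?_⟩
      have := hq.2.2.2
      rw [hτ, max_eq_left t3.1.1.le] at this
      exact this
    | true =>
      simp only [if_true] at hτ ⊢
      have h5 : (ZZ D e (tm D e c') τ).card + (rk D e c' + 1) ≤ (onE (CC D) (inc D) e).card := by
        unfold rk
        rw [← Finset.card_insert_of_notMem (a := c') (s := (CC D).filter fun q => e ∈ inc D q ∧ tm D e q < tm D e c')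
          (by
            rw [Finset.mem_filter]
            rintro ⟨-, -, h6⟩
            exact lt_irrefl _ h6), ← Finset.card_union_of_disjoint]
        · apply Finset.card_le_card
          intro q hq
          rw [Finset.mem_union, mem_ZZ, Finset.mem_insert, Finset.mem_filter] at hq
          rw [road_mem_onE]
          rcases hq with hq | rfl | hq
          · exact ⟨hq.1, hq.2.1⟩
          · exact ⟨hc', h1⟩
          · exact ⟨hq.1, hq.2.1⟩
        · rw [Finset.disjoint_left]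
          intro q hq hq'
          rw [mem_ZZ] at hq
          have h6 := hq.2.2.1
          rw [hτ, min_eq_left t3.1.2.le] at h6
          rw [Finset.mem_insert, Finset.mem_filter] at hq'
          rcases hq' with rfl | hq'
          · exact lt_irrefl _ h6
          · linarith [hq'.2.2]
      omega
  omega

end H29.BT
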