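import Pool.Agent.H29.BP.Exist
import Pool.Agent.H29.BP.CDef

/-!
# [H29 BT STRAIGHT] straight line drawings

Paper proof (as `exists_drawing` in `BP/Exist.lean`): `arc e` is the segment (`Sym2.lift`, `segment_symm`).
`avoid`: `h1`. Two edges with a common end point meet only there (`h2`: two segments from `pos u` with a further common
point are on one line). Two edges without common end point: if they meet then
`cp (pos b - pos a) (pos d - pos c) ≠ 0` by `h3`, so they have at most one common point, it is not the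
place of a vertex (`h1`), and they cross properly there (`cross_segment`). `no_triple`: three different
edges with a common point which is not a vertex: any two of them have no common end point, so
six different vertices: excluded by `h4`.
-/

set_option autoImplicit false

open Set

namespace H29.BT

open H29.BP

theorem straight {Ω : Type} [Finite Ω] (K : SimpleGraph Ω) (pos : Ω → ℂ)
    (hinj : Function.Injective pos)
    (h1 : ∀ u v w, K.Adj u v → w ≠ u → w ≠ v → pos w ∉ segment ℝ (pos u) (pos v))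
    (h2 : ∀ u v w, K.Adj u v → K.Adj u w → v ≠ w → cp (pos v - pos u) (pos w - pos u) ≠ 0)
    (h3 : ∀ a b c d, K.Adj a b → K.Adj c d → [a, b, c, d].Nodup →
      (segment ℝ (pos a) (pos b) ∩ segment ℝ (pos c) (pos d)).Nonempty →
      cp (pos b - pos a) (pos d - pos c) ≠ 0)
    (h4 : ∀ a b c d e f, K.Adj a b → K.Adj c d → K.Adj e f → [a, b, c, d, e, f].Nodup →
      ∀ p ∈ segment ℝ (pos a) (pos b), p ∈ segment ℝ (pos c) (pos d) →
        p ∉ segment ℝ (pos e) (pos f)) :
    ∃ D : Drawing K, D.pos = pos ∧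
      (∀ u v, K.Adj u v → D.arc s(u, v) = segment ℝ (pos u) (pos v)) ∧
      (∀ e ∈ K.edgeSet, ∀ f ∈ K.edgeSet, e ≠ f → Meets e f → D.X e f = ∅) ∧
      ∀ e ∈ K.edgeSet, ∀ f ∈ K.edgeSet, e ≠ f → (D.X e f).ncard ≤ 1 := by
  classical
  set arc : Sym2 Ω → Set ℂ := Sym2.lift ⟨fun a b => segment ℝ (pos a) (pos b),
    fun a b => segment_symm ℝ _ _⟩ with harc
  have harc' : ∀ a b, arc s(a, b) = segment ℝ (pos a) (pos b) := fun a b => rfl
  have hends : ∀ e ∈ K.edgeSet, ∃ a b, K.Adj a b ∧ e = s(a, b) := by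
    intro e he
    induction e using Sym2.ind with
    | _ a b => exact ⟨a, b, he, rfl⟩
  -- two edges with a common end point meet only there
  have hcom : ∀ e ∈ K.edgeSet, ∀ f ∈ K.edgeSet, e ≠ f → ∀ v, v ∈ e → v ∈ f → ∀ p ∈ arc e,
      p ∈ arc f → p = pos v := by
    intro e he f hf hef v hve hvf p hp hp'
    obtain ⟨x, rfl⟩ := Sym2.mem_iff_exists.1 hve
    obtain ⟨y, rfl⟩ := Sym2.mem_iff_exists.1 hvf
    have hxy : x ≠ y := by
      rintro rfl
      exact hef rfl
    rw [harc'] at hp hp'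
    refine lines_unique (h2 v x y he hf hxy) (cp_segment hp) ?_ (cp_segment hp') ?_
    · simp [cp]
    · simp [cp]
  -- the end points of two edges without common end point
  have hnd : ∀ a b c d, K.Adj a b → K.Adj c d → ¬ Meets s(a, b) s(c, d) →
      a ≠ c ∧ a ≠ d ∧ b ≠ c ∧ b ≠ d := by
    intro a b c d hab hcd h
    refine ⟨?_, ?_, ?_, ?_⟩
    · rintro rfl
      exact h ⟨a, by simp, by simp⟩
    · rintro rfl
      exact h ⟨a, by simp, by simp⟩
    · rintro rfl
      exact h ⟨b, by simp, by simp⟩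
    · rintro rfl
      exact h ⟨b, by simp, by simp⟩
  have hcp : ∀ a b c d, K.Adj a b → K.Adj c d → ¬ Meets s(a, b) s(c, d) → ∀ p,
      p ∈ segment ℝ (pos a) (pos b) → p ∈ segment ℝ (pos c) (pos d) →
      cp (pos b - pos a) (pos d - pos c) ≠ 0 := by
    intro a b c d hab hcd h p hp hp'
    obtain ⟨k1, k2, k3, k4⟩ := hnd a b c d hab hcd h
    refine h3 a b c d hab hcd ?_ ⟨p, hp, hp'⟩
    simp only [List.nodup_cons, List.mem_cons, List.not_mem_nil, or_false, not_or,
      List.nodup_nil, not_false_eq_true, and_true]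
    exact ⟨⟨hab.ne, k1, k2⟩, ⟨k3, k4⟩, hcd.ne⟩
  have hone : ∀ e ∈ K.edgeSet, ∀ f ∈ K.edgeSet, e ≠ f → ∀ p q, p ∈ arc e → p ∈ arc f →
      q ∈ arc e → q ∈ arc f → p = q := by
    intro e he f hf hef p q hpe hpf hqe hqf
    by_cases hm : Meets e f
    · obtain ⟨v, hve, hvf⟩ := hm
      rw [hcom e he f hf hef v hve hvf p hpe hpf, hcom e he f hf hef v hve hvf q hqe hqf]
    · obtain ⟨a, b, hab, rfl⟩ := hends e he
      obtain ⟨c, d, hcd, rfl⟩ := hends f hf
      rw [harc'] at hpe hpf hqe hqf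
      exact lines_unique (hcp a b c d hab hcd hm p hpe hpf) (cp_segment hpe) (cp_segment hqe)
        (cp_segment hpf) (cp_segment hqf)
  have hnm : ∀ e ∈ K.edgeSet, ∀ f ∈ K.edgeSet, e ≠ f → ∀ p, p ∈ arc e → p ∈ arc f →
      p ∉ range pos → ¬ Meets e f := by
    rintro e he f hf hef p hpe hpf hp ⟨v, hve, hvf⟩
    exact hp ⟨v, (hcom e he f hf hef v hve hvf p hpe hpf).symm⟩
  have hex : ∃ D : Drawing K, D.pos = pos ∧ D.arc = arc := by
    refine ⟨{ pos := pos
              arc := arc
              pos_inj := hinj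
              isArc := ?_
              avoid := ?_
              inter_finite := ?_
              proper := ?_
              no_triple := ?_ }, rfl, rfl⟩
    · intro u v huv
      rw [harc']
      exact isArc_segment (fun h => huv.ne (hinj h))
    · intro u v w huv hw
      rw [harc'] at hw
      by_contra hcon
      push Not at hcon
      exact h1 u v w huv hcon.1 hcon.2 hw
    · intro e he f hf hef
      refine Set.Subsingleton.finite ?_
      rintro p ⟨k1, k2⟩ q ⟨k3, k4⟩
      exact hone e he f hf hef p q k1 k2 k3 k4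
    · intro e he f hf hef p hp hpp
      have hm := hnm e he f hf hef p hp.1 hp.2 hpp
      obtain ⟨a, b, hab, rfl⟩ := hends e he
      obtain ⟨c, d, hcd, rfl⟩ := hends f hf
      rw [harc', harc'] at hp ⊢
      refine cross_segment hp.1 hp.2 ?_ ?_ ?_ ?_ (hcp a b c d hab hcd hm p hp.1 hp.2)
      · rintro rfl
        exact hpp ⟨a, rfl⟩
      · rintro rfl
        exact hpp ⟨b, rfl⟩
      · rintro rfl
        exact hpp ⟨c, rfl⟩
      · rintro rfl
        exact hpp ⟨d, rfl⟩
    · intro e he f hf g hg hef heg hfg p hp hpg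
      by_contra hpp
      have m1 := hnm e he f hf hef p hp.1 hp.2 hpp
      have m2 := hnm e he g hg heg p hp.1 hpg hpp
      have m3 := hnm f hf g hg hfg p hp.2 hpg hpp
      obtain ⟨a, b, hab, rfl⟩ := hends e he
      obtain ⟨c, d, hcd, rfl⟩ := hends f hf
      obtain ⟨x, y, hxy, rfl⟩ := hends g hg
      rw [harc', harc'] at hp
      rw [harc'] at hpg
      obtain ⟨k1, k2, k3, k4⟩ := hnd a b c d hab hcd m1
      obtain ⟨k5, k6, k7, k8⟩ := hnd a b x y hab hxy m2
      obtain ⟨k9, k10, k11, k12⟩ := hnd c d x y hcd hxy m3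
      refine h4 a b c d x y hab hcd hxy ?_ p hp.1 hp.2 hpg
      simp only [List.nodup_cons, List.mem_cons, List.not_mem_nil, or_false, not_or,
        List.nodup_nil, not_false_eq_true, and_true]
      exact ⟨⟨hab.ne, k1, k2, k5, k6⟩, ⟨k3, k4, k7, k8⟩, ⟨hcd.ne, k9, k10⟩, ⟨k11, k12⟩, hxy.ne⟩
  obtain ⟨D, hD1, hD2⟩ := hex
  refine ⟨D, hD1, fun u v _ => by rw [hD2, harc'], ?_, ?_⟩
  · rintro e he f hf hef ⟨v, hve, hvf⟩
    rw [Set.eq_empty_iff_forall_notMem]
    rintro p ⟨⟨hp, hp'⟩, hpp⟩
    rw [hD2] at hp hp'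
    rw [hD1] at hpp
    exact hpp ⟨v, (hcom e he f hf hef v hve hvf p hp hp').symm⟩
  · intro e he f hf hef
    have hsub : (D.X e f).Subsingleton := by
      rintro p ⟨⟨k1, k2⟩, -⟩ q ⟨⟨k3, k4⟩, -⟩
      rw [hD2] at k1 k2 k3 k4
      exact hone e he f hf hef p q k1 k2 k3 k4
    have : Finite (D.X e f) := hsub.finite
    exact Set.ncard_le_one_iff_subsingleton.2 hsub

end H29.BT
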