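import Pool.Agent.H29.BT.GDef
import Pool.Agent.H29.BT.GenS
import Pool.Agent.H29.BT.Straight

/-!
# [H29 BT STRIP] the drawing of the strip

`posA`, `posB` are the places of the vertices of the two sheets, in the half planes `im ≥ 1` and `im ≤ -1`; only
the ports are on the lines `im = 1`, `im = -1`.

Paper proof. Ports: the type `P` of all elements `w : (WV V ⊕ WV V) ⊕ (WV V ⊕ WV V)` whose place has
`im = 1` or `im = -1` (a subtype; the place of `inl w` is `posA w`, of `inr w` is `posB w`).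
`genStrip` with `N` there equal to `V` gives places `q v` for all `v : V`, `|im| < 1`. `pos (inl v) = q v`,
`pos (iA w) = posA w`, `pos (iB w) = posB w`; injective by the imaginary parts. Every edge of
`KS` joins a vertex `inl x`, `x ∈ N`, with a vertex `inl x'` or with a port (`hpA`, `hpB`), so its indices form a good pair.
Apply `straight`: `h1`: if `w` is a third vertex of the form `inl v` or a port, then it is not on the line
(`cp ≠ 0`); if `w` is another vertex of a sheet then its place has `|im| > 1`, while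
the segment is in `|im| ≤ 1`. `h2`, `h3`: for `h2` `cp ≠ 0` is the first property of `genStrip`; for `h3`: if `cp (b - a) (d - c) = 0` and the
segments meet, then the four points are on one line, against the first property. `h4`: second property.
All points of a segment of an edge have `|im| ≤ 1`, with equality only at the port (the
other end has `|im| < 1`).
Number of crossings: `two_mul_cr`; assign to the edges `s(inl x, inl x')`, `s(inl x, ptA s(x,y))`,
`s(inl x, ptB s(x,y))` of `KS` the edge `s(x,x')`, `s(x,y)` of `G`; this is injective (`A`, `B`, `N` are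
disjoint) with values in `EN G N`; the pairs of different edges of `KS` with a common vertex do not
cross, all others at most once. Two edges of `KS` without common vertex have images which have no
common end in `N`: if `x ∈ N` is an end of both, then `inl x` is a vertex of both (an end in `N` of `s(x,y)`, `y ∈ A`, is
`x`). So `2 * D.cr ≤ (SP G N).card`.
-/

set_option autoImplicit false

open Set

namespace H29.BT

open H29.BP

open scoped Classical in
/-- the edges of the strip: the corresponding edge of `G` -/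
private def Rel {V : Type} (G : SimpleGraph V) (N A B : Set V) (e : Sym2 (OV V)) (g : Sym2 V) :
    Prop :=
  ∃ x y, G.Adj x y ∧ x ∈ N ∧ g = s(x, y) ∧ ((y ∈ N ∧ e = s(Sum.inl x, Sum.inl y)) ∨
    (y ∈ A ∧ e = s(Sum.inl x, ptA s(x, y))) ∨ (y ∈ B ∧ e = s(Sum.inl x, ptB s(x, y))))

private theorem rel_ex {V : Type} {G : SimpleGraph V} {N A B : Set V} {e : Sym2 (OV V)}
    (he : e ∈ (KS G N A B).edgeSet) : ∃ g, Rel G N A B e g := by
  have key : ∀ p q : OV V, ((∃ x x', G.Adj x x' ∧ x ∈ N ∧ x' ∈ N ∧ p = Sum.inl x ∧ q = Sum.inl x') ∨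
    (∃ x y, G.Adj x y ∧ x ∈ N ∧ y ∈ A ∧ p = Sum.inl x ∧ q = ptA s(x, y)) ∨
    (∃ x y, G.Adj x y ∧ x ∈ N ∧ y ∈ B ∧ p = Sum.inl x ∧ q = ptB s(x, y))) →
    ∃ g, Rel G N A B s(p, q) g := by
    rintro p q (⟨x, y, h, hx, hy, rfl, rfl⟩ | ⟨x, y, h, hx, hy, rfl, rfl⟩ |
      ⟨x, y, h, hx, hy, rfl, rfl⟩)
    · exact ⟨s(x, y), x, y, h, hx, rfl, Or.inl ⟨hy, rfl⟩⟩
    · exact ⟨s(x, y), x, y, h, hx, rfl, Or.inr (Or.inl ⟨hy, rfl⟩)⟩
    · exact ⟨s(x, y), x, y, h, hx, rfl, Or.inr (Or.inr ⟨hy, rfl⟩)⟩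
  induction e using Sym2.ind with
  | _ p q =>
    rw [SimpleGraph.mem_edgeSet, KS, SimpleGraph.fromRel_adj] at he
    obtain ⟨_, h | h⟩ := he
    · exact key p q h
    · rw [Sym2.eq_swap]
      exact key q p h

private theorem rel_inj {V : Type} {G : SimpleGraph V} {N A B : Set V} (hNA : Disjoint N A)
    (hNB : Disjoint N B) (hAB : Disjoint A B) {e f : Sym2 (OV V)} {g : Sym2 V}
    (h1 : Rel G N A B e g) (h2 : Rel G N A B f g) : e = f := by
  have nA : ∀ v, v ∈ N → v ∉ A := fun v h h' => Set.disjoint_left.1 hNA h h'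
  have nB : ∀ v, v ∈ N → v ∉ B := fun v h h' => Set.disjoint_left.1 hNB h h'
  have aB : ∀ v, v ∈ A → v ∉ B := fun v h h' => Set.disjoint_left.1 hAB h h'
  obtain ⟨x, y, h, hx, rfl, h3⟩ := h1
  obtain ⟨x', y', h', hx', hg, h4⟩ := h2
  rw [Sym2.eq_iff] at hg
  rcases hg with ⟨rfl, rfl⟩ | ⟨rfl, rfl⟩
  · rcases h3 with ⟨k, rfl⟩ | ⟨k, rfl⟩ | ⟨k, rfl⟩ <;>
      rcases h4 with ⟨k', rfl⟩ | ⟨k', rfl⟩ | ⟨k', rfl⟩
    · rfl
    · exact absurd k' (nA _ k)
    · exact absurd k' (nB _ k)
    · exact absurd k (nA _ k')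
    · rfl
    · exact absurd k' (aB _ k)
    · exact absurd k (nB _ k')
    · exact absurd k (aB _ k')
    · rfl
  · rcases h3 with ⟨k, rfl⟩ | ⟨k, rfl⟩ | ⟨k, rfl⟩
    · rcases h4 with ⟨k', rfl⟩ | ⟨k', rfl⟩ | ⟨k', rfl⟩
      · rw [Sym2.eq_swap]
      · exact absurd k' (nA _ hx)
      · exact absurd k' (nB _ hx)
    · exact absurd k (nA _ hx')
    · exact absurd k (nB _ hx')

private theorem rel_mem {V : Type} {G : SimpleGraph V} {N A B : Set V} (hNA : Disjoint N A)
    (hNB : Disjoint N B) {e : Sym2 (OV V)} {g : Sym2 V}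
    (h1 : Rel G N A B e g) {z : V} (hz : z ∈ N) (hzg : z ∈ g) : Sum.inl z ∈ e := by
  obtain ⟨x, y, h, hx, rfl, h3⟩ := h1
  rcases Sym2.mem_iff.1 hzg with rfl | rfl
  · rcases h3 with ⟨k, rfl⟩ | ⟨k, rfl⟩ | ⟨k, rfl⟩ <;> exact Sym2.mem_mk_left _ _
  · rcases h3 with ⟨k, rfl⟩ | ⟨k, rfl⟩ | ⟨k, rfl⟩
    · exact Sym2.mem_mk_right _ _
    · exact absurd k fun k => Set.disjoint_left.1 hNA hz k
    · exact absurd k fun k => Set.disjoint_left.1 hNB hz k

private theorem im_comb {a b z : ℂ} (ha : |a.im| < 1) (hb : |b.im| ≤ 1)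
    (hz : z ∈ segment ℝ a b) : |z.im| ≤ 1 ∧ (|z.im| = 1 → z = b) := by
  obtain ⟨r, t, hr, ht, hrt, rfl⟩ := hz
  have h1 : (r • a + t • b : ℂ).im = r * a.im + t * b.im := by
    simp
  have h2 : |r * a.im + t * b.im| ≤ r * |a.im| + t * |b.im| := by
    refine (abs_add_le _ _).trans ?_
    rw [abs_mul, abs_mul, abs_of_nonneg hr, abs_of_nonneg ht]
  rw [h1]
  refine ⟨?_, ?_⟩
  · refine h2.trans ?_
    nlinarith [abs_nonneg a.im, abs_nonneg b.im]
  · intro h
    rw [h] at h2
    have hr0 : r = 0 := by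
      by_contra hne
      have hpos : 0 < r := lt_of_le_of_ne hr (Ne.symm hne)
      nlinarith [abs_nonneg a.im, abs_nonneg b.im]
    have ht1 : t = 1 := by linarith
    rw [hr0, ht1]
    simp

private theorem genStrip' {N P : Type} [Finite N] [Finite P] (port : P → ℂ)
    (hinj : Function.Injective port) (him : ∀ p, (port p).im = 1 ∨ (port p).im = -1) :
    ∃ pos : N ⊕ P → ℂ, (∀ p, pos (Sum.inr p) = port p) ∧ (∀ n, |(pos (Sum.inl n)).im| < 1) ∧
      (∀ a b c : N ⊕ P, a ≠ b → a ≠ c → b ≠ c → (a.isLeft ∨ b.isLeft ∨ c.isLeft) →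
        cp (pos b - pos a) (pos c - pos a) ≠ 0) ∧
      (∀ a b c d e f : N ⊕ P, [a, b, c, d, e, f].Nodup → (a.isLeft ∨ b.isLeft) →
        (c.isLeft ∨ d.isLeft) → (e.isLeft ∨ f.isLeft) →
        ∀ p ∈ segment ℝ (pos a) (pos b), p ∈ segment ℝ (pos c) (pos d) →
          p ∉ segment ℝ (pos e) (pos f)) ∧
      ∀ a b : N, pos (Sum.inl a) = pos (Sum.inl b) → a = b := by
  obtain ⟨q, h1, h2, h3, h4⟩ := genStrip (N := Option N) port hinj him
  set κ : N ⊕ P → Option N ⊕ P := Sum.map some id with hκ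
  have hκi : Function.Injective κ := by
    rintro (a | a) (b | b) h
    · exact congrArg _ (Option.some.inj (Sum.inl.inj h))
    · exact absurd h (by simp [hκ])
    · exact absurd h (by simp [hκ])
    · exact congrArg _ (Sum.inr.inj h)
  have hκl : ∀ a, (κ a).isLeft = a.isLeft := by
    rintro (a | a) <;> rfl
  refine ⟨q ∘ κ, fun p => h1 p, fun n => h2 (some n), ?_, ?_, ?_⟩
  · intro a b c hab hac hbc h
    refine h3 (κ a) (κ b) (κ c) (fun h => hab (hκi h)) (fun h => hac (hκi h))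
      (fun h => hbc (hκi h)) ?_
    rwa [hκl, hκl, hκl]
  · intro a b c d e f hnd k1 k2 k3
    refine h4 (κ a) (κ b) (κ c) (κ d) (κ e) (κ f) (List.Nodup.map hκi hnd) ?_ ?_ ?_
    · rwa [hκl, hκl]
    · rwa [hκl, hκl]
    · rwa [hκl, hκl]
  · intro a b h
    by_contra hne
    have h5 : q (Sum.inl (some a)) = q (Sum.inl (some b)) := h
    refine h3 (Sum.inl (some a)) (Sum.inl (some b)) (Sum.inl none) (fun h => hne ?_) (by simp)
      (by simp) (Or.inl rfl) ?_
    · exact Option.some.inj (Sum.inl.inj h)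
    · rw [h5]
      simp [cp]

theorem strip {V : Type} [Finite V] (G : SimpleGraph V) (N A B : Set V) (hNA : Disjoint N A)
    (hNB : Disjoint N B) (hAB : Disjoint A B) (posA posB : WV V ⊕ WV V → ℂ)
    (hiA : Function.Injective posA) (hiB : Function.Injective posB)
    (hA : ∀ w, 1 ≤ (posA w).im) (hB : ∀ w, (posB w).im ≤ -1)
    (hpA : ∀ x y, G.Adj x y → x ∈ N → y ∈ A → (posA (Sum.inr (mid s(x, y)))).im = 1)
    (hpB : ∀ x y, G.Adj x y → x ∈ N → y ∈ B → (posB (Sum.inr (mid s(x, y)))).im = -1) :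
    ∃ D : Drawing (KS G N A B), (∀ w, D.pos (iA w) = posA w) ∧ (∀ w, D.pos (iB w) = posB w) ∧
      (∀ v, |(D.pos (Sum.inl v)).im| < 1) ∧
      (∀ u v, (KS G N A B).Adj u v → D.arc s(u, v) = segment ℝ (D.pos u) (D.pos v)) ∧
      (∀ e ∈ (KS G N A B).edgeSet, ∀ z ∈ D.arc e, |z.im| ≤ 1 ∧ (|z.im| = 1 → z ∈ range D.pos)) ∧
      2 * D.cr ≤ (SP G N).card := by
  classical
  set place : (WV V ⊕ WV V) ⊕ (WV V ⊕ WV V) → ℂ := Sum.elim posA posB with hplace
  have hplinj : Function.Injective place := by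
    rintro (a | a) (b | b) h
    · exact congrArg _ (hiA h)
    · exfalso
      have h1 : posA a = posB b := h
      have h2 := hA a
      have h3 := hB b
      rw [h1] at h2
      linarith
    · exfalso
      have h1 : posB a = posA b := h
      have h2 := hA b
      have h3 := hB a
      rw [h1] at h3
      linarith
    · exact congrArg _ (hiB h)
  have hplabs : ∀ w, 1 ≤ |(place w).im| := by
    rintro (a | a)
    · exact (hA a).trans (le_abs_self _)
    · have h2 := hB a
      have h3 := neg_abs_le (posB a).im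
      show 1 ≤ |(posB a).im|
      linarith
  obtain ⟨q, hq1, hq2, hq3, hq4, hq5⟩ := genStrip' (N := V)
    (P := {w : (WV V ⊕ WV V) ⊕ (WV V ⊕ WV V) // (place w).im = 1 ∨ (place w).im = -1})
    (fun p => place p.1) (fun a b h => Subtype.ext (hplinj h)) (fun p => p.2)
  set ι : V ⊕ {w : (WV V ⊕ WV V) ⊕ (WV V ⊕ WV V) // (place w).im = 1 ∨ (place w).im = -1} →
    OV V := Sum.elim Sum.inl (fun p => Sum.inr p.1) with hι
  have hιinj : Function.Injective ι := by
    rintro (a | a) (b | b) h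
    · exact congrArg _ (Sum.inl.inj h)
    · exact absurd h (by simp [hι])
    · exact absurd h (by simp [hι])
    · exact congrArg _ (Subtype.ext (Sum.inr.inj h))
  set pos : OV V → ℂ := Sum.elim (fun v => q (Sum.inl v)) place with hpos
  have hposι : ∀ i, pos (ι i) = q i := by
    rintro (a | a)
    · rfl
    · show place a.1 = q (Sum.inr a)
      rw [hq1]
  have hqim : ∀ i, |(q i).im| ≤ 1 := by
    rintro (a | a)
    · exact (hq2 a).le
    · rw [hq1]
      rcases a.2 with h | h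
      · rw [h]; norm_num
      · rw [h]; norm_num
  have hleft : ∀ i, i.isLeft → |(q i).im| < 1 := by
    rintro (a | a) h
    · exact hq2 a
    · simp at h
  have hnotι : ∀ w, (∀ i, w ≠ ι i) → 1 < |(pos w).im| := by
    rintro (a | a) h
    · exact absurd rfl (h (Sum.inl a))
    · refine lt_of_le_of_ne (hplabs a) fun h1 => ?_
      have h2 : (place a).im = 1 ∨ (place a).im = -1 := by
        rcases abs_cases (place a).im with ⟨h3, _⟩ | ⟨h3, _⟩
        · left
          rw [← h3]
          exact h1.symm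
        · right
          have h4 : |(place a).im| = 1 := h1.symm
          linarith
      exact h (Sum.inr ⟨a, h2⟩) rfl
  -- the edges join good pairs
  have hpt : ∀ a b, (KS G N A B).Adj a b → ∃ i j, a = ι i ∧ b = ι j ∧ (i.isLeft ∨ j.isLeft) := by
    have key : ∀ a b : OV V, ((∃ x x', G.Adj x x' ∧ x ∈ N ∧ x' ∈ N ∧ a = Sum.inl x ∧ b = Sum.inl x') ∨
      (∃ x y, G.Adj x y ∧ x ∈ N ∧ y ∈ A ∧ a = Sum.inl x ∧ b = ptA s(x, y)) ∨
      (∃ x y, G.Adj x y ∧ x ∈ N ∧ y ∈ B ∧ a = Sum.inl x ∧ b = ptB s(x, y))) →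
      ∃ i j, a = ι i ∧ b = ι j ∧ (i.isLeft ∨ j.isLeft) := by
      rintro a b (⟨x, y, h, hx, hy, rfl, rfl⟩ | ⟨x, y, h, hx, hy, rfl, rfl⟩ |
        ⟨x, y, h, hx, hy, rfl, rfl⟩)
      · exact ⟨Sum.inl x, Sum.inl y, rfl, rfl, Or.inl rfl⟩
      · exact ⟨Sum.inl x, Sum.inr ⟨Sum.inl (Sum.inr (mid s(x, y))), Or.inl (hpA x y h hx hy)⟩, rfl,
          rfl, Or.inl rfl⟩
      · exact ⟨Sum.inl x, Sum.inr ⟨Sum.inr (Sum.inr (mid s(x, y))), Or.inr (hpB x y h hx hy)⟩, rfl,
          rfl, Or.inl rfl⟩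
    intro a b hab
    rw [KS, SimpleGraph.fromRel_adj] at hab
    obtain ⟨_, h | h⟩ := hab
    · exact key a b h
    · obtain ⟨i, j, h1, h2, h3⟩ := key b a h
      exact ⟨j, i, h2, h1, h3.symm⟩
  have hneι : ∀ {a b : OV V} {i j}, (KS G N A B).Adj a b → a = ι i → b = ι j → i ≠ j := by
    intro a b i j hab ha hb hij
    rw [hij] at ha
    exact hab.ne (ha.trans hb.symm)
  have hseg : ∀ {a b : OV V} {i j} {p : ℂ}, a = ι i → b = ι j → p ∈ segment ℝ (pos a) (pos b) →
      |p.im| ≤ 1 := by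
    rintro a b i j p rfl rfl hp
    rw [hposι, hposι] at hp
    obtain ⟨r, t, hr, ht, hrt, rfl⟩ := hp
    have h1 : (r • q i + t • q j : ℂ).im = r * (q i).im + t * (q j).im := by
      simp
    rw [h1]
    refine (abs_add_le _ _).trans ?_
    rw [abs_mul, abs_mul, abs_of_nonneg hr, abs_of_nonneg ht]
    nlinarith [abs_nonneg (q i).im, abs_nonneg (q j).im, hqim i, hqim j]
  have hposinj : Function.Injective pos := by
    rintro (a | a) (b | b) h
    · exact congrArg _ (hq5 a b h)
    · exfalso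
      have h1 : q (Sum.inl a) = place b := h
      have h2 := hq2 a
      rw [h1] at h2
      linarith [hplabs b]
    · exfalso
      have h1 : place a = q (Sum.inl b) := h
      have h2 := hq2 b
      rw [← h1] at h2
      linarith [hplabs a]
    · exact congrArg _ (hplinj h)
  have c1 : ∀ u v w, (KS G N A B).Adj u v → w ≠ u → w ≠ v → pos w ∉ segment ℝ (pos u) (pos v) := by
    intro u v w huv hwu hwv hw
    obtain ⟨i, j, hi, hj, hij⟩ := hpt u v huv
    have h1 := hseg hi hj hw
    by_cases hk : ∃ k, w = ι k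
    · obtain ⟨k, rfl⟩ := hk
      subst hi hj
      have h2 := cp_segment hw
      rw [hposι, hposι, hposι] at h2
      refine hq3 i j k (hneι huv rfl rfl) (fun h => hwu (by rw [h])) (fun h => hwv (by rw [h])) ?_ h2
      rcases hij with h | h
      · exact Or.inl h
      · exact Or.inr (Or.inl h)
    · push Not at hk
      exact absurd h1 (not_le.2 (hnotι w hk))
  have c2 : ∀ u v w, (KS G N A B).Adj u v → (KS G N A B).Adj u w → v ≠ w →
      cp (pos v - pos u) (pos w - pos u) ≠ 0 := by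
    intro u v w huv huw hvw
    obtain ⟨i, j, rfl, rfl, hij⟩ := hpt u v huv
    obtain ⟨i', k, hi, rfl, hik⟩ := hpt _ w huw
    have hii : i = i' := hιinj hi
    subst hii
    rw [hposι, hposι, hposι]
    refine hq3 i j k (hneι huv rfl rfl) (hneι huw rfl rfl) (fun h => hvw (by rw [h])) ?_
    rcases hij with h | h
    · exact Or.inl h
    · exact Or.inr (Or.inl h)
  have c3 : ∀ a b c d, (KS G N A B).Adj a b → (KS G N A B).Adj c d → [a, b, c, d].Nodup →
      (segment ℝ (pos a) (pos b) ∩ segment ℝ (pos c) (pos d)).Nonempty →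
      cp (pos b - pos a) (pos d - pos c) ≠ 0 := by
    rintro a b c d hab hcd hnd ⟨p, hp1, hp2⟩ h0
    obtain ⟨i, j, rfl, rfl, hij⟩ := hpt a b hab
    obtain ⟨k, l, rfl, rfl, hkl⟩ := hpt c d hcd
    have h1 := cp_segment hp1
    obtain ⟨r, t, hr, ht, hrt, rfl⟩ := hp2
    rw [hposι, hposι, hposι, hposι] at *
    have h2 : cp (q j - q i) (q k - q i) = 0 := by
      have hr1 : r = 1 - t := by linarith
      subst hr1
      simp only [cp, Complex.sub_re, Complex.sub_im, Complex.add_re, Complex.add_im,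
        Complex.real_smul, Complex.mul_re, Complex.mul_im, Complex.ofReal_re,
        Complex.ofReal_im] at h0 h1 ⊢
      linear_combination h1 - t * h0
    simp only [List.nodup_cons, List.mem_cons, List.not_mem_nil, or_false, not_or,
      List.nodup_nil, not_false_eq_true, and_true] at hnd
    refine hq3 i j k (hneι hab rfl rfl) (fun h => hnd.1.2.1 (by rw [h]))
      (fun h => hnd.2.1.1 (by rw [h])) ?_ h2
    rcases hij with h | h
    · exact Or.inl h
    · exact Or.inr (Or.inl h)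
  have c4 : ∀ a b c d e f, (KS G N A B).Adj a b → (KS G N A B).Adj c d → (KS G N A B).Adj e f →
      [a, b, c, d, e, f].Nodup → ∀ p ∈ segment ℝ (pos a) (pos b), p ∈ segment ℝ (pos c) (pos d) →
        p ∉ segment ℝ (pos e) (pos f) := by
    intro a b c d e f hab hcd hef hnd p hp1 hp2 hp3
    obtain ⟨i, j, rfl, rfl, hij⟩ := hpt a b hab
    obtain ⟨k, l, rfl, rfl, hkl⟩ := hpt c d hcd
    obtain ⟨m, n, rfl, rfl, hmn⟩ := hpt e f hef
    rw [hposι, hposι] at hp1 hp2 hp3
    have hnd' : ([i, j, k, l, m, n].map ι).Nodup := hnd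
    exact hq4 i j k l m n (List.Nodup.of_map ι hnd') hij hkl hmn p hp1 hp2 hp3
  obtain ⟨D, hD1, hD2, hD3, hD4⟩ := straight (KS G N A B) pos hposinj c1 c2 c3 c4
  refine ⟨D, fun w => ?_, fun w => ?_, fun v => ?_, ?_, ?_, ?_⟩
  · rw [hD1]
    rfl
  · rw [hD1]
    rfl
  · rw [hD1]
    exact hq2 v
  · intro u v huv
    rw [hD1]
    exact hD2 u v huv
  · intro e he z hz
    induction e using Sym2.ind with
    | _ u v =>
      rw [hD2 u v he] at hz
      obtain ⟨i, j, rfl, rfl, hij⟩ := hpt u v he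
      rw [hposι, hposι] at hz
      rcases hij with h | h
      · have h2 := im_comb (hleft i h) (hqim j) hz
        refine ⟨h2.1, fun h3 => ⟨ι j, ?_⟩⟩
        rw [hD1, hposι]
        exact (h2.2 h3).symm
      · rw [segment_symm] at hz
        have h2 := im_comb (hleft j h) (hqim i) hz
        refine ⟨h2.1, fun h3 => ⟨ι i, ?_⟩⟩
        rw [hD1, hposι]
        exact (h2.2 h3).symm
  · -- counting
    rw [D.two_mul_cr]
    set F : Sym2 V → Sym2 (OV V) := fun g => if h : ∃ e, Rel G N A B e g then h.choose else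
      s(Sum.inr (Sum.inl (Sum.inl rt)), Sum.inr (Sum.inl (Sum.inl rt))) with hF
    have hFe : ∀ e g, Rel G N A B e g → F g = e := by
      intro e g h
      have h1 : ∃ e, Rel G N A B e g := ⟨e, h⟩
      simp only [hF]
      rw [dif_pos h1]
      exact rel_inj hNA hNB hAB h1.choose_spec h
    have h1 : ∑ e ∈ ES (KS G N A B), ∑ f ∈ ES (KS G N A B), D.x e f ≤
        ∑ e ∈ ES (KS G N A B), ∑ f ∈ ES (KS G N A B), if e ≠ f ∧ ¬ Meets e f then 1 else 0 := by
      refine Finset.sum_le_sum fun e he => Finset.sum_le_sum fun f hf => ?_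
      unfold Drawing.x
      by_cases hef : e = f
      · rw [if_pos hef]
        exact Nat.zero_le _
      · rw [if_neg hef]
        by_cases hm : Meets e f
        · rw [hD3 e (mem_ES.1 he) f (mem_ES.1 hf) hef hm, Set.ncard_empty]
          exact Nat.zero_le _
        · rw [if_pos ⟨hef, hm⟩]
          exact hD4 e (mem_ES.1 he) f (mem_ES.1 hf) hef
    refine h1.trans ?_
    rw [← Finset.sum_product' (f := fun e f => if e ≠ f ∧ ¬ Meets e f then 1 else 0),
      ← Finset.card_filter]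
    refine (Finset.card_le_card (t := (SP G N).image (Prod.map F F)) ?_).trans
      Finset.card_image_le
    rintro ⟨e, f⟩ hef
    rw [Finset.mem_filter, Finset.mem_product] at hef
    obtain ⟨⟨he, hf⟩, hne, hm⟩ := hef
    obtain ⟨g, hg⟩ := rel_ex (mem_ES.1 he)
    obtain ⟨h, hh⟩ := rel_ex (mem_ES.1 hf)
    rw [Finset.mem_image]
    refine ⟨(g, h), ?_, ?_⟩
    · have hEN : ∀ e g, Rel G N A B e g → g ∈ EN G N := by
        rintro e g ⟨x, y, hxy, hx, rfl, _⟩
        rw [EN, Finset.mem_filter, mem_ES]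
        exact ⟨hxy, x, Sym2.mem_mk_left _ _, hx⟩
      rw [SP, Finset.mem_filter, Finset.mem_product]
      refine ⟨⟨hEN _ _ hg, hEN _ _ hh⟩, ?_, ?_⟩
      · rintro h'
        have h'' : g = h := h'
        subst h''
        exact hne (rel_inj hNA hNB hAB hg hh)
      · rintro ⟨z, hz, hz1, hz2⟩
        exact hm ⟨Sum.inl z, rel_mem hNA hNB hg hz hz1, rel_mem hNA hNB hh hz hz2⟩
    · show (F g, F h) = (e, f)
      rw [hFe _ _ hg, hFe _ _ hh]

end H29.BT
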