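import Pool.Agent.H29.BT.PDef
import Pool.Agent.H29.BT.Join

/-!
# [H29 BT SYS] the system of arcs of a sheet

Paper proof. Let `F` be the set of all edges `e = s(x,y)` of `G` with `x ∈ N`, `y ∈ A` (`x`, `y` are determined by `e`). For
`e ∈ F` let `K e` be the union of: `{c}`; the sets `ρ x'`, `x' ∈ N`; the arcs `D.arc g` of all edges `g` of `G`
with `y ∉ g`; the places of all vertices different from `y`; and the finitely many points of
`D.arc e ∩ D.arc g`, `g ≠ e`, different from `pos y`. It is closed (finite union of compact sets, roads are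
compact) and does not contain `pos y` (`Roads.pos`, `y ∉ N`; `c ∈ ρ x`; `avoid`). `midv` gives `m e`, `γ₁ e` (from `pos x`
to `m e`) and `γ₂ e` (from `m e` to `pos y`), disjoint from `K e`. For `g ≠ e`: `γ₂ e ∩ D.arc g ⊆ {pos y}`.
`c ≠ m e` (`c ∈ K e`). By `join_road` there is an arc `J e ⊆ ρ x ∪ γ₁ e` from `c` to `m e`.
`Q.pos`: `vtx v ↦ D.pos v` for `v ∈ A`, `mid e ↦ m e` for `e ∈ F`, `rt ↦ c`, all other vertices get different places far away from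
everything (outside of a disc which contains all arcs, roads and places). Injective: `m e ∈ γ₂ e` is not in `K e`; for `e ≠ e'` in
`F`: `m e ∉ D.arc e'` (`γ₂ e ∩ D.arc e' ⊆ {pos y}`, `m e ≠ pos y`); `c` is not the place of a vertex of
`A` (`Roads.pos` with `c ∈ ρ x`; if `N` or `F` is empty and `c = D.pos v` for some `v ∈ A`: hypothesis `hc`).
`Q.arc`: `D.arc g` for `g.map vtx`; `J e` for `s(rt, mid e)`; `γ₂ e` for `s(mid e, vtx y)`.
`avoid`: on `D.arc g` (`g` inside `A`, so `g ∉ F`): `m e` is not on it, `c` is not on it: hypothesis `hc`. On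
`J e ⊆ ρ x ∪ γ₁ e`: places `D.pos v`, `v ∈ A`: not on `ρ x` (`Roads.pos`), on `γ₁ e ⊆ D.arc e` only if `v = y`, but
`pos y ∉ γ₁ e` (`γ₁ ∩ γ₂ = {m}`); `m e'`, `e' ≠ e`: it is not on roads (in `K e'`) and not on
`D.arc e` . On `γ₂ e`: in `K e` there are the other places; `m e'` is not on `D.arc e`.
`fin` and the last property: two arcs not both at the root: `D.arc g`, `D.arc h`: `inter_finite`; `J e` and
`D.arc g`: `Roads.fin` (`g` has no end in `N`, `g ∉ R`) and `inter_finite`; `γ₂ e` with `D.arc g`: `⊆ {pos y}`;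
with `J e'`: `γ₂ e` is disjoint from the roads; `γ₂ e ∩ γ₁ e = {m e}`; for `e' ≠ e`
`γ₂ e ∩ γ₁ e' ⊆ {pos y}`; with `γ₂ e'`, `e' ≠ e`: `⊆ {pos y}`. All these are places of `Q`.
-/

set_option autoImplicit false

open Set

namespace H29.BT

open H29.BP

private theorem road_closed {a b : ℂ} {r : Set ℂ} (h : IsRoad a b r) : IsClosed r := by
  rcases h with ⟨_, h⟩ | h
  · rw [h]
    exact isClosed_singleton
  · exact h.isCompact.isClosed

private theorem road_left {a b : ℂ} {r : Set ℂ} (h : IsRoad a b r) : a ∈ r := by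
  rcases h with ⟨h0, h⟩ | h
  · rw [h, h0]
    exact Set.mem_singleton _
  · exact h.left_mem

private theorem road_bdd {a b : ℂ} {r : Set ℂ} (h : IsRoad a b r) : IsCompact r := by
  rcases h with ⟨_, h⟩ | h
  · rw [h]
    exact isCompact_singleton
  · exact h.isCompact

/-- the pieces for one edge -/
private theorem sys_piece {V : Type} [Finite V] {G : SimpleGraph V} (D : Drawing G) {N A : Set V}
    {R : Set (Sym2 V)} {c : ℂ} {ρ : V → Set ℂ} (hR : Roads D N R c ρ) (hNA : Disjoint N A)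
    (hc : ∀ v, v ∈ A → c ≠ D.pos v) (x y : V) (hxy : G.Adj x y) (hx : x ∈ N) (hy : y ∈ A) :
    ∃ (m : ℂ) (γ₁ γ₂ J : Set ℂ), IsArc m (D.pos y) γ₂ ∧ γ₁ ∪ γ₂ = D.arc s(x, y) ∧
      γ₁ ∩ γ₂ = {m} ∧ m ≠ D.pos y ∧ IsArc c m J ∧ J ⊆ ρ x ∪ γ₁ ∧ c ∉ γ₂ ∧
      (∀ x' ∈ N, ∀ z ∈ γ₂, z ∉ ρ x') ∧
      (∀ g ∈ G.edgeSet, g ≠ s(x, y) → ∀ z ∈ γ₂, z ∈ D.arc g → z = D.pos y) ∧
      (∀ v, D.pos v ∈ γ₂ → v = y) := by
  obtain ⟨K, hK⟩ : ∃ K : Set ℂ, K = ({c} ∪ ⋃ x' ∈ N, ρ x') ∪ (D.pos '' {v | v ≠ y} ∪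
      ⋃ g ∈ {g | g ∈ G.edgeSet ∧ g ≠ s(x, y)}, (D.arc s(x, y) ∩ D.arc g) \ {D.pos y}) := ⟨_, rfl⟩
  have hKc : IsClosed K := by
    rw [hK]
    refine (isClosed_singleton.union ?_).union (IsClosed.union ?_ ?_)
    · exact (Set.toFinite N).isClosed_biUnion fun x' hx' => road_closed (hR.road x' hx')
    · exact ((Set.toFinite _).image _).isClosed
    · refine (Set.toFinite _).isClosed_biUnion fun g hg => ?_
      refine Set.Finite.isClosed ?_
      exact (D.inter_finite _ hxy _ hg.1 hg.2.symm).subset Set.sdiff_subset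
  have hyK : D.pos y ∉ K := by
    rw [hK]
    rintro ((h | h) | (h | h))
    · exact hc y hy (Set.mem_singleton_iff.1 h).symm
    · rw [Set.mem_iUnion₂] at h
      obtain ⟨x', hx', h⟩ := h
      have h1 := hR.pos x' hx' y h
      exact Set.disjoint_left.1 hNA hx' (h1 ▸ hy)
    · obtain ⟨v, hv, h⟩ := h
      exact hv (D.pos_inj h)
    · rw [Set.mem_iUnion₂] at h
      obtain ⟨g, _, h⟩ := h
      exact h.2 rfl
  obtain ⟨m, γ₁, γ₂, _, hmy, ha1, ha2, hun, hin, hdis⟩ := midv (D.isArc x y hxy) K hKc hyK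
  have hnot : ∀ z ∈ γ₂, z ∉ K := fun z hz hz' => Set.disjoint_left.1 hdis hz hz'
  have hcK : c ∈ K := by
    rw [hK]
    exact Or.inl (Or.inl rfl)
  have hcm : c ≠ m := by
    rintro rfl
    exact hnot _ ha2.left_mem hcK
  obtain ⟨J, hJ1, hJ2⟩ := join_road (hR.road x hx) ha1 hcm
  refine ⟨m, γ₁, γ₂, J, ha2, hun, hin, hmy, hJ1, hJ2, fun h => hnot _ h hcK, ?_, ?_, ?_⟩
  · intro x' hx' z hz hz'
    refine hnot z hz ?_
    rw [hK]
    refine Or.inl (Or.inr ?_)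
    rw [Set.mem_iUnion₂]
    exact ⟨x', hx', hz'⟩
  · intro g hg hge z hz hz'
    by_contra hne
    refine hnot z hz ?_
    rw [hK]
    refine Or.inr (Or.inr ?_)
    rw [Set.mem_iUnion₂]
    refine ⟨g, ⟨hg, hge⟩, ⟨?_, hz'⟩, hne⟩
    rw [← hun]
    exact Or.inr hz
  · intro v hv
    by_contra hne
    refine hnot _ hv ?_
    rw [hK]
    exact Or.inr (Or.inl ⟨v, hne, rfl⟩)

theorem sys {V : Type} [Finite V] {G : SimpleGraph V} (D : Drawing G) {N A : Set V}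
    {R : Set (Sym2 V)} {c : ℂ} {ρ : V → Set ℂ} (hR : Roads D N R c ρ) (hNA : Disjoint N A)
    (hc : ∀ v, v ∈ A → c ≠ D.pos v)
    (hc' : ∀ g ∈ G.edgeSet, (∀ v ∈ g, v ∈ A) → g ∉ R → c ∉ D.arc g) :
    ∃ Q : Semi (SG G N A R) {e | rt ∈ e},
      (∀ v ∈ A, Q.pos (vtx v) = D.pos v) ∧
      (∀ g ∈ G.edgeSet, (∀ v ∈ g, v ∈ A) → g ∉ R → Q.arc (g.map vtx) = D.arc g) ∧
      (∀ x y, G.Adj x y → x ∈ N → y ∈ A →
        Q.arc s(rt, mid s(x, y)) ⊆ ρ x ∪ (D.arc s(x, y) \ {D.pos y})) ∧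
      ∀ x y, G.Adj x y → x ∈ N → y ∈ A → ∀ e ∈ (SG G N A R).edgeSet,
        e ≠ s(mid s(x, y), vtx y) → Q.arc s(mid s(x, y), vtx y) ∩ Q.arc e ⊆ range Q.pos := by
  classical
  choose! m γ₁ γ₂ J hp using fun x y (hxy : G.Adj x y) (hx : x ∈ N) (hy : y ∈ A) =>
    sys_piece D hR hNA hc x y hxy hx hy
  obtain ⟨Vd, hVd⟩ : ∃ Vd : V → V → Prop, ∀ x y, Vd x y ↔ (G.Adj x y ∧ x ∈ N ∧ y ∈ A) :=
    ⟨_, fun _ _ => Iff.rfl⟩
  have hP : ∀ x y, Vd x y → IsArc (m x y) (D.pos y) (γ₂ x y) ∧ γ₁ x y ∪ γ₂ x y = D.arc s(x, y) ∧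
      γ₁ x y ∩ γ₂ x y = {m x y} ∧ m x y ≠ D.pos y ∧ IsArc c (m x y) (J x y) ∧
      J x y ⊆ ρ x ∪ γ₁ x y ∧ c ∉ γ₂ x y ∧
      (∀ x' ∈ N, ∀ z ∈ γ₂ x y, z ∉ ρ x') ∧
      (∀ g ∈ G.edgeSet, g ≠ s(x, y) → ∀ z ∈ γ₂ x y, z ∈ D.arc g → z = D.pos y) ∧
      (∀ v, D.pos v ∈ γ₂ x y → v = y) := by
    intro x y h
    rw [hVd] at h
    exact hp x y h.1 h.2.1 h.2.2
  have hNA' : ∀ v, v ∈ N → v ∉ A := fun v h1 h2 => Set.disjoint_left.1 hNA h1 h2
  have huniq : ∀ x y x' y', Vd x y → Vd x' y' → s(x, y) = s(x', y') → x = x' ∧ y = y' := by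
    intro x y x' y' h h' he
    rw [Sym2.eq_iff] at he
    rcases he with he | ⟨h1, h2⟩
    · exact he
    · exfalso
      rw [hVd] at h h'
      exact hNA' x h.2.1 (h1 ▸ h'.2.2)
  have hadj : ∀ x y, Vd x y → s(x, y) ∈ G.edgeSet := fun x y h => ((hVd x y).1 h).1
  -- the properties of the middle points
  have hm2 : ∀ x y, Vd x y → m x y ∈ γ₂ x y := fun x y h => (hP x y h).1.left_mem
  have hg2 : ∀ x y, Vd x y → γ₂ x y ⊆ D.arc s(x, y) := by
    intro x y h z hz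
    rw [← (hP x y h).2.1]
    exact Or.inr hz
  have hg1 : ∀ x y, Vd x y → γ₁ x y ⊆ D.arc s(x, y) := by
    intro x y h z hz
    rw [← (hP x y h).2.1]
    exact Or.inl hz
  have hmarc : ∀ x y, Vd x y → ∀ g ∈ G.edgeSet, m x y ∈ D.arc g → g = s(x, y) := by
    intro x y h g hg hm
    by_contra hne
    exact (hP x y h).2.2.2.1 ((hP x y h).2.2.2.2.2.2.2.2.1 g hg hne _ (hm2 x y h) hm)
  have hmpos : ∀ x y, Vd x y → ∀ v, m x y ≠ D.pos v := by
    intro x y h v hv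
    have h1 := (hP x y h).2.2.2.2.2.2.2.2.2 v (hv ▸ hm2 x y h)
    exact (hP x y h).2.2.2.1 (by rw [hv, h1])
  have hmc : ∀ x y, Vd x y → m x y ≠ c := by
    intro x y h hh
    exact (hP x y h).2.2.2.2.2.2.1 (hh ▸ hm2 x y h)
  have hmroad : ∀ x y, Vd x y → ∀ x' ∈ N, m x y ∉ ρ x' := by
    intro x y h x' hx'
    exact (hP x y h).2.2.2.2.2.2.2.1 x' hx' _ (hm2 x y h)
  have hyg1 : ∀ x y, Vd x y → D.pos y ∉ γ₁ x y := by
    intro x y h hy1
    have h1 : D.pos y ∈ γ₁ x y ∩ γ₂ x y := ⟨hy1, (hP x y h).1.right_mem⟩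
    rw [(hP x y h).2.2.1] at h1
    exact (hP x y h).2.2.2.1 (Set.mem_singleton_iff.1 h1).symm
  -- places
  obtain ⟨Gd, hGd⟩ : ∃ Gd : WV V → Prop, ∀ w, Gd w ↔ ((∃ v ∈ A, w = vtx v) ∨
      (∃ x y, Vd x y ∧ w = mid s(x, y)) ∨ w = rt) := ⟨_, fun _ => Iff.rfl⟩
  obtain ⟨P, hPv, hPm, hPr⟩ : ∃ P : WV V → ℂ, (∀ v, P (vtx v) = D.pos v) ∧
      (∀ x y, Vd x y → P (mid s(x, y)) = m x y) ∧ P rt = c := by
    refine ⟨Sum.elim D.pos (Sum.elim (fun e => if h : ∃ p : V × V, Vd p.1 p.2 ∧ e = s(p.1, p.2)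
      then m h.choose.1 h.choose.2 else 0) (fun _ => c)), fun v => rfl, fun x y h => ?_, rfl⟩
    have h1 : ∃ p : V × V, Vd p.1 p.2 ∧ s(x, y) = s(p.1, p.2) := ⟨(x, y), h, rfl⟩
    show (if h : ∃ p : V × V, Vd p.1 p.2 ∧ s(x, y) = s(p.1, p.2)
      then m h.choose.1 h.choose.2 else 0) = m x y
    rw [dif_pos h1]
    obtain ⟨h2, h3⟩ := huniq _ _ _ _ h h1.choose_spec.1 h1.choose_spec.2
    rw [← h2, ← h3]
  -- a large disc
  obtain ⟨r, hr⟩ : ∃ r : ℝ, ∀ z ∈ (({c} ∪ ⋃ x' ∈ N, ρ x') ∪ ((⋃ g ∈ G.edgeSet, D.arc g) ∪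
      range D.pos) : Set ℂ), ‖z‖ ≤ r := by
    refine Bornology.IsBounded.exists_norm_le (IsCompact.isBounded ?_)
    refine (isCompact_singleton.union ?_).union (IsCompact.union ?_ ?_)
    · exact (Set.toFinite N).isCompact_biUnion fun x' hx' => road_bdd (hR.road x' hx')
    · refine (Set.toFinite G.edgeSet).isCompact_biUnion fun g hg => ?_
      induction g using Sym2.ind with
      | _ a b => exact (D.isArc a b hg).isCompact
    · exact (Set.finite_range D.pos).isCompact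
  have hrc : ‖c‖ ≤ r := hr c (Or.inl (Or.inl rfl))
  have hrρ : ∀ x' ∈ N, ∀ z ∈ ρ x', ‖z‖ ≤ r := by
    intro x' hx' z hz
    refine hr z (Or.inl (Or.inr ?_))
    rw [Set.mem_iUnion₂]
    exact ⟨x', hx', hz⟩
  have hra : ∀ g ∈ G.edgeSet, ∀ z ∈ D.arc g, ‖z‖ ≤ r := by
    intro g hg z hz
    refine hr z (Or.inr (Or.inl ?_))
    rw [Set.mem_iUnion₂]
    exact ⟨g, hg, hz⟩
  have hrp : ∀ v, ‖D.pos v‖ ≤ r := fun v => hr _ (Or.inr (Or.inr ⟨v, rfl⟩))
  obtain ⟨φ, hφ1, hφ2⟩ : ∃ φ : WV V → ℂ, Function.Injective φ ∧ ∀ w, r < ‖φ w‖ := by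
    obtain ⟨f, hf⟩ := exists_injective_nat (WV V)
    refine ⟨fun w => ((r + 1 + f w : ℝ) : ℂ), ?_, ?_⟩
    · intro w w' h
      have h1 : r + 1 + (f w : ℝ) = r + 1 + (f w' : ℝ) := Complex.ofReal_injective h
      exact hf (by exact_mod_cast add_left_cancel h1)
    · intro w
      show r < ‖((r + 1 + f w : ℝ) : ℂ)‖
      rw [Complex.norm_real]
      have h1 : (0 : ℝ) ≤ f w := Nat.cast_nonneg _
      have h2 := le_abs_self (r + 1 + (f w : ℝ))
      rw [Real.norm_eq_abs]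
      linarith
  have hPB : ∀ w, Gd w → ‖P w‖ ≤ r := by
    intro w hw
    rw [hGd] at hw
    rcases hw with ⟨v, _, rfl⟩ | ⟨x, y, h, rfl⟩ | rfl
    · rw [hPv]
      exact hrp v
    · rw [hPm x y h]
      exact hra _ (hadj x y h) _ (hg2 x y h (hm2 x y h))
    · rw [hPr]
      exact hrc
  have hPinj : ∀ w w', Gd w → Gd w' → P w = P w' → w = w' := by
    intro w w' hw hw' h
    rw [hGd] at hw hw'
    rcases hw with ⟨v, hv, rfl⟩ | ⟨x, y, hxy, rfl⟩ | rfl <;>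
      rcases hw' with ⟨v', hv', rfl⟩ | ⟨x', y', hxy', rfl⟩ | rfl
    · rw [hPv, hPv] at h
      rw [D.pos_inj h]
    · rw [hPv, hPm x' y' hxy'] at h
      exact absurd h.symm (hmpos x' y' hxy' v)
    · rw [hPv, hPr] at h
      exact absurd h.symm (hc v hv)
    · rw [hPv, hPm x y hxy] at h
      exact absurd h (hmpos x y hxy v')
    · rw [hPm x y hxy, hPm x' y' hxy'] at h
      have h1 := hmarc x y hxy s(x', y') (hadj x' y' hxy')
        (h ▸ hg2 x' y' hxy' (hm2 x' y' hxy'))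
      rw [h1]
    · rw [hPm x y hxy, hPr] at h
      exact absurd h (hmc x y hxy)
    · rw [hPv, hPr] at h
      exact absurd h (hc v' hv')
    · rw [hPm x' y' hxy', hPr] at h
      exact absurd h.symm (hmc x' y' hxy')
    · rfl
  obtain ⟨pos, hpos1, hpos2⟩ : ∃ pos : WV V → ℂ, (∀ w, Gd w → pos w = P w) ∧
      (∀ w, ¬ Gd w → pos w = φ w) :=
    ⟨fun w => if Gd w then P w else φ w, fun w h => if_pos h, fun w h => if_neg h⟩
  have hposinj : Function.Injective pos := by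
    intro w w' h
    by_cases hw : Gd w <;> by_cases hw' : Gd w'
    · rw [hpos1 w hw, hpos1 w' hw'] at h
      exact hPinj w w' hw hw' h
    · rw [hpos1 w hw, hpos2 w' hw'] at h
      have h1 := hPB w hw
      have h2 := hφ2 w'
      rw [h] at h1
      exact absurd h1 (not_le.2 h2)
    · rw [hpos2 w hw, hpos1 w' hw'] at h
      have h1 := hPB w' hw'
      have h2 := hφ2 w
      rw [← h] at h1
      exact absurd h1 (not_le.2 h2)
    · rw [hpos2 w hw, hpos2 w' hw'] at h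
      exact hφ1 h
  have hposv : ∀ v ∈ A, pos (vtx v) = D.pos v := by
    intro v hv
    rw [hpos1 _ ((hGd _).2 (Or.inl ⟨v, hv, rfl⟩)), hPv]
  have hposm : ∀ x y, Vd x y → pos (mid s(x, y)) = m x y := by
    intro x y h
    rw [hpos1 _ ((hGd _).2 (Or.inr (Or.inl ⟨x, y, h, rfl⟩))), hPm x y h]
  have hposr : pos rt = c := by
    rw [hpos1 _ ((hGd _).2 (Or.inr (Or.inr rfl))), hPr]
  -- arcs
  have hvinj : Function.Injective (vtx : V → WV V) := fun a b h => Sum.inl_injective h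
  have hminj : Function.Injective (mid : Sym2 V → WV V) := fun a b h =>
    Sum.inl_injective (Sum.inr_injective h)
  have nvm : ∀ (v : V) (e : Sym2 V), vtx v ≠ mid e := fun v e h => by simp [vtx, mid] at h
  have nvr : ∀ v : V, vtx v ≠ rt := fun v h => by simp [vtx, rt] at h
  have nmr : ∀ e : Sym2 V, mid e ≠ rt := fun e h => by simp [mid, rt] at h
  have nmapm : ∀ (g : Sym2 V) (e : Sym2 V), mid e ∉ g.map vtx := by
    intro g e h
    obtain ⟨v, _, hv⟩ := Sym2.mem_map.1 h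
    exact nvm v e hv
  have nmapr : ∀ g : Sym2 V, rt ∉ g.map vtx := by
    intro g h
    obtain ⟨v, _, hv⟩ := Sym2.mem_map.1 h
    exact nvr v hv
  obtain ⟨Q, hQ⟩ : ∃ Q : Sym2 (WV V) → Set ℂ, ∀ E z, z ∈ Q E ↔
      ((∃ g ∈ G.edgeSet, (∀ v ∈ g, v ∈ A) ∧ g ∉ R ∧ E = g.map vtx ∧ z ∈ D.arc g) ∨
      (∃ x y, Vd x y ∧ E = s(rt, mid s(x, y)) ∧ z ∈ J x y) ∨
      (∃ x y, Vd x y ∧ E = s(mid s(x, y), vtx y) ∧ z ∈ γ₂ x y)) :=
    ⟨fun E => {z | _}, fun E z => Iff.rfl⟩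
  have hQA : ∀ g ∈ G.edgeSet, (∀ v ∈ g, v ∈ A) → g ∉ R → Q (g.map vtx) = D.arc g := by
    intro g hg hgA hgR
    ext z
    rw [hQ]
    constructor
    · rintro (⟨g', _, _, _, h, hz⟩ | ⟨x, y, _, h, _⟩ | ⟨x, y, _, h, _⟩)
      · rw [Sym2.map.injective hvinj h]
        exact hz
      · exact absurd (h ▸ Sym2.mem_mk_left _ _ : rt ∈ g.map vtx) (nmapr g)
      · exact absurd (h ▸ Sym2.mem_mk_left _ _ : mid s(x, y) ∈ g.map vtx) (nmapm g _)
    · intro hz
      exact Or.inl ⟨g, hg, hgA, hgR, rfl, hz⟩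
  have hQJ : ∀ x y, Vd x y → Q s(rt, mid s(x, y)) = J x y := by
    intro x y hxy
    ext z
    rw [hQ]
    constructor
    · rintro (⟨g', _, _, _, h, _⟩ | ⟨x', y', h', h, hz⟩ | ⟨x', y', _, h, _⟩)
      · exact absurd (h ▸ Sym2.mem_mk_left _ _ : rt ∈ g'.map vtx) (nmapr g')
      · rw [Sym2.eq_iff] at h
        rcases h with ⟨_, h⟩ | ⟨h, _⟩
        · obtain ⟨h1, h2⟩ := huniq x y x' y' hxy h' (hminj h)
          rw [h1, h2]
          exact hz
        · exact absurd h.symm (nmr _)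
      · rw [Sym2.eq_iff] at h
        rcases h with ⟨h, _⟩ | ⟨h, _⟩
        · exact absurd h.symm (nmr _)
        · exact absurd h.symm (nvr _)
    · intro hz
      exact Or.inr (Or.inl ⟨x, y, hxy, rfl, hz⟩)
  have hQG : ∀ x y, Vd x y → Q s(mid s(x, y), vtx y) = γ₂ x y := by
    intro x y hxy
    ext z
    rw [hQ]
    constructor
    · rintro (⟨g', _, _, _, h, _⟩ | ⟨x', y', _, h, _⟩ | ⟨x', y', h', h, hz⟩)
      · exact absurd (h ▸ Sym2.mem_mk_left _ _ : mid s(x, y) ∈ g'.map vtx) (nmapm g' _)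
      · rw [Sym2.eq_iff] at h
        rcases h with ⟨h, _⟩ | ⟨_, h⟩
        · exact absurd h (nmr _)
        · exact absurd h (nvr _)
      · rw [Sym2.eq_iff] at h
        rcases h with ⟨h, _⟩ | ⟨h, _⟩
        · obtain ⟨h1, h2⟩ := huniq x y x' y' hxy h' (hminj h)
          rw [h1, h2]
          exact hz
        · exact absurd h.symm (nvm _ _)
    · intro hz
      exact Or.inr (Or.inr ⟨x, y, hxy, rfl, hz⟩)
  -- the edges
  have hE : ∀ E ∈ (SG G N A R).edgeSet,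
      (∃ g ∈ G.edgeSet, (∀ v ∈ g, v ∈ A) ∧ g ∉ R ∧ E = g.map vtx) ∨
      (∃ x y, Vd x y ∧ E = s(rt, mid s(x, y))) ∨
      (∃ x y, Vd x y ∧ E = s(mid s(x, y), vtx y)) := by
    have key : ∀ p q : WV V, ((∃ u v, p = vtx u ∧ q = vtx v ∧ G.Adj u v ∧ u ∈ A ∧ v ∈ A ∧
        s(u, v) ∉ R) ∨ (∃ x y, G.Adj x y ∧ x ∈ N ∧ y ∈ A ∧ p = rt ∧ q = mid s(x, y)) ∨
        (∃ x y, G.Adj x y ∧ x ∈ N ∧ y ∈ A ∧ p = mid s(x, y) ∧ q = vtx y)) →
        (∃ g ∈ G.edgeSet, (∀ v ∈ g, v ∈ A) ∧ g ∉ R ∧ s(p, q) = g.map vtx) ∨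
        (∃ x y, Vd x y ∧ s(p, q) = s(rt, mid s(x, y))) ∨
        (∃ x y, Vd x y ∧ s(p, q) = s(mid s(x, y), vtx y)) := by
      rintro p q (⟨u, v, rfl, rfl, h1, h2, h3, h4⟩ | ⟨x, y, h1, h2, h3, rfl, rfl⟩ |
        ⟨x, y, h1, h2, h3, rfl, rfl⟩)
      · refine Or.inl ⟨s(u, v), h1, ?_, h4, rfl⟩
        intro w hw
        rw [Sym2.mem_iff] at hw
        rcases hw with rfl | rfl
        · exact h2
        · exact h3
      · exact Or.inr (Or.inl ⟨x, y, (hVd x y).2 ⟨h1, h2, h3⟩, rfl⟩)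
      · exact Or.inr (Or.inr ⟨x, y, (hVd x y).2 ⟨h1, h2, h3⟩, rfl⟩)
    intro E hEe
    induction E using Sym2.ind with
    | _ p q =>
      have h1 : (SG G N A R).Adj p q := hEe
      unfold SG at h1
      rw [SimpleGraph.fromRel_adj] at h1
      rcases h1.2 with h2 | h2
      · exact key p q h2
      · have h3 := key q p h2
        rw [Sym2.eq_swap] at h3
        exact h3
  have hB : ∀ E ∈ (SG G N A R).edgeSet, ∀ z ∈ Q E, ‖z‖ ≤ r := by
    intro E hEe z hz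
    rcases hE E hEe with ⟨g, hg, h1, h2, rfl⟩ | ⟨x, y, h, rfl⟩ | ⟨x, y, h, rfl⟩
    · rw [hQA g hg h1 h2] at hz
      exact hra g hg z hz
    · rw [hQJ x y h] at hz
      rcases (hP x y h).2.2.2.2.2.1 hz with hz | hz
      · exact hrρ x ((hVd x y).1 h).2.1 z hz
      · exact hra _ (hadj x y h) z (hg1 x y h hz)
    · rw [hQG x y h] at hz
      exact hra _ (hadj x y h) z (hg2 x y h hz)
  have hav : ∀ E ∈ (SG G N A R).edgeSet, ∀ w, pos w ∈ Q E → w ∈ E := by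
    intro E hEe w hw
    have hGw : Gd w := by
      by_contra hne
      rw [hpos2 w hne] at hw
      exact absurd (hB E hEe _ hw) (not_le.2 (hφ2 w))
    rw [hpos1 w hGw] at hw
    rw [hGd] at hGw
    rcases hE E hEe with ⟨g, hg, h1, h2, rfl⟩ | ⟨x, y, h, rfl⟩ | ⟨x, y, h, rfl⟩
    · rw [hQA g hg h1 h2] at hw
      rcases hGw with ⟨v, hv, rfl⟩ | ⟨x', y', h', rfl⟩ | rfl
      · rw [hPv] at hw
        rw [Sym2.mem_map]
        refine ⟨v, ?_, rfl⟩
        induction g using Sym2.ind with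
        | _ a b =>
          rw [Sym2.mem_iff]
          exact D.avoid a b v hg hw
      · rw [hPm x' y' h'] at hw
        have h3 := hmarc x' y' h' g hg hw
        exfalso
        exact hNA' x' ((hVd _ _).1 h').2.1 (h1 x' (by rw [h3]; exact Sym2.mem_mk_left _ _))
      · rw [hPr] at hw
        exact absurd hw (hc' g hg h1 h2)
    · rw [hQJ x y h] at hw
      rcases hGw with ⟨v, hv, rfl⟩ | ⟨x', y', h', rfl⟩ | rfl
      · exfalso
        rw [hPv] at hw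
        have hxN := ((hVd x y).1 h).2.1
        rcases (hP x y h).2.2.2.2.2.1 hw with hw | hw
        · have h3 := hR.pos x hxN v hw
          exact hNA' x hxN (h3 ▸ hv)
        · rcases D.avoid x y v ((hVd x y).1 h).1 (hg1 x y h hw) with h3 | h3
          · exact hNA' x hxN (h3 ▸ hv)
          · rw [h3] at hw
            exact hyg1 x y h hw
      · rw [hPm x' y' h'] at hw
        rcases (hP x y h).2.2.2.2.2.1 hw with hw | hw
        · exact absurd hw (hmroad x' y' h' x ((hVd x y).1 h).2.1)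
        · have h3 := hmarc x' y' h' _ (hadj x y h) (hg1 x y h hw)
          rw [← h3]
          exact Sym2.mem_mk_right _ _
      · exact Sym2.mem_mk_left _ _
    · rw [hQG x y h] at hw
      rcases hGw with ⟨v, hv, rfl⟩ | ⟨x', y', h', rfl⟩ | rfl
      · rw [hPv] at hw
        rw [(hP x y h).2.2.2.2.2.2.2.2.2 v hw]
        exact Sym2.mem_mk_right _ _
      · rw [hPm x' y' h'] at hw
        have h3 := hmarc x' y' h' _ (hadj x y h) (hg2 x y h hw)
        rw [← h3]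
        exact Sym2.mem_mk_left _ _
      · rw [hPr] at hw
        exact absurd hw (hP x y h).2.2.2.2.2.2.1
  have h3 : ∀ x y, Vd x y → ∀ E ∈ (SG G N A R).edgeSet, E ≠ s(mid s(x, y), vtx y) →
      ∀ z ∈ γ₂ x y, z ∈ Q E → z = D.pos y ∨ z = m x y := by
    intro x y h E hEe hne z hz hzE
    rcases hE E hEe with ⟨g, hg, h1, h2, rfl⟩ | ⟨x', y', h', rfl⟩ | ⟨x', y', h', rfl⟩
    · rw [hQA g hg h1 h2] at hzE
      refine Or.inl ((hP x y h).2.2.2.2.2.2.2.2.1 g hg ?_ z hz hzE)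
      rintro rfl
      exact hNA' x ((hVd _ _).1 h).2.1 (h1 x (Sym2.mem_mk_left _ _))
    · rw [hQJ x' y' h'] at hzE
      rcases (hP x' y' h').2.2.2.2.2.1 hzE with hz1 | hz1
      · exact absurd hz1 ((hP x y h).2.2.2.2.2.2.2.1 x' ((hVd _ _).1 h').2.1 z hz)
      · by_cases he : s(x', y') = s(x, y)
        · obtain ⟨h4, h5⟩ := huniq _ _ _ _ h' h he
          rw [h4, h5] at hz1
          have h6 : z ∈ γ₁ x y ∩ γ₂ x y := ⟨hz1, hz⟩
          rw [(hP x y h).2.2.1] at h6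
          exact Or.inr h6
        · exact Or.inl ((hP x y h).2.2.2.2.2.2.2.2.1 _ (hadj x' y' h') he z hz
            (hg1 x' y' h' hz1))
    · rw [hQG x' y' h'] at hzE
      refine Or.inl ((hP x y h).2.2.2.2.2.2.2.2.1 _ (hadj x' y' h') ?_ z hz (hg2 x' y' h' hzE))
      intro he
      obtain ⟨h4, h5⟩ := huniq _ _ _ _ h' h he
      exact hne (by rw [h4, h5])
  have hArc : ∀ p q : WV V, ((∃ u v, p = vtx u ∧ q = vtx v ∧ G.Adj u v ∧ u ∈ A ∧ v ∈ A ∧
        s(u, v) ∉ R) ∨ (∃ x y, G.Adj x y ∧ x ∈ N ∧ y ∈ A ∧ p = rt ∧ q = mid s(x, y)) ∨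
        (∃ x y, G.Adj x y ∧ x ∈ N ∧ y ∈ A ∧ p = mid s(x, y) ∧ q = vtx y)) →
        IsArc (pos p) (pos q) (Q s(p, q)) := by
    rintro p q (⟨u, v, rfl, rfl, h1, h2, h3, h4⟩ | ⟨x, y, h1, h2, h3, rfl, rfl⟩ |
        ⟨x, y, h1, h2, h3, rfl, rfl⟩)
    · rw [hposv u h2, hposv v h3]
      have h5 : Q s(vtx u, vtx v) = D.arc s(u, v) := by
        refine hQA s(u, v) h1 ?_ h4
        intro w hw
        rw [Sym2.mem_iff] at hw
        rcases hw with rfl | rfl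
        · exact h2
        · exact h3
      rw [h5]
      exact D.isArc u v h1
    · have h : Vd x y := (hVd x y).2 ⟨h1, h2, h3⟩
      rw [hposr, hposm x y h, hQJ x y h]
      exact (hP x y h).2.2.2.2.1
    · have h : Vd x y := (hVd x y).2 ⟨h1, h2, h3⟩
      rw [hposv y h3, hposm x y h, hQG x y h]
      exact (hP x y h).1
  refine ⟨⟨pos, Q, hposinj, ?_, ?_, ?_⟩, hposv, hQA, ?_, ?_⟩
  · intro u v huv
    unfold SG at huv
    rw [SimpleGraph.fromRel_adj] at huv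
    rcases huv.2 with h | h
    · exact hArc u v h
    · have h1 := (hArc v u h).symm
      rw [Sym2.eq_swap] at h1
      exact h1
  · intro u v w huv hw
    exact Sym2.mem_iff.1 (hav s(u, v) huv w hw)
  · intro E hEe F hFe hne hnS
    have hfin2 : ∀ a b : ℂ, ({a, b} : Set ℂ).Finite := fun a b => Set.toFinite _
    rcases hE E hEe with ⟨g, hg, h1, h2, rfl⟩ | ⟨x, y, h, rfl⟩ | ⟨x, y, h, rfl⟩
    · rcases hE F hFe with ⟨g', hg', h1', h2', rfl⟩ | ⟨x', y', h', rfl⟩ | ⟨x', y', h', rfl⟩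
      · rw [hQA g hg h1 h2, hQA g' hg' h1' h2']
        exact D.inter_finite g hg g' hg' fun hh => hne (by rw [hh])
      · rw [hQA g hg h1 h2, hQJ x' y' h']
        have hxN := ((hVd _ _).1 h').2.1
        have hgn : ∀ v ∈ g, v ∉ N := fun v hv hvN => hNA' v hvN (h1 v hv)
        refine ((hR.fin x' hxN g hg hgn h2).union (D.inter_finite g hg _ (hadj x' y' h') ?_)).subset
          ?_
        · rintro rfl
          exact hgn x' (Sym2.mem_mk_left _ _) hxN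
        · rintro z ⟨hz1, hz2⟩
          rcases (hP x' y' h').2.2.2.2.2.1 hz2 with hz3 | hz3
          · exact Or.inl ⟨hz3, hz1⟩
          · exact Or.inr ⟨hz1, hg1 x' y' h' hz3⟩
      · refine (hfin2 (D.pos y') (m x' y')).subset ?_
        rintro z ⟨hz1, hz2⟩
        rw [hQG x' y' h'] at hz2
        exact h3 x' y' h' _ hEe hne z hz2 hz1
    · rcases hE F hFe with ⟨g', hg', h1', h2', rfl⟩ | ⟨x', y', h', rfl⟩ | ⟨x', y', h', rfl⟩
      · rw [hQA g' hg' h1' h2', hQJ x y h]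
        have hxN := ((hVd _ _).1 h).2.1
        have hgn : ∀ v ∈ g', v ∉ N := fun v hv hvN => hNA' v hvN (h1' v hv)
        refine ((hR.fin x hxN g' hg' hgn h2').union
          (D.inter_finite g' hg' _ (hadj x y h) ?_)).subset ?_
        · rintro rfl
          exact hgn x (Sym2.mem_mk_left _ _) hxN
        · rintro z ⟨hz2, hz1⟩
          rcases (hP x y h).2.2.2.2.2.1 hz2 with hz3 | hz3
          · exact Or.inl ⟨hz3, hz1⟩
          · exact Or.inr ⟨hz1, hg1 x y h hz3⟩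
      · exact absurd ⟨Sym2.mem_mk_left _ _, Sym2.mem_mk_left _ _⟩ hnS
      · refine (hfin2 (D.pos y') (m x' y')).subset ?_
        rintro z ⟨hz1, hz2⟩
        rw [hQG x' y' h'] at hz2
        exact h3 x' y' h' _ hEe hne z hz2 hz1
    · refine (hfin2 (D.pos y) (m x y)).subset ?_
      rintro z ⟨hz1, hz2⟩
      rw [hQG x y h] at hz1
      exact h3 x y h _ hFe hne.symm z hz1 hz2
  · intro x y h1 h2 h3' z hz
    have h : Vd x y := (hVd x y).2 ⟨h1, h2, h3'⟩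
    change z ∈ Q s(rt, mid s(x, y)) at hz
    rw [hQJ x y h] at hz
    rcases (hP x y h).2.2.2.2.2.1 hz with hz | hz
    · exact Or.inl hz
    · refine Or.inr ⟨hg1 x y h hz, ?_⟩
      intro hzy
      rw [Set.mem_singleton_iff] at hzy
      rw [hzy] at hz
      exact hyg1 x y h hz
  · intro x y h1 h2 h3' E hEe hne z hz
    have h : Vd x y := (hVd x y).2 ⟨h1, h2, h3'⟩
    change z ∈ Q s(mid s(x, y), vtx y) ∩ Q E at hz
    change z ∈ range pos
    rw [hQG x y h] at hz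
    rcases h3 x y h E hEe hne z hz.1 hz.2 with h4 | h4
    · exact ⟨vtx y, by rw [hposv y h3', h4]⟩
    · exact ⟨mid s(x, y), by rw [hposm x y h, h4]⟩

end H29.BT
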