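import Pool.Agent.H29.BP.Cnt

/-!
# Definitions for the improvement for dense graphs (H29 BT)

`V` is the vertex set of `G`, `N` the set of the special vertices, `A`, `B` the two classes of the other
vertices, `R` a set of edges which are not drawn in the first plane.
-/

set_option autoImplicit false

open Set
open scoped Classical

noncomputable section

namespace H29.BT

open H29.BP

/-- `ρ` is an arc from `c` to `p`, or a point (if `c = p`) -/
def IsRoad (c p : ℂ) (ρ : Set ℂ) : Prop := (c = p ∧ ρ = {p}) ∨ IsArc c p ρ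

/-- the vertices of the sheet graph: vertices of `G`, the middle vertices of the edges, the root -/
abbrev WV (V : Type) : Type := V ⊕ (Sym2 V ⊕ Unit)

/-- a vertex of `G` -/
def vtx {V : Type} (v : V) : WV V := Sum.inl v

/-- the middle vertex of an edge -/
def mid {V : Type} (e : Sym2 V) : WV V := Sum.inr (Sum.inl e)

/-- the root -/
def rt {V : Type} : WV V := Sum.inr (Sum.inr ())

variable {V : Type}

/-- the sheet graph: the edges of `G` inside `A` which are not in `R`, and for every edge `xy` of `G`,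
`x ∈ N`, `y ∈ A`, a path root, middle vertex, `y` -/
def SG (G : SimpleGraph V) (N A : Set V) (R : Set (Sym2 V)) : SimpleGraph (WV V) :=
  SimpleGraph.fromRel fun p q =>
    (∃ u v, p = vtx u ∧ q = vtx v ∧ G.Adj u v ∧ u ∈ A ∧ v ∈ A ∧ s(u, v) ∉ R) ∨
    (∃ x y, G.Adj x y ∧ x ∈ N ∧ y ∈ A ∧ p = rt ∧ q = mid s(x, y)) ∨
    (∃ x y, G.Adj x y ∧ x ∈ N ∧ y ∈ A ∧ p = mid s(x, y) ∧ q = vtx y)

/-- the graph of the first plane -/
def L1 (G : SimpleGraph V) (N A B : Set V) (R : Set (Sym2 V)) : SimpleGraph V :=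
  SimpleGraph.fromRel fun u v =>
    G.Adj u v ∧ (u ∈ N ∨ (u ∈ A ∧ v ∈ A ∧ s(u, v) ∉ R) ∨ (u ∈ B ∧ v ∈ B ∧ s(u, v) ∉ R))

/-- the graph `H` cut at the vertex `r`: every neighbour `m` of `r` gets its own copy `inr m` of `r` -/
def HP {W : Type} (H : SimpleGraph W) (r : W) : SimpleGraph (W ⊕ W) :=
  SimpleGraph.fromRel fun p q =>
    (∃ u v, p = Sum.inl u ∧ q = Sum.inl v ∧ H.Adj u v ∧ u ≠ r ∧ v ≠ r) ∨
    (∃ m, p = Sum.inr m ∧ q = Sum.inl m ∧ H.Adj r m)

/-- the map which identifies the copies of `r` with `r` -/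
def fold {W : Type} (r : W) : W ⊕ W → W := Sum.elim id fun _ => r

/-- the edges with an end in `N` -/
def EN [Finite V] (G : SimpleGraph V) (N : Set V) : Finset (Sym2 V) :=
  (ES G).filter fun e => ∃ x ∈ e, x ∈ N

/-- the edges with an end in `N` and an end in `A` -/
def ENA [Finite V] (G : SimpleGraph V) (N A : Set V) : Finset (Sym2 V) :=
  (ES G).filter fun e => (∃ x ∈ e, x ∈ N) ∧ ∃ y ∈ e, y ∈ A

/-- the edges inside `A` which are not in `R` -/
def OA [Finite V] (G : SimpleGraph V) (A : Set V) (R : Set (Sym2 V)) : Finset (Sym2 V) :=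
  (ES G).filter fun e => (∀ v ∈ e, v ∈ A) ∧ e ∉ R

/-- the pairs of different edges which have ends in `N`, but no common end in `N` -/
def SP [Finite V] (G : SimpleGraph V) (N : Set V) : Finset (Sym2 V × Sym2 V) :=
  (EN G N ×ˢ EN G N).filter fun p => p.1 ≠ p.2 ∧ ¬ ∃ x ∈ N, x ∈ p.1 ∧ x ∈ p.2

/-- the roads from the point `c` to the places of the vertices in `N` -/
structure Roads {G : SimpleGraph V} (D : Drawing G) (N : Set V) (R : Set (Sym2 V)) (c : ℂ)
    (ρ : V → Set ℂ) : Prop where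
  road : ∀ x ∈ N, IsRoad c (D.pos x) (ρ x)
  pos : ∀ x ∈ N, ∀ v, D.pos v ∈ ρ x → v = x
  fin : ∀ x ∈ N, ∀ g ∈ G.edgeSet, (∀ v ∈ g, v ∉ N) → g ∉ R → (ρ x ∩ D.arc g).Finite

end H29.BT
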