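import Pool.Agent.H29.BT.Glue
import Pool.Agent.H29.BT.CostA
import Pool.Agent.H29.BP.Pol

/-!
# [H29 BT TOP] the cost of a vertex partition

`s : V → ℤˣ`; classes `A = {v ∉ N, s v = 1}`, `B = {v ∉ N, s v = -1}`. First plane: `L1 G N A B R`. Second plane: the
rest `G \ L1`, drawn as in `D`.

Paper proof. `2 * CR2 G ≤ 2 * CR (L1 …) + 2 * CR (G \ L1 …)` (`Nat.sInf_le`). `2 * CR (G \ L1 …) ≤ ∑ e ∈ ES (G \ L1 …),
∑ f ∈ ES (G \ L1 …), D.x e f` (`piece` with `c = 0`). `glue` and `cost_sheet` for `A` and for `B`. Let `O = OA G Nᶜ R`,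
`R' = OR G N R`. The edges of `G \ L1` are the elements of `R'` and the `g ∈ O` with two end points of different signs. Then
* the pairs `g, h ∈ O`: those inside `A`, inside `B`, and those in the second plane have together the sum
  `∑ g ∈ O, ∑ h ∈ O, D.x g h * cost s g h` (`cost s g h = 1` if all four ends have the same sign or both edges have ends of
  different signs, `0` otherwise; see `BP/Pol.lean`; for `Sym2.ind` use 16 cases);
* the terms `T` are at most `2 * (EN G N).card * T` (`ENA G N A`, `ENA G N B` are disjoint subsets of `EN G N`);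
* the terms `2 * D.x e g`, `e ∈ ENA G N A`, `g ∈ OA G A R` (the same with `B`): `e` has an end `y ∉ N` such that all ends of
  `g` have the sign of `y`; for given `e`, `g` at most one of the two classes contributes;
* the pairs of the second plane with at least one edge in `R'` give the last two sums.
-/

set_option autoImplicit false

open Set
open scoped Classical

noncomputable section

namespace H29.BT

open H29.BP

/-- the edges in `R` without ends in `N` -/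
def OR {V : Type} [Finite V] (G : SimpleGraph V) (N : Set V) (R : Set (Sym2 V)) :
    Finset (Sym2 V) :=
  (ES G).filter fun e => (∀ v ∈ e, v ∉ N) ∧ e ∈ R

private theorem cost_ind {V : Type} (s : V → ℤˣ) (g h : Sym2 V) :
    ((if (∀ v ∈ g, s v = 1) ∧ (∀ v ∈ h, s v = 1) then (1 : ℝ) else 0) +
      (if (∀ v ∈ g, s v = -1) ∧ (∀ v ∈ h, s v = -1) then (1 : ℝ) else 0) +
      (if (∃ a ∈ g, ∃ b ∈ g, s a ≠ s b) ∧ (∃ a ∈ h, ∃ b ∈ h, s a ≠ s b) then (1 : ℝ) else 0)) =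
      cost s g h := by
  induction g using Sym2.ind with
  | _ x y =>
    induction h using Sym2.ind with
    | _ z w =>
      have hf : ∀ (a b : V) (ε : ℤˣ), (∀ v ∈ s(a, b), s v = ε) ↔ (s a = ε ∧ s b = ε) := by
        intro a b ε
        constructor
        · intro h
          exact ⟨h a (by simp), h b (by simp)⟩
        · rintro ⟨h1, h2⟩ v hv
          rw [Sym2.mem_iff] at hv
          rcases hv with rfl | rfl
          · exact h1
          · exact h2
      have hc : ∀ (a b : V), (∃ u ∈ s(a, b), ∃ v ∈ s(a, b), s u ≠ s v) ↔ s a ≠ s b := by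
        intro a b
        constructor
        · rintro ⟨u, hu, v, hv, huv⟩
          rw [Sym2.mem_iff] at hu hv
          rcases hu with rfl | rfl <;> rcases hv with rfl | rfl
          · exact absurd rfl huv
          · exact huv
          · exact huv.symm
          · exact absurd rfl huv
        · intro h
          exact ⟨a, by simp, b, by simp, h⟩
      rw [cost_mk']
      simp only [hf, hc]
      unfold sg
      rcases Int.units_eq_one_or (s x) with ha | ha <;>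
        rcases Int.units_eq_one_or (s y) with hb | hb <;>
        rcases Int.units_eq_one_or (s z) with hc | hc <;>
        rcases Int.units_eq_one_or (s w) with hd | hd <;>
        rw [ha, hb, hc, hd] <;> norm_num

/-- the edges of the second plane -/
private theorem mem_second {V : Type} [Finite V] (G : SimpleGraph V) (N : Set V) (R : Set (Sym2 V))
    (s : V → ℤˣ) (e : Sym2 V) :
    e ∈ ES (G \ L1 G N {v | v ∉ N ∧ s v = 1} {v | v ∉ N ∧ s v = -1} R) ↔
      e ∈ OR G N R ∨ e ∈ (OA G Nᶜ R).filter (fun g => ∃ a ∈ g, ∃ b ∈ g, s a ≠ s b) := by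
  induction e using Sym2.ind with
  | _ x y =>
    rw [mem_ES, SimpleGraph.mem_edgeSet, SimpleGraph.sdiff_adj]
    unfold OR OA L1
    rw [Finset.mem_filter, Finset.mem_filter, Finset.mem_filter, mem_ES, SimpleGraph.mem_edgeSet,
      SimpleGraph.fromRel_adj]
    have hf : ∀ P : V → Prop, (∀ v ∈ s(x, y), P v) ↔ (P x ∧ P y) := by
      intro P
      constructor
      · intro h
        exact ⟨h x (by simp), h y (by simp)⟩
      · rintro ⟨h1, h2⟩ v hv
        rw [Sym2.mem_iff] at hv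
        rcases hv with rfl | rfl
        · exact h1
        · exact h2
    have hc : (∃ u ∈ s(x, y), ∃ v ∈ s(x, y), s u ≠ s v) ↔ s x ≠ s y := by
      constructor
      · rintro ⟨u, hu, v, hv, huv⟩
        rw [Sym2.mem_iff] at hu hv
        rcases hu with rfl | rfl <;> rcases hv with rfl | rfl
        · exact absurd rfl huv
        · exact huv
        · exact huv.symm
        · exact absurd rfl huv
      · intro h
        exact ⟨x, by simp, y, by simp, h⟩
    rw [hf (fun v => v ∉ N), hf (fun v => v ∈ Nᶜ), hc]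
    simp only [Set.mem_setOf_eq, Set.mem_compl_iff]
    have hsw : s(y, x) = s(x, y) := Sym2.eq_swap
    rw [hsw]
    constructor
    · rintro ⟨h1, h2⟩
      have h3 : x ≠ y := h1.ne
      have hx : x ∉ N := fun h => h2 ⟨h3, Or.inl ⟨h1, Or.inl h⟩⟩
      have hy : y ∉ N := fun h => h2 ⟨h3, Or.inr ⟨h1.symm, Or.inl h⟩⟩
      by_cases hR : s(x, y) ∈ R
      · exact Or.inl ⟨h1, ⟨hx, hy⟩, hR⟩
      · refine Or.inr ⟨⟨h1, ⟨hx, hy⟩, hR⟩, fun hxy => ?_⟩
        rcases Int.units_eq_one_or (s x) with ha | ha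
        · exact h2 ⟨h3, Or.inl ⟨h1, Or.inr (Or.inl ⟨⟨hx, ha⟩, ⟨hy, hxy ▸ ha⟩, hR⟩)⟩⟩
        · exact h2 ⟨h3, Or.inl ⟨h1, Or.inr (Or.inr ⟨⟨hx, ha⟩, ⟨hy, hxy ▸ ha⟩, hR⟩)⟩⟩
    · rintro (⟨h1, ⟨hx, hy⟩, hR⟩ | ⟨⟨h1, ⟨hx, hy⟩, hR⟩, hne⟩)
      · refine ⟨h1, ?_⟩
        rintro ⟨_, (⟨_, (h | ⟨_, _, h⟩ | ⟨_, _, h⟩)⟩ | ⟨_, (h | ⟨_, _, h⟩ | ⟨_, _, h⟩)⟩)⟩
        · exact hx h
        · exact h hR
        · exact h hR
        · exact hy h
        · exact h hR
        · exact h hR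
      · refine ⟨h1, ?_⟩
        rintro ⟨_, (⟨_, (h | ⟨h4, h5, _⟩ | ⟨h4, h5, _⟩)⟩ | ⟨_, (h | ⟨h4, h5, _⟩ | ⟨h4, h5, _⟩)⟩)⟩
        · exact hx h
        · exact hne (h4.2.trans h5.2.symm)
        · exact hne (h4.2.trans h5.2.symm)
        · exact hy h
        · exact hne (h5.2.trans h4.2.symm)
        · exact hne (h5.2.trans h4.2.symm)

private theorem oa_eq {V : Type} [Finite V] (G : SimpleGraph V) (N : Set V) (R : Set (Sym2 V))
    (s : V → ℤˣ) (ε : ℤˣ) :
    OA G {v | v ∉ N ∧ s v = ε} R = (OA G Nᶜ R).filter (fun g => ∀ v ∈ g, s v = ε) := by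
  ext g
  unfold OA
  rw [Finset.mem_filter, Finset.mem_filter, Finset.mem_filter]
  constructor
  · rintro ⟨h1, h2, h3⟩
    exact ⟨⟨h1, fun v hv => (h2 v hv).1, h3⟩, fun v hv => (h2 v hv).2⟩
  · rintro ⟨⟨h1, h2, h3⟩, h4⟩
    exact ⟨h1, fun v hv => ⟨h2 v hv, h4 v hv⟩, h3⟩

private theorem sum_sq {α : Type} (O : Finset α) (P : α → Prop) (f : α → α → ℝ) :
    ∑ g ∈ O.filter P, ∑ h ∈ O.filter P, f g h =
      ∑ g ∈ O, ∑ h ∈ O, f g h * (if P g ∧ P h then 1 else 0) := by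
  rw [Finset.sum_filter]
  refine Finset.sum_congr rfl fun g _ => ?_
  by_cases hg : P g
  · rw [if_pos hg, Finset.sum_filter]
    refine Finset.sum_congr rfl fun h _ => ?_
    by_cases hh : P h
    · rw [if_pos hh, if_pos ⟨hg, hh⟩, mul_one]
    · rw [if_neg hh, if_neg (fun h' => hh h'.2), mul_zero]
  · rw [if_neg hg]
    refine (Finset.sum_eq_zero fun h _ => ?_).symm
    rw [if_neg (fun h' => hg h'.1), mul_zero]

theorem top_bound {V : Type} [Finite V] {G : SimpleGraph V} (D : Drawing G) {N : Set V}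
    {R : Set (Sym2 V)} {c : ℂ} {ρ : V → Set ℂ} (hR : Roads D N R c ρ)
    (hc : ∀ v, v ∉ N → c ≠ D.pos v)
    (hc' : ∀ g ∈ G.edgeSet, (∀ v ∈ g, v ∉ N) → g ∉ R → c ∉ D.arc g) (T : ℕ)
    (hT : ∀ x ∈ N, ∑ g ∈ OA G Nᶜ R, (ρ x ∩ D.arc g).ncard ≤ T) (s : V → ℤˣ) :
    2 * (CR2 G : ℝ) ≤
      (∑ g ∈ OA G Nᶜ R, ∑ h ∈ OA G Nᶜ R, (D.x g h : ℝ) * cost s g h) +
      2 * (EN G N).card * T +
      2 * (∑ e ∈ EN G N, ∑ g ∈ OA G Nᶜ R, (D.x e g : ℝ) *
        (if ∃ y ∈ e, y ∉ N ∧ ∀ v ∈ g, s v = s y then 1 else 0)) +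
      (SP G N).card +
      2 * (∑ f ∈ OR G N R, ∑ g ∈ OA G Nᶜ R, (D.x f g : ℝ) *
        (if ∃ a ∈ g, ∃ b ∈ g, s a ≠ s b then 1 else 0)) +
      ∑ f ∈ OR G N R, ∑ f' ∈ OR G N R, (D.x f f' : ℝ) := by
  obtain ⟨A, hA⟩ : ∃ A : Set V, A = {v | v ∉ N ∧ s v = 1} := ⟨_, rfl⟩
  obtain ⟨B, hB⟩ : ∃ B : Set V, B = {v | v ∉ N ∧ s v = -1} := ⟨_, rfl⟩
  have hNA : Disjoint N A := by
    rw [Set.disjoint_left, hA]
    intro v h1 h2
    exact h2.1 h1
  have hNB : Disjoint N B := by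
    rw [Set.disjoint_left, hB]
    intro v h1 h2
    exact h2.1 h1
  have hAB : Disjoint A B := by
    rw [Set.disjoint_left, hA, hB]
    intro v h1 h2
    have h3 := h1.2
    rw [h2.2] at h3
    exact absurd h3 (by decide)
  have hcov : ∀ v, v ∈ N ∨ v ∈ A ∨ v ∈ B := by
    intro v
    by_cases hv : v ∈ N
    · exact Or.inl hv
    · rcases Int.units_eq_one_or (s v) with h | h
      · exact Or.inr (Or.inl (by rw [hA]; exact ⟨hv, h⟩))
      · exact Or.inr (Or.inr (by rw [hB]; exact ⟨hv, h⟩))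
  obtain ⟨L, hL⟩ : ∃ L : SimpleGraph V, L = L1 G N A B R := ⟨_, rfl⟩
  have hLG : L ≤ G := by
    rw [hL]
    intro u v huv
    unfold L1 at huv
    rw [SimpleGraph.fromRel_adj] at huv
    rcases huv.2 with h | h
    · exact h.1
    · exact h.1.symm
  have h1 : CR2 G ≤ CR L + CR (G \ L) :=
    Nat.sInf_le ⟨L, G \ L, disjoint_sdiff_self_right, sup_sdiff_cancel_right hLG, rfl⟩
  have h2 := glue G N A B R hNA hNB hAB hcov
  rw [← hL] at h2
  have h3 := cost_sheet D hR hNA (fun v hv => hc v (by rw [hA] at hv; exact hv.1))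
    (fun g hg hgA hgR => hc' g hg (fun v hv => by
      have := hgA v hv
      rw [hA] at this
      exact this.1) hgR) T hT
  have h4 := cost_sheet D hR hNB (fun v hv => hc v (by rw [hB] at hv; exact hv.1))
    (fun g hg hgB hgR => hc' g hg (fun v hv => by
      have := hgB v hv
      rw [hB] at this
      exact this.1) hgR) T hT
  obtain ⟨D', hD'⟩ := piece D (G \ L) sdiff_le (fun _ => 0) (fun _ _ _ => rfl)
  have h5 : 2 * CR (G \ L) ≤ ∑ e ∈ ES (G \ L), ∑ f ∈ ES (G \ L), D.x e f := by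
    have h6 : CR (G \ L) ≤ D'.cr := Nat.sInf_le ⟨D', rfl⟩
    refine (Nat.mul_le_mul_left 2 h6).trans (hD'.trans ?_)
    refine Finset.sum_le_sum fun e _ => Finset.sum_le_sum fun f _ => ?_
    split_ifs
    · exact le_rfl
    · exact Nat.zero_le _
  -- the sets of edges
  obtain ⟨O, hO⟩ : ∃ O : Finset (Sym2 V), O = OA G Nᶜ R := ⟨_, rfl⟩
  have hOA : OA G A R = O.filter (fun g => ∀ v ∈ g, s v = 1) := by
    rw [hA, hO]
    exact oa_eq G N R s 1
  have hOB : OA G B R = O.filter (fun g => ∀ v ∈ g, s v = -1) := by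
    rw [hB, hO]
    exact oa_eq G N R s (-1)
  have hES : ES (G \ L) = OR G N R ∪ O.filter (fun g => ∃ a ∈ g, ∃ b ∈ g, s a ≠ s b) := by
    ext e
    rw [Finset.mem_union, hL, hA, hB, hO]
    exact mem_second G N R s e
  have hdis : Disjoint (OR G N R) (O.filter (fun g => ∃ a ∈ g, ∃ b ∈ g, s a ≠ s b)) := by
    rw [Finset.disjoint_left]
    intro e he he'
    rw [hO] at he'
    unfold OR at he
    unfold OA at he'
    rw [Finset.mem_filter] at he he'
    rw [Finset.mem_filter] at he'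
    exact he'.1.2.2 he.2.2
  have hsecond : ((∑ e ∈ ES (G \ L), ∑ f ∈ ES (G \ L), D.x e f : ℕ) : ℝ) =
      (∑ f ∈ OR G N R, ∑ f' ∈ OR G N R, (D.x f f' : ℝ)) +
      2 * (∑ f ∈ OR G N R, ∑ g ∈ O, (D.x f g : ℝ) *
        (if ∃ a ∈ g, ∃ b ∈ g, s a ≠ s b then 1 else 0)) +
      ∑ g ∈ O, ∑ h ∈ O, (D.x g h : ℝ) * (if (∃ a ∈ g, ∃ b ∈ g, s a ≠ s b) ∧
        (∃ a ∈ h, ∃ b ∈ h, s a ≠ s b) then 1 else 0) := by
    push_cast
    rw [hES]
    simp only [Finset.sum_union hdis, Finset.sum_add_distrib]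
    rw [sum_sq O (fun g => ∃ a ∈ g, ∃ b ∈ g, s a ≠ s b) (fun g h => (D.x g h : ℝ))]
    have h6 : ∑ f ∈ OR G N R, ∑ g ∈ O.filter (fun g => ∃ a ∈ g, ∃ b ∈ g, s a ≠ s b),
        (D.x f g : ℝ) = ∑ f ∈ OR G N R, ∑ g ∈ O, (D.x f g : ℝ) *
        (if ∃ a ∈ g, ∃ b ∈ g, s a ≠ s b then 1 else 0) := by
      refine Finset.sum_congr rfl fun f _ => ?_
      rw [Finset.sum_filter]
      refine Finset.sum_congr rfl fun g _ => ?_
      split_ifs
      · rw [mul_one]
      · rw [mul_zero]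
    have h7 : ∑ g ∈ O.filter (fun g => ∃ a ∈ g, ∃ b ∈ g, s a ≠ s b), ∑ f ∈ OR G N R,
        (D.x g f : ℝ) = ∑ f ∈ OR G N R, ∑ g ∈ O, (D.x f g : ℝ) *
        (if ∃ a ∈ g, ∃ b ∈ g, s a ≠ s b then 1 else 0) := by
      rw [Finset.sum_comm, ← h6]
      refine Finset.sum_congr rfl fun f _ => Finset.sum_congr rfl fun g _ => ?_
      rw [D.x_comm]
    rw [h6, h7]
    ring
  have hpairs : ((∑ g ∈ OA G A R, ∑ h ∈ OA G A R, D.x g h : ℕ) : ℝ) +
      ((∑ g ∈ OA G B R, ∑ h ∈ OA G B R, D.x g h : ℕ) : ℝ) +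
      (∑ g ∈ O, ∑ h ∈ O, (D.x g h : ℝ) * (if (∃ a ∈ g, ∃ b ∈ g, s a ≠ s b) ∧
        (∃ a ∈ h, ∃ b ∈ h, s a ≠ s b) then 1 else 0)) =
      ∑ g ∈ O, ∑ h ∈ O, (D.x g h : ℝ) * cost s g h := by
    push_cast
    rw [hOA, hOB, sum_sq O (fun g => ∀ v ∈ g, s v = 1) (fun g h => (D.x g h : ℝ)),
      sum_sq O (fun g => ∀ v ∈ g, s v = -1) (fun g h => (D.x g h : ℝ)),
      ← Finset.sum_add_distrib, ← Finset.sum_add_distrib]
    refine Finset.sum_congr rfl fun g _ => ?_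
    rw [← Finset.sum_add_distrib, ← Finset.sum_add_distrib]
    refine Finset.sum_congr rfl fun h _ => ?_
    rw [← mul_add, ← mul_add, cost_ind]
  have hdE : Disjoint (ENA G N A) (ENA G N B) := by
    rw [Finset.disjoint_left]
    intro e he he'
    unfold ENA at he he'
    rw [Finset.mem_filter] at he he'
    obtain ⟨_, ⟨x, hx, hxN⟩, y, hy, hyA⟩ := he
    obtain ⟨_, _, y', hy', hyB⟩ := he'
    have hxy : x ≠ y := fun h => Set.disjoint_left.mp hNA hxN (h ▸ hyA)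
    have he2 : e = s(x, y) := ((Sym2.mem_and_mem_iff hxy).1 ⟨hx, hy⟩)
    rw [he2, Sym2.mem_iff] at hy'
    rcases hy' with h | h
    · exact Set.disjoint_left.mp hNB hxN (h ▸ hyB)
    · exact Set.disjoint_left.mp hAB hyA (h ▸ hyB)
  have hsub : ENA G N A ∪ ENA G N B ⊆ EN G N := by
    intro e he
    unfold ENA at he
    unfold EN
    rw [Finset.mem_union, Finset.mem_filter, Finset.mem_filter] at he
    rw [Finset.mem_filter]
    rcases he with he | he
    · exact ⟨he.1, he.2.1⟩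
    · exact ⟨he.1, he.2.1⟩
  have hcard : ((ENA G N A).card : ℝ) + (ENA G N B).card ≤ (EN G N).card := by
    have h6 := Finset.card_le_card hsub
    rw [Finset.card_union_of_disjoint hdE] at h6
    exact_mod_cast h6
  have hmix : ∀ (E : Set V) (ε : ℤˣ), (∀ y ∈ E, y ∉ N ∧ s y = ε) →
      OA G E R = O.filter (fun g => ∀ v ∈ g, s v = ε) →
      ∑ e ∈ ENA G N E, ∑ g ∈ OA G E R, (D.x e g : ℝ) ≤
        ∑ e ∈ ENA G N E, ∑ g ∈ O, (D.x e g : ℝ) *
          (if ∃ y ∈ e, y ∉ N ∧ ∀ v ∈ g, s v = s y then 1 else 0) := by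
    intro E ε hE hOE
    rw [hOE]
    refine Finset.sum_le_sum fun e he => ?_
    unfold ENA at he
    rw [Finset.mem_filter] at he
    obtain ⟨_, _, y, hy, hyE⟩ := he
    obtain ⟨hyN, hys⟩ := hE y hyE
    rw [Finset.sum_filter]
    refine Finset.sum_le_sum fun g _ => ?_
    by_cases hg : ∀ v ∈ g, s v = ε
    · rw [if_pos hg, if_pos ⟨y, hy, hyN, fun v hv => (hg v hv).trans hys.symm⟩, mul_one]
    · rw [if_neg hg]
      split_ifs
      · rw [mul_one]
        exact Nat.cast_nonneg _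
      · rw [mul_zero]
  have hmA := hmix A 1 (fun y hy => by rw [hA] at hy; exact hy) hOA
  have hmB := hmix B (-1) (fun y hy => by rw [hB] at hy; exact hy) hOB
  have hmAB : ∑ e ∈ ENA G N A, ∑ g ∈ OA G A R, (D.x e g : ℝ) +
      ∑ e ∈ ENA G N B, ∑ g ∈ OA G B R, (D.x e g : ℝ) ≤
      ∑ e ∈ EN G N, ∑ g ∈ O, (D.x e g : ℝ) *
          (if ∃ y ∈ e, y ∉ N ∧ ∀ v ∈ g, s v = s y then 1 else 0) := by
    refine (add_le_add hmA hmB).trans ?_
    rw [← Finset.sum_union hdE]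
    refine Finset.sum_le_sum_of_subset_of_nonneg hsub fun e _ _ =>
      Finset.sum_nonneg fun g _ => ?_
    split_ifs
    · rw [mul_one]
      exact Nat.cast_nonneg _
    · rw [mul_zero]
  have h3' : (2 * CR (SG G N A R) : ℝ) ≤ ((∑ g ∈ OA G A R, ∑ h ∈ OA G A R, D.x g h : ℕ) : ℝ) +
      2 * (((ENA G N A).card : ℝ) * T + ∑ e ∈ ENA G N A, ∑ g ∈ OA G A R, (D.x e g : ℝ)) := by
    have h6 : ((2 * CR (SG G N A R) : ℕ) : ℝ) ≤
      (((∑ g ∈ OA G A R, ∑ h ∈ OA G A R, D.x g h) +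
      2 * ∑ e ∈ ENA G N A, (T + ∑ g ∈ OA G A R, D.x e g) : ℕ) : ℝ) := by exact_mod_cast h3
    push_cast at h6
    push_cast
    rw [Finset.sum_add_distrib, Finset.sum_const, nsmul_eq_mul] at h6
    exact h6
  have h4' : (2 * CR (SG G N B R) : ℝ) ≤ ((∑ g ∈ OA G B R, ∑ h ∈ OA G B R, D.x g h : ℕ) : ℝ) +
      2 * (((ENA G N B).card : ℝ) * T + ∑ e ∈ ENA G N B, ∑ g ∈ OA G B R, (D.x e g : ℝ)) := by
    have h6 : ((2 * CR (SG G N B R) : ℕ) : ℝ) ≤
      (((∑ g ∈ OA G B R, ∑ h ∈ OA G B R, D.x g h) +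
      2 * ∑ e ∈ ENA G N B, (T + ∑ g ∈ OA G B R, D.x e g) : ℕ) : ℝ) := by exact_mod_cast h4
    push_cast at h6
    push_cast
    rw [Finset.sum_add_distrib, Finset.sum_const, nsmul_eq_mul] at h6
    exact h6
  have h1' : (2 * (CR2 G : ℝ)) ≤ 2 * (CR L : ℝ) + 2 * (CR (G \ L) : ℝ) := by
    have h6 : (CR2 G : ℝ) ≤ (CR L : ℝ) + (CR (G \ L) : ℝ) := by exact_mod_cast h1
    linarith
  have h2' : (2 * (CR L : ℝ)) ≤ 2 * (CR (SG G N A R) : ℝ) + 2 * (CR (SG G N B R) : ℝ) +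
      (SP G N).card := by exact_mod_cast h2
  have h5' : (2 * (CR (G \ L) : ℝ)) ≤
      ((∑ e ∈ ES (G \ L), ∑ f ∈ ES (G \ L), D.x e f : ℕ) : ℝ) := by exact_mod_cast h5
  have hT0 : (0 : ℝ) ≤ T := Nat.cast_nonneg _
  have hTc : ((ENA G N A).card : ℝ) * T + (ENA G N B).card * T ≤ (EN G N).card * T := by
    rw [← add_mul]
    exact mul_le_mul_of_nonneg_right hcard hT0
  rw [hsecond] at h5'
  rw [← hO]
  rw [← hpairs]
  linarith

end H29.BT
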